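import Pool.Agent.Helper93.AO.DefsL

/-!
# AO-STEK: Steklov averages of a `C²` function

`G p t = 4^p ∫_0^(4^(-p)) H₀ (t + s) ds`: of class `C³` with `G' = 4^p (H₀ (t + 4^(-p)) - H₀ t)`, so `G'' = 4^p (H₀' (t + 4^(-p)) - H₀' t)`, `G''' = 4^p (H₀'' (t + 4^(-p)) - H₀'' t)`; `G`, `G'`, `G''` are averages of `H₀`, `H₀'`, `H₀''`
(intervalIntegral: derivative of a parameter integral, or the fundamental theorem), so `rho (G p)` is the average of `rho H₀`: bounded by `sup |rho H₀|`, and uniformly close to it (`rho H₀` is continuous and periodic, hence uniformly continuous);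
`|G - H₀| ≤ 4^(-p) sup |H₀'|`. `K` = a bound for `|H₀|, |H₀'|, |H₀''|`, times `4`.
-/

open MeasureTheory Real Set Filter Topology

set_option autoImplicit false

namespace Pool.Agent.Helper93.AO

open Pool.Agent.Helper22.AE (rho)

private lemma per_min79 {f : ℝ → ℝ} (hf : Continuous f) (hp : Function.Periodic f (2 * π)) :
    ∃ x₀, ∀ x, f x₀ ≤ f x := by
  obtain ⟨x₀, -, h⟩ := (isCompact_Icc : IsCompact (Icc (0 : ℝ) (2 * π))).exists_isMinOn
    ⟨0, left_mem_Icc.2 (by positivity)⟩ hf.continuousOn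
  refine ⟨x₀, fun x => ?_⟩
  obtain ⟨y, hy, e⟩ := hp.exists_mem_Ico₀ (by positivity) x
  rw [e]
  exact h (Ico_subset_Icc_self hy)

private lemma per_bdd79 {f : ℝ → ℝ} (hf : Continuous f) (hp : Function.Periodic f (2 * π)) :
    ∃ A : ℝ, 0 ≤ A ∧ ∀ x, |f x| ≤ A := by
  have hp' : Function.Periodic (fun x => -|f x|) (2 * π) := fun x => by
    show -|f (x + 2 * π)| = -|f x|
    rw [hp x]
  obtain ⟨x₀, h⟩ := per_min79 (f := fun x => -|f x|) (by fun_prop) hp'
  exact ⟨|f x₀|, abs_nonneg _, fun x => by have := h x; linarith⟩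

private lemma per_deriv79 {f : ℝ → ℝ} {c : ℝ} (hp : Function.Periodic f c) :
    Function.Periodic (deriv f) c := by
  intro x
  have h : (fun y => f (y + c)) = f := funext fun y => hp y
  have h2 := deriv_comp_add_const f c x
  rw [h] at h2
  exact h2.symm

private lemma per_uc79 {f : ℝ → ℝ} (hf : Continuous f) (hp : Function.Periodic f (2 * π)) {ε : ℝ} (hε : 0 < ε) :
    ∃ δ : ℝ, 0 < δ ∧ ∀ x y, |x - y| < δ → |f x - f y| < ε := by
  have hc : UniformContinuousOn f (Icc (-(2 * π)) (2 * (2 * π))) :=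
    isCompact_Icc.uniformContinuousOn_of_continuous hf.continuousOn
  rw [Metric.uniformContinuousOn_iff] at hc
  obtain ⟨δ, hδ, h⟩ := hc ε hε
  refine ⟨min δ (2 * π), lt_min hδ (by positivity), fun x y hxy => ?_⟩
  have h1 := lt_of_lt_of_le hxy (min_le_left _ _)
  have h2 := lt_of_lt_of_le hxy (min_le_right _ _)
  have hπ : (0 : ℝ) < 2 * π := by positivity
  -- translate x into [0, 2π)
  obtain ⟨n, hn, -⟩ := existsUnique_sub_zsmul_mem_Ico hπ x 0
  have e1 : f (x - n • (2 * π)) = f x := hp.sub_zsmul_eq n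
  have e2 : f (y - n • (2 * π)) = f y := hp.sub_zsmul_eq n
  rw [← e1, ← e2]
  have a := abs_lt.1 h2
  rw [zero_add] at hn
  have := h (x - n • (2 * π)) ⟨by linarith [hn.1], by linarith [hn.2]⟩ (y - n • (2 * π))
    ⟨by linarith [hn.1], by linarith [hn.2]⟩ (by rw [Real.dist_eq]; simpa using h1)
  rwa [Real.dist_eq] at this

/-- the mean value theorem for a forward difference -/
private lemma mvt79 {f g : ℝ → ℝ} (h : ∀ x, HasDerivAt f (g x) x) (t : ℝ) {d : ℝ} (hd : 0 < d) :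
    ∃ x, t < x ∧ x < t + d ∧ d⁻¹ * (f (t + d) - f t) = g x := by
  obtain ⟨x, hx, e⟩ := exists_hasDerivAt_eq_slope f g (show t < t + d by linarith)
    (fun x _ => (h x).continuousAt.continuousWithinAt) (fun x _ => h x)
  refine ⟨x, hx.1, hx.2, ?_⟩
  rw [e, show t + d - t = d by ring, div_eq_inv_mul]

private lemma cd_of79 {f g : ℝ → ℝ} {n : ℕ} (h : ∀ x, HasDerivAt f (g x) x) (hg : ContDiff ℝ n g) : ContDiff ℝ (n + 1 : ℕ) f := by
  have e : deriv f = g := funext fun x => (h x).deriv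
  have := (contDiff_succ_iff_deriv (𝕜 := ℝ) (n := (n : WithTop ℕ∞)) (f := f)).2 ⟨fun x => (h x).differentiableAt,
    fun hw => by simp at hw, by rw [e]; exact hg⟩
  exact_mod_cast this

theorem stek {H₀ : ℝ → ℝ} (h2 : ContDiff ℝ 2 H₀) (hp : Function.Periodic H₀ (2 * π)) : ∃ (G : ℕ → ℝ → ℝ) (K : ℝ), 1 ≤ K ∧ (∀ p : ℕ, HB (K * 4 ^ p) (G p)) ∧
    (∀ p t, |rho (G p) t| ≤ K) ∧ (∀ p t, |G p t - H₀ t| ≤ K / 4 ^ p) ∧ ∀ ε : ℝ, 0 < ε → ∃ p₀ : ℕ, ∀ p : ℕ, p₀ ≤ p → ∀ t, |rho (G p) t - rho H₀ t| ≤ ε := by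
  have h2' : ContDiff ℝ (1 + 1) H₀ := by
    have e : (1 + 1 : WithTop ℕ∞) = 2 := by norm_num
    rw [e]
    exact h2
  have hd1 : ContDiff ℝ 1 (deriv H₀) := (contDiff_succ_iff_deriv.1 h2').2.2
  have e0 : Differentiable ℝ H₀ := h2.differentiable (by norm_num)
  have e1 : Differentiable ℝ (deriv H₀) := hd1.differentiable (by norm_num)
  have c0 : Continuous H₀ := h2.continuous
  have c1 : Continuous (deriv H₀) := hd1.continuous
  have c2 : Continuous (deriv (deriv H₀)) := hd1.continuous_deriv (by norm_num)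
  obtain ⟨A0, hA0, b0⟩ := per_bdd79 c0 hp
  obtain ⟨A1, hA1, b1⟩ := per_bdd79 c1 (per_deriv79 hp)
  obtain ⟨A2, hA2, b2⟩ := per_bdd79 c2 (per_deriv79 (per_deriv79 hp))
  -- the primitive
  let I : ℝ → ℝ := fun t => ∫ s in (0 : ℝ)..t, H₀ s
  have hI : ∀ x, HasDerivAt I (H₀ x) x := fun x =>
    intervalIntegral.integral_hasDerivAt_right (c0.intervalIntegrable _ _) (c0.stronglyMeasurableAtFilter _ _) c0.continuousAt
  have hH : ∀ x, HasDerivAt H₀ (deriv H₀ x) x := fun x => (e0 x).hasDerivAt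
  have hH' : ∀ x, HasDerivAt (deriv H₀) (deriv (deriv H₀) x) x := fun x => (e1 x).hasDerivAt
  have cI : ContDiff ℝ 3 I := by
    have := cd_of79 (n := 2) hI h2
    exact_mod_cast this
  let dl : ℕ → ℝ := fun p => ((4 : ℝ) ^ p)⁻¹
  have hdl : ∀ p, 0 < dl p := fun p => by positivity
  have hdl1 : ∀ p, dl p ≤ 1 := fun p => inv_le_one_of_one_le₀ (one_le_pow₀ (by norm_num))
  let G : ℕ → ℝ → ℝ := fun p t => (dl p)⁻¹ * (I (t + dl p) - I t)
  have hG1 : ∀ p x, HasDerivAt (G p) ((dl p)⁻¹ * (H₀ (x + dl p) - H₀ x)) x := fun p x =>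
    ((((hI (x + dl p)).comp_add_const x (dl p))).sub (hI x)).const_mul _
  have hG2 : ∀ p x, HasDerivAt (deriv (G p)) ((dl p)⁻¹ * (deriv H₀ (x + dl p) - deriv H₀ x)) x := fun p x => by
    rw [show deriv (G p) = fun x => (dl p)⁻¹ * (H₀ (x + dl p) - H₀ x) from funext fun x => (hG1 p x).deriv]
    exact (((hH (x + dl p)).comp_add_const x (dl p)).sub (hH x)).const_mul _
  have hG3 : ∀ p x, HasDerivAt (deriv (deriv (G p))) ((dl p)⁻¹ * (deriv (deriv H₀) (x + dl p) - deriv (deriv H₀) x)) x := fun p x => by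
    rw [show deriv (deriv (G p)) = fun x => (dl p)⁻¹ * (deriv H₀ (x + dl p) - deriv H₀ x) from funext fun x => (hG2 p x).deriv]
    exact (((hH' (x + dl p)).comp_add_const x (dl p)).sub (hH' x)).const_mul _
  -- mean values
  have m0 : ∀ p t, ∃ x, t < x ∧ x < t + dl p ∧ G p t = H₀ x := fun p t => mvt79 hI t (hdl p)
  have m1 : ∀ p t, ∃ x, t < x ∧ x < t + dl p ∧ deriv (G p) t = deriv H₀ x := fun p t => by
    rw [(hG1 p t).deriv]
    exact mvt79 hH t (hdl p)
  have m2 : ∀ p t, ∃ x, t < x ∧ x < t + dl p ∧ deriv (deriv (G p)) t = deriv (deriv H₀) x := fun p t => by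
    rw [(hG2 p t).deriv]
    exact mvt79 hH' t (hdl p)
  have a0 : ∀ p t, |G p t| ≤ A0 := fun p t => by
    obtain ⟨x, -, -, e⟩ := m0 p t
    rw [e]
    exact b0 x
  have a1 : ∀ p t, |deriv (G p) t| ≤ A1 := fun p t => by
    obtain ⟨x, -, -, e⟩ := m1 p t
    rw [e]
    exact b1 x
  have a2 : ∀ p t, |deriv (deriv (G p)) t| ≤ A2 := fun p t => by
    obtain ⟨x, -, -, e⟩ := m2 p t
    rw [e]
    exact b2 x
  have a3 : ∀ p t, |deriv (deriv (deriv (G p))) t| ≤ 2 * A2 * 4 ^ p := fun p t => by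
    rw [(hG3 p t).deriv, abs_mul]
    have e : (dl p)⁻¹ = 4 ^ p := inv_inv _
    rw [e, abs_of_pos (by positivity)]
    have := abs_sub (deriv (deriv H₀) (t + dl p)) (deriv (deriv H₀) t)
    have u1 := b2 (t + dl p)
    have u2 := b2 t
    have h4 : (0 : ℝ) < 4 ^ p := by positivity
    nlinarith
  have n0 : ∀ p t, |G p t - H₀ t| ≤ A1 * dl p := fun p t => by
    obtain ⟨x, h1, h2, e⟩ := m0 p t
    rw [e]
    obtain ⟨y, -, -, e2⟩ := mvt79 hH t (show 0 < x - t by linarith)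
    have e3 : H₀ x - H₀ t = (x - t) * deriv H₀ y := by
      rw [← e2, show t + (x - t) = x by ring, ← mul_assoc, mul_inv_cancel₀ (by linarith), one_mul]
    rw [e3, abs_mul, abs_of_pos (show 0 < x - t by linarith)]
    have := b1 y
    have h3 : x - t ≤ dl p := by linarith
    calc (x - t) * |deriv H₀ y| ≤ dl p * A1 := mul_le_mul h3 this (abs_nonneg _) (hdl p).le
      _ = A1 * dl p := mul_comm _ _
  have cG : ∀ p, ContDiff ℝ 3 (G p) := fun p => by
    have : ContDiff ℝ 3 fun t => I (t + dl p) := cI.comp (contDiff_id.add contDiff_const)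
    exact contDiff_const.mul (this.sub cI)
  have pG : ∀ p, Function.Periodic (G p) (2 * π) := fun p t => by
    have hi : ∀ a b, I b - I a = ∫ s in a..b, H₀ s := fun a b =>
      intervalIntegral.integral_interval_sub_left (c0.intervalIntegrable _ _) (c0.intervalIntegrable _ _)
    show (dl p)⁻¹ * (I (t + 2 * π + dl p) - I (t + 2 * π)) = (dl p)⁻¹ * (I (t + dl p) - I t)
    rw [hi, hi, show t + 2 * π + dl p = (t + dl p) + 2 * π by ring, ← intervalIntegral.integral_comp_add_right]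
    simp only [hp _]
  have hK : ∀ p : ℕ, (1 : ℝ) ≤ 4 ^ p := fun p => one_le_pow₀ (by norm_num)
  refine ⟨G, 1 + A0 + A1 + 2 * A2, by linarith, fun p => ⟨cG p, pG p, fun j hj t => ?_⟩, fun p t => ?_, fun p t => ?_, fun ε hε => ?_⟩
  · have h4 := hK p
    have hle : A0 + A1 + 2 * A2 ≤ (1 + A0 + A1 + 2 * A2) * 4 ^ p := by nlinarith
    interval_cases j
    · rw [iteratedDeriv_zero]
      have := a0 p t
      linarith
    · rw [iteratedDeriv_one]
      have := a1 p t
      linarith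
    · rw [iteratedDeriv_succ, iteratedDeriv_one]
      have := a2 p t
      linarith
    · rw [iteratedDeriv_succ, iteratedDeriv_succ, iteratedDeriv_one]
      have := a3 p t
      nlinarith
  · have h1 := abs_add_le (G p t) (deriv (deriv (G p)) t)
    have h2 := a0 p t
    have h3 := a2 p t
    show |G p t + deriv (deriv (G p)) t| ≤ _
    linarith
  · have h1 := n0 p t
    have h3 : A1 * dl p = A1 / 4 ^ p := (div_eq_mul_inv _ _).symm
    have h4 : A1 / 4 ^ p ≤ (1 + A0 + A1 + 2 * A2) / 4 ^ p := by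
      gcongr
      linarith
    linarith
  · obtain ⟨δ, hδ, hu⟩ := per_uc79 c2 (per_deriv79 (per_deriv79 hp)) (half_pos hε)
    have ht : Tendsto (fun p : ℕ => dl p) atTop (𝓝 0) := by
      have := tendsto_pow_atTop_nhds_zero_of_lt_one (r := (4 : ℝ)⁻¹) (by norm_num) (by norm_num)
      refine this.congr fun p => ?_
      show (4 : ℝ)⁻¹ ^ p = ((4 : ℝ) ^ p)⁻¹
      rw [inv_pow]
    have ht2 : Tendsto (fun p : ℕ => A1 * dl p) atTop (𝓝 0) := by simpa using ht.const_mul A1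
    obtain ⟨p₁, hp₁⟩ := eventually_atTop.1 (ht.eventually (gt_mem_nhds hδ))
    obtain ⟨p₂, hp₂⟩ := eventually_atTop.1 (ht2.eventually (gt_mem_nhds (half_pos hε)))
    refine ⟨max p₁ p₂, fun p hpp t => ?_⟩
    have k1 := hp₁ p (le_trans (le_max_left _ _) hpp)
    have k2 := hp₂ p (le_trans (le_max_right _ _) hpp)
    have k3 := n0 p t
    obtain ⟨x, hx1, hx2, e⟩ := m2 p t
    have k4 := hu x t (by rw [abs_of_pos (by linarith)]; linarith)
    have k5 : rho (G p) t - rho H₀ t = (G p t - H₀ t) + (deriv (deriv H₀) x - deriv (deriv H₀) t) := by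
      show G p t + deriv (deriv (G p)) t - (H₀ t + deriv (deriv H₀) t) = _
      rw [e]
      ring
    rw [k5]
    have k6 := abs_add_le (G p t - H₀ t) (deriv (deriv H₀) x - deriv (deriv H₀) t)
    linarith

end Pool.Agent.Helper93.AO
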