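import Pool.Agent.Helper93.AO.DefsL
import Pool.Agent.Helper22.LP.P1

/-!
# AO-SAND: comparison of the counts of two close support functions

`Hf` is monotone in the support function (`hom`: factor `nr ≥ 0`), so `cntc (Hf G f) c ((1 - δ) R) ≤ cntc (Hf H f) c R ≤ cntc (Hf G f) c ((1 + δ) R)` (the sets are finite, as `Hf G f` is bounded: see `cntc_bdd` or its proof),
and for the areas `(1 - δ)² area (Hf G f) ≤ area (Hf H f) ≤ (1 + δ)² area (Hf G f)` (`dom` monotone and homogeneous, finite measure).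
-/

open MeasureTheory Real Set Filter Topology

set_option autoImplicit false

namespace Pool.Agent.Helper93.AO

open Pool.Agent.Helper22.AE (IsSupp area rho dom dom_compact area_scale)
open Pool.Agent.Helper22.AC (cntc)
open Pool.Agent.Helper22.LP (Fr fdet Hf Hf_isSupp rot_isSupp hom nr)

private theorem fin67 {H : ℝ → ℝ} (c : ℝ × ℝ) (R : ℝ) :
    Finite {k : ℤ × ℤ // ∀ θ : ℝ, ((k.1 : ℝ) - c.1) * cos θ + ((k.2 : ℝ) - c.2) * sin θ ≤ R * H θ} := by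
  let S : Finset (ℤ × ℤ) := Finset.Icc ⌊c.1 - R * H π⌋ ⌈c.1 + R * H 0⌉ ×ˢ
    Finset.Icc ⌊c.2 - R * H (-(π / 2))⌋ ⌈c.2 + R * H (π / 2)⌉
  have hsub : ∀ k : ℤ × ℤ, (∀ θ : ℝ, ((k.1 : ℝ) - c.1) * cos θ + ((k.2 : ℝ) - c.2) * sin θ ≤ R * H θ) → k ∈ S := by
    intro k hk
    have a0 := hk 0
    have a1 := hk (π / 2)
    have a2 := hk π
    have a3 := hk (-(π / 2))
    simp only [Real.cos_zero, Real.sin_zero, Real.cos_pi_div_two, Real.sin_pi_div_two, Real.cos_pi, Real.sin_pi,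
      Real.cos_neg, Real.sin_neg, mul_one, mul_zero, add_zero, zero_add, mul_neg] at a0 a1 a2 a3
    simp only [S, Finset.mem_product, Finset.mem_Icc]
    refine ⟨⟨?_, ?_⟩, ⟨?_, ?_⟩⟩
    · have : (⌊c.1 - R * H π⌋ : ℝ) ≤ k.1 := (Int.floor_le _).trans (by linarith)
      exact_mod_cast this
    · have : (k.1 : ℝ) ≤ ⌈c.1 + R * H 0⌉ := le_trans (by linarith) (Int.le_ceil _)
      exact_mod_cast this
    · have : (⌊c.2 - R * H (-(π / 2))⌋ : ℝ) ≤ k.2 := (Int.floor_le _).trans (by linarith)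
      exact_mod_cast this
    · have : (k.2 : ℝ) ≤ ⌈c.2 + R * H (π / 2)⌉ := le_trans (by linarith) (Int.le_ceil _)
      exact_mod_cast this
  exact Finite.of_injective (fun k => (⟨k.1, hsub k.1 k.2⟩ : S)) (by
    intro a b hab
    apply Subtype.ext
    exact congrArg (fun z : S => (z : ℤ × ℤ)) hab)

private theorem mono67 {A B : ℝ → ℝ} (c : ℝ × ℝ) {R₁ R₂ : ℝ} (h : ∀ θ, R₁ * A θ ≤ R₂ * B θ) :
    cntc A c R₁ ≤ cntc B c R₂ := by
  have h1 := fin67 (H := B) c R₂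
  unfold cntc
  have h2 : Nat.card {k : ℤ × ℤ // ∀ θ : ℝ, ((k.1 : ℝ) - c.1) * cos θ + ((k.2 : ℝ) - c.2) * sin θ ≤ R₁ * A θ} ≤
      Nat.card {k : ℤ × ℤ // ∀ θ : ℝ, ((k.1 : ℝ) - c.1) * cos θ + ((k.2 : ℝ) - c.2) * sin θ ≤ R₂ * B θ} :=
    Nat.card_le_card_of_injective (fun k => ⟨k.1, fun θ => (k.2 θ).trans (h θ)⟩) (by
      intro a b hab
      have h3 := Subtype.mk.inj hab
      exact Subtype.ext h3)
  exact_mod_cast h2

private theorem area67 {A B : ℝ → ℝ} (hB : IsSupp B) (h : ∀ θ, A θ ≤ B θ) : area A ≤ area B :=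
  ENNReal.toReal_mono (dom_compact hB).measure_lt_top.ne (measure_mono fun _ hp θ => (hp θ).trans (h θ))

private theorem scale67 {A : ℝ → ℝ} (hA : IsSupp A) {s : ℝ} (hs : 0 < s) :
    IsSupp (fun θ => s * A θ) ∧ area (fun θ => s * A θ) = s ^ 2 * area A := by
  refine ⟨?_, area_scale hA hs⟩
  have h1 := rot_isSupp hA hs 0
  simpa using h1

theorem sand {G H : ℝ → ℝ} (hG : IsSupp G) (hH : IsSupp H) {f : Fr} (hf : fdet f ≠ 0) {δ : ℝ} (h0 : 0 ≤ δ) (h1 : δ ≤ 1 / 2) (hl : ∀ t, (1 - δ) * G t ≤ H t)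
    (hu : ∀ t, H t ≤ (1 + δ) * G t) {R E : ℝ} (hR : 0 < R) (c : ℝ × ℝ) (h2 : |cntc (Hf G f) c ((1 - δ) * R) - area (Hf G f) * ((1 - δ) * R) ^ 2| ≤ E)
    (h3 : |cntc (Hf G f) c ((1 + δ) * R) - area (Hf G f) * ((1 + δ) * R) ^ 2| ≤ E) :
    |cntc (Hf H f) c R - area (Hf H f) * R ^ 2| ≤ E + 4 * δ * area (Hf G f) * R ^ 2 := by
  have hGf := Hf_isSupp hG hf
  have hHf := Hf_isSupp hH hf
  have hl' : ∀ t, (1 - δ) * Hf G f t ≤ Hf H f t := by
    intro t
    have h4 := mul_le_mul_of_nonneg_left (hl (Pool.Agent.Helper22.LP.tr (Pool.Agent.Helper22.LP.fv f (cos t) (sin t))))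
      (norm_nonneg (Pool.Agent.Helper22.LP.cp (Pool.Agent.Helper22.LP.fv f (cos t) (sin t))))
    unfold Hf hom nr
    linarith
  have hu' : ∀ t, Hf H f t ≤ (1 + δ) * Hf G f t := by
    intro t
    have h4 := mul_le_mul_of_nonneg_left (hu (Pool.Agent.Helper22.LP.tr (Pool.Agent.Helper22.LP.fv f (cos t) (sin t))))
      (norm_nonneg (Pool.Agent.Helper22.LP.cp (Pool.Agent.Helper22.LP.fv f (cos t) (sin t))))
    unfold Hf hom nr
    linarith
  have c1 : cntc (Hf G f) c ((1 - δ) * R) ≤ cntc (Hf H f) c R := by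
    refine mono67 c fun θ => ?_
    have h4 := mul_le_mul_of_nonneg_left (hl' θ) hR.le
    linarith
  have c2 : cntc (Hf H f) c R ≤ cntc (Hf G f) c ((1 + δ) * R) := by
    refine mono67 c fun θ => ?_
    have h4 := mul_le_mul_of_nonneg_left (hu' θ) hR.le
    linarith
  have a1 : (1 - δ) ^ 2 * area (Hf G f) ≤ area (Hf H f) := by
    rw [← (scale67 hGf (s := 1 - δ) (by linarith)).2]
    exact area67 hHf hl'
  have a2 : area (Hf H f) ≤ (1 + δ) ^ 2 * area (Hf G f) := by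
    have h5 := scale67 hGf (s := 1 + δ) (by linarith)
    rw [← h5.2]
    exact area67 h5.1 hu'
  have hR2 : 0 ≤ R ^ 2 := sq_nonneg R
  have b1 := mul_le_mul_of_nonneg_right a1 hR2
  have b2 := mul_le_mul_of_nonneg_right a2 hR2
  rw [abs_le] at h2 h3 ⊢
  constructor
  · nlinarith [h2.1, c1, b2]
  · nlinarith [h3.2, c2, b1]

end Pool.Agent.Helper93.AO
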