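import Pool.Agent.Helper93.AO.Sum
import Pool.Agent.Helper93.AO.Sand
import Pool.Agent.Helper22.OV.Shift
import Pool.Agent.Helper92.LA.D3

/-!
# AO-DET: the count for all lattices from the bounds for the sums of the approximations

`exists_shift` (Helper22/OV/Shift.lean) gives `v` with `IsSupp (shf H v)`; `shf H v ≥ m > 0`, `rho (shf H v) = rho H ≥ m' > 0` (continuous, periodic). `shf (G p) v - shf H v = G p - H`, so for large `p` `IsSupp (shf (G p) v)` with bounds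
`1/M ≤ . ≤ M`, `rho ≤ M`. The sums of `shf (G p) v` are those of `G p` with another centre (`ga (shf H v) α t = ga H α t + v.1 cos t + v.2 sin t`, so `r hom (…) (fk f k)` changes by `r (v · fk f k)`, linear in `k`; the weight does not change: `shf_rho`;
see `ss_shf`, `lattice_supp`, `lattice_ae` in Helper92/LA/D3.lean). Frame `f = dl ab` (dual), `Fb M f` (`fb92`, Helper92/LA/D1.lean, private: copy). `sum_main` at `(1 ± δ) R`, `δ = C/4^p`, and `sand` for `2^p ≤ R ≤ 2·2^p`: `δ R² ≤ C`;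
`2^(p/2) p^(1/4) ≤ C R^(1/2) (log R)^(1/4)`. Small `R`: `cntc_bdd` (as in `frame_core`, Helper92/LA/D1.lean), `R^(1/2) (log R)^(1/4) ≥ c` for `R ≥ 2`. Back to the lattice: `lcnt_eq`, `area_lin`, `fdet_dl`, `lcnt` of `H` with centre `c` is that of `shf H v` with another centre.
-/

open MeasureTheory Real Set Filter Topology

set_option autoImplicit false

namespace Pool.Agent.Helper93.AO

open Pool.Agent.Helper22.AE (IsSupp area rho)
open Pool.Agent.Helper22.LP (Fr fdet)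
open Pool.Agent.Helper92.LA (lcnt)

open Pool.Agent.Helper22.AE (ee dom)
open Pool.Agent.Helper22.AC (ga cntc)
open Pool.Agent.Helper92.GC (dt sqa)
open Pool.Agent.Helper22.LP (fk fv nr tr hom wr Hf Hf_isSupp area_lin nr_cos nr_sin)
open Pool.Agent.Helper92.LA (Fb dl fdet_dl lcnt_eq)
open Pool.Agent.Helper22.OV (shf shf_smooth shf_rho exists_shift area_shf cntc_bdd)

private theorem fb99 {f : Fr} (hf : fdet f ≠ 0) : ∃ M : ℝ, 1 ≤ M ∧ Fb M f := by
  have h0 : 0 < |fdet f| := abs_pos.2 hf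
  refine ⟨1 + |f.1.1| + |f.1.2| + |f.2.1| + |f.2.2| + 1 / |fdet f|, ?_, ?_⟩
  · have := abs_nonneg f.1.1
    have := abs_nonneg f.1.2
    have := abs_nonneg f.2.1
    have := abs_nonneg f.2.2
    have : 0 ≤ 1 / |fdet f| := by positivity
    linarith
  · have h1 := abs_nonneg f.1.1
    have h2 := abs_nonneg f.1.2
    have h3 := abs_nonneg f.2.1
    have h4 := abs_nonneg f.2.2
    have h5 : 0 ≤ 1 / |fdet f| := by positivity
    refine ⟨by linarith, by linarith, by linarith, by linarith, ?_⟩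
    have h6 : 1 = 1 / |fdet f| * |fdet f| := by field_simp
    calc (1 : ℝ) = 1 / |fdet f| * |fdet f| := h6
      _ ≤ _ := mul_le_mul_of_nonneg_right (by linarith) h0.le

private theorem fb_mono99 {M M' : ℝ} {f : Fr} (h : Fb M f) (hM : M ≤ M') : Fb M' f :=
  ⟨h.a.trans hM, h.b.trans hM, h.c.trans hM, h.d.trans hM, h.det.trans (mul_le_mul_of_nonneg_right hM (abs_nonneg _))⟩

/-- the phase function of the shifted support function -/
private theorem ga_shf99 {H : ℝ → ℝ} (h2 : ContDiff ℝ 2 H) (v : ℝ × ℝ) (α t : ℝ) :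
    ga (shf H v) α t = ga H α t + (v.1 * cos t + v.2 * sin t) := by
  have hd1 : ∀ s, HasDerivAt H (deriv H s) s := fun s => (h2.differentiable (by norm_num)).differentiableAt.hasDerivAt
  have e1 : deriv (shf H v) (t + α) = deriv H (t + α) + (v.1 * (-sin (t + α)) + v.2 * cos (t + α)) := by
    apply HasDerivAt.deriv
    unfold shf
    exact (hd1 (t + α)).add (((hasDerivAt_cos (t + α)).const_mul v.1).add ((hasDerivAt_sin (t + α)).const_mul v.2))
  have ec : cos t = cos (t + α) * cos α + sin (t + α) * sin α := by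
    rw [← cos_sub]
    congr 1
    ring
  have es : sin t = sin (t + α) * cos α - cos (t + α) * sin α := by
    rw [← sin_sub]
    congr 1
    ring
  unfold ga
  rw [e1, ec, es]
  unfold shf
  ring

private theorem hom_shf99 {H : ℝ → ℝ} (h2 : ContDiff ℝ 2 H) (v : ℝ × ℝ) (α : ℝ) (w : ℝ × ℝ) :
    hom (ga (shf H v) α) w = hom (ga H α) w + (v.1 * w.1 + v.2 * w.2) := by
  have e1 := nr_cos w
  have e2 := nr_sin w
  unfold hom
  rw [ga_shf99 h2]
  linear_combination (-v.1) * e1 + (-v.2) * e2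

private theorem wi_shf99 {H : ℝ → ℝ} (h2 : ContDiff ℝ 2 H) (v : ℝ × ℝ) (i : ℕ) (α : ℝ) (w : ℝ × ℝ) :
    wi i (shf H v) α w = wi i H α w := by
  unfold wi
  split_ifs
  · unfold wr rho
    rw [shf_rho v h2]
  · rfl

/-- the sums of the shifted support function are those of the function with another centre -/
private theorem ss_shf99 {H : ℝ → ℝ} (h2 : ContDiff ℝ 2 H) (v : ℝ × ℝ) (f : Fr) (α r : ℝ) (c : ℝ × ℝ) (i N : ℕ) :
    SS (shf H v) f α r c i N =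
      SS H f α r (c.1 + r * (v.1 * f.1.1 + v.2 * f.1.2), c.2 + r * (v.1 * f.2.1 + v.2 * f.2.2)) i N := by
  unfold SS
  refine Finset.sum_congr rfl fun k _ => ?_
  unfold Tm
  rw [wi_shf99 h2, hom_shf99 h2]
  congr 2
  unfold dt
  have e1 : (fk f k).1 = (k.1 : ℝ) * f.1.1 + (k.2 : ℝ) * f.2.1 := rfl
  have e2 : (fk f k).2 = (k.1 : ℝ) * f.1.2 + (k.2 : ℝ) * f.2.2 := rfl
  rw [e1, e2]
  ring

/-- positive, periodic and continuous functions are bounded from below and above -/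
private theorem bd99 {F : ℝ → ℝ} (hc : Continuous F) (hp : Function.Periodic F (2 * π)) (h0 : ∀ t, 0 < F t) :
    ∃ m B : ℝ, 0 < m ∧ ∀ t, m ≤ F t ∧ F t ≤ B := by
  have hK : IsCompact (Icc (0 : ℝ) (2 * π)) := isCompact_Icc
  have hne : (Icc (0 : ℝ) (2 * π)).Nonempty := ⟨0, by constructor <;> positivity⟩
  obtain ⟨x, _, hx⟩ := hK.exists_isMinOn hne hc.continuousOn
  obtain ⟨y, _, hy⟩ := hK.exists_isMaxOn hne hc.continuousOn
  refine ⟨F x, F y, h0 x, fun t => ?_⟩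
  obtain ⟨s, hs, he⟩ := hp.exists_mem_Ico₀ (by positivity) t
  have hs' : s ∈ Icc (0 : ℝ) (2 * π) := ⟨hs.1, hs.2.le⟩
  rw [he]
  exact ⟨hx hs', hy hs'⟩

/-- the area of a bounded domain -/
private theorem area99 {G : ℝ → ℝ} {M : ℝ} (hM : 0 ≤ M) (h : ∀ t, G t ≤ M) : area G ≤ 4 * M ^ 2 := by
  unfold area
  have hsub : dom G ⊆ Icc (-M) M ×ˢ Icc (-M) M := by
    intro p hp
    have h0 := (hp 0).trans (h 0)
    have h1 := (hp π).trans (h π)
    have h2 := (hp (π / 2)).trans (h (π / 2))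
    have h3 := (hp (-(π / 2))).trans (h (-(π / 2)))
    simp only [cos_zero, sin_zero, cos_pi, sin_pi, cos_pi_div_two, sin_pi_div_two, cos_neg, sin_neg] at h0 h1 h2 h3
    refine ⟨⟨by linarith, by linarith⟩, ⟨by linarith, by linarith⟩⟩
  have hv : volume (Icc (-M) M ×ˢ Icc (-M) M : Set (ℝ × ℝ)) = ENNReal.ofReal (4 * M ^ 2) := by
    rw [Measure.volume_eq_prod, Measure.prod_prod, Real.volume_Icc, ← ENNReal.ofReal_mul (by linarith)]
    congr 1
    ring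
  have h1 := measure_mono (μ := volume) hsub
  rw [hv] at h1
  calc (volume (dom G)).toReal ≤ (ENNReal.ofReal (4 * M ^ 2)).toReal := ENNReal.toReal_mono ENNReal.ofReal_ne_top h1
    _ = 4 * M ^ 2 := ENNReal.toReal_ofReal (by positivity)

/-- quotients by `4^p` are small -/
private theorem small99 (K : ℝ) {e : ℝ} (he : 0 < e) : ∃ p₀ : ℕ, ∀ p : ℕ, p₀ ≤ p → K / 4 ^ p ≤ e := by
  obtain ⟨n, hn⟩ := pow_unbounded_of_one_lt (K / e) (show (1 : ℝ) < 4 by norm_num)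
  refine ⟨n, fun p hp => ?_⟩
  have h1 : (4 : ℝ) ^ n ≤ 4 ^ p := pow_le_pow_right₀ (by norm_num) hp
  have h2 : K / e < 4 ^ p := lt_of_lt_of_le hn h1
  rw [div_lt_iff₀ he] at h2
  rw [div_le_iff₀ (by positivity)]
  linarith

private theorem one99 {R : ℝ} (hR : 2 ≤ R) : 1 ≤ 2 * (R ^ (1 / 2 : ℝ) * log R ^ (1 / 4 : ℝ)) := by
  have h1 : 1 ≤ R ^ (1 / 2 : ℝ) := one_le_rpow (by linarith) (by norm_num)
  have h2 : (1 : ℝ) / 16 ≤ log R := by
    have h3 := log_two_gt_d9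
    have h4 : log 2 ≤ log R := log_le_log (by norm_num) hR
    linarith
  have h3 : (1 : ℝ) / 2 ≤ log R ^ (1 / 4 : ℝ) := by
    have h4 : ((1 : ℝ) / 16) ^ (1 / 4 : ℝ) ≤ log R ^ (1 / 4 : ℝ) := rpow_le_rpow (by norm_num) h2 (by norm_num)
    have h5 : ((1 : ℝ) / 16) ^ (1 / 4 : ℝ) = 1 / 2 := by
      have e : (1 : ℝ) / 16 = (1 / 2) ^ (4 : ℝ) := by
        rw [show (4 : ℝ) = ((4 : ℕ) : ℝ) by norm_num, rpow_natCast]
        norm_num
      rw [e, ← rpow_mul (by norm_num)]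
      norm_num
    linarith
  nlinarith

private theorem main99 {R : ℝ} {p : ℕ} (h : (2 : ℝ) ^ p ≤ R) (hR : 2 ≤ R) :
    (2 : ℝ) ^ (p / 2 : ℝ) * (p : ℝ) ^ (1 / 4 : ℝ) ≤ 2 * (R ^ (1 / 2 : ℝ) * log R ^ (1 / 4 : ℝ)) := by
  have h1 : (2 : ℝ) ^ (p / 2 : ℝ) ≤ R ^ (1 / 2 : ℝ) := by
    have e : (2 : ℝ) ^ (p / 2 : ℝ) = ((2 : ℝ) ^ p) ^ (1 / 2 : ℝ) := by
      rw [← rpow_natCast, ← rpow_mul (by norm_num)]
      congr 1
      ring
    rw [e]
    exact rpow_le_rpow (by positivity) h (by norm_num)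
  have h2 : (p : ℝ) ≤ 16 * log R := by
    have h3 := log_two_gt_d9
    have h4 : log ((2 : ℝ) ^ p) ≤ log R := log_le_log (by positivity) h
    rw [log_pow] at h4
    have h5 : (0 : ℝ) ≤ p := Nat.cast_nonneg p
    nlinarith
  have hl : 0 ≤ log R := log_nonneg (by linarith)
  have h3 : (p : ℝ) ^ (1 / 4 : ℝ) ≤ 2 * log R ^ (1 / 4 : ℝ) := by
    have h4 : (p : ℝ) ^ (1 / 4 : ℝ) ≤ (16 * log R) ^ (1 / 4 : ℝ) := rpow_le_rpow (Nat.cast_nonneg p) h2 (by norm_num)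
    rw [mul_rpow (by norm_num) hl] at h4
    have h5 : (16 : ℝ) ^ (1 / 4 : ℝ) = 2 := by
      have e : (16 : ℝ) = 2 ^ (4 : ℝ) := by
        rw [show (4 : ℝ) = ((4 : ℕ) : ℝ) by norm_num, rpow_natCast]
        norm_num
      rw [e, ← rpow_mul (by norm_num)]
      norm_num
    rwa [h5] at h4
  calc (2 : ℝ) ^ (p / 2 : ℝ) * (p : ℝ) ^ (1 / 4 : ℝ) ≤ R ^ (1 / 2 : ℝ) * (2 * log R ^ (1 / 4 : ℝ)) :=
        mul_le_mul h1 h3 (by positivity) (by positivity)
    _ = _ := by ring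

/-- the count for one frame -/
private theorem frame99 {H : ℝ → ℝ} (h2 : ContDiff ℝ 2 H) {v : ℝ × ℝ} (hv : IsSupp (shf H v)) {G : ℕ → ℝ → ℝ} {K : ℝ}
    (hG : ∀ p, ContDiff ℝ 2 (G p)) (hGp : ∀ p, Function.Periodic (G p) (2 * π)) (hc : ∀ p t, |G p t - H t| ≤ K / 4 ^ p)
    (hd : ∀ ε : ℝ, 0 < ε → ∃ p₀ : ℕ, ∀ p : ℕ, p₀ ≤ p → ∀ t, |rho (G p) t - rho H t| ≤ ε) (hS : SB G) {f : Fr} (hf : fdet f ≠ 0) :
    ∃ C : ℝ, ∀ R : ℝ, 2 ≤ R → ∀ c : ℝ × ℝ,
      |cntc (Hf (shf H v) f) c R - area (Hf (shf H v) f) * R ^ 2| ≤ C * (R ^ (1 / 2 : ℝ) * log R ^ (1 / 4 : ℝ)) := by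
  obtain ⟨M₀, hM₀, hfb⟩ := fb99 hf
  obtain ⟨m, B, hm, hmB⟩ := bd99 hv.smooth.continuous hv.per hv.pos
  -- the radius of curvature
  have hrc : Continuous (rho (shf H v)) := by
    have h1 : Continuous (deriv (deriv (shf H v))) := Pool.Agent.Helper22.OV.cd_two hv.smooth
    exact hv.smooth.continuous.add h1
  have hrp : Function.Periodic (rho (shf H v)) (2 * π) := by
    intro t
    unfold rho
    have e1 : Function.Periodic (deriv (shf H v)) (2 * π) := by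
      intro s
      have h3 : (fun x => shf H v (x + 2 * π)) = shf H v := funext hv.per
      calc deriv (shf H v) (s + 2 * π) = deriv (fun x => shf H v (x + 2 * π)) s := (deriv_comp_add_const _ _ _).symm
        _ = _ := by rw [h3]
    have e2 : deriv (deriv (shf H v)) (t + 2 * π) = deriv (deriv (shf H v)) t := by
      have h3 : (fun x => deriv (shf H v) (x + 2 * π)) = deriv (shf H v) := funext e1
      calc deriv (deriv (shf H v)) (t + 2 * π) = deriv (fun x => deriv (shf H v) (x + 2 * π)) t := (deriv_comp_add_const _ _ _).symm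
        _ = _ := by rw [h3]
    rw [hv.per t, e2]
  obtain ⟨m₂, B₂, hm₂, hmB₂⟩ := bd99 hrc hrp hv.rho_pos
  have hK : 0 ≤ K := by
    have h1 := hc 0 0
    have h3 := abs_nonneg (G 0 0 - H 0)
    simp only [pow_zero, div_one] at h1
    linarith
  have hB : 0 < B := lt_of_lt_of_le hm ((hmB 0).1.trans (hmB 0).2)
  have hB₂ : 0 < B₂ := lt_of_lt_of_le hm₂ ((hmB₂ 0).1.trans (hmB₂ 0).2)
  have hdf : 0 < |fdet f| := abs_pos.2 hf
  have hn1 : 0 ≤ nr f.1 := norm_nonneg _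
  have hn2 : 0 ≤ nr f.2 := norm_nonneg _
  obtain ⟨M, hMd⟩ : ∃ M : ℝ, M = M₀ + (2 / m) + (B + 1) + (B₂ + 1) + (nr f.1 + nr f.2) + 1 / |fdet f| := ⟨_, rfl⟩
  have hm2 : 0 < 2 / m := by positivity
  have hdf2 : 0 < 1 / |fdet f| := by positivity
  have hM1 : 1 ≤ M := by linarith
  have hM0 : 0 < M := by linarith
  have hMm : 1 / M ≤ m / 2 := by
    have h1 : 2 / m ≤ M := by linarith
    rw [div_le_iff₀ hm] at h1
    rw [div_le_iff₀ hM0]
    linarith
  have hMdet : 1 / M ≤ |fdet f| := by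
    have h1 : 1 / |fdet f| ≤ M := by linarith
    rw [div_le_iff₀ hdf] at h1
    rw [div_le_iff₀ hM0]
    linarith
  obtain ⟨C, p₀, hC, hSB⟩ := hS M hM1
  obtain ⟨C', p₁, hC', hsum⟩ := sum_main hM1 hC
  obtain ⟨p₂, hp₂⟩ := small99 K (e := min (m / 4) 1) (lt_min (by positivity) one_pos)
  obtain ⟨p₃, hp₃⟩ := hd (min (m₂ / 2) 1) (lt_min (by positivity) one_pos)
  obtain ⟨P, hP⟩ : ∃ P : ℕ, P = p₀ + p₁ + p₂ + p₃ := ⟨_, rfl⟩
  have hHf : IsSupp (Hf (shf H v) f) := Hf_isSupp hv hf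
  obtain ⟨C₄, hC₄⟩ := cntc_bdd hHf (2 ^ P)
  refine ⟨2 * C' + 2 * (128 * K * M ^ 2 * |fdet f| / m) + 2 * |C₄|, fun R hR c => ?_⟩
  obtain ⟨Y, hY⟩ : ∃ Y : ℝ, Y = R ^ (1 / 2 : ℝ) * log R ^ (1 / 4 : ℝ) := ⟨_, rfl⟩
  have hY1 : 1 ≤ 2 * Y := by
    rw [hY]
    exact one99 hR
  have hY0 : 0 ≤ Y := by linarith
  rw [← hY]
  have hk0 : 0 ≤ 128 * K * M ^ 2 * |fdet f| / m := by positivity
  rcases le_total R (2 ^ P) with hs | hs
  · have h1 := (hC₄ R (by linarith) hs c).trans (le_abs_self C₄)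
    have h3 : |C₄| * 1 ≤ |C₄| * (2 * Y) := mul_le_mul_of_nonneg_left hY1 (abs_nonneg C₄)
    have h4 : 0 ≤ (2 * C' + 2 * (128 * K * M ^ 2 * |fdet f| / m)) * Y := mul_nonneg (by linarith) hY0
    calc |cntc (Hf (shf H v) f) c R - area (Hf (shf H v) f) * R ^ 2| ≤ |C₄| := h1
      _ ≤ (2 * C' + 2 * (128 * K * M ^ 2 * |fdet f| / m)) * Y + |C₄| * (2 * Y) := by linarith
      _ = _ := by ring
  -- the dyadic number
  obtain ⟨p, hp1, hp2⟩ := exists_nat_pow_near (show (1 : ℝ) ≤ R by linarith) (show (1 : ℝ) < 2 by norm_num)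
  have hPp : P ≤ p := by
    by_contra h
    push Not at h
    have h1 : (2 : ℝ) ^ (p + 1) ≤ 2 ^ P := pow_le_pow_right₀ (by norm_num) h
    linarith
  have hq0 : p₀ ≤ p := by omega
  have hq1 : p₁ ≤ p := by omega
  have hq2 : p₂ ≤ p := by omega
  have hq3 : p₃ ≤ p := by omega
  have hX0 : (0 : ℝ) < 2 ^ p := by positivity
  rw [pow_succ] at hp2
  -- the approximation
  have hK4 : K / 4 ^ p ≤ m / 4 ∧ K / 4 ^ p ≤ 1 := by
    have h1 := hp₂ p hq2
    exact ⟨h1.trans (min_le_left _ _), h1.trans (min_le_right _ _)⟩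
  have hdif : ∀ t, |shf (G p) v t - shf H v t| ≤ K / 4 ^ p := by
    intro t
    have h1 := hc p t
    have e : shf (G p) v t - shf H v t = G p t - H t := by
      unfold shf
      ring
    rwa [e]
  have hlo : ∀ t, m / 2 ≤ shf (G p) v t := by
    intro t
    have h1 := (abs_le.1 (hdif t)).1
    have h3 := (hmB t).1
    linarith [hK4.1]
  have hhi : ∀ t, shf (G p) v t ≤ M := by
    intro t
    have h1 := (abs_le.1 (hdif t)).2
    have h3 := (hmB t).2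
    linarith [hK4.2]
  have hrho : ∀ t, rho (shf (G p) v) t = rho (G p) t := fun t => shf_rho v (hG p) t
  have hrhoH : ∀ t, rho (shf H v) t = rho H t := fun t => shf_rho v h2 t
  have hrd : ∀ t, |rho (shf (G p) v) t - rho (shf H v) t| ≤ min (m₂ / 2) 1 := by
    intro t
    rw [hrho, hrhoH]
    exact hp₃ p hq3 t
  have hrlo : ∀ t, 0 < rho (shf (G p) v) t := by
    intro t
    have h1 := (abs_le.1 (hrd t)).1
    have h3 := (hmB₂ t).1
    have h4 := min_le_left (m₂ / 2) 1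
    linarith
  have hrhi : ∀ t, rho (shf (G p) v) t ≤ M := by
    intro t
    have h1 := (abs_le.1 (hrd t)).2
    have h3 := (hmB₂ t).2
    have h4 := min_le_right (m₂ / 2) 1
    linarith
  have hsupp : IsSupp (shf (G p) v) := by
    refine ⟨shf_smooth v (hG p), ?_, fun t => lt_of_lt_of_le (by positivity) (hlo t), hrlo⟩
    intro t
    unfold shf
    rw [hGp p t, cos_add_two_pi, sin_add_two_pi]
  have hss : ∀ n : ℕ, (n : ℝ) ≤ (1 / 2 + 1 / 1000) * p → ∀ (α r : ℝ) (c : ℝ × ℝ) (i : ℕ), |α| ≤ 1 → 2 ^ p / 4 ≤ r → r ≤ 16 * 2 ^ p → i = 1 ∨ i = 2 →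
      ‖SS (shf (G p) v) f α r c i (2 ^ n)‖ ≤ gg C n p := by
    intro n hn α r c i hα hr1 hr2 hi
    rw [ss_shf99 (hG p)]
    exact hSB p hq0 n hn f (fb_mono99 hfb (by linarith)) α r _ i hα hr1 hr2 hi
  have hcount := hsum p hq1 (shf (G p) v) hsupp (fun t => hMm.trans (hlo t)) hhi hrhi f (by linarith) hMdet hss
  -- comparison
  obtain ⟨δ, hδ⟩ : ∃ δ : ℝ, δ = 2 / m * (K / 4 ^ p) := ⟨_, rfl⟩
  have hKp : 0 ≤ K / 4 ^ p := by positivity
  have hδ0 : 0 ≤ δ := by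
    rw [hδ]
    positivity
  have hδ1 : δ ≤ 1 / 2 := by
    rw [hδ]
    calc 2 / m * (K / 4 ^ p) ≤ 2 / m * (m / 4) := mul_le_mul_of_nonneg_left hK4.1 hm2.le
      _ = 1 / 2 := by
        field_simp
        norm_num
  have hδG : ∀ t, K / 4 ^ p ≤ δ * shf (G p) v t := by
    intro t
    rw [hδ]
    calc K / 4 ^ p = 2 / m * (K / 4 ^ p) * (m / 2) := by field_simp
      _ ≤ _ := mul_le_mul_of_nonneg_left (hlo t) (by positivity)
  have hl : ∀ t, (1 - δ) * shf (G p) v t ≤ shf H v t := by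
    intro t
    have h1 := (abs_le.1 (hdif t)).2
    have h3 := hδG t
    linarith
  have hu : ∀ t, shf H v t ≤ (1 + δ) * shf (G p) v t := by
    intro t
    have h1 := (abs_le.1 (hdif t)).1
    have h3 := hδG t
    linarith
  have hR0 : 0 < R := by linarith
  have hδR : δ * R ≤ R / 2 := by
    calc δ * R ≤ 1 / 2 * R := mul_le_mul_of_nonneg_right hδ1 hR0.le
      _ = R / 2 := by ring
  have hδR0 : 0 ≤ δ * R := mul_nonneg hδ0 hR0.le
  have hs1 := hcount ((1 - δ) * R) (by linarith) (by linarith) c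
  have hs2 := hcount ((1 + δ) * R) (by linarith) (by linarith) c
  have hfin := sand hsupp hv hf hδ0 hδ1 hl hu hR0 c hs1 hs2
  -- the area
  have har : area (Hf (shf (G p) v) f) ≤ |fdet f| * (4 * M ^ 2) := by
    rw [area_lin hsupp.per hf]
    exact mul_le_mul_of_nonneg_left (area99 hM0.le hhi) (abs_nonneg _)
  have h3 : δ * R ^ 2 ≤ 8 * K / m := by
    have e1 : R ^ 2 ≤ (2 * 2 ^ p) ^ 2 := pow_le_pow_left₀ hR0.le (by linarith) 2
    have e2 : ((2 : ℝ) * 2 ^ p) ^ 2 = 4 * 4 ^ p := by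
      rw [mul_pow, ← pow_mul, mul_comm p 2, pow_mul]
      norm_num
    rw [e2] at e1
    calc δ * R ^ 2 ≤ δ * (4 * 4 ^ p) := mul_le_mul_of_nonneg_left e1 hδ0
      _ = 8 * K / m := by
        rw [hδ]
        field_simp
        ring
  have h4 : 4 * δ * area (Hf (shf (G p) v) f) * R ^ 2 ≤ 128 * K * M ^ 2 * |fdet f| / m := by
    have e0 : 0 ≤ δ * R ^ 2 := mul_nonneg hδ0 (by positivity)
    calc 4 * δ * area (Hf (shf (G p) v) f) * R ^ 2 = 4 * (δ * R ^ 2) * area (Hf (shf (G p) v) f) := by ring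
      _ ≤ 4 * (δ * R ^ 2) * (|fdet f| * (4 * M ^ 2)) := mul_le_mul_of_nonneg_left har (by linarith)
      _ ≤ 4 * (8 * K / m) * (|fdet f| * (4 * M ^ 2)) :=
          mul_le_mul_of_nonneg_right (by linarith) (by positivity)
      _ = 128 * K * M ^ 2 * |fdet f| / m := by ring
  have h5 : (2 : ℝ) ^ (p / 2 : ℝ) * (p : ℝ) ^ (1 / 4 : ℝ) ≤ 2 * Y := by
    rw [hY]
    exact main99 hp1 hR
  have h6 : C' * ((2 : ℝ) ^ (p / 2 : ℝ) * (p : ℝ) ^ (1 / 4 : ℝ)) ≤ C' * (2 * Y) := mul_le_mul_of_nonneg_left h5 (by linarith)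
  have h7 : 128 * K * M ^ 2 * |fdet f| / m * 1 ≤ 128 * K * M ^ 2 * |fdet f| / m * (2 * Y) := mul_le_mul_of_nonneg_left hY1 hk0
  have h8 : 0 ≤ 2 * |C₄| * Y := by positivity
  calc |cntc (Hf (shf H v) f) c R - area (Hf (shf H v) f) * R ^ 2| ≤
        C' * ((2 : ℝ) ^ (p / 2 : ℝ) * (p : ℝ) ^ (1 / 4 : ℝ)) + 4 * δ * area (Hf (shf (G p) v) f) * R ^ 2 := hfin
    _ ≤ C' * (2 * Y) + 128 * K * M ^ 2 * |fdet f| / m * (2 * Y) + 2 * |C₄| * Y := by linarith
    _ = _ := by ring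

theorem det_main {H : ℝ → ℝ} (h2 : ContDiff ℝ 2 H) (hp : Function.Periodic H (2 * π)) (hr : ∀ t, 0 < H t + deriv (deriv H) t) {G : ℕ → ℝ → ℝ} {K : ℝ}
    (hG : ∀ p, ContDiff ℝ 2 (G p)) (hGp : ∀ p, Function.Periodic (G p) (2 * π)) (hc : ∀ p t, |G p t - H t| ≤ K / 4 ^ p)
    (hd : ∀ ε : ℝ, 0 < ε → ∃ p₀ : ℕ, ∀ p : ℕ, p₀ ≤ p → ∀ t, |rho (G p) t - rho H t| ≤ ε) (hS : SB G) :
    ∀ ab : Fr, fdet ab ≠ 0 → ∃ C : ℝ, ∀ R : ℝ, 2 ≤ R → ∀ c : ℝ × ℝ,
      |lcnt ab H c R - area H * R ^ 2 / abs (fdet ab)| ≤ C * (R ^ (1 / 2 : ℝ) * log R ^ (1 / 4 : ℝ)) := by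
  intro ab hab
  obtain ⟨v, hv⟩ := exists_shift h2 hp hr
  have hdl : fdet (dl ab) ≠ 0 := by
    rw [fdet_dl hab]
    exact one_div_ne_zero hab
  obtain ⟨C, hC⟩ := frame99 h2 hv hG hGp hc hd hS hdl
  refine ⟨C, fun R hR c => ?_⟩
  have h3 := hC R hR ((dl ab).1.1 * (c.1 - R * v.1) + (dl ab).1.2 * (c.2 - R * v.2), (dl ab).2.1 * (c.1 - R * v.1) + (dl ab).2.2 * (c.2 - R * v.2))
  have h4 := lcnt_eq hv.per hab (c.1 - R * v.1, c.2 - R * v.2) R
  simp only at h4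
  rw [← h4, area_lin hv.per hdl, fdet_dl hab, abs_div, abs_one, area_shf] at h3
  have e : 1 / |fdet ab| * area H * R ^ 2 = area H * R ^ 2 / |fdet ab| := by ring
  rw [e] at h3
  have h5 : lcnt ab (shf H v) (c.1 - R * v.1, c.2 - R * v.2) R = lcnt ab H c R := by
    unfold lcnt
    congr 1
    refine Nat.card_congr (Equiv.subtypeEquivRight fun k => ?_)
    refine forall_congr' fun t => ?_
    unfold shf
    simp only
    constructor
    · intro h
      linarith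
    · intro h
      linarith
  rwa [h5] at h3

end Pool.Agent.Helper93.AO
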