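import Pool.Agent.Helper93.AO.Unif
import Pool.Agent.Helper93.AO.Stek
import Pool.Agent.Helper93.AO.Det

/-!
# AO-FIN: the theorem

`stek`, `as_unif`, `det_main` with `G p` replaced by `Hx (G p) τ ω` (`hx_rho`, `WReg`: `Hx` is `C²` and periodic).
-/

open MeasureTheory Real Set Filter Topology

set_option autoImplicit false

namespace Pool.Agent.Helper93.AO

open Pool.Agent.Helper22.AE (IsSupp area rho)
open Pool.Agent.Helper22.LP (Fr fdet)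
open Pool.Agent.Helper92.LA (lcnt)

theorem hx_cd {H₀ : ℝ → ℝ} (h2 : ContDiff ℝ 2 H₀) (τ : ℝ) (ω : Om) : ContDiff ℝ 2 (Hx H₀ τ ω) := by
  have h : ContDiff ℝ 2 (WW ω) := (WW_smooth ω).of_le (by norm_num)
  exact h2.add (contDiff_const.mul h)

theorem hx_pd {H₀ : ℝ → ℝ} (hp : Function.Periodic H₀ (2 * π)) (τ : ℝ) (ω : Om) : Function.Periodic (Hx H₀ τ ω) (2 * π) := by
  intro t
  unfold Hx
  rw [hp t, WW_per ω t]

theorem ao_main {ν : Measure J1} [IsProbabilityMeasure ν] (hν : Rapid ν) {H₀ : ℝ → ℝ} (h2 : ContDiff ℝ 2 H₀) (hp : Function.Periodic H₀ (2 * π)) {τ : ℝ} (hτ : τ ≠ 0) :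
    ∀ᵐ ω ∂(PP ν), (∀ t, 0 < Hx H₀ τ ω t + deriv (deriv (Hx H₀ τ ω)) t) → ∀ ab : Fr, fdet ab ≠ 0 → ∃ C : ℝ, ∀ R : ℝ, 2 ≤ R → ∀ c : ℝ × ℝ,
      |lcnt ab (Hx H₀ τ ω) c R - area (Hx H₀ τ ω) * R ^ 2 / abs (fdet ab)| ≤ C * (R ^ (1 / 2 : ℝ) * log R ^ (1 / 4 : ℝ)) := by
  obtain ⟨G, K, hK, hG, hr, hc, hd⟩ := stek h2 hp
  filter_upwards [as_unif hν hτ hK hG hr] with ω hω hpos
  have hG2 : ∀ p, ContDiff ℝ 2 (G p) := fun p => (hG p).smooth.of_le (by norm_num)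
  refine det_main (hx_cd h2 τ ω) (hx_pd hp τ ω) hpos (G := fun p => Hx (G p) τ ω) (K := K) (fun p => hx_cd (hG2 p) τ ω) (fun p => hx_pd (hG p).per τ ω) ?_ ?_ hω
  · intro p t
    have e : Hx (G p) τ ω t - Hx H₀ τ ω t = G p t - H₀ t := by
      unfold Hx
      ring
    rw [e]
    exact hc p t
  · intro ε hε
    obtain ⟨p₀, h⟩ := hd ε hε
    refine ⟨p₀, fun p hp' t => ?_⟩
    rw [hx_rho (hG2 p), hx_rho h2]
    have e : rho (G p) t + τ * rho (WW ω) t - (rho H₀ t + τ * rho (WW ω) t) = rho (G p) t - rho H₀ t := by ring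
    rw [e]
    exact h p hp' t

end Pool.Agent.Helper93.AO
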