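import Pool.Agent.Helper93.AO.DetU
import Pool.Agent.Helper93.AO.Fin

/-!
# AO-OPEN: a violation of the bound is an open condition on the support function; the almost sure bound, uniformly on compact sets of lattices

If `H'` is uniformly close to `H`, then (after a shift) `(1 - δ) H ≤ H' ≤ (1 + δ) H`; a violation `|E| > C g(R)` at `R > 2` for `H` gives one for `H'` at `R / (1 - δ)` or at `R / (1 + δ)`.
-/

open MeasureTheory Real Set Filter Topology

set_option autoImplicit false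

namespace Pool.Agent.Helper93.AO

open Pool.Agent.Helper22.AE (IsSupp area rho dom dom_compact area_scale)
open Pool.Agent.Helper22.LP (Fr fdet rot_isSupp)
open Pool.Agent.Helper92.LA (Fb lcnt)
open Pool.Agent.Helper22.OV (shf shf_smooth shf_rho exists_shift area_shf)

/-- the order of the error -/
noncomputable def gR (R : ℝ) : ℝ := R ^ (1 / 2 : ℝ) * log R ^ (1 / 4 : ℝ)

/-- the error -/
noncomputable def Er (ab : Fr) (H : ℝ → ℝ) (c : ℝ × ℝ) (R : ℝ) : ℝ := lcnt ab H c R - area H * R ^ 2 / abs (fdet ab)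

/-- the support functions of class `C²` with positive radius of curvature -/
structure IsOv (H : ℝ → ℝ) : Prop where
  smooth : ContDiff ℝ 2 H
  per : Function.Periodic H (2 * π)
  rho_pos : ∀ t, 0 < H t + deriv (deriv H) t

private theorem area52 {A B : ℝ → ℝ} (hB : IsSupp B) (h : ∀ θ, A θ ≤ B θ) : area A ≤ area B :=
  ENNReal.toReal_mono (dom_compact hB).measure_lt_top.ne (measure_mono fun _ hp θ => (hp θ).trans (h θ))

private theorem scale52 {A : ℝ → ℝ} (hA : IsSupp A) {s : ℝ} (hs : 0 < s) :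
    IsSupp (fun θ => s * A θ) ∧ area (fun θ => s * A θ) = s ^ 2 * area A := by
  refine ⟨?_, area_scale hA hs⟩
  have h1 := rot_isSupp hA hs 0
  simpa using h1

private theorem lower52 {F : ℝ → ℝ} (hc : Continuous F) (hp : Function.Periodic F (2 * π)) (h0 : ∀ t, 0 < F t) :
    ∃ m : ℝ, 0 < m ∧ ∀ t, m ≤ F t := by
  have hK : IsCompact (Icc (0 : ℝ) (2 * π)) := isCompact_Icc
  have hne : (Icc (0 : ℝ) (2 * π)).Nonempty := ⟨0, by constructor <;> positivity⟩
  obtain ⟨x, _, hx⟩ := hK.exists_isMinOn hne hc.continuousOn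
  refine ⟨F x, h0 x, fun t => ?_⟩
  obtain ⟨s, hs, he⟩ := hp.exists_mem_Ico₀ (by positivity) t
  rw [he]
  exact hx ⟨hs.1, hs.2.le⟩

private theorem gcont52 {R : ℝ} (hR : 2 < R) : ContinuousAt gR R := by
  unfold gR
  have h1 : ContinuousAt (fun x : ℝ => x ^ (1 / 2 : ℝ)) R := Real.continuousAt_rpow_const _ _ (Or.inl (by linarith))
  have h2 : ContinuousAt (fun x : ℝ => log x ^ (1 / 4 : ℝ)) R :=
    (continuousAt_log (by linarith)).rpow_const (Or.inl (log_pos (by linarith)).ne')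
  exact h1.mul h2

theorem open_viol {H : ℝ → ℝ} (hH : IsOv H) {ab : Fr} (hab : fdet ab ≠ 0) {C R : ℝ} (hR : 2 < R) {c : ℝ × ℝ} (h : C * gR R < |Er ab H c R|) :
    ∃ ε : ℝ, 0 < ε ∧ ∀ H' : ℝ → ℝ, IsOv H' → (∀ t, |H' t - H t| < ε) → ∃ R' : ℝ, 2 < R' ∧ ∃ c' : ℝ × ℝ, C * gR R' < |Er ab H' c' R'| := by
  obtain ⟨v, hv⟩ := exists_shift hH.smooth hH.per hH.rho_pos
  obtain ⟨m, hm, hmin⟩ := lower52 hv.smooth.continuous hv.per hv.pos
  have hdet : 0 < |fdet ab| := abs_pos.2 hab
  -- comparison of `H'` with `H`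
  have comp : ∀ δ : ℝ, 0 < δ → δ < 1 → ∀ H' : ℝ → ℝ, IsOv H' → (∀ t, |H' t - H t| < δ * m) →
      IsSupp (shf H' v) ∧ (∀ t, (1 - δ) * shf H v t ≤ shf H' v t) ∧ (∀ t, shf H' v t ≤ (1 + δ) * shf H v t) ∧
        (1 - δ) ^ 2 * area H ≤ area H' ∧ area H' ≤ (1 + δ) ^ 2 * area H := by
    intro δ h0 h1 H' hH' hd
    have e : ∀ t, shf H' v t - shf H v t = H' t - H t := by
      intro t
      unfold shf
      ring
    have hδ : ∀ t, δ * m ≤ δ * shf H v t := fun t => mul_le_mul_of_nonneg_left (hmin t) h0.le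
    have hl : ∀ t, (1 - δ) * shf H v t ≤ shf H' v t := by
      intro t
      have h2 := (abs_lt.1 (hd t)).1
      rw [← e] at h2
      linarith [hδ t]
    have hu : ∀ t, shf H' v t ≤ (1 + δ) * shf H v t := by
      intro t
      have h2 := (abs_lt.1 (hd t)).2
      rw [← e] at h2
      linarith [hδ t]
    have hs : IsSupp (shf H' v) := by
      refine ⟨shf_smooth v hH'.smooth, ?_, fun t => lt_of_lt_of_le (mul_pos (by linarith) (hv.pos t)) (hl t), fun t => ?_⟩
      · intro t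
        unfold shf
        rw [hH'.per t, cos_add_two_pi, sin_add_two_pi]
      · rw [shf_rho v hH'.smooth]
        exact hH'.rho_pos t
    refine ⟨hs, hl, hu, ?_, ?_⟩
    · rw [← area_shf H v, ← area_shf H' v, ← (scale52 hv (s := 1 - δ) (by linarith)).2]
      exact area52 hs hl
    · have h5 := scale52 hv (s := 1 + δ) (by linarith)
      rw [← area_shf H v, ← area_shf H' v, ← h5.2]
      exact area52 h5.1 hu
  have hA0 : 0 ≤ area H := ENNReal.toReal_nonneg
  rcases lt_abs.1 h with h1 | h1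
  · -- too many points
    let u : ℝ → ℝ := fun δ => area H * ((1 + δ) / (1 - δ)) ^ 2 * R ^ 2 / |fdet ab| + C * gR (R / (1 - δ))
    have hcu : ContinuousAt u 0 := by
      have c1 : ContinuousAt (fun δ : ℝ => (1 + δ) / (1 - δ)) 0 :=
        (continuousAt_const.add continuousAt_id).div (continuousAt_const.sub continuousAt_id) (by norm_num)
      have c2 : ContinuousAt (fun δ : ℝ => R / (1 - δ)) 0 := continuousAt_const.div (continuousAt_const.sub continuousAt_id) (by norm_num)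
      have c3 : ContinuousAt (fun δ : ℝ => gR (R / (1 - δ))) 0 := by
        have : ContinuousAt gR (R / (1 - 0)) := by
          rw [sub_zero, div_one]
          exact gcont52 hR
        exact ContinuousAt.comp (f := fun δ : ℝ => R / (1 - δ)) this c2
      exact (((continuousAt_const.mul (c1.pow 2)).mul continuousAt_const).div_const _).add (continuousAt_const.mul c3)
    have hu0 : u 0 < lcnt ab H c R := by
      simp only [u, add_zero, sub_zero, div_one, one_pow, mul_one]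
      unfold Er at h1
      linarith
    obtain ⟨δ₀, hδ₀, hball⟩ := Metric.eventually_nhds_iff.1 (hcu.eventually (gt_mem_nhds hu0))
    obtain ⟨δ, hδ⟩ : ∃ δ : ℝ, δ = min (δ₀ / 2) (1 / 2) := ⟨_, rfl⟩
    have hδ0 : 0 < δ := by
      rw [hδ]
      exact lt_min (by linarith) (by norm_num)
    have hδ1 : δ ≤ 1 / 2 := by
      rw [hδ]
      exact min_le_right _ _
    have hδ2 : δ ≤ δ₀ / 2 := by
      rw [hδ]
      exact min_le_left _ _
    have hlt : u δ < lcnt ab H c R := hball (by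
      rw [Real.dist_eq, sub_zero, abs_of_pos hδ0]
      linarith)
    refine ⟨δ * m, by positivity, fun H' hH' hd => ?_⟩
    obtain ⟨hs, hl, hu, ha1, ha2⟩ := comp δ hδ0 (by linarith) H' hH' hd
    have hpos : 0 < 1 - δ := by linarith
    have hR' : R ≤ R / (1 - δ) := by
      rw [le_div_iff₀ hpos]
      nlinarith
    refine ⟨R / (1 - δ), by linarith, (c.1 + (R / (1 - δ) - R) * v.1, c.2 + (R / (1 - δ) - R) * v.2), ?_⟩
    have e1 : lcnt ab H' (c.1 + (R / (1 - δ) - R) * v.1, c.2 + (R / (1 - δ) - R) * v.2) (R / (1 - δ)) =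
        lcnt ab (shf H' v) (c.1 - R * v.1, c.2 - R * v.2) (R / (1 - δ)) := by
      rw [← lcnt_shf ab H' v]
      congr 1
      simp only [Prod.mk.injEq]
      constructor <;> ring
    have e2 : lcnt ab (shf H v) (c.1 - R * v.1, c.2 - R * v.2) R ≤ lcnt ab (shf H' v) (c.1 - R * v.1, c.2 - R * v.2) (R / (1 - δ)) := by
      refine lcnt_mono hv.per hs.per hab _ fun t => ?_
      rw [div_mul_eq_mul_div, le_div_iff₀ hpos]
      have h3 := mul_le_mul_of_nonneg_left (hl t) (show 0 ≤ R by linarith)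
      linarith
    rw [lcnt_shf] at e2
    refine lt_of_lt_of_le ?_ (le_abs_self _)
    unfold Er
    rw [e1]
    have e3 : area H' * (R / (1 - δ)) ^ 2 / |fdet ab| ≤ area H * ((1 + δ) / (1 - δ)) ^ 2 * R ^ 2 / |fdet ab| := by
      have e4 : area H * ((1 + δ) / (1 - δ)) ^ 2 * R ^ 2 = ((1 + δ) ^ 2 * area H) * (R / (1 - δ)) ^ 2 := by
        field_simp
      rw [e4]
      gcongr
    have e5 : area H * ((1 + δ) / (1 - δ)) ^ 2 * R ^ 2 / |fdet ab| + C * gR (R / (1 - δ)) < lcnt ab H c R := hlt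
    linarith
  · -- too few points
    let u : ℝ → ℝ := fun δ => area H * ((1 - δ) / (1 + δ)) ^ 2 * R ^ 2 / |fdet ab| - C * gR (R / (1 + δ))
    have hcu : ContinuousAt u 0 := by
      have c1 : ContinuousAt (fun δ : ℝ => (1 - δ) / (1 + δ)) 0 :=
        (continuousAt_const.sub continuousAt_id).div (continuousAt_const.add continuousAt_id) (by norm_num)
      have c2 : ContinuousAt (fun δ : ℝ => R / (1 + δ)) 0 := continuousAt_const.div (continuousAt_const.add continuousAt_id) (by norm_num)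
      have c3 : ContinuousAt (fun δ : ℝ => gR (R / (1 + δ))) 0 := by
        have : ContinuousAt gR (R / (1 + 0)) := by
          rw [add_zero, div_one]
          exact gcont52 hR
        exact ContinuousAt.comp (f := fun δ : ℝ => R / (1 + δ)) this c2
      exact (((continuousAt_const.mul (c1.pow 2)).mul continuousAt_const).div_const _).sub (continuousAt_const.mul c3)
    have hu0 : lcnt ab H c R < u 0 := by
      simp only [u, add_zero, sub_zero, div_one, one_pow, mul_one]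
      unfold Er at h1
      linarith
    have hcr : ContinuousAt (fun δ : ℝ => R / (1 + δ)) 0 := continuousAt_const.div (continuousAt_const.add continuousAt_id) (by norm_num)
    have hr0 : (2 : ℝ) < (fun δ : ℝ => R / (1 + δ)) 0 := by
      simp only [add_zero, div_one]
      exact hR
    obtain ⟨δ₀, hδ₀, hball⟩ := Metric.eventually_nhds_iff.1 ((hcu.eventually (lt_mem_nhds hu0)).and (hcr.eventually (lt_mem_nhds hr0)))
    obtain ⟨δ, hδ⟩ : ∃ δ : ℝ, δ = min (δ₀ / 2) (1 / 2) := ⟨_, rfl⟩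
    have hδ0 : 0 < δ := by
      rw [hδ]
      exact lt_min (by linarith) (by norm_num)
    have hδ1 : δ ≤ 1 / 2 := by
      rw [hδ]
      exact min_le_right _ _
    have hδ2 : δ ≤ δ₀ / 2 := by
      rw [hδ]
      exact min_le_left _ _
    obtain ⟨hlt, hR'⟩ := hball (show dist δ 0 < δ₀ by
      rw [Real.dist_eq, sub_zero, abs_of_pos hδ0]
      linarith)
    refine ⟨δ * m, by positivity, fun H' hH' hd => ?_⟩
    obtain ⟨hs, hl, hu, ha1, ha2⟩ := comp δ hδ0 (by linarith) H' hH' hd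
    have hpos : 0 < 1 + δ := by linarith
    refine ⟨R / (1 + δ), hR', (c.1 + (R / (1 + δ) - R) * v.1, c.2 + (R / (1 + δ) - R) * v.2), ?_⟩
    have e1 : lcnt ab H' (c.1 + (R / (1 + δ) - R) * v.1, c.2 + (R / (1 + δ) - R) * v.2) (R / (1 + δ)) =
        lcnt ab (shf H' v) (c.1 - R * v.1, c.2 - R * v.2) (R / (1 + δ)) := by
      rw [← lcnt_shf ab H' v]
      congr 1
      simp only [Prod.mk.injEq]
      constructor <;> ring
    have e2 : lcnt ab (shf H' v) (c.1 - R * v.1, c.2 - R * v.2) (R / (1 + δ)) ≤ lcnt ab (shf H v) (c.1 - R * v.1, c.2 - R * v.2) R := by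
      refine lcnt_mono hs.per hv.per hab _ fun t => ?_
      rw [div_mul_eq_mul_div, div_le_iff₀ hpos]
      have h3 := mul_le_mul_of_nonneg_left (hu t) (show 0 ≤ R by linarith)
      linarith
    rw [lcnt_shf] at e2
    refine lt_of_lt_of_le ?_ (neg_le_abs _)
    unfold Er
    rw [e1]
    have e3 : area H * ((1 - δ) / (1 + δ)) ^ 2 * R ^ 2 / |fdet ab| ≤ area H' * (R / (1 + δ)) ^ 2 / |fdet ab| := by
      have e4 : area H * ((1 - δ) / (1 + δ)) ^ 2 * R ^ 2 = ((1 - δ) ^ 2 * area H) * (R / (1 + δ)) ^ 2 := by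
        field_simp
      rw [e4]
      gcongr
    have e5 : lcnt ab H c R < area H * ((1 - δ) / (1 + δ)) ^ 2 * R ^ 2 / |fdet ab| - C * gR (R / (1 + δ)) := hlt
    linarith

theorem as_lat {ν : Measure J1} [IsProbabilityMeasure ν] (hν : Rapid ν) {H₀ : ℝ → ℝ} (h2 : ContDiff ℝ 2 H₀) (hp : Function.Periodic H₀ (2 * π)) {τ : ℝ} (hτ : τ ≠ 0) :
    ∀ᵐ ω ∂(PP ν), (∀ t, 0 < Hx H₀ τ ω t + deriv (deriv (Hx H₀ τ ω)) t) → ∀ M : ℝ, 1 ≤ M → ∃ C : ℝ, ∀ ab : Fr, Fb M ab → ∀ R : ℝ, 2 ≤ R → ∀ c : ℝ × ℝ,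
      |Er ab (Hx H₀ τ ω) c R| ≤ C * gR R := by
  obtain ⟨G, K, hK, hG, hr, hc, hd⟩ := stek h2 hp
  filter_upwards [as_unif hν hτ hK hG hr] with ω hω hpos M hM
  have hG2 : ∀ p, ContDiff ℝ 2 (G p) := fun p => (hG p).smooth.of_le (by norm_num)
  refine det_unif (hx_cd h2 τ ω) (hx_pd hp τ ω) hpos (G := fun p => Hx (G p) τ ω) (K := K) (fun p => hx_cd (hG2 p) τ ω) (fun p => hx_pd (hG p).per τ ω) ?_ ?_ hω hM
  · intro p t
    have e : Hx (G p) τ ω t - Hx H₀ τ ω t = G p t - H₀ t := by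
      unfold Hx
      ring
    rw [e]
    exact hc p t
  · intro ε hε
    obtain ⟨p₀, h⟩ := hd ε hε
    refine ⟨p₀, fun p hp' t => ?_⟩
    rw [hx_rho (hG2 p), hx_rho h2]
    have e : rho (G p) t + τ * rho (WW ω) t - (rho H₀ t + τ * rho (WW ω) t) = rho (G p) t - rho H₀ t := by ring
    rw [e]
    exact h p hp' t

/-- from `R > 2` to `R ≥ 2`, uniformly on a compact set of lattices -/
theorem two_of_lt {H : ℝ → ℝ} (hH : IsOv H) {M : ℝ} (hM : 1 ≤ M) {C : ℝ} (h : ∀ ab : Fr, Fb M ab → ∀ R : ℝ, 2 < R → ∀ c : ℝ × ℝ, |Er ab H c R| ≤ C * gR R) :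
    ∃ C' : ℝ, ∀ ab : Fr, Fb M ab → ∀ R : ℝ, 2 ≤ R → ∀ c : ℝ × ℝ, |Er ab H c R| ≤ C' * gR R := by
  obtain ⟨v, hv⟩ := exists_shift hH.smooth hH.per hH.rho_pos
  have hA0 : 0 ≤ area H := ENNReal.toReal_nonneg
  have hg2 : 0 < gR 2 := mul_pos (by positivity) (rpow_pos_of_pos (log_pos (by norm_num)) _)
  refine ⟨|C| + (area H * 3 ^ 2 * M + |C * gR 3|) / gR 2, fun ab hab R hR c => ?_⟩
  have hgR : 0 < gR R := mul_pos (rpow_pos_of_pos (by linarith) _) (rpow_pos_of_pos (log_pos (by linarith)) _)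
  have hk : 0 ≤ (area H * 3 ^ 2 * M + |C * gR 3|) / gR 2 := by positivity
  rcases hR.lt_or_eq with h2 | h2
  · have h3 := h ab hab R h2 c
    have h4 : C * gR R ≤ |C| * gR R := mul_le_mul_of_nonneg_right (le_abs_self C) hgR.le
    have h5 := mul_nonneg hk hgR.le
    linarith
  · subst h2
    have hf0 : 1 ≤ M * |fdet ab| := hab.det
    have hdf : 0 < |fdet ab| := by
      by_contra h
      have h1 : |fdet ab| = 0 := le_antisymm (not_lt.1 h) (abs_nonneg _)
      rw [h1, mul_zero] at hf0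
      linarith
    have hn : lcnt ab H c 2 ≤ lcnt ab H (c.1 + v.1, c.2 + v.2) 3 := by
      rw [← lcnt_shf ab H v c 2, ← lcnt_shf ab H v (c.1 + v.1, c.2 + v.2) 3]
      have e : (c.1 + v.1 - 3 * v.1, c.2 + v.2 - 3 * v.2) = (c.1 - 2 * v.1, c.2 - 2 * v.2) := by
        simp only [Prod.mk.injEq]
        constructor <;> ring
      simp only
      rw [e]
      refine lcnt_mono hv.per hv.per (abs_pos.1 hdf) _ fun t => ?_
      have := hv.pos t
      linarith
    have h3 := (abs_le.1 (h ab hab 3 (by norm_num) (c.1 + v.1, c.2 + v.2))).2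
    have h4 : 0 ≤ lcnt ab H c 2 := Nat.cast_nonneg _
    have h5 : area H * 3 ^ 2 / |fdet ab| ≤ area H * 3 ^ 2 * M := by
      rw [div_le_iff₀ hdf]
      have : area H * 3 ^ 2 * 1 ≤ area H * 3 ^ 2 * (M * |fdet ab|) := mul_le_mul_of_nonneg_left hf0 (by positivity)
      linarith
    have h6 : area H * 2 ^ 2 / |fdet ab| ≤ area H * 3 ^ 2 / |fdet ab| := by
      gcongr
      norm_num
    have h7 : 0 ≤ area H * 2 ^ 2 / |fdet ab| := by positivity
    have h8 : |Er ab H c 2| ≤ area H * 3 ^ 2 * M + |C * gR 3| := by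
      unfold Er at h3 ⊢
      have h9 := le_abs_self (C * gR 3)
      have h10 := abs_nonneg (C * gR 3)
      rw [abs_le]
      constructor <;> linarith
    have h9 : (area H * 3 ^ 2 * M + |C * gR 3|) / gR 2 * gR 2 = area H * 3 ^ 2 * M + |C * gR 3| := div_mul_cancel₀ _ hg2.ne'
    have h10 : 0 ≤ |C| * gR 2 := by positivity
    rw [add_mul, h9]
    linarith

end Pool.Agent.Helper93.AO
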