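import Pool.Agent.Helper93.AO.DefsL

/-!
# AO-SEC: lattice vectors in a narrow sector

`sec_low`: a linear map with bounded entries and `|det| ≥ 1/M` distorts lengths by a bounded factor (compare `fr_bd` in Helper92/LA/A2.lean, `fk_low` in Helper22/LP).
`sec_card`: fix `k₀ ∈ B`; for `k ∈ B` `|fk f k₀ × fk f k| = nr nr |sin (tr - tr)| ≤ C N² s` and `fk f k₀ × fk f k = fdet f · (k₀ × k)`, so `|k₀ × k| ≤ C M N² s =: D`. If `|k₀.1| ≥ N` (or `|k₀.2| ≥ N`): for each of the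
`≤ 4N + 1` values of `k.1` the number of `k.2` with `|k₀.1 k.2 - k₀.2 k.1| ≤ D` is `≤ 2D/N + 1`.
-/

open MeasureTheory Real Set Filter Topology

set_option autoImplicit false

namespace Pool.Agent.Helper93.AO

open Pool.Agent.Helper22.AE (ee rho)
open Pool.Agent.Helper22.AC (ga)
open Pool.Agent.Helper92.GC (dt sqa)
open Pool.Agent.Helper22.LP (Fr fk fdet nr tr hom LS wr Hf)
open Pool.Agent.Helper92.LA (Fb)

private lemma low88 {M : ℝ} (hM : 1 ≤ M) {f : Fr} (hf : Fb M f) {N : ℕ} {k : ℤ × ℤ} (hk : k ∈ sqa N) :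
    (N : ℝ) ≤ 2 * M ^ 2 * nr (fk f k) ∧ nr (fk f k) ≤ 8 * M * N := by
  have hM0 : 0 < M := by linarith
  have hdet : 1 ≤ M * |fdet f| := hf.det
  have hb1 : ((N : ℝ) ≤ |(k.1 : ℝ)| ∨ (N : ℝ) ≤ |(k.2 : ℝ)|) ∧ |(k.1 : ℝ)| ≤ 2 * N ∧ |(k.2 : ℝ)| ≤ 2 * N := by
    classical
    unfold sqa at hk
    obtain ⟨-, h1, h2, h3⟩ := Finset.mem_filter.1 hk
    refine ⟨?_, ?_, ?_⟩
    · rcases h1 with h | h
      · left
        exact_mod_cast h
      · right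
        exact_mod_cast h
    · exact_mod_cast h2.le
    · exact_mod_cast h3.le
  obtain ⟨hk0, hk1, hk2⟩ := hb1
  set x : ℝ := (fk f k).1 with hx
  set y : ℝ := (fk f k).2 with hy
  have ex : x = (k.1 : ℝ) * f.1.1 + (k.2 : ℝ) * f.2.1 := by
    simp [hx, fk, Pool.Agent.Helper22.LP.fv]
  have ey : y = (k.1 : ℝ) * f.1.2 + (k.2 : ℝ) * f.2.2 := by
    simp [hy, fk, Pool.Agent.Helper22.LP.fv]
  have hnr : nr (fk f k) = sqrt (x ^ 2 + y ^ 2) := by
    rw [Pool.Agent.Helper22.LP.nr_eq]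
  have hx1 : |x| ≤ sqrt (x ^ 2 + y ^ 2) := Real.abs_le_sqrt (by nlinarith [sq_nonneg y])
  have hy1 : |y| ≤ sqrt (x ^ 2 + y ^ 2) := Real.abs_le_sqrt (by nlinarith [sq_nonneg x])
  have hxy : sqrt (x ^ 2 + y ^ 2) ≤ |x| + |y| := by
    rw [Real.sqrt_le_left (by positivity)]
    nlinarith [sq_abs x, sq_abs y, mul_nonneg (abs_nonneg x) (abs_nonneg y)]
  have hN0 : (0 : ℝ) ≤ N := Nat.cast_nonneg N
  rw [hnr]
  set Z : ℝ := sqrt (x ^ 2 + y ^ 2) with hZ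
  have hZ0 : 0 ≤ Z := Real.sqrt_nonneg _
  have hlin : ∀ a b u v : ℝ, |a| ≤ u → |b| ≤ u → |v| ≤ M → ∀ w : ℝ, |w| ≤ M → |a * v + b * w| ≤ 2 * u * M := by
    intro a b u v ha hb hv w hw
    refine (abs_add_le _ _).trans ?_
    rw [abs_mul, abs_mul]
    have h5 := mul_le_mul ha hv (abs_nonneg _) ((abs_nonneg _).trans ha)
    have h6 := mul_le_mul hb hw (abs_nonneg _) ((abs_nonneg _).trans ha)
    linarith
  have key : ∀ t v w : ℝ, |v| ≤ M → |w| ≤ M → t * fdet f = x * v + y * w → |t| ≤ 2 * M ^ 2 * Z := by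
    intro t v w hv hw he
    have h4 : |t| * |fdet f| ≤ 2 * Z * M := by
      rw [← abs_mul, he]
      exact hlin x y Z v hx1 hy1 hv w hw
    calc |t| = |t| * 1 := (mul_one _).symm
      _ ≤ |t| * (M * |fdet f|) := mul_le_mul_of_nonneg_left hdet (abs_nonneg _)
      _ = M * (|t| * |fdet f|) := by ring
      _ ≤ M * (2 * Z * M) := mul_le_mul_of_nonneg_left h4 hM0.le
      _ = 2 * M ^ 2 * Z := by ring
  have k1 : |(k.1 : ℝ)| ≤ 2 * M ^ 2 * Z := key _ f.2.2 (-f.2.1) hf.d (by rw [abs_neg]; exact hf.c)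
    (by rw [ex, ey]; unfold fdet; ring)
  have k2 : |(k.2 : ℝ)| ≤ 2 * M ^ 2 * Z := key _ (-f.1.2) f.1.1 (by rw [abs_neg]; exact hf.b) hf.a
    (by rw [ex, ey]; unfold fdet; ring)
  have hxb : |x| ≤ 2 * (2 * N) * M := by rw [ex]; exact hlin _ _ _ _ hk1 hk2 hf.a _ hf.c
  have hyb : |y| ≤ 2 * (2 * N) * M := by rw [ey]; exact hlin _ _ _ _ hk1 hk2 hf.b _ hf.d
  refine ⟨?_, by linarith⟩
  rcases hk0 with h | h
  · exact h.trans k1
  · exact h.trans k2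

theorem sec_low {M : ℝ} (hM : 1 ≤ M) : ∃ C : ℝ, 1 ≤ C ∧ ∀ f : Fr, Fb M f → ∀ N : ℕ, 1 ≤ N → ∀ k ∈ sqa N, (N : ℝ) ≤ C * nr (fk f k) ∧ nr (fk f k) ≤ C * N := by
  refine ⟨8 * M ^ 2, by nlinarith, fun f hf N hN k hk => ?_⟩
  obtain ⟨h1, h2⟩ := low88 hM hf hk
  have hn : 0 ≤ nr (fk f k) := norm_nonneg _
  have hN0 : (0 : ℝ) ≤ N := Nat.cast_nonneg N
  constructor
  · nlinarith [mul_nonneg (sq_nonneg M) hn]
  · have h3 : M ≤ M ^ 2 := by nlinarith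
    nlinarith [mul_le_mul_of_nonneg_right h3 hN0]

theorem cross_eq (f : Fr) (k k' : ℤ × ℤ) : nr (fk f k) * nr (fk f k') * sin (tr (fk f k') - tr (fk f k)) = fdet f * ((k.1 * k'.2 - k.2 * k'.1 : ℤ) : ℝ) := by
  have e1 := Pool.Agent.Helper22.LP.nr_cos (fk f k)
  have e2 := Pool.Agent.Helper22.LP.nr_sin (fk f k)
  have e3 := Pool.Agent.Helper22.LP.nr_cos (fk f k')
  have e4 := Pool.Agent.Helper22.LP.nr_sin (fk f k')
  have h : nr (fk f k) * nr (fk f k') * sin (tr (fk f k') - tr (fk f k)) =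
      (nr (fk f k) * cos (tr (fk f k))) * (nr (fk f k') * sin (tr (fk f k'))) -
      (nr (fk f k) * sin (tr (fk f k))) * (nr (fk f k') * cos (tr (fk f k'))) := by
    rw [Real.sin_sub]
    ring
  rw [h, ← e1, ← e2, ← e3, ← e4]
  simp only [fk, Pool.Agent.Helper22.LP.fv, fdet]
  push_cast
  ring

/-- the number of integers in an interval -/
private lemma int88 (S : Finset ℤ) {L : ℝ} (hL : 0 ≤ L) (h : ∀ x ∈ S, ∀ y ∈ S, (y : ℝ) - x ≤ L) : (S.card : ℝ) ≤ L + 1 := by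
  rcases S.eq_empty_or_nonempty with rfl | hS
  · simp
    linarith
  · set m := S.min' hS with hm
    have hsub : S ⊆ Finset.Icc m (m + ⌊L⌋) := by
      intro y hy
      rw [Finset.mem_Icc]
      refine ⟨S.min'_le y hy, ?_⟩
      have h1 := h m (S.min'_mem hS) y hy
      have h2 : y - m ≤ ⌊L⌋ := by
        rw [Int.le_floor]
        push_cast
        exact h1
      linarith
    have h1 := Finset.card_le_card hsub
    rw [Int.card_Icc] at h1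
    have h2 : ((m + ⌊L⌋ + 1 - m).toNat : ℤ) = ⌊L⌋ + 1 := by
      rw [Int.toNat_of_nonneg]
      · ring
      · have := Int.floor_nonneg.2 hL
        linarith
    have h3 : ((m + ⌊L⌋ + 1 - m).toNat : ℝ) = ⌊L⌋ + 1 := by exact_mod_cast h2
    have h4 : (S.card : ℝ) ≤ ((m + ⌊L⌋ + 1 - m).toNat : ℝ) := by exact_mod_cast h1
    rw [h3] at h4
    linarith [Int.floor_le L]

private lemma cnt88 {N : ℕ} (hN : 1 ≤ N) (B : Finset (ℤ × ℤ)) (p q : ℤ × ℤ → ℤ)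
    (hinj : ∀ k k' : ℤ × ℤ, p k = p k' → q k = q k' → k = k') (hp : ∀ k ∈ B, |p k| ≤ 2 * N)
    {a b : ℤ} (ha : (N : ℝ) ≤ |(a : ℝ)|) {D : ℝ} (hD0 : 0 ≤ D)
    (hD : ∀ k ∈ B, |(a : ℝ) * q k - b * p k| ≤ D) : (B.card : ℝ) ≤ 10 * D + 5 * N := by
  classical
  have hN1 : (1 : ℝ) ≤ N := by exact_mod_cast hN
  set T : Finset ℤ := Finset.Icc (-(2 * (N : ℤ))) (2 * N) with hT
  have hmaps : ∀ k ∈ B, p k ∈ T := by
    intro k hk
    rw [hT, Finset.mem_Icc]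
    exact abs_le.1 (hp k hk)
  have hfib : ∀ t ∈ T, ((B.filter fun k => p k = t).card : ℝ) ≤ 2 * D / N + 1 := by
    intro t _
    have h1 : (B.filter fun k => p k = t).card = ((B.filter fun k => p k = t).image q).card := by
      rw [Finset.card_image_of_injOn]
      intro k hk k' hk' hq
      have e1 := (Finset.mem_filter.1 hk).2
      have e2 := (Finset.mem_filter.1 hk').2
      exact hinj k k' (e1.trans e2.symm) hq
    rw [h1]
    refine int88 _ (by positivity) ?_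
    intro x hx y hy
    obtain ⟨k, hk, rfl⟩ := Finset.mem_image.1 hx
    obtain ⟨k', hk', rfl⟩ := Finset.mem_image.1 hy
    obtain ⟨hkB, hkt⟩ := Finset.mem_filter.1 hk
    obtain ⟨hkB', hkt'⟩ := Finset.mem_filter.1 hk'
    have e1 := hD k hkB
    have e2 := hD k' hkB'
    rw [hkt] at e1
    rw [hkt'] at e2
    have e3 : |(a : ℝ) * ((q k' : ℝ) - q k)| ≤ 2 * D := by
      have : (a : ℝ) * ((q k' : ℝ) - q k) = ((a : ℝ) * q k' - b * t) - ((a : ℝ) * q k - b * t) := by ring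
      rw [this]
      exact (abs_sub _ _).trans (by linarith)
    rw [abs_mul] at e3
    have e4 : (N : ℝ) * |(q k' : ℝ) - q k| ≤ 2 * D :=
      (mul_le_mul_of_nonneg_right ha (abs_nonneg _)).trans e3
    rw [le_div_iff₀ (by linarith)]
    have e5 := le_abs_self ((q k' : ℝ) - q k)
    nlinarith
  have h2 : B.card = ∑ t ∈ T, (B.filter fun k => p k = t).card := Finset.card_eq_sum_card_fiberwise hmaps
  have h3 : (B.card : ℝ) ≤ (T.card : ℝ) * (2 * D / N + 1) := by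
    rw [h2]
    push_cast
    calc ∑ t ∈ T, ((B.filter fun k => p k = t).card : ℝ) ≤ ∑ _t ∈ T, (2 * D / N + 1) := Finset.sum_le_sum hfib
      _ = _ := by rw [Finset.sum_const, nsmul_eq_mul]
  have h4 : (T.card : ℝ) ≤ 5 * N := by
    have : T.card = 4 * N + 1 := by
      rw [hT, Int.card_Icc]
      omega
    rw [this]
    push_cast
    linarith
  calc (B.card : ℝ) ≤ (T.card : ℝ) * (2 * D / N + 1) := h3
    _ ≤ 5 * N * (2 * D / N + 1) := by gcongr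
    _ = 10 * D + 5 * N := by
      field_simp
      ring

theorem sec_card {M : ℝ} (hM : 1 ≤ M) : ∃ C : ℝ, 1 ≤ C ∧ ∀ f : Fr, Fb M f → ∀ N : ℕ, 1 ≤ N → ∀ B : Finset (ℤ × ℤ), B ⊆ sqa N → ∀ s : ℝ, 0 ≤ s →
    (∀ k ∈ B, ∀ k' ∈ B, |sin (tr (fk f k) - tr (fk f k'))| ≤ s) → (B.card : ℝ) ≤ C * ((N : ℝ) ^ 2 * s + N) := by
  have hM3 : 1 ≤ M ^ 3 := one_le_pow₀ hM
  refine ⟨645 * M ^ 3, by linarith, fun f hf N hN B hB s hs hsin => ?_⟩
  have hM0 : 0 < M := by linarith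
  have hN0 : (0 : ℝ) ≤ N := Nat.cast_nonneg N
  rcases B.eq_empty_or_nonempty with rfl | ⟨k₀, hk₀⟩
  · simp
    positivity
  have hdet : 1 ≤ M * |fdet f| := hf.det
  set D : ℝ := 64 * M ^ 3 * (N : ℝ) ^ 2 * s with hDdef
  have hD0 : 0 ≤ D := by positivity
  have hcross : ∀ k ∈ B, |((k₀.1 * k.2 - k₀.2 * k.1 : ℤ) : ℝ)| ≤ D := by
    intro k hk
    have h1 := cross_eq f k₀ k
    obtain ⟨-, h2⟩ := low88 hM hf (hB hk₀)
    obtain ⟨-, h3⟩ := low88 hM hf (hB hk)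
    have h4 := hsin k hk k₀ hk₀
    have hn0 : 0 ≤ nr (fk f k₀) := norm_nonneg _
    have hn1 : 0 ≤ nr (fk f k) := norm_nonneg _
    have h5 : |fdet f| * |((k₀.1 * k.2 - k₀.2 * k.1 : ℤ) : ℝ)| ≤ (8 * M * N) * (8 * M * N) * s := by
      rw [← abs_mul, ← h1, abs_mul, abs_mul, abs_of_nonneg hn0, abs_of_nonneg hn1]
      gcongr
    have h6 : 0 ≤ |((k₀.1 * k.2 - k₀.2 * k.1 : ℤ) : ℝ)| := abs_nonneg _
    calc |((k₀.1 * k.2 - k₀.2 * k.1 : ℤ) : ℝ)| = 1 * |((k₀.1 * k.2 - k₀.2 * k.1 : ℤ) : ℝ)| := (one_mul _).symm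
      _ ≤ (M * |fdet f|) * |((k₀.1 * k.2 - k₀.2 * k.1 : ℤ) : ℝ)| := by gcongr
      _ = M * (|fdet f| * |((k₀.1 * k.2 - k₀.2 * k.1 : ℤ) : ℝ)|) := by ring
      _ ≤ M * ((8 * M * N) * (8 * M * N) * s) := by gcongr
      _ = D := by rw [hDdef]; ring
  have hmem : ∀ k ∈ B, ((N : ℤ) ≤ |k.1| ∨ (N : ℤ) ≤ |k.2|) ∧ |k.1| ≤ 2 * N ∧ |k.2| ≤ 2 * N := by
    intro k hk
    classical
    have h1 := hB hk
    unfold sqa at h1
    obtain ⟨-, h1, h2, h3⟩ := Finset.mem_filter.1 h1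
    exact ⟨h1, h2.le, h3.le⟩
  have hmain : (B.card : ℝ) ≤ 10 * D + 5 * N := by
    rcases (hmem k₀ hk₀).1 with h | h
    · refine cnt88 hN B Prod.fst Prod.snd (fun k k' h1 h2 => Prod.ext h1 h2) (fun k hk => (hmem k hk).2.1)
        (a := k₀.1) (b := k₀.2) (by exact_mod_cast h) hD0 (fun k hk => ?_)
      have := hcross k hk
      push_cast at this
      exact this
    · refine cnt88 hN B Prod.snd Prod.fst (fun k k' h1 h2 => Prod.ext h2 h1) (fun k hk => (hmem k hk).2.2)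
        (a := k₀.2) (b := k₀.1) (by exact_mod_cast h) hD0 (fun k hk => ?_)
      have := hcross k hk
      push_cast at this
      rw [abs_sub_comm] at this
      exact this
  have h9 : (N : ℝ) ≤ M ^ 3 * N := le_mul_of_one_le_left hN0 hM3
  have hns : 0 ≤ M ^ 3 * ((N : ℝ) ^ 2 * s) := by positivity
  calc (B.card : ℝ) ≤ 10 * D + 5 * N := hmain
    _ = 640 * (M ^ 3 * ((N : ℝ) ^ 2 * s)) + 5 * N := by rw [hDdef]; ring
    _ ≤ 645 * M ^ 3 * ((N : ℝ) ^ 2 * s + N) := by nlinarith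

end Pool.Agent.Helper93.AO
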