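import Pool.Agent.Helper93.AO.Sec

/-!
# AO-LIP: the sums are Lipschitz in the parameters

One parameter after the other. `ga H α` is bounded by `2B`, periodic and Lipschitz with constant `2B`, and `ga H α t` is Lipschitz in `α` (derivative `-(H + H'')(t + α) sin α`): `hom_lip` (LA/C1.lean) for the dependence on `f` (`nr (fk f k - fk f' k) ≤ 2N·4·|f - f'|`),
`per_lip` for the weight (`nr (fk f' k) ≥ N/C`, `sec_low`), `|N/nr - N/nr'| ≤ C² |nr - nr'|/N`; `‖ee x - ee y‖ ≤ 2π|x - y|`; `|r| ≤ 16X`, `nr ≤ C N`, `|k| ≤ 2N`, `#sqa N ≤ 25 N²`. The factor `B²`: weights `≤ 2 B C`, phases `≤ C X N B d`.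
-/

open MeasureTheory Real Set Filter Topology

set_option autoImplicit false

namespace Pool.Agent.Helper93.AO

open Pool.Agent.Helper22.AE (ee rho)
open Pool.Agent.Helper22.AC (ga)
open Pool.Agent.Helper92.GC (dt sqa)
open Pool.Agent.Helper22.LP (Fr fk fdet nr tr hom LS wr Hf)
open Pool.Agent.Helper92.LA (Fb)

private theorem lipd31 {f : ℝ → ℝ} (hf : Differentiable ℝ f) {L : ℝ} (h : ∀ x, |deriv f x| ≤ L) (x y : ℝ) : |f x - f y| ≤ L * |x - y| := by
  have := Convex.norm_image_sub_le_of_norm_deriv_le (𝕜 := ℝ) (f := f) (C := L) (s := Set.univ) (x := y) (y := x)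
    (fun z _ => hf z) (fun z _ => by rw [Real.norm_eq_abs]; exact h z) convex_univ (mem_univ _) (mem_univ _)
  simpa only [Real.norm_eq_abs] using this

private theorem eelip31 (x y : ℝ) : ‖ee x - ee y‖ ≤ 2 * π * |x - y| := by
  have := Convex.norm_image_sub_le_of_norm_deriv_le (𝕜 := ℝ) (f := ee) (C := 2 * π) (s := Set.univ) (x := y) (y := x)
    (fun z _ => (Pool.Agent.Helper22.AE.ee_hasDerivAt z).differentiableAt) (fun z _ => by
      rw [(Pool.Agent.Helper22.AE.ee_hasDerivAt z).deriv, norm_mul, Pool.Agent.Helper22.AE.ee_norm, mul_one, norm_mul, Complex.norm_I, mul_one, norm_mul,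
        Complex.norm_real, Real.norm_eq_abs, abs_of_pos Real.pi_pos]
      simp) convex_univ (mem_univ _) (mem_univ _)
  simpa only [Real.norm_eq_abs] using this

private theorem perd31 {f : ℝ → ℝ} {T : ℝ} (h : Function.Periodic f T) : Function.Periodic (deriv f) T := by
  intro x
  have h1 : (fun y => f (y + T)) = f := funext h
  rw [← deriv_comp_add_const, h1]

private theorem hbb31 {B : ℝ} {H : ℝ → ℝ} (h : HB B H) :
    (∀ t, |H t| ≤ B) ∧ (∀ t, |deriv H t| ≤ B) ∧ (∀ t, |deriv (deriv H) t| ≤ B) ∧ (∀ t, |deriv (deriv (deriv H)) t| ≤ B) := by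
  refine ⟨fun t => ?_, fun t => ?_, fun t => ?_, fun t => ?_⟩
  · simpa only [iteratedDeriv_zero] using h.bd 0 (by norm_num) t
  · simpa only [iteratedDeriv_one] using h.bd 1 (by norm_num) t
  · have := h.bd 2 (by norm_num) t
    rwa [iteratedDeriv_succ, iteratedDeriv_one] at this
  · have := h.bd 3 le_rfl t
    rwa [iteratedDeriv_succ, iteratedDeriv_succ, iteratedDeriv_one] at this

private theorem hbd31 {B : ℝ} {H : ℝ → ℝ} (h : HB B H) :
    Differentiable ℝ H ∧ Differentiable ℝ (deriv H) ∧ Differentiable ℝ (deriv (deriv H)) := by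
  refine ⟨h.smooth.differentiable (by norm_num), ?_, ?_⟩
  · have := ContDiff.differentiable_iteratedDeriv 1 h.smooth (by norm_num)
    rwa [iteratedDeriv_one] at this
  · have := ContDiff.differentiable_iteratedDeriv 2 h.smooth (by norm_num)
    rwa [iteratedDeriv_succ, iteratedDeriv_one] at this

private theorem comb31 {B x y s t : ℝ} (hx : |x| ≤ B) (hy : |y| ≤ B) (hs : |s| ≤ 1) (ht : |t| ≤ 1) : |x * s - y * t| ≤ 2 * B := by
  have hB : 0 ≤ B := (abs_nonneg _).trans hx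
  have h1 : |x * s| ≤ B * 1 := by
    rw [abs_mul]
    exact mul_le_mul hx hs (abs_nonneg _) hB
  have h2 : |y * t| ≤ B * 1 := by
    rw [abs_mul]
    exact mul_le_mul hy ht (abs_nonneg _) hB
  have h3 := abs_sub (x * s) (y * t)
  linarith

private theorem ga_bd31 {B : ℝ} {H : ℝ → ℝ} (h : HB B H) (α t : ℝ) : |ga H α t| ≤ 2 * B := by
  unfold ga
  exact comb31 ((hbb31 h).1 _) ((hbb31 h).2.1 _) (Real.abs_cos_le_one _) (Real.abs_sin_le_one _)

private theorem ga_per31 {B : ℝ} {H : ℝ → ℝ} (h : HB B H) (α : ℝ) : Function.Periodic (ga H α) (2 * π) := by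
  intro t
  unfold ga
  have e : t + 2 * π + α = (t + α) + 2 * π := by ring
  rw [e, h.per, perd31 h.per]

private theorem ga_t31 {B : ℝ} {H : ℝ → ℝ} (h : HB B H) (α x y : ℝ) : |ga H α x - ga H α y| ≤ 2 * B * |x - y| := by
  obtain ⟨d0, d1, d2⟩ := hbd31 h
  have hd : ∀ t, HasDerivAt (ga H α) (deriv H (t + α) * cos α - deriv (deriv H) (t + α) * sin α) t := by
    intro t
    have h1 : HasDerivAt (fun t => H (t + α)) (deriv H (t + α)) t := (d0 (t + α)).hasDerivAt.comp_add_const t α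
    have h2 : HasDerivAt (fun t => deriv H (t + α)) (deriv (deriv H) (t + α)) t := (d1 (t + α)).hasDerivAt.comp_add_const t α
    exact (h1.mul_const (cos α)).sub (h2.mul_const (sin α))
  refine lipd31 (fun t => (hd t).differentiableAt) (fun t => ?_) x y
  rw [(hd t).deriv]
  exact comb31 ((hbb31 h).2.1 _) ((hbb31 h).2.2.1 _) (Real.abs_cos_le_one _) (Real.abs_sin_le_one _)

private theorem ga_a31 {B : ℝ} {H : ℝ → ℝ} (h : HB B H) (t α β : ℝ) : |ga H α t - ga H β t| ≤ 2 * B * |α - β| := by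
  obtain ⟨d0, d1, d2⟩ := hbd31 h
  have hd : ∀ α, HasDerivAt (fun α => ga H α t) (-(H (t + α) * sin α) - deriv (deriv H) (t + α) * sin α) α := by
    intro α
    have h1 : HasDerivAt (fun α => H (t + α)) (deriv H (t + α)) α := (d0 (t + α)).hasDerivAt.comp_const_add t α
    have h2 : HasDerivAt (fun α => deriv H (t + α)) (deriv (deriv H) (t + α)) α := (d1 (t + α)).hasDerivAt.comp_const_add t α
    have h3 := (h1.mul (Real.hasDerivAt_cos α)).sub (h2.mul (Real.hasDerivAt_sin α))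
    refine h3.congr_deriv ?_
    ring
  refine lipd31 (fun s => (hd s).differentiableAt) (fun s => ?_) α β
  rw [(hd s).deriv]
  have h4 := comb31 (s := -sin s) (t := sin s) ((hbb31 h).1 (t + s)) ((hbb31 h).2.2.1 (t + s)) (by rw [abs_neg]; exact Real.abs_sin_le_one _) (Real.abs_sin_le_one _)
  refine le_trans (le_of_eq ?_) h4
  congr 1
  ring

private theorem rho_bd31 {B : ℝ} {H : ℝ → ℝ} (h : HB B H) (t : ℝ) : |rho H t| ≤ 2 * B := by
  unfold rho
  have h1 := (hbb31 h).1 t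
  have h2 := (hbb31 h).2.2.1 t
  have h3 := abs_add_le (H t) (deriv (deriv H) t)
  linarith

private theorem rho_per31 {B : ℝ} {H : ℝ → ℝ} (h : HB B H) : Function.Periodic (rho H) (2 * π) := by
  intro t
  unfold rho
  rw [h.per, perd31 (perd31 h.per)]

private theorem rho_lip31 {B : ℝ} {H : ℝ → ℝ} (h : HB B H) (x y : ℝ) : |rho H x - rho H y| ≤ 2 * B * |x - y| := by
  obtain ⟨d0, d1, d2⟩ := hbd31 h
  have hd : ∀ t, HasDerivAt (rho H) (deriv H t + deriv (deriv (deriv H)) t) t := by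
    intro t
    exact (d0 t).hasDerivAt.add (d2 t).hasDerivAt
  refine lipd31 (fun t => (hd t).differentiableAt) (fun t => ?_) x y
  rw [(hd t).deriv]
  have h1 := (hbb31 h).2.1 t
  have h2 := (hbb31 h).2.2.2 t
  have h3 := abs_add_le (deriv H t) (deriv (deriv (deriv H)) t)
  linarith

private theorem sqa31 {N : ℕ} {k : ℤ × ℤ} (hk : k ∈ sqa N) : |(k.1 : ℝ)| ≤ 2 * N ∧ |(k.2 : ℝ)| ≤ 2 * N := by
  classical
  unfold sqa at hk
  obtain ⟨-, -, h2, h3⟩ := Finset.mem_filter.1 hk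
  refine ⟨?_, ?_⟩
  · exact_mod_cast h2.le
  · exact_mod_cast h3.le

private theorem card31 {N : ℕ} (hN : 1 ≤ N) : ((sqa N).card : ℝ) ≤ 25 * (N : ℝ) ^ 2 := by
  classical
  have h1 : (sqa N).card ≤ (Pool.Agent.Helper22.AE.box (2 * N)).card := Finset.card_le_card (Finset.filter_subset _ _)
  have h2 : (Pool.Agent.Helper22.AE.box (2 * N)).card = (4 * N + 1) ^ 2 := by
    unfold Pool.Agent.Helper22.AE.box
    rw [Finset.card_product, Int.card_Icc]
    have : (((2 * N : ℕ) : ℤ) + 1 - -((2 * N : ℕ) : ℤ)).toNat = 4 * N + 1 := by omega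
    rw [this]
    ring
  rw [h2] at h1
  have h3 : ((sqa N).card : ℝ) ≤ (4 * (N : ℝ) + 1) ^ 2 := by exact_mod_cast h1
  have h4 : (1 : ℝ) ≤ N := by exact_mod_cast hN
  refine h3.trans ?_
  nlinarith

private theorem prod31 (A w e A' w' e' : ℂ) : ‖A * w * e - A' * w' * e'‖ ≤ ‖A - A'‖ * ‖w‖ * ‖e‖ + ‖A'‖ * ‖w - w'‖ * ‖e‖ + ‖A'‖ * ‖w'‖ * ‖e - e'‖ := by
  have e1 : A * w * e - A' * w' * e' = (A - A') * w * e + A' * (w - w') * e + A' * w' * (e - e') := by ring
  rw [e1]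
  refine (norm_add_le _ _).trans ?_
  refine (add_le_add (norm_add_le _ _) le_rfl).trans ?_
  simp only [norm_mul]
  exact le_rfl

/-- the difference of the frequencies -/
private theorem dif31 {N : ℕ} {k : ℤ × ℤ} (hk : k ∈ sqa N) {f f' : Fr} {d : ℝ} (h1 : |f.1.1 - f'.1.1| ≤ d) (h2 : |f.1.2 - f'.1.2| ≤ d)
    (h3 : |f.2.1 - f'.2.1| ≤ d) (h4 : |f.2.2 - f'.2.2| ≤ d) :
    nr ((fk f k).1 - (fk f' k).1, (fk f k).2 - (fk f' k).2) ≤ 8 * N * d := by
  obtain ⟨k1, k2⟩ := sqa31 hk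
  have hN : (0 : ℝ) ≤ 2 * N := by positivity
  refine (Pool.Agent.Helper92.LA.nr_le_add _).trans ?_
  have key : ∀ a b : ℝ, |a| ≤ d → |b| ≤ d → |(k.1 : ℝ) * a + (k.2 : ℝ) * b| ≤ 4 * N * d := by
    intro a b ha hb
    refine (abs_add_le _ _).trans ?_
    rw [abs_mul, abs_mul]
    have a1 := mul_le_mul k1 ha (abs_nonneg _) hN
    have a2 := mul_le_mul k2 hb (abs_nonneg _) hN
    linarith
  have e1 : (fk f k).1 - (fk f' k).1 = (k.1 : ℝ) * (f.1.1 - f'.1.1) + (k.2 : ℝ) * (f.2.1 - f'.2.1) := by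
    unfold Pool.Agent.Helper22.LP.fk Pool.Agent.Helper22.LP.fv
    simp only
    ring
  have e2 : (fk f k).2 - (fk f' k).2 = (k.1 : ℝ) * (f.1.2 - f'.1.2) + (k.2 : ℝ) * (f.2.2 - f'.2.2) := by
    unfold Pool.Agent.Helper22.LP.fk Pool.Agent.Helper22.LP.fv
    simp only
    ring
  simp only
  rw [e1, e2]
  have := key _ _ h1 h3
  have := key _ _ h2 h4
  linarith

private theorem quot31 {C N n₁ n₂ D : ℝ} (hC : 1 ≤ C) (hN : 1 ≤ N) (h1 : N ≤ C * n₁) (h2 : N ≤ C * n₂) (hn₁ : 0 < n₁) (hn₂ : 0 < n₂) (hD : |n₁ - n₂| ≤ D) :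
    0 ≤ N / n₁ ∧ N / n₁ ≤ C ∧ 0 ≤ N / n₂ ∧ N / n₂ ≤ C ∧ |N / n₁ - N / n₂| ≤ C ^ 2 * (D / N) := by
  have hN0 : 0 < N := by linarith
  have a1 : N / n₁ ≤ C := by rwa [div_le_iff₀ hn₁]
  have a2 : N / n₂ ≤ C := by rwa [div_le_iff₀ hn₂]
  refine ⟨by positivity, a1, by positivity, a2, ?_⟩
  have e : N / n₁ - N / n₂ = (N / n₁) * (N / n₂) * ((n₂ - n₁) / N) := by
    field_simp
  rw [e, abs_mul, abs_mul, abs_of_nonneg (show 0 ≤ N / n₁ by positivity), abs_of_nonneg (show 0 ≤ N / n₂ by positivity), abs_div, abs_of_pos hN0, abs_sub_comm]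
  have b1 : N / n₁ * (N / n₂) ≤ C ^ 2 := by
    have := mul_le_mul a1 a2 (by positivity) (by linarith)
    linarith [this, sq C]
  exact mul_le_mul b1 (div_le_div_of_nonneg_right hD hN0.le) (by positivity) (by positivity)

/-- the difference of the phases -/
private theorem phase31 {B : ℝ} (hB : 1 ≤ B) {H : ℝ → ℝ} (hH : HB B H) {X : ℝ} (hX : 1 ≤ X) {N : ℕ} (hN : 1 ≤ N) {C : ℝ} (hC : 1 ≤ C) {k : ℤ × ℤ} (hk : k ∈ sqa N)
    {v v' : ℝ × ℝ} (hv : nr v ≤ C * N) (hv' : nr v' ≤ C * N) {d : ℝ} (hd : 0 ≤ d) (hD : nr (v.1 - v'.1, v.2 - v'.2) ≤ 8 * N * d)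
    {α α' r r' : ℝ} {c c' : ℝ × ℝ} (hr' : |r'| ≤ 16 * X) (h5 : |α - α'| ≤ d) (h6 : |r - r'| ≤ d) (h7 : |c.1 - c'.1| ≤ d) (h8 : |c.2 - c'.2| ≤ d) :
    |(r * hom (ga H α) v + dt k c) - (r' * hom (ga H α') v' + dt k c')| ≤ 1400 * (C * B * X * N * d) := by
  obtain ⟨k1, k2⟩ := sqa31 hk
  have hN1 : (1 : ℝ) ≤ N := by exact_mod_cast hN
  have hN0 : (0 : ℝ) ≤ N := by linarith
  have hB0 : (0 : ℝ) ≤ B := by linarith
  have hC0 : (0 : ℝ) ≤ C := by linarith
  have hX0 : (0 : ℝ) ≤ X := by linarith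
  have n0 : 0 ≤ nr v := norm_nonneg _
  have n0' : 0 ≤ nr v' := norm_nonneg _
  -- the four differences
  have e : (r * hom (ga H α) v + dt k c) - (r' * hom (ga H α') v' + dt k c') =
      (r - r') * hom (ga H α) v + r' * (hom (ga H α) v - hom (ga H α) v') + r' * (hom (ga H α) v' - hom (ga H α') v') + (dt k c - dt k c') := by ring
  have a1 : |(r - r') * hom (ga H α) v| ≤ d * (C * N * (2 * B)) := by
    rw [abs_mul]
    refine mul_le_mul h6 ?_ (abs_nonneg _) hd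
    unfold Pool.Agent.Helper22.LP.hom
    rw [abs_mul, abs_of_nonneg n0]
    exact mul_le_mul hv (ga_bd31 hH _ _) (abs_nonneg _) (by positivity)
  have a2 : |r' * (hom (ga H α) v - hom (ga H α) v')| ≤ 16 * X * ((2 * B + 4 * (2 * B)) * (8 * N * d)) := by
    rw [abs_mul]
    refine mul_le_mul hr' ?_ (abs_nonneg _) (by positivity)
    refine (Pool.Agent.Helper92.LA.hom_lip (ga_per31 hH α) (ga_bd31 hH α) (L := 2 * B) (by positivity) (ga_t31 hH α) v v').trans ?_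
    exact mul_le_mul_of_nonneg_left hD (by positivity)
  have a3 : |r' * (hom (ga H α) v' - hom (ga H α') v')| ≤ 16 * X * (C * N * (2 * B * d)) := by
    rw [abs_mul]
    refine mul_le_mul hr' ?_ (abs_nonneg _) (by positivity)
    unfold Pool.Agent.Helper22.LP.hom
    rw [← mul_sub, abs_mul, abs_of_nonneg n0']
    refine mul_le_mul hv' ?_ (abs_nonneg _) (by positivity)
    exact (ga_a31 hH _ _ _).trans (mul_le_mul_of_nonneg_left h5 (by positivity))
  have a4 : |dt k c - dt k c'| ≤ 4 * N * d := by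
    have e2 : dt k c - dt k c' = (k.1 : ℝ) * (c.1 - c'.1) + (k.2 : ℝ) * (c.2 - c'.2) := by
      unfold Pool.Agent.Helper92.GC.dt
      ring
    rw [e2]
    refine (abs_add_le _ _).trans ?_
    rw [abs_mul, abs_mul]
    have b1 := mul_le_mul k1 h7 (abs_nonneg _) (show (0 : ℝ) ≤ 2 * N by positivity)
    have b2 := mul_le_mul k2 h8 (abs_nonneg _) (show (0 : ℝ) ≤ 2 * N by positivity)
    linarith
  rw [e]
  refine (abs_add_le _ _).trans ?_
  refine (add_le_add (abs_add_le _ _) le_rfl).trans ?_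
  refine (add_le_add (add_le_add (abs_add_le _ _) le_rfl) le_rfl).trans ?_
  refine (add_le_add (add_le_add (add_le_add a1 a2) a3) a4).trans ?_
  have hNd : 0 ≤ (N : ℝ) * d := by positivity
  have c1 : (N : ℝ) * d ≤ C * B * X * N * d := by
    have : 1 ≤ C * B * X := by
      have h1 : 1 ≤ C * B := one_le_mul_of_one_le_of_one_le hC hB
      exact one_le_mul_of_one_le_of_one_le h1 hX
    calc (N : ℝ) * d = 1 * (N * d) := by ring
      _ ≤ C * B * X * (N * d) := mul_le_mul_of_nonneg_right this hNd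
      _ = C * B * X * N * d := by ring
  have c2 : C * B * (N * d) ≤ C * B * X * N * d := by
    calc C * B * (N * d) = (C * B * (N * d)) * 1 := by ring
      _ ≤ (C * B * (N * d)) * X := mul_le_mul_of_nonneg_left hX (by positivity)
      _ = C * B * X * N * d := by ring
  have c3 : B * X * (N * d) ≤ C * B * X * N * d := by
    calc B * X * (N * d) = 1 * (B * X * (N * d)) := by ring
      _ ≤ C * (B * X * (N * d)) := mul_le_mul_of_nonneg_right hC (by positivity)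
      _ = C * B * X * N * d := by ring
  have e3 : d * (C * N * (2 * B)) + 16 * X * ((2 * B + 4 * (2 * B)) * (8 * N * d)) + 16 * X * (C * N * (2 * B * d)) + 4 * N * d =
      2 * (C * B * (N * d)) + 1280 * (B * X * (N * d)) + 32 * (C * B * X * N * d) + 4 * (N * d) := by ring
  have c4 : 0 ≤ C * B * X * N * d := by positivity
  rw [e3]
  linarith

/-- the difference of the weights -/
private theorem wt31 {B : ℝ} (hB : 1 ≤ B) {H : ℝ → ℝ} (hH : HB B H) {N : ℕ} (hN : 1 ≤ N) {C : ℝ} (hC : 1 ≤ C)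
    {v v' : ℝ × ℝ} (hv' : (N : ℝ) ≤ C * nr v') {d : ℝ} (hd : 0 ≤ d) (hD : nr (v.1 - v'.1, v.2 - v'.2) ≤ 8 * N * d)
    {α α' : ℝ} (h5 : |α - α'| ≤ d) (i : ℕ) : ‖wi i H α v‖ ≤ 2 * B ∧ ‖wi i H α' v'‖ ≤ 2 * B ∧ ‖wi i H α v - wi i H α' v'‖ ≤ 66 * (C * B * d) := by
  have hN1 : (1 : ℝ) ≤ N := by exact_mod_cast hN
  have hB0 : (0 : ℝ) ≤ B := by linarith
  have hC0 : (0 : ℝ) ≤ C := by linarith
  have n0 : 0 < nr v' := by
    by_contra hcon
    have h1 : C * nr v' ≤ 0 := mul_nonpos_of_nonneg_of_nonpos hC0 (not_lt.1 hcon)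
    linarith
  by_cases hi : i = 1
  · unfold wi
    rw [if_pos hi, if_pos hi]
    unfold Pool.Agent.Helper22.LP.wr
    refine ⟨?_, ?_, ?_⟩
    · rw [Complex.norm_real]
      exact rho_bd31 hH _
    · rw [Complex.norm_real]
      exact rho_bd31 hH _
    · rw [← Complex.ofReal_sub, Complex.norm_real, Real.norm_eq_abs]
      have e : rho H (tr v + α) - rho H (tr v' + α') = (rho H (tr v + α) - rho H (tr v' + α)) + (rho H (tr v' + α) - rho H (tr v' + α')) := by ring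
      rw [e]
      refine (abs_add_le _ _).trans ?_
      have hper : Function.Periodic (fun t => rho H (t + α)) (2 * π) := by
        intro t
        have e2 : t + 2 * π + α = (t + α) + 2 * π := by ring
        show rho H (t + 2 * π + α) = rho H (t + α)
        rw [e2, rho_per31 hH]
      have b1 := Pool.Agent.Helper92.LA.per_lip hper (L := 2 * B) (by positivity) (fun x y => by
        rw [Real.norm_eq_abs]
        have := rho_lip31 hH (x + α) (y + α)
        rwa [add_sub_add_right_eq_sub] at this) v v'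
      rw [Real.norm_eq_abs] at b1
      have b2 : |rho H (tr v + α) - rho H (tr v' + α)| * nr v' ≤ 64 * (C * B * d) * nr v' := by
        refine b1.trans ?_
        calc 4 * (2 * B) * nr (v.1 - v'.1, v.2 - v'.2) ≤ 4 * (2 * B) * (8 * N * d) := mul_le_mul_of_nonneg_left hD (by positivity)
          _ = 64 * (B * d) * N := by ring
          _ ≤ 64 * (B * d) * (C * nr v') := mul_le_mul_of_nonneg_left hv' (by positivity)
          _ = 64 * (C * B * d) * nr v' := by ring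
      have b3 : |rho H (tr v + α) - rho H (tr v' + α)| ≤ 64 * (C * B * d) := le_of_mul_le_mul_right b2 n0
      have b4 : |rho H (tr v' + α) - rho H (tr v' + α')| ≤ 2 * (B * d) := by
        refine (rho_lip31 hH _ _).trans ?_
        rw [add_sub_add_left_eq_sub, mul_assoc]
        have := mul_le_mul_of_nonneg_left h5 hB0
        linarith
      have b5 : B * d ≤ C * B * d := by
        calc B * d = 1 * (B * d) := by ring
          _ ≤ C * (B * d) := mul_le_mul_of_nonneg_right hC (by positivity)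
          _ = C * B * d := by ring
      linarith
  · unfold wi
    rw [if_neg hi, if_neg hi]
    refine ⟨?_, ?_, ?_⟩
    · rw [norm_one]
      linarith
    · rw [norm_one]
      linarith
    · rw [sub_self, norm_zero]
      positivity

theorem ss_lip {M : ℝ} (hM : 1 ≤ M) : ∃ C : ℝ, 1 ≤ C ∧ ∀ B : ℝ, 1 ≤ B → ∀ H : ℝ → ℝ, HB B H → ∀ X : ℝ, 1 ≤ X → ∀ N : ℕ, 1 ≤ N → ∀ i : ℕ, i = 1 ∨ i = 2 →
    ∀ f f' : Fr, Fb M f → Fb M f' → ∀ α α' r r' : ℝ, |α| ≤ 1 → |α'| ≤ 1 → |r| ≤ 16 * X → |r'| ≤ 16 * X → ∀ c c' : ℝ × ℝ, ∀ d : ℝ,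
      |f.1.1 - f'.1.1| ≤ d → |f.1.2 - f'.1.2| ≤ d → |f.2.1 - f'.2.1| ≤ d → |f.2.2 - f'.2.2| ≤ d → |α - α'| ≤ d → |r - r'| ≤ d → |c.1 - c'.1| ≤ d → |c.2 - c'.2| ≤ d →
        ‖SS H f α r c i N - SS H f' α' r' c' i N‖ ≤ C * B ^ 2 * X * (N : ℝ) ^ 4 * d := by
  obtain ⟨C, hC, hs⟩ := sec_low hM
  have hC0 : (0 : ℝ) ≤ C := by linarith
  have hC3 : 1 ≤ C ^ 3 := one_le_pow₀ hC
  refine ⟨500000 * C ^ 3, by linarith, ?_⟩
  intro B hB H hH X hX N hN i hi f f' hf hf' α α' r r' _ _ _ hr' c c' d h1 h2 h3 h4 h5 h6 h7 h8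
  have hd : 0 ≤ d := (abs_nonneg _).trans h1
  have hN1 : (1 : ℝ) ≤ N := by exact_mod_cast hN
  have hN0 : (0 : ℝ) < N := by linarith
  have hB0 : (0 : ℝ) ≤ B := by linarith
  have hX0 : (0 : ℝ) ≤ X := by linarith
  have hterm : ∀ k ∈ sqa N, ‖Tm H f α r c i N k - Tm H f' α' r' c' i N k‖ ≤ 20000 * (C ^ 3 * B ^ 2 * X * N * d) := by
    intro k hk
    obtain ⟨s1, s2⟩ := hs f hf N hN k hk
    obtain ⟨s3, s4⟩ := hs f' hf' N hN k hk
    have hD := dif31 hk h1 h2 h3 h4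
    have hpos : ∀ x : ℝ, (N : ℝ) ≤ C * x → 0 < x := by
      intro x hx
      by_contra hcon
      have := mul_nonpos_of_nonneg_of_nonpos hC0 (not_lt.1 hcon)
      linarith
    obtain ⟨q1, q2, q3, q4, q5⟩ := quot31 hC hN1 s1 s3 (hpos _ s1) (hpos _ s3) ((Pool.Agent.Helper92.LA.nr_sub_le (fk f k) (fk f' k)).trans hD)
    have q6 : C ^ 2 * (8 * (N : ℝ) * d / N) = 8 * (C ^ 2 * d) := by
      field_simp
    rw [q6] at q5
    have hph := phase31 hB hH hX hN hC hk s2 s4 hd hD hr' h5 h6 h7 h8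
    obtain ⟨w1, w2, w3⟩ := wt31 hB hH hN hC s3 hd hD h5 i
    have hC2 : 1 ≤ C ^ 2 := one_le_pow₀ hC
    have hA' : ‖(((N : ℝ) / nr (fk f' k) : ℝ) : ℂ) ^ i‖ ≤ C ^ 2 := by
      rw [norm_pow, Complex.norm_real, Real.norm_eq_abs, abs_of_nonneg q3]
      have hi2 : i ≤ 2 := by omega
      exact (pow_le_pow_left₀ q3 q4 i).trans (pow_le_pow_right₀ hC hi2)
    have hA : ‖(((N : ℝ) / nr (fk f k) : ℝ) : ℂ) ^ i - (((N : ℝ) / nr (fk f' k) : ℝ) : ℂ) ^ i‖ ≤ 16 * (C ^ 3 * d) := by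
      have hC2d : C ^ 2 * d ≤ C ^ 3 * d := mul_le_mul_of_nonneg_right (pow_le_pow_right₀ hC (by norm_num)) hd
      have hC3d : 0 ≤ C ^ 3 * d := by positivity
      rcases hi with rfl | rfl
      · rw [pow_one, pow_one, ← Complex.ofReal_sub, Complex.norm_real, Real.norm_eq_abs]
        linarith
      · rw [← Complex.ofReal_pow, ← Complex.ofReal_pow, ← Complex.ofReal_sub, Complex.norm_real, Real.norm_eq_abs]
        have e : ((N : ℝ) / nr (fk f k)) ^ 2 - ((N : ℝ) / nr (fk f' k)) ^ 2 =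
            ((N : ℝ) / nr (fk f k) + (N : ℝ) / nr (fk f' k)) * ((N : ℝ) / nr (fk f k) - (N : ℝ) / nr (fk f' k)) := by ring
        rw [e, abs_mul, abs_of_nonneg (add_nonneg q1 q3)]
        calc ((N : ℝ) / nr (fk f k) + (N : ℝ) / nr (fk f' k)) * |(N : ℝ) / nr (fk f k) - (N : ℝ) / nr (fk f' k)| ≤ (2 * C) * (8 * (C ^ 2 * d)) :=
              mul_le_mul (by linarith) q5 (abs_nonneg _) (by positivity)
          _ = 16 * (C ^ 3 * d) := by ring
    have hee : ‖ee (r * hom (ga H α) (fk f k) + dt k c) - ee (r' * hom (ga H α') (fk f' k) + dt k c')‖ ≤ 9800 * (C * B * X * N * d) := by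
      refine (eelip31 _ _).trans ?_
      have hpi : 2 * π ≤ 7 := by linarith [Real.pi_lt_d2]
      have := mul_le_mul hpi hph (abs_nonneg _) (by norm_num)
      linarith
    unfold Tm
    refine (prod31 _ _ _ _ _ _).trans ?_
    rw [Pool.Agent.Helper22.AE.ee_norm, mul_one, mul_one]
    have t1 : ‖(((N : ℝ) / nr (fk f k) : ℝ) : ℂ) ^ i - (((N : ℝ) / nr (fk f' k) : ℝ) : ℂ) ^ i‖ * ‖wi i H α (fk f k)‖ ≤ 16 * (C ^ 3 * d) * (2 * B) :=
      mul_le_mul hA w1 (norm_nonneg _) (by positivity)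
    have t2 : ‖(((N : ℝ) / nr (fk f' k) : ℝ) : ℂ) ^ i‖ * ‖wi i H α (fk f k) - wi i H α' (fk f' k)‖ ≤ C ^ 2 * (66 * (C * B * d)) :=
      mul_le_mul hA' w3 (norm_nonneg _) (by positivity)
    have t3 : ‖(((N : ℝ) / nr (fk f' k) : ℝ) : ℂ) ^ i‖ * ‖wi i H α' (fk f' k)‖ *
        ‖ee (r * hom (ga H α) (fk f k) + dt k c) - ee (r' * hom (ga H α') (fk f' k) + dt k c')‖ ≤ C ^ 2 * (2 * B) * (9800 * (C * B * X * N * d)) :=
      mul_le_mul (mul_le_mul hA' w2 (norm_nonneg _) (by positivity)) hee (norm_nonneg _) (by positivity)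
    refine (add_le_add (add_le_add t1 t2) t3).trans ?_
    have u0 : 0 ≤ C ^ 3 * B ^ 2 * X * N * d := by positivity
    have u1 : C ^ 3 * B * d ≤ C ^ 3 * B ^ 2 * X * N * d := by
      have hh : 1 ≤ B * X * N := one_le_mul_of_one_le_of_one_le (one_le_mul_of_one_le_of_one_le hB hX) hN1
      calc C ^ 3 * B * d = (C ^ 3 * B * d) * 1 := by ring
        _ ≤ (C ^ 3 * B * d) * (B * X * N) := mul_le_mul_of_nonneg_left hh (by positivity)
        _ = C ^ 3 * B ^ 2 * X * N * d := by ring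
    have e4 : 16 * (C ^ 3 * d) * (2 * B) + C ^ 2 * (66 * (C * B * d)) + C ^ 2 * (2 * B) * (9800 * (C * B * X * N * d)) =
        98 * (C ^ 3 * B * d) + 19600 * (C ^ 3 * B ^ 2 * X * N * d) := by ring
    rw [e4]
    linarith
  unfold SS
  rw [← Finset.sum_sub_distrib]
  refine (norm_sum_le _ _).trans ?_
  refine (Finset.sum_le_card_nsmul _ _ _ hterm).trans ?_
  rw [nsmul_eq_mul]
  have hc := card31 hN
  have v0 : 0 ≤ 20000 * (C ^ 3 * B ^ 2 * X * N * d) := by positivity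
  refine (mul_le_mul_of_nonneg_right hc v0).trans ?_
  have hN34 : (N : ℝ) ^ 3 ≤ (N : ℝ) ^ 4 := pow_le_pow_right₀ hN1 (by norm_num)
  have e5 : 25 * (N : ℝ) ^ 2 * (20000 * (C ^ 3 * B ^ 2 * X * N * d)) = (500000 * C ^ 3 * B ^ 2 * X * d) * (N : ℝ) ^ 3 := by ring
  have e6 : 500000 * C ^ 3 * B ^ 2 * X * (N : ℝ) ^ 4 * d = (500000 * C ^ 3 * B ^ 2 * X * d) * (N : ℝ) ^ 4 := by ring
  rw [e5, e6]
  exact mul_le_mul_of_nonneg_left hN34 (by positivity)

private theorem ee_int31 (x : ℝ) (n : ℤ) : ee (x + n) = ee x := by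
  unfold Pool.Agent.Helper22.AE.ee
  have e : (((2 * π * (x + n) : ℝ) : ℂ) * Complex.I) = ((2 * π * x : ℝ) : ℂ) * Complex.I + n * (2 * π * Complex.I) := by
    push_cast
    ring
  rw [e, Complex.exp_add, Complex.exp_int_mul_two_pi_mul_I, mul_one]

/-- the sum is periodic in the centre -/
theorem ss_per (H : ℝ → ℝ) (f : Fr) (α r : ℝ) (c : ℝ × ℝ) (i N : ℕ) (u v : ℤ) : SS H f α r (c.1 + u, c.2 + v) i N = SS H f α r c i N := by
  unfold SS
  refine Finset.sum_congr rfl fun k _ => ?_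
  unfold Tm
  congr 1
  have e : r * hom (ga H α) (fk f k) + dt k (c.1 + u, c.2 + v) = (r * hom (ga H α) (fk f k) + dt k c) + ((k.1 * u + k.2 * v : ℤ) : ℝ) := by
    unfold Pool.Agent.Helper92.GC.dt
    push_cast
    ring
  rw [e, ee_int31]

end Pool.Agent.Helper93.AO
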