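import Pool.Agent.Helper93.AO.DefsL

/-!
# AO-NETG: a net of the parameter space

Cubes: map `q` to the 8 integers `⌊coordinate/δ⌋`; at most `C X/δ^8` values on the domain (`|f| ≤ M`, `|α| ≤ 1`, `r ∈ [X/2, 4X]`, `c ∈ [0,1]²`); choose one point of the domain in each cube which meets it.
-/

open MeasureTheory Real Set Filter Topology

set_option autoImplicit false

namespace Pool.Agent.Helper93.AO

open Pool.Agent.Helper22.AE (ee rho)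
open Pool.Agent.Helper22.AC (ga)
open Pool.Agent.Helper92.GC (dt sqa)
open Pool.Agent.Helper22.LP (Fr fk fdet nr tr hom LS wr Hf)
open Pool.Agent.Helper92.LA (Fb)

/-- the domain of the parameters `(f, α, r, c)` -/
def PD (M X : ℝ) : Set (Fr × ℝ × ℝ × (ℝ × ℝ)) :=
  {q | Fb M q.1 ∧ |q.2.1| ≤ 1 ∧ X / 2 ≤ q.2.2.1 ∧ q.2.2.1 ≤ 4 * X ∧ q.2.2.2.1 ∈ Icc (0 : ℝ) 1 ∧ q.2.2.2.2 ∈ Icc (0 : ℝ) 1}

/-- all coordinates differ by at most `d` -/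
def near (d : ℝ) (q q' : Fr × ℝ × ℝ × (ℝ × ℝ)) : Prop :=
  |q.1.1.1 - q'.1.1.1| ≤ d ∧ |q.1.1.2 - q'.1.1.2| ≤ d ∧ |q.1.2.1 - q'.1.2.1| ≤ d ∧ |q.1.2.2 - q'.1.2.2| ≤ d ∧ |q.2.1 - q'.2.1| ≤ d ∧ |q.2.2.1 - q'.2.2.1| ≤ d ∧
    |q.2.2.2.1 - q'.2.2.2.1| ≤ d ∧ |q.2.2.2.2 - q'.2.2.2.2| ≤ d

/-- the coordinates -/
private noncomputable def co_h4 (q : Fr × ℝ × ℝ × (ℝ × ℝ)) : Fin 8 → ℝ :=
  ![q.1.1.1, q.1.1.2, q.1.2.1, q.1.2.2, q.2.1, q.2.2.1, q.2.2.2.1, q.2.2.2.2]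

private noncomputable def lo_h4 (M X : ℝ) : Fin 8 → ℝ := ![-M, -M, -M, -M, -1, X / 2, 0, 0]

private noncomputable def hi_h4 (M X : ℝ) : Fin 8 → ℝ := ![M, M, M, M, 1, 4 * X, 1, 1]

private theorem near_of_h4 {d : ℝ} {q q' : Fr × ℝ × ℝ × (ℝ × ℝ)}
    (h : ∀ i, |co_h4 q i - co_h4 q' i| ≤ d) : near d q q' :=
  ⟨h 0, h 1, h 2, h 3, h 4, h 5, h 6, h 7⟩

private theorem dom_h4 {M X : ℝ} {q : Fr × ℝ × ℝ × (ℝ × ℝ)} (hq : q ∈ PD M X) (i : Fin 8) :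
    lo_h4 M X i ≤ co_h4 q i ∧ co_h4 q i ≤ hi_h4 M X i := by
  obtain ⟨h1, h2, h3, h4, h5, h6⟩ := hq
  have a := abs_le.1 h1.a
  have b := abs_le.1 h1.b
  have c := abs_le.1 h1.c
  have e := abs_le.1 h1.d
  have g := abs_le.1 h2
  fin_cases i
  · exact a
  · exact b
  · exact c
  · exact e
  · exact g
  · exact ⟨h3, h4⟩
  · exact ⟨h5.1, h5.2⟩
  · exact ⟨h6.1, h6.2⟩

private theorem floor_h4 {d x y : ℝ} (hd : 0 < d) (h : ⌊x / d⌋ = ⌊y / d⌋) : |x - y| ≤ d := by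
  have h1 : |x / d - y / d| < 1 := Int.abs_sub_lt_one_of_floor_eq_floor h
  rw [← sub_div, abs_div, abs_of_pos hd, div_lt_one hd] at h1
  exact h1.le

private theorem cardI_h4 {d a b s : ℝ} (hd : 0 < d) (hd1 : d ≤ 1) (hab : a ≤ b)
    (hs : b - a + 2 ≤ s) : (((Finset.Icc ⌊a / d⌋ ⌊b / d⌋).card : ℕ) : ℝ) ≤ s / d := by
  have h0 : a / d ≤ b / d := div_le_div_of_nonneg_right hab hd.le
  have h1 : ⌊a / d⌋ ≤ ⌊b / d⌋ + 1 := by
    have := Int.floor_le_floor h0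
    omega
  have h2 : (((Finset.Icc ⌊a / d⌋ ⌊b / d⌋).card : ℤ)) = ⌊b / d⌋ + 1 - ⌊a / d⌋ :=
    Int.card_Icc_of_le _ _ h1
  have h3 : (((Finset.Icc ⌊a / d⌋ ⌊b / d⌋).card : ℕ) : ℝ) = (⌊b / d⌋ : ℝ) + 1 - ⌊a / d⌋ := by
    have := congrArg (fun z : ℤ => (z : ℝ)) h2
    push_cast at this
    exact this
  have h4 : (⌊b / d⌋ : ℝ) ≤ b / d := Int.floor_le _
  have h5 : a / d - 1 < (⌊a / d⌋ : ℝ) := Int.sub_one_lt_floor _
  have h6 : 2 ≤ 2 / d := by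
    rw [le_div_iff₀ hd]
    linarith
  rw [h3]
  have h7 : s / d = b / d - a / d + 2 / d + (s - (b - a + 2)) / d := by
    field_simp
    ring
  have h8 : 0 ≤ (s - (b - a + 2)) / d := div_nonneg (by linarith) hd.le
  rw [h7]
  linarith

theorem net_ex {M : ℝ} (hM : 1 ≤ M) : ∃ C : ℝ, 1 ≤ C ∧ ∀ X : ℝ, 1 ≤ X → ∀ d : ℝ, 0 < d → d ≤ 1 → ∃ S : Finset (Fr × ℝ × ℝ × (ℝ × ℝ)),
    (S.card : ℝ) ≤ C * X / d ^ 8 ∧ (∀ q ∈ S, q ∈ PD M X) ∧ ∀ q ∈ PD M X, ∃ q' ∈ S, near d q q' := by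
  classical
  refine ⟨55296 * M ^ 4, ?_, ?_⟩
  · have h1 : (1 : ℝ) ≤ M ^ 4 := one_le_pow₀ hM
    linarith
  intro X hX d hd hd1
  let key : Fr × ℝ × ℝ × (ℝ × ℝ) → Fin 8 → ℤ := fun q i => ⌊co_h4 q i / d⌋
  let T : Finset (Fin 8 → ℤ) :=
    Fintype.piFinset fun i => Finset.Icc ⌊lo_h4 M X i / d⌋ ⌊hi_h4 M X i / d⌋
  let T' : Finset (Fin 8 → ℤ) := T.filter fun z => ∃ q ∈ PD M X, key q = z
  have hch : ∀ z : T', ∃ q ∈ PD M X, key q = z.1 := fun z => (Finset.mem_filter.1 z.2).2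
  choose g hg1 hg2 using hch
  refine ⟨Finset.univ.image g, ?_, ?_, ?_⟩
  · have h1 : (Finset.univ.image g).card ≤ T.card := by
      refine (Finset.card_image_le).trans ?_
      rw [Finset.card_univ, Fintype.card_coe]
      exact Finset.card_filter_le _ _
    have h2 : (T.card : ℝ) = ∏ i : Fin 8,
        (((Finset.Icc ⌊lo_h4 M X i / d⌋ ⌊hi_h4 M X i / d⌋).card : ℕ) : ℝ) := by
      rw [Fintype.card_piFinset, Nat.cast_prod]
    have h3 : (T.card : ℝ) ≤ ∏ i : Fin 8,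
        ((![4 * M, 4 * M, 4 * M, 4 * M, 4, 6 * X, 3, 3] : Fin 8 → ℝ) i / d) := by
      rw [h2]
      refine Finset.prod_le_prod (fun i _ => Nat.cast_nonneg _) fun i _ => ?_
      fin_cases i
      · exact cardI_h4 hd hd1 (show -M ≤ M by linarith) (show M - -M + 2 ≤ 4 * M by linarith)
      · exact cardI_h4 hd hd1 (show -M ≤ M by linarith) (show M - -M + 2 ≤ 4 * M by linarith)
      · exact cardI_h4 hd hd1 (show -M ≤ M by linarith) (show M - -M + 2 ≤ 4 * M by linarith)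
      · exact cardI_h4 hd hd1 (show -M ≤ M by linarith) (show M - -M + 2 ≤ 4 * M by linarith)
      · exact cardI_h4 hd hd1 (show (-1 : ℝ) ≤ 1 by norm_num)
          (show (1 : ℝ) - -1 + 2 ≤ 4 by norm_num)
      · exact cardI_h4 hd hd1 (show X / 2 ≤ 4 * X by linarith)
          (show 4 * X - X / 2 + 2 ≤ 6 * X by linarith)
      · exact cardI_h4 hd hd1 (show (0 : ℝ) ≤ 1 by norm_num)
          (show (1 : ℝ) - 0 + 2 ≤ 3 by norm_num)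
      · exact cardI_h4 hd hd1 (show (0 : ℝ) ≤ 1 by norm_num)
          (show (1 : ℝ) - 0 + 2 ≤ 3 by norm_num)
    have h4 : (∏ i : Fin 8, ((![4 * M, 4 * M, 4 * M, 4 * M, 4, 6 * X, 3, 3] : Fin 8 → ℝ) i / d)) =
        55296 * M ^ 4 * X / d ^ 8 := by
      rw [Fin.prod_univ_eight]
      show (4 * M / d) * (4 * M / d) * (4 * M / d) * (4 * M / d) * (4 / d) * (6 * X / d) *
        (3 / d) * (3 / d) = 55296 * M ^ 4 * X / d ^ 8
      field_simp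
      ring
    rw [← h4]
    exact (Nat.cast_le.2 h1).trans h3
  · intro q hq
    rw [Finset.mem_image] at hq
    obtain ⟨z, -, rfl⟩ := hq
    exact hg1 z
  · intro q hq
    have hT : key q ∈ T := by
      rw [Fintype.mem_piFinset]
      intro i
      have h1 := dom_h4 hq i
      rw [Finset.mem_Icc]
      exact ⟨Int.floor_le_floor (div_le_div_of_nonneg_right h1.1 hd.le),
        Int.floor_le_floor (div_le_div_of_nonneg_right h1.2 hd.le)⟩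
    have hT' : key q ∈ T' := Finset.mem_filter.2 ⟨hT, q, hq, rfl⟩
    refine ⟨g ⟨key q, hT'⟩, Finset.mem_image_of_mem _ (Finset.mem_univ _), ?_⟩
    refine near_of_h4 fun i => ?_
    have h1 := congrFun (hg2 ⟨key q, hT'⟩) i
    exact floor_h4 hd h1.symm

end Pool.Agent.Helper93.AO
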