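import Mathlib

/-!
# AO-BERN: Bernstein inequality for independent complex variables, Chernoff bound for independent nonnegative variables

Bernstein: real part and imaginary part, both signs: `X_i = Re (Z_i - E Z_i)`, `|X_i| ≤ 2m`, `∑ E X_i² ≤ V`, `P(∑ X ≥ s) ≤ exp (-s²/(2V + 4ms/3))` with `s = λ/√2`
(`E exp (a X) ≤ exp (a² σ² /(2(1 - 2 a m/3)))` or the simpler `exp x ≤ 1 + x + x²` for `|x| ≤ 1` with `a = min (1/(2m)) (s/(2V))`: `E exp (aX) ≤ exp (a² σ²)`, so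
`P ≤ exp (a² V - a s) ≤ exp (-a s/2)`, `a s/2 ≥ s²/(4 (V + m s))`; this suffices for the constant 16). `iIndepFun.mgf_sum` gives the product of the moment generating functions.
Chernoff: `exp (y/m) ≤ 1 + 2 y/m` for `0 ≤ y ≤ m` (convexity, `e - 1 ≤ 2`), so `E exp (∑ Y/m) ≤ exp (2E₀/m)`, Markov.
-/

open MeasureTheory Real Set Filter Topology ProbabilityTheory

set_option autoImplicit false

namespace Pool.Agent.Helper93.AO

private lemma bint32 {Ω : Type} [MeasurableSpace Ω] {P : Measure Ω} [IsProbabilityMeasure P] {X : Ω → ℝ}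
    (hX : Measurable X) {C : ℝ} (hb : ∀ ω, |X ω| ≤ C) : Integrable X P :=
  Integrable.of_bound hX.aestronglyMeasurable C (Eventually.of_forall fun ω => by
    rw [Real.norm_eq_abs]; exact hb ω)

private lemma sumb32 {Ω : Type} {ι : Type} (S : Finset ι) {X : ι → Ω → ℝ} {C : ℝ} (hb : ∀ i ∈ S, ∀ ω, |X i ω| ≤ C) (ω : Ω) :
    |(∑ i ∈ S, X i) ω| ≤ S.card * C := by
  rw [Finset.sum_apply]
  calc |∑ i ∈ S, X i ω| ≤ ∑ i ∈ S, |X i ω| := Finset.abs_sum_le_sum_abs _ _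
    _ ≤ ∑ _i ∈ S, C := Finset.sum_le_sum fun i hi => hb i hi ω
    _ = S.card * C := by rw [Finset.sum_const, nsmul_eq_mul]

private lemma expint32 {Ω : Type} [MeasurableSpace Ω] {P : Measure Ω} [IsProbabilityMeasure P] {ι : Type} (S : Finset ι)
    {X : ι → Ω → ℝ} (hm : ∀ i, Measurable (X i)) {C : ℝ} (hb : ∀ i ∈ S, ∀ ω, |X i ω| ≤ C) {a : ℝ} (ha : 0 ≤ a) :
    Integrable (fun ω => exp (a * (∑ i ∈ S, X i) ω)) P := by
  refine bint32 (C := exp (a * (S.card * C))) ?_ fun ω => ?_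
  · have h : Measurable fun ω => exp (a * ∑ i ∈ S, X i ω) := ((Finset.measurable_sum S fun i _ => hm i).const_mul a).exp
    simpa only [Finset.sum_apply] using h
  · rw [abs_of_pos (exp_pos _)]
    exact exp_le_exp.2 (mul_le_mul_of_nonneg_left ((le_abs_self _).trans (sumb32 S hb ω)) ha)

private lemma real_bern32 {Ω : Type} [MeasurableSpace Ω] {P : Measure Ω} [IsProbabilityMeasure P] {ι : Type} (S : Finset ι)
    {W : ι → Ω → ℝ} (hm : ∀ i, Measurable (W i)) (hi : iIndepFun W P) {m V s : ℝ} (hm0 : 0 < m)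
    (hb : ∀ i ∈ S, ∀ ω, |W i ω| ≤ m) (hV : ∑ i ∈ S, ∫ ω, W i ω ^ 2 ∂P ≤ V) (hs : 0 < s) :
    P.real {ω | s ≤ ∑ i ∈ S, (W i ω - ∫ ω, W i ω ∂P)} ≤ exp (-(s ^ 2 / (4 * (V + m * s)))) := by
  have hV0 : 0 ≤ V := le_trans (Finset.sum_nonneg fun i _ => integral_nonneg fun ω => sq_nonneg _) hV
  have hden : 0 < V + m * s := by positivity
  obtain ⟨c, hc⟩ : ∃ c : ι → ℝ, c = fun i => ∫ ω, W i ω ∂P := ⟨_, rfl⟩
  obtain ⟨X, hX⟩ : ∃ X : ι → Ω → ℝ, X = fun i ω => W i ω - c i := ⟨_, rfl⟩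
  have hXm : ∀ i, Measurable (X i) := fun i => by rw [hX]; exact (hm i).sub_const _
  have hXi : iIndepFun X P := by
    have h := hi.comp (fun i (x : ℝ) => x - c i) fun i => measurable_id.sub_const _
    rw [hX]; exact h
  have hcb : ∀ i ∈ S, |c i| ≤ m := by
    intro i hiS
    rw [hc]
    have h := norm_integral_le_of_norm_le_const (μ := P) (f := W i) (C := m)
      (Eventually.of_forall fun ω => by rw [Real.norm_eq_abs]; exact hb i hiS ω)
    simpa using h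
  have hXb : ∀ i ∈ S, ∀ ω, |X i ω| ≤ 2 * m := by
    intro i hiS ω
    rw [hX]
    calc |W i ω - c i| ≤ |W i ω| + |c i| := abs_sub _ _
      _ ≤ m + m := add_le_add (hb i hiS ω) (hcb i hiS)
      _ = 2 * m := by ring
  obtain ⟨a, ha⟩ : ∃ a, a = s / (2 * (V + m * s)) := ⟨_, rfl⟩
  have ha0 : 0 < a := by rw [ha]; positivity
  have ham : a * (2 * m) ≤ 1 := by
    rw [ha, div_mul_eq_mul_div, div_le_one (by positivity)]
    nlinarith
  have hmgf : ∀ i ∈ S, mgf (X i) P a ≤ exp (a ^ 2 * ∫ ω, W i ω ^ 2 ∂P) := by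
    intro i hiS
    have hiX : Integrable (X i) P := bint32 (hXm i) (hXb i hiS)
    have hiW : Integrable (W i) P := bint32 (hm i) (hb i hiS)
    have hiW2 : Integrable (fun ω => W i ω ^ 2) P := by
      refine bint32 (C := m ^ 2) ((hm i).pow_const 2) fun ω => ?_
      rw [abs_of_nonneg (sq_nonneg _), ← sq_abs]
      exact pow_le_pow_left₀ (abs_nonneg _) (hb i hiS ω) 2
    have hiX2 : Integrable (fun ω => X i ω ^ 2) P := by
      refine bint32 (C := (2 * m) ^ 2) ((hXm i).pow_const 2) fun ω => ?_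
      rw [abs_of_nonneg (sq_nonneg _), ← sq_abs]
      exact pow_le_pow_left₀ (abs_nonneg _) (hXb i hiS ω) 2
    have h1 : ∫ ω, X i ω ∂P = 0 := by
      rw [hX]
      simp only
      rw [integral_sub hiW (integrable_const _), integral_const, hc]
      simp
    have h2 : ∫ ω, X i ω ^ 2 ∂P ≤ ∫ ω, W i ω ^ 2 ∂P := by
      have e : ∀ ω, X i ω ^ 2 = W i ω ^ 2 - (2 * c i) * W i ω + c i ^ 2 := by
        intro ω; rw [hX]; ring
      have e2 : ∫ ω, W i ω ∂P = c i := by rw [hc]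
      have e3 : ∫ ω, X i ω ^ 2 ∂P = ∫ ω, W i ω ^ 2 ∂P - 2 * c i * c i + c i ^ 2 := by
        calc ∫ ω, X i ω ^ 2 ∂P = ∫ ω, ((W i ω ^ 2 - (2 * c i) * W i ω) + c i ^ 2) ∂P := by simp_rw [e]
          _ = ∫ ω, (W i ω ^ 2 - (2 * c i) * W i ω) ∂P + ∫ _ω, c i ^ 2 ∂P :=
            integral_add (hiW2.sub (hiW.const_mul _)) (integrable_const _)
          _ = (∫ ω, W i ω ^ 2 ∂P - ∫ ω, (2 * c i) * W i ω ∂P) + ∫ _ω, c i ^ 2 ∂P := by
            rw [integral_sub hiW2 (hiW.const_mul _)]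
          _ = ∫ ω, W i ω ^ 2 ∂P - 2 * c i * c i + c i ^ 2 := by
            rw [integral_const_mul, e2, integral_const]
            simp
      rw [e3]
      nlinarith [sq_nonneg (c i)]
    calc mgf (X i) P a = ∫ ω, exp (a * X i ω) ∂P := rfl
      _ ≤ ∫ ω, (1 + a * X i ω + a ^ 2 * X i ω ^ 2) ∂P := by
        refine integral_mono_of_nonneg (Eventually.of_forall fun ω => (exp_pos _).le)
          (((integrable_const _).add (hiX.const_mul _)).add (hiX2.const_mul _)) (Eventually.of_forall fun ω => ?_)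
        have hx : |a * X i ω| ≤ 1 := by
          rw [abs_mul, abs_of_pos ha0]
          exact (mul_le_mul_of_nonneg_left (hXb i hiS ω) ha0.le).trans ham
        have := (abs_le.1 (Real.abs_exp_sub_one_sub_id_le hx)).2
        simp only
        nlinarith
      _ = ∫ ω, (1 + a * X i ω) ∂P + ∫ ω, a ^ 2 * X i ω ^ 2 ∂P :=
        integral_add ((integrable_const _).add (hiX.const_mul _)) (hiX2.const_mul _)
      _ = (∫ _ω, (1:ℝ) ∂P + ∫ ω, a * X i ω ∂P) + ∫ ω, a ^ 2 * X i ω ^ 2 ∂P := by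
        rw [integral_add (integrable_const _) (hiX.const_mul _)]
      _ = 1 + a ^ 2 * ∫ ω, X i ω ^ 2 ∂P := by
        rw [integral_const_mul, integral_const_mul, h1, integral_const]
        simp
      _ ≤ 1 + a ^ 2 * ∫ ω, W i ω ^ 2 ∂P := by
        have := mul_le_mul_of_nonneg_left h2 (sq_nonneg a)
        linarith
      _ ≤ exp (a ^ 2 * ∫ ω, W i ω ^ 2 ∂P) := by
        have := Real.add_one_le_exp (a ^ 2 * ∫ ω, W i ω ^ 2 ∂P)
        linarith
  have hch := measure_ge_le_exp_mul_mgf (μ := P) (X := ∑ i ∈ S, X i) s ha0.le (expint32 S hXm hXb ha0.le)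
  have hset : {ω | s ≤ ∑ i ∈ S, (W i ω - ∫ ω, W i ω ∂P)} = {ω | s ≤ (∑ i ∈ S, X i) ω} := by
    ext ω
    simp only [mem_ofPred_eq, Finset.sum_apply, hX, hc]
  rw [hset]
  refine hch.trans ?_
  rw [hXi.mgf_sum hXm S]
  have hprod : ∏ i ∈ S, mgf (X i) P a ≤ exp (a ^ 2 * V) := by
    calc ∏ i ∈ S, mgf (X i) P a ≤ ∏ i ∈ S, exp (a ^ 2 * ∫ ω, W i ω ^ 2 ∂P) :=
          Finset.prod_le_prod (fun i _ => mgf_nonneg) hmgf
      _ = exp (a ^ 2 * ∑ i ∈ S, ∫ ω, W i ω ^ 2 ∂P) := by rw [← exp_sum, Finset.mul_sum]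
      _ ≤ exp (a ^ 2 * V) := exp_le_exp.2 (mul_le_mul_of_nonneg_left hV (sq_nonneg a))
  calc exp (-a * s) * ∏ i ∈ S, mgf (X i) P a ≤ exp (-a * s) * exp (a ^ 2 * V) :=
        mul_le_mul_of_nonneg_left hprod (exp_pos _).le
    _ = exp (-a * s + a ^ 2 * V) := by rw [exp_add]
    _ ≤ exp (-(s ^ 2 / (4 * (V + m * s)))) := by
      apply exp_le_exp.2
      have h1 : a * V ≤ s / 2 := by
        rw [ha, div_mul_eq_mul_div, div_le_div_iff₀ (by positivity) (by norm_num)]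
        nlinarith [mul_pos hm0 hs, mul_pos hs (mul_pos hm0 hs)]
      have h2 : s ^ 2 / (4 * (V + m * s)) = a * (s / 2) := by
        rw [ha]; field_simp; norm_num
      rw [h2]
      nlinarith [mul_le_mul_of_nonneg_left h1 ha0.le]

theorem bernstein {Ω : Type} [MeasurableSpace Ω] {P : Measure Ω} [IsProbabilityMeasure P] {ι : Type} (S : Finset ι) {Z : ι → Ω → ℂ}
    (hm : ∀ i, Measurable (Z i)) (hi : iIndepFun Z P) {m V μ s : ℝ} (hm0 : 0 < m) (hb : ∀ i ∈ S, ∀ ω, ‖Z i ω‖ ≤ m)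
    (hV : ∑ i ∈ S, ∫ ω, ‖Z i ω‖ ^ 2 ∂P ≤ V) (hμ : ‖∑ i ∈ S, ∫ ω, Z i ω ∂P‖ ≤ μ) (hs : 0 < s) :
    P.real {ω | μ + s ≤ ‖∑ i ∈ S, Z i ω‖} ≤ 4 * exp (-(s ^ 2 / (16 * (V + m * s)))) := by
  have hV0 : 0 ≤ V := le_trans (Finset.sum_nonneg fun i _ => integral_nonneg fun ω => sq_nonneg _) hV
  have hZi : ∀ i ∈ S, Integrable (Z i) P := fun i hiS =>
    Integrable.of_bound (hm i).aestronglyMeasurable m (Eventually.of_forall (hb i hiS))
  have hZ2 : ∀ i ∈ S, Integrable (fun ω => ‖Z i ω‖ ^ 2) P := fun i hiS => by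
    refine bint32 (C := m ^ 2) ((hm i).norm.pow_const 2) fun ω => ?_
    rw [abs_of_nonneg (sq_nonneg _)]
    exact pow_le_pow_left₀ (norm_nonneg _) (hb i hiS ω) 2
  obtain ⟨s', hs'⟩ : ∃ s', s' = s / √2 := ⟨_, rfl⟩
  have h2 : (0:ℝ) < √2 := by positivity
  have hsq : √2 ^ 2 = (2:ℝ) := Real.sq_sqrt (by norm_num)
  have hs'0 : 0 < s' := by rw [hs']; positivity
  have hs'2 : s' ^ 2 = s ^ 2 / 2 := by rw [hs', div_pow, hsq]
  have hs'le : s' ≤ s := by
    rw [hs', div_le_iff₀ h2]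
    have : (1:ℝ) ≤ √2 := by rw [Real.one_le_sqrt]; norm_num
    nlinarith
  -- general functional
  have gen : ∀ φ : ℂ → ℝ, Measurable φ → (∀ z, |φ z| ≤ ‖z‖) →
      P.real {ω | s' ≤ ∑ i ∈ S, (φ (Z i ω) - ∫ ω, φ (Z i ω) ∂P)} ≤ exp (-(s ^ 2 / (16 * (V + m * s)))) := by
    intro φ hφ hφb
    have h := real_bern32 (P := P) S (W := fun i ω => φ (Z i ω)) (fun i => hφ.comp (hm i)) (hi.comp (fun _ => φ) fun _ => hφ) (m := m) (V := V)
      (s := s') hm0 (fun i hiS ω => (hφb _).trans (hb i hiS ω)) (by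
        refine le_trans (Finset.sum_le_sum fun i hiS => ?_) hV
        refine integral_mono_of_nonneg (Eventually.of_forall fun ω => sq_nonneg _) (hZ2 i hiS)
          (Eventually.of_forall fun ω => ?_)
        simp only
        rw [← sq_abs]
        exact pow_le_pow_left₀ (abs_nonneg _) (hφb _) 2) hs'0
    refine h.trans (exp_le_exp.2 (neg_le_neg ?_))
    rw [hs'2, div_div, div_le_div_iff₀ (by positivity) (by positivity)]
    have h3 : 2 * (4 * (V + m * s')) ≤ 16 * (V + m * s) := by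
      nlinarith [mul_le_mul_of_nonneg_left hs'le hm0.le, mul_pos hm0 hs]
    exact mul_le_mul_of_nonneg_left h3 (sq_nonneg s)
  have g1 := gen Complex.re Complex.measurable_re Complex.abs_re_le_norm
  have g2 := gen (fun z => -z.re) Complex.measurable_re.neg fun z => by rw [abs_neg]; exact Complex.abs_re_le_norm z
  have g3 := gen Complex.im Complex.measurable_im Complex.abs_im_le_norm
  have g4 := gen (fun z => -z.im) Complex.measurable_im.neg fun z => by rw [abs_neg]; exact Complex.abs_im_le_norm z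
  obtain ⟨A, hA⟩ : ∃ A : ℂ, A = ∑ i ∈ S, ∫ ω, Z i ω ∂P := ⟨_, rfl⟩
  have hre : ∑ i ∈ S, ∫ ω, (Z i ω).re ∂P = A.re := by
    rw [hA, Complex.re_sum]
    refine Finset.sum_congr rfl fun i hiS => ?_
    have := Complex.reCLM.integral_comp_comm (hZi i hiS)
    simpa using this
  have him : ∑ i ∈ S, ∫ ω, (Z i ω).im ∂P = A.im := by
    rw [hA, Complex.im_sum]
    refine Finset.sum_congr rfl fun i hiS => ?_
    have := Complex.imCLM.integral_comp_comm (hZi i hiS)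
    simpa using this
  have hsub : {ω | μ + s ≤ ‖∑ i ∈ S, Z i ω‖} ⊆
      ({ω | s' ≤ ∑ i ∈ S, ((Z i ω).re - ∫ ω, (Z i ω).re ∂P)} ∪ {ω | s' ≤ ∑ i ∈ S, (-(Z i ω).re - ∫ ω, -(Z i ω).re ∂P)}) ∪
      ({ω | s' ≤ ∑ i ∈ S, ((Z i ω).im - ∫ ω, (Z i ω).im ∂P)} ∪ {ω | s' ≤ ∑ i ∈ S, (-(Z i ω).im - ∫ ω, -(Z i ω).im ∂P)}) := by
    intro ω hω
    rw [mem_ofPred_eq] at hω
    simp only [mem_union, mem_ofPred_eq]
    obtain ⟨B, hB⟩ : ∃ B : ℂ, B = ∑ i ∈ S, Z i ω := ⟨_, rfl⟩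
    rw [← hB] at hω
    rw [← hA] at hμ
    have e1 : ∑ i ∈ S, ((Z i ω).re - ∫ ω, (Z i ω).re ∂P) = (B - A).re := by
      rw [Finset.sum_sub_distrib, hre, hB, Complex.sub_re, Complex.re_sum]
    have e2 : ∑ i ∈ S, (-(Z i ω).re - ∫ ω, -(Z i ω).re ∂P) = -(B - A).re := by
      rw [← e1, ← Finset.sum_neg_distrib]
      refine Finset.sum_congr rfl fun i _ => ?_
      rw [integral_neg]; ring
    have e3 : ∑ i ∈ S, ((Z i ω).im - ∫ ω, (Z i ω).im ∂P) = (B - A).im := by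
      rw [Finset.sum_sub_distrib, him, hB, Complex.sub_im, Complex.im_sum]
    have e4 : ∑ i ∈ S, (-(Z i ω).im - ∫ ω, -(Z i ω).im ∂P) = -(B - A).im := by
      rw [← e3, ← Finset.sum_neg_distrib]
      refine Finset.sum_congr rfl fun i _ => ?_
      rw [integral_neg]; ring
    rw [e1, e2, e3, e4]
    have hn : s ≤ ‖B - A‖ := by
      have := norm_sub_norm_le B A
      linarith
    have hn2 : s ^ 2 ≤ (B - A).re ^ 2 + (B - A).im ^ 2 := by
      have h5 : ‖B - A‖ ^ 2 = (B - A).re ^ 2 + (B - A).im ^ 2 := by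
        rw [← Complex.normSq_eq_norm_sq, Complex.normSq_apply]; ring
      rw [← h5]
      exact pow_le_pow_left₀ hs.le hn 2
    by_contra hcon
    simp only [not_or, not_le] at hcon
    obtain ⟨⟨c1, c2⟩, c3, c4⟩ := hcon
    have d1 : (B - A).re ^ 2 < s' ^ 2 := sq_lt_sq' (by linarith) c1
    have d2 : (B - A).im ^ 2 < s' ^ 2 := sq_lt_sq' (by linarith) c3
    rw [hs'2] at d1 d2
    linarith
  calc P.real {ω | μ + s ≤ ‖∑ i ∈ S, Z i ω‖} ≤ _ := measureReal_mono hsub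
    _ ≤ _ := measureReal_union_le _ _
    _ ≤ _ := add_le_add (measureReal_union_le _ _) (measureReal_union_le _ _)
    _ ≤ 4 * exp (-(s ^ 2 / (16 * (V + m * s)))) := by linarith

theorem chernoff {Ω : Type} [MeasurableSpace Ω] {P : Measure Ω} [IsProbabilityMeasure P] {ι : Type} (S : Finset ι) {Y : ι → Ω → ℝ}
    (hm : ∀ i, Measurable (Y i)) (hi : iIndepFun Y P) {m E₀ s : ℝ} (hm0 : 0 < m) (hb : ∀ i ∈ S, ∀ ω, 0 ≤ Y i ω ∧ Y i ω ≤ m)
    (hE : ∑ i ∈ S, ∫ ω, Y i ω ∂P ≤ E₀) (hs : 0 ≤ s) : P.real {ω | 2 * E₀ + m * s ≤ ∑ i ∈ S, Y i ω} ≤ exp (-s) := by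
  have hb' : ∀ i ∈ S, ∀ ω, |Y i ω| ≤ m := fun i hiS ω => by
    rw [abs_of_nonneg (hb i hiS ω).1]; exact (hb i hiS ω).2
  have hmgf : ∀ i ∈ S, mgf (Y i) P (1 / m) ≤ exp (2 / m * ∫ ω, Y i ω ∂P) := by
    intro i hiS
    have hiY : Integrable (Y i) P := bint32 (hm i) (hb' i hiS)
    calc mgf (Y i) P (1 / m) = ∫ ω, exp (1 / m * Y i ω) ∂P := rfl
      _ ≤ ∫ ω, (1 + 2 / m * Y i ω) ∂P := by
        refine integral_mono_of_nonneg (Eventually.of_forall fun ω => (exp_pos _).le)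
          ((integrable_const _).add (hiY.const_mul _)) (Eventually.of_forall fun ω => ?_)
        obtain ⟨x, hx⟩ : ∃ x, x = 1 / m * Y i ω := ⟨_, rfl⟩
        have hx0 : 0 ≤ x := by rw [hx]; exact mul_nonneg (by positivity) (hb i hiS ω).1
        have hx1 : x ≤ 1 := by
          rw [hx, one_div, inv_mul_le_iff₀ hm0, mul_one]; exact (hb i hiS ω).2
        have h := convexOn_exp.2 (mem_univ (0:ℝ)) (mem_univ (1:ℝ)) (sub_nonneg.2 hx1) hx0 (sub_add_cancel 1 x)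
        simp only [smul_eq_mul, mul_zero, mul_one, zero_add, exp_zero] at h
        have he : exp 1 ≤ 3 := by
          have := Real.exp_one_lt_d9
          linarith
        simp only
        rw [← hx]
        have e3 : 2 / m * Y i ω = 2 * x := by rw [hx]; ring
        rw [e3]
        nlinarith
      _ = ∫ _ω, (1:ℝ) ∂P + ∫ ω, 2 / m * Y i ω ∂P := integral_add (integrable_const _) (hiY.const_mul _)
      _ = 1 + 2 / m * ∫ ω, Y i ω ∂P := by
        rw [integral_const_mul, integral_const]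
        simp
      _ ≤ exp (2 / m * ∫ ω, Y i ω ∂P) := by
        have := Real.add_one_le_exp (2 / m * ∫ ω, Y i ω ∂P)
        linarith
  have h0 : (0:ℝ) ≤ 1 / m := by positivity
  have hch := measure_ge_le_exp_mul_mgf (μ := P) (X := ∑ i ∈ S, Y i) (2 * E₀ + m * s) h0 (expint32 S hm hb' h0)
  have hset : {ω | 2 * E₀ + m * s ≤ ∑ i ∈ S, Y i ω} = {ω | 2 * E₀ + m * s ≤ (∑ i ∈ S, Y i) ω} := by
    ext ω
    simp only [mem_ofPred_eq, Finset.sum_apply]
  rw [hset]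
  refine hch.trans ?_
  rw [hi.mgf_sum hm S]
  have hprod : ∏ i ∈ S, mgf (Y i) P (1 / m) ≤ exp (2 / m * E₀) := by
    calc ∏ i ∈ S, mgf (Y i) P (1 / m) ≤ ∏ i ∈ S, exp (2 / m * ∫ ω, Y i ω ∂P) :=
          Finset.prod_le_prod (fun i _ => mgf_nonneg) hmgf
      _ = exp (2 / m * ∑ i ∈ S, ∫ ω, Y i ω ∂P) := by rw [← exp_sum, Finset.mul_sum]
      _ ≤ exp (2 / m * E₀) := exp_le_exp.2 (mul_le_mul_of_nonneg_left hE (by positivity))
  calc exp (-(1 / m) * (2 * E₀ + m * s)) * ∏ i ∈ S, mgf (Y i) P (1 / m)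
      ≤ exp (-(1 / m) * (2 * E₀ + m * s)) * exp (2 / m * E₀) := mul_le_mul_of_nonneg_left hprod (exp_pos _).le
    _ = exp (-(1 / m) * (2 * E₀ + m * s) + 2 / m * E₀) := by rw [exp_add]
    _ = exp (-s) := by
      congr 1
      field_simp
      ring

end Pool.Agent.Helper93.AO
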