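import Pool.Agent.Helper93.AO.Defs

/-!
# AO-RES: resampling of a set of coordinates

`upd_mp`: the law of `i ↦ if i ∈ F then x i else ω i` under `P × P` is `P`: compare on boxes with finitely many sides (`Measure.eq_infinitePi` or `Measure.infinitePi` uniqueness on cylinders; the preimage of a box is a product of two boxes).
`prob_le`: `P A = (P × P) {(x, ω) | upd F x ω ∈ A} = ∫ P {x | upd F x ω ∈ A} dP(ω) ≤ b` (`Measure.prod_apply_symm`).
`mean_eq`: `∫ f dP = ∫∫ f (upd F x ω) dP(x) dP(ω)` for bounded measurable `f`, and the pair `(upd F x om0 …)` is not needed.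
-/

open MeasureTheory Real Set Filter Topology

set_option autoImplicit false

namespace Pool.Agent.Helper93.AO

variable {ν : Measure J1} [IsProbabilityMeasure ν]

theorem upd_meas (F : Set (ℕ × ℕ)) : Measurable fun p : Om × Om => upd F p.1 p.2 := by
  classical
  rw [measurable_pi_iff]
  intro i
  by_cases hi : i ∈ F
  · have h1 : (fun p : Om × Om => upd F p.1 p.2 i) = fun p => p.1 i := by
      funext p
      simp [upd, hi]
    rw [h1]
    fun_prop
  · have h1 : (fun p : Om × Om => upd F p.1 p.2 i) = fun p => p.2 i := by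
      funext p
      simp [upd, hi]
    rw [h1]
    fun_prop

theorem upd_mp (F : Set (ℕ × ℕ)) : MeasurePreserving (fun p : Om × Om => upd F p.1 p.2) ((PP ν).prod (PP ν)) (PP ν) := by
  classical
  refine ⟨upd_meas F, ?_⟩
  refine Measure.eq_infinitePi (fun _ : ℕ × ℕ => ν.prod ν) fun s t ht => ?_
  have hm : ∀ s' : Finset (ℕ × ℕ), MeasurableSet (Set.pi (s' : Set (ℕ × ℕ)) t) := fun s' =>
    MeasurableSet.pi s'.countable_toSet fun i _ => ht i
  rw [Measure.map_apply (upd_meas F) (hm s)]
  have h1 : (fun p : Om × Om => upd F p.1 p.2) ⁻¹' (Set.pi (s : Set (ℕ × ℕ)) t) =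
      (Set.pi ((s.filter (· ∈ F) : Finset (ℕ × ℕ)) : Set (ℕ × ℕ)) t) ×ˢ
        (Set.pi ((s.filter (· ∉ F) : Finset (ℕ × ℕ)) : Set (ℕ × ℕ)) t) := by
    ext p
    simp only [Set.mem_preimage, Set.mem_pi, Set.mem_prod, Finset.mem_coe, Finset.mem_filter]
    constructor
    · intro h
      refine ⟨fun i hi => ?_, fun i hi => ?_⟩
      · have h2 := h i hi.1
        simpa [upd, hi.2] using h2
      · have h2 := h i hi.1
        simpa [upd, hi.2] using h2
    · intro h i hi
      by_cases hF : i ∈ F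
      · have h2 := h.1 i ⟨hi, hF⟩
        simpa [upd, hF] using h2
      · have h2 := h.2 i ⟨hi, hF⟩
        simpa [upd, hF] using h2
  rw [h1, Measure.prod_prod]
  unfold PP
  rw [Measure.infinitePi_pi (fun _ : ℕ × ℕ => ν.prod ν) (fun i _ => ht i),
    Measure.infinitePi_pi (fun _ : ℕ × ℕ => ν.prod ν) (fun i _ => ht i)]
  exact Finset.prod_filter_mul_prod_filter_not s (· ∈ F) _

theorem prob_le (F : Set (ℕ × ℕ)) {A : Set Om} (hA : MeasurableSet A) {b : ℝ} (hb : 0 ≤ b)
    (h : ∀ ω : Om, (PP ν).real {x | upd F x ω ∈ A} ≤ b) : (PP ν).real A ≤ b := by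
  have h1 : (PP ν) A = ((PP ν).prod (PP ν)) ((fun p : Om × Om => upd F p.1 p.2) ⁻¹' A) :=
    ((upd_mp F).measure_preimage hA.nullMeasurableSet).symm
  have h2 : (PP ν) A ≤ ENNReal.ofReal b := by
    rw [h1, Measure.prod_apply_symm ((upd_meas F) hA)]
    calc ∫⁻ ω, (PP ν) ((fun x => (x, ω)) ⁻¹' ((fun p : Om × Om => upd F p.1 p.2) ⁻¹' A)) ∂(PP ν)
        ≤ ∫⁻ _, ENNReal.ofReal b ∂(PP ν) := by
          refine lintegral_mono fun ω => ?_
          have h3 := h ω
          rw [measureReal_def] at h3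
          exact (ENNReal.le_ofReal_iff_toReal_le (measure_ne_top _ _) hb).2 h3
      _ = ENNReal.ofReal b := by simp
  rw [measureReal_def]
  exact (ENNReal.le_ofReal_iff_toReal_le (measure_ne_top _ _) hb).1 h2

/-- functions of different coordinates are independent -/
theorem coord_indep {E : Type} [MeasurableSpace E] {ι : Type} {g : ι → J1 × J1 → E} (hg : ∀ i, Measurable (g i)) {c : ι → ℕ × ℕ} (hc : Function.Injective c) :
    ProbabilityTheory.iIndepFun (fun i (x : Om) => g i (x (c i))) (PP ν) := by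
  have h1 : ProbabilityTheory.iIndepFun (fun (i : ℕ × ℕ) (x : Om) => x i) (PP ν) :=
    ProbabilityTheory.iIndepFun_infinitePi (P := fun _ : ℕ × ℕ => ν.prod ν)
      (X := fun _ y => y) (fun _ => measurable_id)
  exact (h1.precomp hc).comp g hg

/-- mean of a function of one coordinate -/
theorem coord_mean {g : J1 × J1 → ℂ} (hg : Measurable g) (i : ℕ × ℕ) : ∫ x : Om, g (x i) ∂(PP ν) = ∫ y, g y ∂(ν.prod ν) := by
  have h1 : MeasurePreserving (Function.eval i) (PP ν) (ν.prod ν) :=
    measurePreserving_eval_infinitePi (fun _ : ℕ × ℕ => ν.prod ν) i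
  rw [← h1.map_eq, integral_map h1.measurable.aemeasurable hg.aestronglyMeasurable]

/-- mean of the phase factor -/
theorem phase_mean (a b : ℝ) : ∫ y : J1 × J1, eo (a * (y.1 : ℝ) + b * (y.2 : ℝ)) ∂(ν.prod ν) = ch ν a * ch ν b := by
  have h1 : ∀ y : J1 × J1, eo (a * (y.1 : ℝ) + b * (y.2 : ℝ)) =
      eo (a * (y.1 : ℝ)) * eo (b * (y.2 : ℝ)) := by
    intro y
    unfold eo
    rw [← Complex.exp_add]
    congr 1
    push_cast
    ring
  simp only [h1]
  exact integral_prod_mul (fun x : J1 => eo (a * (x : ℝ))) (fun x : J1 => eo (b * (x : ℝ)))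

end Pool.Agent.Helper93.AO
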