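import Pool.Agent.Helper93.AO.Lev
import Pool.Agent.Helper93.AO.Res
import Pool.Agent.Helper93.AO.Bern

/-!
# AO-ONE: the probability bound with one level, abstract form

`B = ⋃_{q<8} B_q`, `B_q = {k | J k % 8 = q}`; if `8 (M #B δ + s) ≤ ‖∑ T‖` then for some `q` `M #B δ + s ≤ ‖∑_{B_q} T‖`. Fix `q`, `F = Fm l q`, `prob_le F`: for fixed `ω` the sum is
`∑_j Z_j`, `Z_j (x) = ∑_{k ∈ B, J k = j} T k (upd F om0 ω) e(a k ξ_j + b k η_j)`, over `j ∈ image J B_q`, independent (`coord_indep`, `c j = (l, j)`), `‖Z_j‖ ≤ n₁ M`, `‖E Z_j‖ ≤ M δ #{k | J k = j}`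
(`coord_mean`, `phase_mean`, `‖ch ν b‖ ≤ 1`), `∑ E‖Z_j‖² ≤ R₁ n₁² M²`. `bernstein` with `V = R₁ (n₁ M)²`, `m = n₁ M`. Total `8 · 4 exp`.
-/

open MeasureTheory Real Set Filter Topology ProbabilityTheory

set_option autoImplicit false

namespace Pool.Agent.Helper93.AO

variable {ν : Measure J1} [IsProbabilityMeasure ν]

private theorem norm_eo31 (x : ℝ) : ‖eo x‖ = 1 := by
  unfold eo
  exact Complex.norm_exp_ofReal_mul_I _

private theorem norm_ch31 (u : ℝ) : ‖ch ν u‖ ≤ 1 := by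
  unfold ch
  have h := norm_integral_le_of_norm_le_const (μ := ν) (f := fun x : J1 => eo (u * (x : ℝ))) (C := 1)
    (Eventually.of_forall fun x => le_of_eq (norm_eo31 _))
  simpa using h

private theorem cont_eo31 : Continuous eo := by
  unfold eo
  fun_prop

private theorem meas_ph31 (a b : ℝ) : Measurable fun y : J1 × J1 => eo (a * (y.1 : ℝ) + b * (y.2 : ℝ)) := by
  have h : Continuous fun y : J1 × J1 => eo (a * (y.1 : ℝ) + b * (y.2 : ℝ)) := by
    apply cont_eo31.comp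
    fun_prop
  exact h.measurable

private theorem int_ph31 (a b : ℝ) : Integrable (fun y : J1 × J1 => eo (a * (y.1 : ℝ) + b * (y.2 : ℝ))) (ν.prod ν) :=
  Integrable.of_bound (meas_ph31 a b).aestronglyMeasurable 1 (Eventually.of_forall fun _ => le_of_eq (norm_eo31 _))

/-- the part of one family -/
private theorem fam31 {κ : Type} [DecidableEq κ] {B : Finset κ} {T : κ → Om → ℂ} {l : ℕ} {J : κ → ℕ} {a b : κ → ℝ} (hR : Rep B T l J a b)
    (hm : ∀ k ∈ B, Measurable (T k)) {M δ n₁ R₁ s : ℝ} (hM : 0 < M) (hT : ∀ k ∈ B, ∀ ω, ‖T k ω‖ ≤ M) (hδ : ∀ k ∈ B, ‖ch ν (a k)‖ ≤ δ)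
    (h1 : 0 < n₁) (hn₁ : ∀ j, ((B.filter fun k => J k = j).card : ℝ) ≤ n₁) (hR₁ : ((B.image J).card : ℝ) ≤ R₁) (hs : 0 < s) (q : ℕ) :
    (PP ν).real {ω | M * B.card * δ + s ≤ ‖∑ k ∈ B.filter (fun k => J k % 8 = q), T k ω‖} ≤
      4 * exp (-(s ^ 2 / (16 * (R₁ * (n₁ * M) ^ 2 + n₁ * M * s)))) := by
  have hmeas : MeasurableSet {ω | M * B.card * δ + s ≤ ‖∑ k ∈ B.filter (fun k => J k % 8 = q), T k ω‖} := by
    apply measurableSet_le measurable_const
    apply Measurable.norm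
    apply Finset.measurable_fun_sum
    intro k hk
    exact hm k (Finset.mem_filter.1 hk).1
  refine prob_le (Fm l q) hmeas (by positivity) ?_
  intro ω
  set c : κ → ℂ := fun k => T k (upd (Fm l q) om0 ω) with hc
  set g : ℕ → J1 × J1 → ℂ := fun j y => ∑ k ∈ (B.filter (fun k => J k % 8 = q)).filter (fun k => J k = j), c k * eo (a k * (y.1 : ℝ) + b k * (y.2 : ℝ)) with hg
  set Z : ℕ → Om → ℂ := fun j x => g j (x (l, j)) with hZ
  have hgm : ∀ j, Measurable (g j) := by
    intro j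
    apply Finset.measurable_fun_sum
    intro k _
    exact (meas_ph31 (a k) (b k)).const_mul (c k)
  have hZm : ∀ j, Measurable (Z j) := fun j => (hgm j).comp (measurable_pi_apply _)
  have hZi : iIndepFun Z (PP ν) := by
    have := coord_indep (ν := ν) hgm (c := fun j : ℕ => ((l, j) : ℕ × ℕ)) (fun i j h => (Prod.mk.inj h).2)
    exact this
  have hcard : ∀ j, (((B.filter (fun k => J k % 8 = q)).filter (fun k => J k = j)).card : ℝ) ≤ n₁ := by
    intro j
    refine le_trans ?_ (hn₁ j)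
    exact_mod_cast Finset.card_le_card (Finset.filter_subset_filter _ (Finset.filter_subset _ _))
  have hcM : ∀ k ∈ B, ‖c k‖ ≤ M := fun k hk => hT k hk _
  have hgb : ∀ j y, ‖g j y‖ ≤ n₁ * M := by
    intro j y
    calc ‖g j y‖ ≤ ∑ k ∈ (B.filter (fun k => J k % 8 = q)).filter (fun k => J k = j), ‖c k * eo (a k * (y.1 : ℝ) + b k * (y.2 : ℝ))‖ := norm_sum_le _ _
      _ ≤ ∑ _k ∈ (B.filter (fun k => J k % 8 = q)).filter (fun k => J k = j), M := by
          apply Finset.sum_le_sum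
          intro k hk
          rw [norm_mul, norm_eo31, mul_one]
          exact hcM k (Finset.mem_filter.1 (Finset.mem_filter.1 hk).1).1
      _ = (((B.filter (fun k => J k % 8 = q)).filter (fun k => J k = j)).card : ℝ) * M := by
          rw [Finset.sum_const, nsmul_eq_mul]
      _ ≤ n₁ * M := mul_le_mul_of_nonneg_right (hcard j) hM.le
  have hE : ∀ j, ‖∫ x, Z j x ∂(PP ν)‖ ≤ (((B.filter (fun k => J k % 8 = q)).filter (fun k => J k = j)).card : ℝ) * (M * δ) := by
    intro j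
    have e1 : ∫ x, Z j x ∂(PP ν) = ∑ k ∈ (B.filter (fun k => J k % 8 = q)).filter (fun k => J k = j), c k * (ch ν (a k) * ch ν (b k)) := by
      have e2 : ∫ x, Z j x ∂(PP ν) = ∫ y, g j y ∂(ν.prod ν) := coord_mean (hgm j) (l, j)
      rw [e2]
      have e3 : ∫ y, g j y ∂(ν.prod ν) = ∑ k ∈ (B.filter (fun k => J k % 8 = q)).filter (fun k => J k = j),
          ∫ y : J1 × J1, c k * eo (a k * (y.1 : ℝ) + b k * (y.2 : ℝ)) ∂(ν.prod ν) := by
        apply integral_finsetSum
        intro k _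
        exact (int_ph31 (a k) (b k)).const_mul (c k)
      rw [e3]
      apply Finset.sum_congr rfl
      intro k _
      rw [integral_const_mul, phase_mean]
    rw [e1]
    calc ‖∑ k ∈ (B.filter (fun k => J k % 8 = q)).filter (fun k => J k = j), c k * (ch ν (a k) * ch ν (b k))‖
        ≤ ∑ k ∈ (B.filter (fun k => J k % 8 = q)).filter (fun k => J k = j), ‖c k * (ch ν (a k) * ch ν (b k))‖ := norm_sum_le _ _
      _ ≤ ∑ _k ∈ (B.filter (fun k => J k % 8 = q)).filter (fun k => J k = j), M * δ := by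
          apply Finset.sum_le_sum
          intro k hk
          have hkB : k ∈ B := (Finset.mem_filter.1 (Finset.mem_filter.1 hk).1).1
          rw [norm_mul, norm_mul]
          have h2 : ‖ch ν (a k)‖ * ‖ch ν (b k)‖ ≤ δ * 1 :=
            mul_le_mul (hδ k hkB) (norm_ch31 _) (norm_nonneg _) ((norm_nonneg _).trans (hδ k hkB))
          rw [mul_one] at h2
          exact mul_le_mul (hcM k hkB) h2 (by positivity) hM.le
      _ = (((B.filter (fun k => J k % 8 = q)).filter (fun k => J k = j)).card : ℝ) * (M * δ) := by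
          rw [Finset.sum_const, nsmul_eq_mul]
  have hcardsum : ∑ j ∈ (B.filter (fun k => J k % 8 = q)).image J, (((B.filter (fun k => J k % 8 = q)).filter (fun k => J k = j)).card : ℝ) =
      ((B.filter (fun k => J k % 8 = q)).card : ℝ) := by
    have := Finset.card_eq_sum_card_image J (B.filter (fun k => J k % 8 = q))
    rw [this]
    push_cast
    rfl
  have hμ : ‖∑ j ∈ (B.filter (fun k => J k % 8 = q)).image J, ∫ x, Z j x ∂(PP ν)‖ ≤ M * B.card * δ := by
    calc ‖∑ j ∈ (B.filter (fun k => J k % 8 = q)).image J, ∫ x, Z j x ∂(PP ν)‖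
        ≤ ∑ j ∈ (B.filter (fun k => J k % 8 = q)).image J, ‖∫ x, Z j x ∂(PP ν)‖ := norm_sum_le _ _
      _ ≤ ∑ j ∈ (B.filter (fun k => J k % 8 = q)).image J, (((B.filter (fun k => J k % 8 = q)).filter (fun k => J k = j)).card : ℝ) * (M * δ) :=
          Finset.sum_le_sum fun j _ => hE j
      _ = ((B.filter (fun k => J k % 8 = q)).card : ℝ) * (M * δ) := by
          rw [← Finset.sum_mul, hcardsum]
      _ ≤ M * B.card * δ := by
          rcases B.eq_empty_or_nonempty with rfl | ⟨k, hk⟩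
          · simp
          · have hδ0 : 0 ≤ δ := (norm_nonneg _).trans (hδ k hk)
            have h3 : ((B.filter (fun k => J k % 8 = q)).card : ℝ) ≤ B.card := by
              exact_mod_cast Finset.card_le_card (Finset.filter_subset _ _)
            calc ((B.filter (fun k => J k % 8 = q)).card : ℝ) * (M * δ) ≤ (B.card : ℝ) * (M * δ) :=
                  mul_le_mul_of_nonneg_right h3 (by positivity)
              _ = M * B.card * δ := by ring
  have hV : ∑ j ∈ (B.filter (fun k => J k % 8 = q)).image J, ∫ x, ‖Z j x‖ ^ 2 ∂(PP ν) ≤ R₁ * (n₁ * M) ^ 2 := by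
    have h4 : ∀ j, ∫ x, ‖Z j x‖ ^ 2 ∂(PP ν) ≤ (n₁ * M) ^ 2 := by
      intro j
      have h5 : ∀ x, ‖Z j x‖ ^ 2 ≤ (n₁ * M) ^ 2 := fun x => pow_le_pow_left₀ (norm_nonneg _) (hgb j _) 2
      calc ∫ x, ‖Z j x‖ ^ 2 ∂(PP ν) ≤ ∫ _x : Om, (n₁ * M) ^ 2 ∂(PP ν) := by
            apply integral_mono_of_nonneg
            · exact Eventually.of_forall fun x => by positivity
            · exact integrable_const _
            · exact Eventually.of_forall h5
        _ = (n₁ * M) ^ 2 := by simp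
    calc ∑ j ∈ (B.filter (fun k => J k % 8 = q)).image J, ∫ x, ‖Z j x‖ ^ 2 ∂(PP ν)
        ≤ ∑ _j ∈ (B.filter (fun k => J k % 8 = q)).image J, (n₁ * M) ^ 2 := Finset.sum_le_sum fun j _ => h4 j
      _ = (((B.filter (fun k => J k % 8 = q)).image J).card : ℝ) * (n₁ * M) ^ 2 := by
          rw [Finset.sum_const, nsmul_eq_mul]
      _ ≤ R₁ * (n₁ * M) ^ 2 := by
          apply mul_le_mul_of_nonneg_right _ (by positivity)
          refine le_trans ?_ hR₁
          exact_mod_cast Finset.card_le_card (Finset.image_subset_image (Finset.filter_subset _ _))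
  have key := bernstein (P := PP ν) ((B.filter (fun k => J k % 8 = q)).image J) hZm hZi (m := n₁ * M) (V := R₁ * (n₁ * M) ^ 2) (μ := M * B.card * δ) (s := s)
    (by positivity) (fun j _ x => hgb j _) hV hμ hs
  refine le_trans (le_of_eq ?_) key
  congr 1
  ext x
  simp only [Set.mem_ofPred_eq]
  have hsum : ∑ k ∈ B.filter (fun k => J k % 8 = q), T k (upd (Fm l q) x ω) = ∑ j ∈ (B.filter (fun k => J k % 8 = q)).image J, Z j x := by
    have h6 : ∀ k ∈ B.filter (fun k => J k % 8 = q), T k (upd (Fm l q) x ω) =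
        c k * eo (a k * ((x (l, J k)).1 : ℝ) + b k * ((x (l, J k)).2 : ℝ)) := by
      intro k hk
      have hk' := Finset.mem_filter.1 hk
      have := hR.rep k hk'.1 x ω
      rw [hk'.2] at this
      exact this
    rw [Finset.sum_congr rfl h6]
    rw [← Finset.sum_fiberwise_of_maps_to (s := B.filter (fun k => J k % 8 = q)) (t := (B.filter (fun k => J k % 8 = q)).image J) (g := J)
      (fun k hk => Finset.mem_image_of_mem J hk)]
    apply Finset.sum_congr rfl
    intro j _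
    simp only [hZ, hg]
    apply Finset.sum_congr rfl
    intro k hk
    have hkj : J k = j := (Finset.mem_filter.1 hk).2
    rw [hkj]
  rw [hsum]

theorem one_level {κ : Type} [DecidableEq κ] {B : Finset κ} {T : κ → Om → ℂ} {l : ℕ} {J : κ → ℕ} {a b : κ → ℝ} (hR : Rep B T l J a b)
    (hm : ∀ k ∈ B, Measurable (T k)) {M δ n₁ R₁ s : ℝ} (hM : 0 < M) (hT : ∀ k ∈ B, ∀ ω, ‖T k ω‖ ≤ M) (hδ : ∀ k ∈ B, ‖ch ν (a k)‖ ≤ δ)
    (h1 : 0 < n₁) (hn₁ : ∀ j, ((B.filter fun k => J k = j).card : ℝ) ≤ n₁) (hR₁ : ((B.image J).card : ℝ) ≤ R₁) (hs : 0 < s) :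
    (PP ν).real {ω | 8 * (M * B.card * δ + s) ≤ ‖∑ k ∈ B, T k ω‖} ≤ 32 * exp (-(s ^ 2 / (16 * (R₁ * (n₁ * M) ^ 2 + n₁ * M * s)))) := by
  have hsub : {ω | 8 * (M * B.card * δ + s) ≤ ‖∑ k ∈ B, T k ω‖} ⊆
      ⋃ q ∈ Finset.range 8, {ω | M * B.card * δ + s ≤ ‖∑ k ∈ B.filter (fun k => J k % 8 = q), T k ω‖} := by
    intro ω hω
    simp only [Set.mem_ofPred_eq] at hω
    by_contra hcon
    simp only [Set.mem_iUnion, Set.mem_ofPred_eq, not_exists, not_le] at hcon
    have h7 : ∑ k ∈ B, T k ω = ∑ q ∈ Finset.range 8, ∑ k ∈ B.filter (fun k => J k % 8 = q), T k ω := by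
      rw [Finset.sum_fiberwise_of_maps_to]
      intro k _
      exact Finset.mem_range.2 (Nat.mod_lt _ (by norm_num))
    have h8 : ‖∑ k ∈ B, T k ω‖ < 8 * (M * B.card * δ + s) := by
      rw [h7]
      calc ‖∑ q ∈ Finset.range 8, ∑ k ∈ B.filter (fun k => J k % 8 = q), T k ω‖
          ≤ ∑ q ∈ Finset.range 8, ‖∑ k ∈ B.filter (fun k => J k % 8 = q), T k ω‖ := norm_sum_le _ _
        _ < ∑ _q ∈ Finset.range 8, (M * B.card * δ + s) := by
            apply Finset.sum_lt_sum_of_nonempty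
            · exact ⟨0, by simp⟩
            · intro q hq
              exact hcon q hq
        _ = 8 * (M * B.card * δ + s) := by
            rw [Finset.sum_const, nsmul_eq_mul]
            simp
    exact absurd hω (not_le.2 h8)
  calc (PP ν).real {ω | 8 * (M * B.card * δ + s) ≤ ‖∑ k ∈ B, T k ω‖}
      ≤ (PP ν).real (⋃ q ∈ Finset.range 8, {ω | M * B.card * δ + s ≤ ‖∑ k ∈ B.filter (fun k => J k % 8 = q), T k ω‖}) :=
        measureReal_mono hsub (measure_ne_top _ _)
    _ ≤ ∑ q ∈ Finset.range 8, (PP ν).real {ω | M * B.card * δ + s ≤ ‖∑ k ∈ B.filter (fun k => J k % 8 = q), T k ω‖} :=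
        measureReal_biUnion_finset_le _ _
    _ ≤ ∑ _q ∈ Finset.range 8, 4 * exp (-(s ^ 2 / (16 * (R₁ * (n₁ * M) ^ 2 + n₁ * M * s)))) :=
        Finset.sum_le_sum fun q _ => fam31 hR hm hM hT hδ h1 hn₁ hR₁ hs q
    _ = 32 * exp (-(s ^ 2 / (16 * (R₁ * (n₁ * M) ^ 2 + n₁ * M * s)))) := by
        rw [Finset.sum_const, nsmul_eq_mul]
        simp only [Finset.card_range]
        push_cast
        ring

end Pool.Agent.Helper93.AO
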