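import Pool.Agent.Helper93.AO.Defs

/-!
# AO-ANG: angles and indices

`t - th l (idx l t) = δ + 2 π n` with `|δ| ≤ π/(4·16^l)` (`idx` is the nearest integer to `t (2·16^l)/π` modulo `4·16^l`). So `|sin ((t - th)/2)| = |sin (δ/2)| ≤ π/(8·16^l)`,
`π/8 < 2/5`. Nested: two such differences add, `2 · π/8 < 4/5` (`|sin (a + b)| ≤ |sin a| + |sin b|`). `idx_close`: the differences `δ`, `δ'` subtract: `π/2 ≤ 2`; `idx_nest_close`: `π ≤ 4`.
`fam_sep`: `th l m - th l m' = π j/(2·16^l)`, `8 ≤ |j|`, `|j| ≤ 4·16^l - 8`; if `|16^l sin ((t - th l m')/2)| ≤ 2` then by `sin (a + b) = …` `16^l |sin (π j/(4·16^l))| ≤ 14/5`,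
but `|sin y| ≥ (2/π) y` on `[0, π/2]` (`Real.mul_le_sin`) gives `16^l |sin (π j/(4·16^l))| ≥ 16^l (2/π)(8 π/(4·16^l)) = 4`; for `l = 0` there are only 4 indices, so `m % 8 = m' % 8` forces `m = m'`.
`act_card`: `|16^l sin ((t - th l m)/2)| ≤ 2` forces `m` to lie, modulo `4·16^l`, within `4` of the real number `t (2·16^l)/π` (again `Real.mul_le_sin`).
-/

open MeasureTheory Real Set Filter Topology

set_option autoImplicit false

namespace Pool.Agent.Helper93.AO

private lemma pos63 (l : ℕ) : (0 : ℝ) < 16 ^ l := by positivity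

private lemma one63 (l : ℕ) : (1 : ℝ) ≤ 16 ^ l := one_le_pow₀ (by norm_num)

theorem idx_lt (l : ℕ) (t : ℝ) : idx l t < 4 * 16 ^ l := by
  unfold idx
  have h : (0 : ℤ) < 4 * 16 ^ l := by positivity
  have h1 := Int.emod_nonneg ⌊t * (2 * 16 ^ l) / π + 1 / 2⌋ h.ne'
  have h2 := Int.emod_lt_of_pos ⌊t * (2 * 16 ^ l) / π + 1 / 2⌋ h
  have h3 : ((4 * 16 ^ l : ℕ) : ℤ) = 4 * 16 ^ l := by push_cast; ring
  omega

/-- the difference of an angle and its nearest centre -/
private lemma key63 (l : ℕ) (t : ℝ) :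
    ∃ (δ : ℝ) (j : ℤ), |δ| ≤ π / (4 * 16 ^ l) ∧ t - th l (idx l t) = δ + j * (2 * π) := by
  have hA := pos63 l
  set k : ℤ := ⌊t * (2 * 16 ^ l) / π + 1 / 2⌋ with hk
  have h : (0 : ℤ) < 4 * 16 ^ l := by positivity
  have h1 := Int.emod_nonneg k h.ne'
  have h2 : ((idx l t : ℕ) : ℤ) = k - 4 * 16 ^ l * (k / (4 * 16 ^ l)) := by
    unfold idx
    rw [← hk, Int.toNat_of_nonneg h1, Int.emod_def]
  have h3 : ((idx l t : ℕ) : ℝ) = k - 4 * 16 ^ l * ((k / (4 * 16 ^ l) : ℤ) : ℝ) := by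
    have := congrArg (fun x : ℤ => (x : ℝ)) h2
    push_cast at this
    exact this
  refine ⟨t - π * k / (2 * 16 ^ l), k / (4 * 16 ^ l), ?_, ?_⟩
  · have e1 : t - π * k / (2 * 16 ^ l) = π / (2 * 16 ^ l) * (t * (2 * 16 ^ l) / π - k) := by
      field_simp
    have e2 : |t * (2 * 16 ^ l) / π - k| ≤ 1 / 2 := by
      have a1 := Int.floor_le (t * (2 * 16 ^ l) / π + 1 / 2)
      have a2 := Int.lt_floor_add_one (t * (2 * 16 ^ l) / π + 1 / 2)
      rw [← hk] at a1 a2
      rw [abs_le]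
      constructor <;> linarith
    rw [e1, abs_mul, abs_of_pos (by positivity)]
    calc π / (2 * 16 ^ l) * |t * (2 * 16 ^ l) / π - k| ≤ π / (2 * 16 ^ l) * (1 / 2) := by gcongr
      _ = π / (4 * 16 ^ l) := by
        field_simp
        norm_num
  · unfold th
    rw [h3]
    field_simp
    ring

private lemma half63 (δ : ℝ) (j : ℤ) : |sin ((δ + j * (2 * π)) / 2)| = |sin (δ / 2)| := by
  have e : (δ + j * (2 * π)) / 2 = δ / 2 + j * π := by ring
  rw [e, Real.sin_add_int_mul_pi, abs_mul, abs_zpow, abs_neg, abs_one, one_zpow, one_mul]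

private lemma half_le63 {l : ℕ} {x δ : ℝ} {j : ℤ} {c : ℝ} (h : x = δ + j * (2 * π)) (hδ : |δ| ≤ c / 16 ^ l) :
    |16 ^ l * sin (x / 2)| ≤ c / 2 := by
  have hA := pos63 l
  rw [h, abs_mul, abs_of_pos hA, half63]
  have h1 : |sin (δ / 2)| ≤ |δ / 2| := Real.abs_sin_le_abs
  rw [abs_div, abs_of_pos (by norm_num : (0 : ℝ) < 2)] at h1
  calc 16 ^ l * |sin (δ / 2)| ≤ 16 ^ l * (|δ| / 2) := by gcongr
    _ ≤ 16 ^ l * (c / 16 ^ l / 2) := by gcongr
    _ = c / 2 := by field_simp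

theorem idx_near (l : ℕ) (t : ℝ) : |16 ^ l * sin ((t - th l (idx l t)) / 2)| ≤ 2 / 5 := by
  obtain ⟨δ, j, h1, h2⟩ := key63 l t
  have h3 : |δ| ≤ (π / 4) / 16 ^ l := by
    rw [div_div]
    exact h1
  have := half_le63 h2 h3
  have hp := Real.pi_lt_d2
  linarith

/-- the difference of an angle and its nested centre -/
private lemma key2_63 {l₁ l₂ : ℕ} (h : l₂ ≤ l₁) (t : ℝ) :
    ∃ (δ : ℝ) (j : ℤ), |δ| ≤ (π / 2) / 16 ^ l₂ ∧ t - th l₂ (idx l₂ (th l₁ (idx l₁ t))) = δ + j * (2 * π) := by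
  obtain ⟨δ, j, h1, h2⟩ := key63 l₁ t
  obtain ⟨δ', j', h1', h2'⟩ := key63 l₂ (th l₁ (idx l₁ t))
  refine ⟨δ + δ', j + j', ?_, ?_⟩
  · have h3 : π / (4 * 16 ^ l₁) ≤ π / (4 * 16 ^ l₂) := by
      have := pos63 l₂
      have h4 : (16 : ℝ) ^ l₂ ≤ 16 ^ l₁ := pow_le_pow_right₀ (by norm_num) h
      gcongr
    calc |δ + δ'| ≤ |δ| + |δ'| := abs_add_le _ _
      _ ≤ π / (4 * 16 ^ l₂) + π / (4 * 16 ^ l₂) := by linarith
      _ = (π / 2) / 16 ^ l₂ := by
        have := pos63 l₂
        field_simp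
        ring
  · push_cast
    linear_combination h2 + h2'

theorem idx_nest {l₁ l₂ : ℕ} (h : l₂ ≤ l₁) (t : ℝ) : |16 ^ l₂ * sin ((t - th l₂ (idx l₂ (th l₁ (idx l₁ t)))) / 2)| ≤ 4 / 5 := by
  obtain ⟨δ, j, h1, h2⟩ := key2_63 h t
  have := half_le63 h2 h1
  have hp := Real.pi_lt_d2
  linarith

private lemma diff63 {t t' u δ δ' : ℝ} {j j' : ℤ} (h : t - u = δ + j * (2 * π)) (h' : t' - u = δ' + j' * (2 * π)) :
    sin (t - t') = sin (δ - δ') ∧ cos (t - t') = cos (δ - δ') := by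
  have e : t - t' = (δ - δ') + (j - j' : ℤ) * (2 * π) := by
    push_cast
    linear_combination h - h'
  rw [e]
  exact ⟨Real.sin_add_int_mul_two_pi _ _, Real.cos_add_int_mul_two_pi _ _⟩

private lemma sub_le63 {δ δ' c : ℝ} (h : |δ| ≤ c) (h' : |δ'| ≤ c) : |δ - δ'| ≤ c + c :=
  (abs_sub _ _).trans (add_le_add h h')

/-- angles with the same index -/
theorem idx_close {l : ℕ} {t t' : ℝ} (h : idx l t = idx l t') : |sin (t - t')| ≤ 2 / 16 ^ l ∧ (1 ≤ l → 0 < cos (t - t')) := by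
  obtain ⟨δ, j, h1, h2⟩ := key63 l t
  obtain ⟨δ', j', h1', h2'⟩ := key63 l t'
  rw [← h] at h2'
  obtain ⟨e1, e2⟩ := diff63 h2 h2'
  have hA := pos63 l
  have h3 := sub_le63 h1 h1'
  have h4 : π / (4 * 16 ^ l) + π / (4 * 16 ^ l) = (π / 2) / 16 ^ l := by
    field_simp
    ring
  rw [h4] at h3
  have hp := Real.pi_lt_d2
  constructor
  · rw [e1]
    calc |sin (δ - δ')| ≤ |δ - δ'| := Real.abs_sin_le_abs
      _ ≤ (π / 2) / 16 ^ l := h3
      _ ≤ 2 / 16 ^ l := by
        gcongr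
        linarith
  · intro hl
    rw [e2]
    have h5 : (π / 2) / 16 ^ l < π / 2 := by
      have h6 : (1 : ℝ) < 16 ^ l := one_lt_pow₀ (by norm_num) (by omega)
      exact div_lt_self (by positivity) h6
    have h7 := abs_lt.mp (lt_of_le_of_lt h3 h5)
    exact Real.cos_pos_of_mem_Ioo ⟨h7.1, h7.2⟩

/-- angles with the same nested index -/
theorem idx_nest_close {l₁ l₂ : ℕ} (h : l₂ ≤ l₁) {t t' : ℝ} (he : idx l₂ (th l₁ (idx l₁ t)) = idx l₂ (th l₁ (idx l₁ t'))) :
    |sin (t - t')| ≤ 4 / 16 ^ l₂ := by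
  obtain ⟨δ, j, h1, h2⟩ := key2_63 h t
  obtain ⟨δ', j', h1', h2'⟩ := key2_63 h t'
  rw [← he] at h2'
  obtain ⟨e1, _⟩ := diff63 h2 h2'
  have hA := pos63 l₂
  have hp := Real.pi_lt_d2
  rw [e1]
  calc |sin (δ - δ')| ≤ |δ - δ'| := Real.abs_sin_le_abs
    _ ≤ (π / 2) / 16 ^ l₂ + (π / 2) / 16 ^ l₂ := sub_le63 h1 h1'
    _ = π / 16 ^ l₂ := by ring
    _ ≤ 4 / 16 ^ l₂ := by
      gcongr
      linarith

/-- the index depends on the angle modulo `2π` -/
theorem idx_per (l : ℕ) (t : ℝ) (n : ℤ) : idx l (t + n * (2 * π)) = idx l t := by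
  unfold idx
  have e : (t + n * (2 * π)) * (2 * 16 ^ l) / π + 1 / 2 =
      t * (2 * 16 ^ l) / π + 1 / 2 + ((4 * 16 ^ l * n : ℤ) : ℝ) := by
    push_cast
    field_simp
    ring
  rw [e, Int.floor_add_intCast, Int.add_mul_emod_self_left]

/-- bumps of the same family have disjoint supports -/
theorem fam_sep {l m m' : ℕ} {t : ℝ} (hm : m < 4 * 16 ^ l) (hm' : m' < 4 * 16 ^ l) (h8 : m % 8 = m' % 8) (hne : m ≠ m')
    (ht : |16 ^ l * sin ((t - th l m) / 2)| ≤ 4 / 5) : 2 < |16 ^ l * sin ((t - th l m') / 2)| := by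
  have hA := pos63 l
  have hp := Real.pi_pos
  -- `l ≥ 1`
  have hl : l ≠ 0 := by
    rintro rfl
    simp only [pow_zero, mul_one] at hm hm'
    omega
  have h88 : 8 ∣ 4 * 16 ^ l := by
    obtain ⟨k, rfl⟩ := Nat.exists_eq_succ_of_ne_zero hl
    exact ⟨8 * 16 ^ k, by rw [Nat.succ_eq_add_one, pow_succ]; ring⟩
  obtain ⟨K, hK⟩ := h88
  -- the difference of the two indices
  obtain ⟨d, hd1, hd2, hd3⟩ : ∃ d : ℕ, 8 ≤ d ∧ d + 8 ≤ 4 * 16 ^ l ∧ |sin (π * (m' - m : ℝ) / (4 * 16 ^ l))| =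
      |sin (π * d / (4 * 16 ^ l))| := by
    rcases lt_or_gt_of_ne hne with hlt | hlt
    · refine ⟨m' - m, by omega, by omega, ?_⟩
      rw [Nat.cast_sub hlt.le]
    · refine ⟨m - m', by omega, by omega, ?_⟩
      rw [Nat.cast_sub hlt.le, ← abs_neg (sin (π * ((m : ℝ) - m') / (4 * 16 ^ l))), ← Real.sin_neg]
      congr 2
      ring
  have hd1' : (8 : ℝ) ≤ d := by exact_mod_cast hd1
  have hd2' : (d : ℝ) + 8 ≤ 4 * 16 ^ l := by exact_mod_cast hd2
  -- the lower bound
  have hlow : 4 / 16 ^ l ≤ |sin (π * d / (4 * 16 ^ l))| := by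
    set y := π * d / (4 * 16 ^ l) with hy
    have hy1 : 2 * π / 16 ^ l ≤ y := by
      rw [hy, div_le_div_iff₀ hA (by positivity)]
      nlinarith [mul_pos hp hA]
    have hy2 : y ≤ π - 2 * π / 16 ^ l := by
      have e1 : π - 2 * π / 16 ^ l = π * (4 * 16 ^ l - 8) / (4 * 16 ^ l) := by
        field_simp
        ring
      rw [e1, hy]
      gcongr
      linarith
    have h0 : 0 < 2 * π / 16 ^ l := by positivity
    have e2 : 2 / π * (2 * π / 16 ^ l) = 4 / 16 ^ l := by
      field_simp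
      norm_num
    refine le_trans ?_ (le_abs_self _)
    rcases le_total y (π / 2) with hc | hc
    · have := Real.mul_le_sin (by linarith) hc
      calc 4 / 16 ^ l = 2 / π * (2 * π / 16 ^ l) := e2.symm
        _ ≤ 2 / π * y := by gcongr
        _ ≤ sin y := this
    · have := Real.mul_le_sin (x := π - y) (by linarith) (by linarith)
      rw [Real.sin_pi_sub] at this
      calc 4 / 16 ^ l = 2 / π * (2 * π / 16 ^ l) := e2.symm
        _ ≤ 2 / π * (π - y) := by
          gcongr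
          linarith
        _ ≤ sin y := this
  rw [← hd3] at hlow
  -- the triangle inequality
  have e3 : π * (m' - m : ℝ) / (4 * 16 ^ l) = (t - th l m) / 2 - (t - th l m') / 2 := by
    unfold th
    field_simp
    ring
  have h4 : |sin (π * (m' - m : ℝ) / (4 * 16 ^ l))| ≤ |sin ((t - th l m) / 2)| + |sin ((t - th l m') / 2)| := by
    rw [e3, Real.sin_sub]
    calc |sin ((t - th l m) / 2) * cos ((t - th l m') / 2) - cos ((t - th l m) / 2) * sin ((t - th l m') / 2)|
        ≤ |sin ((t - th l m) / 2) * cos ((t - th l m') / 2)| + |cos ((t - th l m) / 2) * sin ((t - th l m') / 2)| := abs_sub _ _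
      _ ≤ |sin ((t - th l m) / 2)| * 1 + 1 * |sin ((t - th l m') / 2)| := by
        rw [abs_mul, abs_mul]
        gcongr
        · exact Real.abs_cos_le_one _
        · exact Real.abs_cos_le_one _
      _ = _ := by ring
  rw [abs_mul, abs_of_pos hA] at ht ⊢
  have h5 : 4 ≤ 16 ^ l * (|sin ((t - th l m) / 2)| + |sin ((t - th l m') / 2)|) := by
    calc (4 : ℝ) = 16 ^ l * (4 / 16 ^ l) := by field_simp
      _ ≤ _ := by
        gcongr
        exact hlow.trans h4
  nlinarith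

/-- at most nine bumps are active at `t` -/
theorem act_card (l : ℕ) (t : ℝ) : ((Finset.range (4 * 16 ^ l)).filter fun m => |16 ^ l * sin ((t - th l m) / 2)| ≤ 2).card ≤ 9 := by
  classical
  have hA := pos63 l
  have hp := Real.pi_pos
  set x : ℝ := t * (2 * 16 ^ l) / π with hx
  -- the integer shift
  have hsh : ∀ m ∈ (Finset.range (4 * 16 ^ l)).filter (fun m => |16 ^ l * sin ((t - th l m) / 2)| ≤ 2),
      ∃ n : ℤ, |x - m - 4 * 16 ^ l * n| ≤ 4 := by
    intro m hm
    rw [Finset.mem_filter] at hm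
    have h1 := hm.2
    set y : ℝ := (t - th l m) / 2 with hy
    set n : ℤ := ⌊y / π + 1 / 2⌋ with hn
    refine ⟨n, ?_⟩
    have hyn : |y - n * π| ≤ π / 2 := by
      have a1 := Int.floor_le (y / π + 1 / 2)
      have a2 := Int.lt_floor_add_one (y / π + 1 / 2)
      rw [← hn] at a1 a2
      have e : y - n * π = π * (y / π - n) := by field_simp
      rw [e, abs_mul, abs_of_pos hp]
      have : |y / π - n| ≤ 1 / 2 := by
        rw [abs_le]
        constructor <;> linarith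
      nlinarith
    have hsin : |sin y| = |sin (y - n * π)| := by
      rw [Real.sin_sub_int_mul_pi, abs_mul, abs_zpow, abs_neg, abs_one, one_zpow, one_mul]
    have hlow : 2 / π * |y - n * π| ≤ |sin (y - n * π)| := by
      rcases le_total 0 (y - n * π) with hc | hc
      · rw [abs_of_nonneg hc] at hyn ⊢
        exact (Real.mul_le_sin hc hyn).trans (le_abs_self _)
      · rw [abs_of_nonpos hc] at hyn ⊢
        have := Real.mul_le_sin (x := -(y - n * π)) (by linarith) hyn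
        rw [Real.sin_neg] at this
        exact this.trans (neg_le_abs _)
    rw [abs_mul, abs_of_pos hA, hsin] at h1
    have h2 : 16 ^ l * (2 / π * |y - n * π|) ≤ 2 := le_trans (by gcongr) h1
    have h3 : x - m - 4 * 16 ^ l * n = 4 * 16 ^ l / π * (y - n * π) := by
      rw [hx, hy]
      unfold th
      field_simp
      ring
    rw [h3, abs_mul, abs_of_pos (by positivity)]
    calc 4 * 16 ^ l / π * |y - n * π| = 2 * (16 ^ l * (2 / π * |y - n * π|)) := by ring
      _ ≤ 2 * 2 := by gcongr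
      _ = 4 := by norm_num
  choose! f hf using hsh
  calc ((Finset.range (4 * 16 ^ l)).filter fun m => |16 ^ l * sin ((t - th l m) / 2)| ≤ 2).card
      ≤ (Finset.Icc ⌈x - 4⌉ ⌊x + 4⌋).card := by
        refine Finset.card_le_card_of_injOn (fun m => (m : ℤ) + 4 * 16 ^ l * f m) ?_ ?_
        · intro m hm
          have h1 := abs_le.mp (hf m hm)
          rw [Finset.mem_coe, Finset.mem_Icc]
          constructor
          · rw [Int.ceil_le]
            push_cast
            linarith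
          · rw [Int.le_floor]
            push_cast
            linarith
        · intro m hm m' hm' he
          have h1 : m < 4 * 16 ^ l := by
            have := (Finset.mem_filter.mp hm).1
            exact Finset.mem_range.mp this
          have h2 : m' < 4 * 16 ^ l := by
            have := (Finset.mem_filter.mp hm').1
            exact Finset.mem_range.mp this
          have h3 := congrArg (fun z : ℤ => z % (4 * 16 ^ l)) he
          simp only [Int.add_mul_emod_self_left] at h3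
          have h4 : ((m : ℤ)) % (4 * 16 ^ l) = m := Int.emod_eq_of_lt (by positivity) (by exact_mod_cast h1)
          have h5 : ((m' : ℤ)) % (4 * 16 ^ l) = m' := Int.emod_eq_of_lt (by positivity) (by exact_mod_cast h2)
          rw [h4, h5] at h3
          exact_mod_cast h3
    _ ≤ 9 := by
        rw [Int.card_Icc]
        have h1 : (⌊x + 4⌋ : ℝ) ≤ x + 4 := Int.floor_le _
        have h2 : x - 4 ≤ (⌈x - 4⌉ : ℝ) := Int.le_ceil _
        have h3 : ((⌊x + 4⌋ - ⌈x - 4⌉ : ℤ) : ℝ) ≤ 8 := by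
          push_cast
          linarith
        have h4 : ⌊x + 4⌋ - ⌈x - 4⌉ ≤ 8 := by exact_mod_cast h3
        omega

end Pool.Agent.Helper93.AO
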