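import Pool.Agent.Helper93.AO.Sec
import Pool.Agent.Helper93.AO.Ang

/-!
# AO-RAY: the classes of the low frequencies

Every `k ∈ sqa N` is `g n`, `n` primitive, `g = gcd`. `ray_sum`: for `N = 2^n` the gcd is `≥ 1` and `< 2^(n+1)`. `ray_card`: `g ∈ [2^j, 2^(j+1))`, at most `2^j` values, and `n` in the square of side `≤ 4N/2^j` : `(4N/2^j + 1)²`, and the class is empty
for `2^j ≥ 2N`. `ray_arc`: two elements of the same arc of level `l` have `|sin (tr - tr')| ≤ 2/16^l` (`idx_close`), so by `cross_eq` `|k × k'| < 1` if `16^l ≥ C N²`, `k × k' = 0`, and `cos (tr - tr') > 0` shows that they are positive multiples of the same primitive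
vector; different elements have different gcd. `ray_arcs`: the arc depends only on the primitive vector (`pos f α (g n) = pos f α n`, `tr_smul`).
-/

open MeasureTheory Real Set Filter Topology

set_option autoImplicit false

namespace Pool.Agent.Helper93.AO

open Pool.Agent.Helper22.AE (ee rho)
open Pool.Agent.Helper22.AC (ga)
open Pool.Agent.Helper92.GC (dt sqa)
open Pool.Agent.Helper22.LP (Fr fk fdet nr tr hom LS wr Hf)
open Pool.Agent.Helper92.LA (Fb)

private lemma sqa_mem34 {N : ℕ} {k : ℤ × ℤ} (hk : k ∈ sqa N) :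
    ((N : ℤ) ≤ |k.1| ∨ (N : ℤ) ≤ |k.2|) ∧ |k.1| < 2 * N ∧ |k.2| < 2 * N := by
  unfold sqa at hk
  exact (Finset.mem_filter.1 hk).2

private lemma gcd_bd34 {N : ℕ} (hN : 1 ≤ N) {k : ℤ × ℤ} (hk : k ∈ sqa N) :
    1 ≤ Int.gcd k.1 k.2 ∧ Int.gcd k.1 k.2 < 2 * N := by
  obtain ⟨h1, h2, h3⟩ := sqa_mem34 hk
  have hne : k.1 ≠ 0 ∨ k.2 ≠ 0 := by
    rcases h1 with h | h
    · left
      intro h0
      rw [h0, abs_zero] at h
      omega
    · right
      intro h0
      rw [h0, abs_zero] at h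
      omega
  constructor
  · rw [Nat.one_le_iff_ne_zero]
    intro h
    rw [Int.gcd_eq_zero_iff] at h
    rcases hne with h4 | h4
    · exact h4 h.1
    · exact h4 h.2
  · rcases hne with h | h
    · have h4 := Int.gcd_le_natAbs_left k.2 h
      have h5 : (k.1.natAbs : ℤ) = |k.1| := Int.natCast_natAbs k.1
      omega
    · have h4 := Int.gcd_le_natAbs_left k.1 h
      rw [Int.gcd_comm] at h4
      have h5 : (k.2.natAbs : ℤ) = |k.2| := Int.natCast_natAbs k.2
      omega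

theorem ray_sum (n : ℕ) (F : ℤ × ℤ → ℂ) : ∑ k ∈ sqa (2 ^ n), F k = ∑ j ∈ Finset.range (n + 1), ∑ k ∈ cls (2 ^ n) j, F k := by
  classical
  have h1 : ∀ k ∈ sqa (2 ^ n), Nat.log 2 (Int.gcd k.1 k.2) ∈ Finset.range (n + 1) := by
    intro k hk
    obtain ⟨h2, h3⟩ := gcd_bd34 Nat.one_le_two_pow hk
    rw [Finset.mem_range]
    have h4 : Int.gcd k.1 k.2 < 2 ^ (n + 1) := by
      rw [pow_succ]
      omega
    exact Nat.log_lt_of_lt_pow (by omega) h4
  rw [← Finset.sum_fiberwise_of_maps_to h1 F]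
  refine Finset.sum_congr rfl fun j _ => ?_
  refine Finset.sum_congr ?_ fun _ _ => rfl
  ext k
  unfold cls
  rw [Finset.mem_filter, Finset.mem_filter]
  refine and_congr_right fun hk => ?_
  obtain ⟨h2, -⟩ := gcd_bd34 Nat.one_le_two_pow hk
  exact Nat.log_eq_iff (Or.inr ⟨by norm_num, by omega⟩)

/-- the primitive vector -/
private def red34 (k : ℤ × ℤ) : ℤ × ℤ := (k.1 / (Int.gcd k.1 k.2 : ℤ), k.2 / (Int.gcd k.1 k.2 : ℤ))

private lemma red_mul34 (k : ℤ × ℤ) :
    (Int.gcd k.1 k.2 : ℤ) * (red34 k).1 = k.1 ∧ (Int.gcd k.1 k.2 : ℤ) * (red34 k).2 = k.2 :=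
  ⟨Int.mul_ediv_cancel' (Int.gcd_dvd_left _ _), Int.mul_ediv_cancel' (Int.gcd_dvd_right _ _)⟩

/-- a square which contains the primitive vectors of the class -/
private noncomputable def bx34 (N j : ℕ) : Finset (ℤ × ℤ) :=
  Finset.Icc (-((2 * N / 2 ^ j : ℕ) : ℤ)) ((2 * N / 2 ^ j : ℕ) : ℤ) ×ˢ
    Finset.Icc (-((2 * N / 2 ^ j : ℕ) : ℤ)) ((2 * N / 2 ^ j : ℕ) : ℤ)

private lemma coord34 {g N j : ℕ} {x y : ℤ} (hg : 2 ^ j ≤ g) (h : (g : ℤ) * x = y) (hy : |y| < 2 * N) :
    x ∈ Finset.Icc (-((2 * N / 2 ^ j : ℕ) : ℤ)) ((2 * N / 2 ^ j : ℕ) : ℤ) := by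
  have h1 : x.natAbs * 2 ^ j ≤ 2 * N := by
    have h2 : g * x.natAbs = y.natAbs := by
      rw [← h, Int.natAbs_mul, Int.natAbs_natCast]
    have h3 : (y.natAbs : ℤ) = |y| := Int.natCast_natAbs y
    have h4 : x.natAbs * 2 ^ j ≤ g * x.natAbs := by
      rw [mul_comm]
      exact Nat.mul_le_mul_right _ hg
    omega
  have h5 : x.natAbs ≤ 2 * N / 2 ^ j := (Nat.le_div_iff_mul_le (by positivity)).2 h1
  rw [Finset.mem_Icc]
  omega

private lemma red_box34 {N j : ℕ} {k : ℤ × ℤ} (hk : k ∈ cls N j) : red34 k ∈ bx34 N j := by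
  unfold cls at hk
  rw [Finset.mem_filter] at hk
  obtain ⟨-, h2, h3⟩ := sqa_mem34 hk.1
  obtain ⟨e1, e2⟩ := red_mul34 k
  unfold bx34
  rw [Finset.mem_product]
  exact ⟨coord34 hk.2.1 e1 h2, coord34 hk.2.1 e2 h3⟩

private lemma bx_card34 {N j : ℕ} (h : 2 ^ j < 2 * N) : ((bx34 N j).card : ℝ) ≤ 36 * ((N : ℝ) ^ 2 / 4 ^ j) := by
  unfold bx34
  rw [Finset.card_product, Int.card_Icc]
  set M : ℕ := 2 * N / 2 ^ j with hM
  have h1 : 1 ≤ M := by
    rw [hM, Nat.le_div_iff_mul_le (by positivity)]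
    omega
  have h2 : ((M : ℤ) + 1 - -(M : ℤ)).toNat = 2 * M + 1 := by omega
  rw [h2]
  have h3 : (M : ℝ) ≤ 2 * N / 2 ^ j := by
    have := @Nat.cast_div_le ℝ _ _ _ (2 * N) (2 ^ j)
    push_cast at this
    exact this
  have h4 : (1 : ℝ) ≤ M := by exact_mod_cast h1
  push_cast
  have h5 : (2 * (M : ℝ) + 1) ≤ 3 * (2 * N / 2 ^ j) := by linarith
  have h6 : (0 : ℝ) ≤ 2 * (M : ℝ) + 1 := by positivity
  calc (2 * (M : ℝ) + 1) * (2 * (M : ℝ) + 1) ≤ (3 * (2 * N / 2 ^ j)) * (3 * (2 * N / 2 ^ j)) :=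
        mul_le_mul h5 h5 h6 (h6.trans h5)
    _ = 36 * ((N : ℝ) ^ 2 / 4 ^ j) := by
        have : (4 : ℝ) ^ j = 2 ^ j * 2 ^ j := by
          rw [← mul_pow]
          norm_num
        rw [this]
        field_simp
        ring

private lemma cls_ne34 {N j : ℕ} (hN : 1 ≤ N) (h : (cls N j).Nonempty) : 2 ^ j < 2 * N := by
  obtain ⟨k, hk⟩ := h
  unfold cls at hk
  rw [Finset.mem_filter] at hk
  exact lt_of_le_of_lt hk.2.1 (gcd_bd34 hN hk.1).2

theorem ray_card : ∃ C : ℝ, 1 ≤ C ∧ ∀ N j : ℕ, 1 ≤ N → ((cls N j).card : ℝ) ≤ C * ((N : ℝ) ^ 2 / 2 ^ j) := by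
  refine ⟨36, by norm_num, fun N j hN => ?_⟩
  rcases (cls N j).eq_empty_or_nonempty with he | hne
  · rw [he, Finset.card_empty, Nat.cast_zero]
    positivity
  · have h1 : (cls N j).card ≤ (Finset.Ico (2 ^ j) (2 ^ (j + 1)) ×ˢ bx34 N j).card := by
      refine Finset.card_le_card_of_injOn (fun k => (Int.gcd k.1 k.2, red34 k)) ?_ ?_
      · intro k hk
        have hk' := hk
        rw [Finset.mem_coe] at hk hk'
        unfold cls at hk'
        rw [Finset.mem_filter] at hk'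
        rw [Finset.mem_coe, Finset.mem_product, Finset.mem_Ico]
        exact ⟨hk'.2, red_box34 hk⟩
      · intro k _ k' _ h
        simp only [Prod.mk.injEq] at h
        obtain ⟨h1, h2⟩ := h
        obtain ⟨e1, e2⟩ := red_mul34 k
        obtain ⟨e1', e2'⟩ := red_mul34 k'
        rw [h1, h2] at e1 e2
        exact Prod.ext (e1.symm.trans e1') (e2.symm.trans e2')
    have h2 : (Finset.Ico (2 ^ j) (2 ^ (j + 1)) ×ˢ bx34 N j).card = 2 ^ j * (bx34 N j).card := by
      rw [Finset.card_product, Nat.card_Ico, pow_succ]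
      congr 1
      omega
    rw [h2] at h1
    have h3 := bx_card34 (cls_ne34 hN hne)
    calc ((cls N j).card : ℝ) ≤ ((2 ^ j * (bx34 N j).card : ℕ) : ℝ) := by exact_mod_cast h1
      _ = 2 ^ j * ((bx34 N j).card : ℝ) := by push_cast; rfl
      _ ≤ 2 ^ j * (36 * ((N : ℝ) ^ 2 / 4 ^ j)) := by gcongr
      _ = 36 * ((N : ℝ) ^ 2 / 2 ^ j) := by
        have : (4 : ℝ) ^ j = 2 ^ j * 2 ^ j := by
          rw [← mul_pow]
          norm_num
        rw [this]
        field_simp

private lemma dot34 (v w : ℝ × ℝ) : nr v * nr w * cos (tr v - tr w) = v.1 * w.1 + v.2 * w.2 := by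
  have a1 : nr v * cos (tr v) = v.1 := Complex.norm_mul_cos_arg (Helper22.LP.cp v)
  have a2 : nr v * sin (tr v) = v.2 := Complex.norm_mul_sin_arg (Helper22.LP.cp v)
  have b1 : nr w * cos (tr w) = w.1 := Complex.norm_mul_cos_arg (Helper22.LP.cp w)
  have b2 : nr w * sin (tr w) = w.2 := Complex.norm_mul_sin_arg (Helper22.LP.cp w)
  rw [cos_sub]
  calc nr v * nr w * (cos (tr v) * cos (tr w) + sin (tr v) * sin (tr w)) =
      (nr v * cos (tr v)) * (nr w * cos (tr w)) + (nr v * sin (tr v)) * (nr w * sin (tr w)) := by ring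
    _ = _ := by rw [a1, a2, b1, b2]

private lemma same34 {a b c d : ℤ} (h : a * d = b * c) (hg : Int.gcd a b = Int.gcd c d) (h0 : Int.gcd a b ≠ 0) :
    (a = c ∧ b = d) ∨ (c = -a ∧ d = -b) := by
  have h1 : a.natAbs = c.natAbs := by
    have e1 : a.natAbs * Int.gcd c d = c.natAbs * Int.gcd a b := by
      rw [← Int.gcd_mul_left, ← Int.gcd_mul_left, h, mul_comm a c, mul_comm b c]
    rw [← hg] at e1
    exact Nat.eq_of_mul_eq_mul_right (Nat.pos_of_ne_zero h0) e1
  have h2 : b.natAbs = d.natAbs := by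
    have e1 : b.natAbs * Int.gcd c d = d.natAbs * Int.gcd a b := by
      rw [← Int.gcd_mul_left, ← Int.gcd_mul_left, ← h, mul_comm b d, mul_comm a d]
    rw [← hg] at e1
    exact Nat.eq_of_mul_eq_mul_right (Nat.pos_of_ne_zero h0) e1
  rcases eq_or_ne a 0 with ha | ha
  · have hc : c = 0 := by
      rw [ha, Int.natAbs_zero] at h1
      exact Int.natAbs_eq_zero.1 h1.symm
    rcases Int.natAbs_eq_natAbs_iff.1 h2 with h3 | h3
    · left
      exact ⟨by rw [ha, hc], h3⟩
    · right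
      exact ⟨by rw [ha, hc, neg_zero], by rw [h3, neg_neg]⟩
  · rcases Int.natAbs_eq_natAbs_iff.1 h1 with h3 | h3
    · left
      refine ⟨h3, ?_⟩
      rw [← h3, mul_comm b a] at h
      exact (mul_left_cancel₀ ha h).symm
    · right
      have h4 : c = -a := by rw [h3, neg_neg]
      refine ⟨h4, ?_⟩
      rw [h4] at h
      have h5 : a * d = a * (-b) := by rw [h]; ring
      exact mul_left_cancel₀ ha h5

private lemma idx_sin34 {l : ℕ} {f : Fr} {α : ℝ} {k k' : ℤ × ℤ} (h : idx l (pos f α k) = idx l (pos f α k')) :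
    |sin (tr (fk f k') - tr (fk f k))| ≤ 2 / 16 ^ l ∧ (1 ≤ l → 0 < cos (tr (fk f k') - tr (fk f k))) := by
  have h1 := idx_close h.symm
  have h2 : pos f α k' - pos f α k = tr (fk f k') - tr (fk f k) := by
    unfold pos
    ring
  rw [h2] at h1
  exact h1

theorem ray_arc {M : ℝ} (hM : 1 ≤ M) : ∃ C : ℝ, 1 ≤ C ∧ ∀ f : Fr, Fb M f → ∀ N l j m : ℕ, 1 ≤ N → C * (N : ℝ) ^ 2 ≤ 16 ^ l → ∀ α : ℝ,
    (((cls N j).filter fun k => idx l (pos f α k) = m).card : ℝ) ≤ 2 ^ j := by
  obtain ⟨C₁, hC₁, hlow⟩ := sec_low hM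
  have hC₁2 : 1 ≤ C₁ ^ 2 := one_le_pow₀ hC₁
  refine ⟨4 * M * C₁ ^ 2, by nlinarith, fun f hf N l j m hN hl α => ?_⟩
  have hN1 : (1 : ℝ) ≤ N := by exact_mod_cast hN
  have hN2 : (1 : ℝ) ≤ (N : ℝ) ^ 2 := one_le_pow₀ hN1
  have hMC : 1 ≤ M * C₁ ^ 2 := by nlinarith
  have hl1 : 1 ≤ l := by
    by_contra h
    have h0 : l = 0 := by omega
    rw [h0, pow_zero] at hl
    nlinarith
  have hpow : (0 : ℝ) < 16 ^ l := by positivity
  have hinj : (((cls N j).filter fun k => idx l (pos f α k) = m).card) ≤ (Finset.Ico (2 ^ j) (2 ^ (j + 1))).card := by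
    refine Finset.card_le_card_of_injOn (fun k => Int.gcd k.1 k.2) ?_ ?_
    · intro k hk
      rw [Finset.mem_coe, Finset.mem_filter] at hk
      have hk' := hk.1
      unfold cls at hk'
      rw [Finset.mem_filter] at hk'
      rw [Finset.mem_coe, Finset.mem_Ico]
      exact hk'.2
    · intro k hk k' hk' hg
      rw [Finset.mem_coe, Finset.mem_filter] at hk hk'
      have hks := hk.1
      have hks' := hk'.1
      unfold cls at hks hks'
      rw [Finset.mem_filter] at hks hks'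
      obtain ⟨hs, hc⟩ := idx_sin34 (hk.2.trans hk'.2.symm)
      have hc := hc hl1
      obtain ⟨b1, b2⟩ := hlow f hf N hN k hks.1
      obtain ⟨b1', b2'⟩ := hlow f hf N hN k' hks'.1
      have hnk : 0 < nr (fk f k) := by
        by_contra h
        nlinarith
      have hnk' : 0 < nr (fk f k') := by
        by_contra h
        nlinarith
      have hcr := cross_eq f k k'
      -- the cross product vanishes
      set z : ℤ := k.1 * k'.2 - k.2 * k'.1 with hz
      have hz0 : z = 0 := by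
        have h1 : |fdet f| * |(z : ℝ)| ≤ (C₁ * N) * (C₁ * N) * (2 / 16 ^ l) := by
          rw [← abs_mul, ← hcr, abs_mul, abs_mul, abs_of_pos hnk, abs_of_pos hnk']
          exact mul_le_mul (mul_le_mul b2 b2' hnk'.le (by positivity)) hs (abs_nonneg _) (by positivity)
        have h2 : |(z : ℝ)| ≤ M * ((C₁ * N) * (C₁ * N) * (2 / 16 ^ l)) := by
          calc |(z : ℝ)| = 1 * |(z : ℝ)| := (one_mul _).symm
            _ ≤ (M * |fdet f|) * |(z : ℝ)| := mul_le_mul_of_nonneg_right hf.det (abs_nonneg _)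
            _ = M * (|fdet f| * |(z : ℝ)|) := by ring
            _ ≤ _ := mul_le_mul_of_nonneg_left h1 (by linarith)
        have h3 : M * ((C₁ * N) * (C₁ * N) * (2 / 16 ^ l)) ≤ 1 / 2 := by
          have e : M * ((C₁ * N) * (C₁ * N) * (2 / 16 ^ l)) = (4 * M * C₁ ^ 2 * (N : ℝ) ^ 2) / 16 ^ l * (1 / 2) := by
            field_simp
            ring
          rw [e]
          have h4 : (4 * M * C₁ ^ 2 * (N : ℝ) ^ 2) / 16 ^ l ≤ 1 := (div_le_one hpow).2 hl
          linarith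
        have h5 : |(z : ℝ)| < 1 := by linarith
        have h6 : |z| < 1 := by exact_mod_cast h5
        exact Int.abs_lt_one_iff.1 h6
      rcases same34 (a := k.1) (b := k.2) (c := k'.1) (d := k'.2) (by linarith) hg
        (by have := (gcd_bd34 hN hks.1).1; omega) with h1 | h1
      · exact Prod.ext h1.1 h1.2
      · exfalso
        have hd := dot34 (fk f k') (fk f k)
        have e : fk f k' = -fk f k := by
          unfold fk Helper22.LP.fv
          rw [h1.1, h1.2]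
          push_cast
          exact Prod.ext (by simp; ring) (by simp; ring)
        have hpos : 0 < nr (fk f k') * nr (fk f k) * cos (tr (fk f k') - tr (fk f k)) := by positivity
        rw [hd, e] at hpos
        simp only [Prod.fst_neg, Prod.snd_neg] at hpos
        nlinarith [mul_self_nonneg (fk f k).1, mul_self_nonneg (fk f k).2]
  rw [Nat.card_Ico] at hinj
  have h2 : 2 ^ (j + 1) - 2 ^ j = 2 ^ j := by
    rw [pow_succ]
    omega
  rw [h2] at hinj
  exact_mod_cast hinj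

theorem ray_arcs : ∃ C : ℝ, 1 ≤ C ∧ ∀ f : Fr, fdet f ≠ 0 → ∀ N l j : ℕ, 1 ≤ N → ∀ α : ℝ,
    (((cls N j).image fun k => idx l (pos f α k)).card : ℝ) ≤ C * ((N : ℝ) ^ 2 / 4 ^ j) := by
  refine ⟨36, by norm_num, fun f _ N l j hN α => ?_⟩
  rcases (cls N j).eq_empty_or_nonempty with he | hne
  · rw [he, Finset.image_empty, Finset.card_empty, Nat.cast_zero]
    positivity
  · have h1 : (cls N j).image (fun k => idx l (pos f α k)) ⊆ (bx34 N j).image (fun k => idx l (pos f α k)) := by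
      intro x hx
      rw [Finset.mem_image] at hx ⊢
      obtain ⟨k, hk, hkx⟩ := hx
      refine ⟨red34 k, red_box34 hk, ?_⟩
      have hk' := hk
      unfold cls at hk'
      rw [Finset.mem_filter] at hk'
      have hg : (0 : ℝ) < (Int.gcd k.1 k.2 : ℕ) := by exact_mod_cast (gcd_bd34 hN hk'.1).1
      obtain ⟨e1, e2⟩ := red_mul34 k
      have e3 : fk f k = (((Int.gcd k.1 k.2 : ℕ) : ℝ) * (fk f (red34 k)).1, ((Int.gcd k.1 k.2 : ℕ) : ℝ) * (fk f (red34 k)).2) := by
        have e1' : ((k.1 : ℤ) : ℝ) = ((Int.gcd k.1 k.2 : ℕ) : ℝ) * ((red34 k).1 : ℝ) := by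
          rw [← Int.cast_natCast, ← Int.cast_mul, e1]
        have e2' : ((k.2 : ℤ) : ℝ) = ((Int.gcd k.1 k.2 : ℕ) : ℝ) * ((red34 k).2 : ℝ) := by
          rw [← Int.cast_natCast, ← Int.cast_mul, e2]
        unfold fk Helper22.LP.fv
        simp only
        refine Prod.ext ?_ ?_
        · simp only
          rw [e1', e2']
          ring
        · simp only
          rw [e1', e2']
          ring
      rw [← hkx]
      unfold pos
      rw [e3, Helper92.LA.tr_smul hg]
    calc (((cls N j).image fun k => idx l (pos f α k)).card : ℝ) ≤ (((bx34 N j).image fun k => idx l (pos f α k)).card : ℝ) := by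
          exact_mod_cast Finset.card_le_card h1
      _ ≤ ((bx34 N j).card : ℝ) := by exact_mod_cast Finset.card_image_le
      _ ≤ _ := bx_card34 (cls_ne34 hN hne)

end Pool.Agent.Helper93.AO
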