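import Pool.Agent.Helper93.AO.Bump
import Pool.Agent.Helper93.AO.Ang

/-!
# AO-WREG: the random function is of class `C⁵`

`lev_bound`: at `t` at most nine terms are not locally zero (`act_card`, `e_zero`; `iteratedDeriv` of a sum `iteratedDeriv_fun_sum`, of a translate, locally equal functions have equal derivatives), each is
`≤ 2 C 16^(l j)` (`e_bound`, the coefficients are in `[-1, 1]`). So the `j`-th derivative of the term of level `l` of `WW` is `≤ 18 C 2^(4lj - 21 l) ≤ 18 C 2^(-l)`, `j ≤ 5`.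
`contDiff_tsum` (Mathlib: `contDiff_tsum`, `iteratedDeriv_tsum` or `iteratedFDeriv_tsum_apply`).
`WW_holder`: the difference of the fifth derivatives of the terms of level `l` is at most `A = 2 C 2^(-l)` and at most `B = C 2^(3 l) |s - t|`, hence at most
`(A⁴ B)^(1/5) = C' |s - t|^(1/5) 2^(-l/5)`.
-/

open MeasureTheory Real Set Filter Topology

set_option autoImplicit false

namespace Pool.Agent.Helper93.AO

/-- one term of a level -/
private noncomputable def tm33 (l m : ℕ) (ω : Om) (t : ℝ) : ℝ :=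
  ((ω (l, m)).1 : ℝ) * e1 l (t - th l m) + ((ω (l, m)).2 : ℝ) * e2 l (t - th l m)

private lemma lev_eq33 (l : ℕ) (ω : Om) : lev l ω = fun t => ∑ m ∈ Finset.range (4 * 16 ^ l), tm33 l m ω t := rfl

private lemma tm_smooth33 (l m : ℕ) (ω : Om) (n : ℕ) : ContDiff ℝ n (tm33 l m ω) := by
  unfold tm33
  have h1 : ContDiff ℝ n (fun t => e1 l (t - th l m)) := (e1_smooth l n).comp (contDiff_id.sub contDiff_const)
  have h2 : ContDiff ℝ n (fun t => e2 l (t - th l m)) := (e2_smooth l n).comp (contDiff_id.sub contDiff_const)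
  exact (contDiff_const.mul h1).add (contDiff_const.mul h2)

private lemma tm_iter33 (l m : ℕ) (ω : Om) (j : ℕ) (t : ℝ) : iteratedDeriv j (tm33 l m ω) t =
    ((ω (l, m)).1 : ℝ) * iteratedDeriv j (e1 l) (t - th l m) + ((ω (l, m)).2 : ℝ) * iteratedDeriv j (e2 l) (t - th l m) := by
  unfold tm33
  have h1 : ContDiff ℝ j (fun t => e1 l (t - th l m)) := (e1_smooth l j).comp (contDiff_id.sub contDiff_const)
  have h2 : ContDiff ℝ j (fun t => e2 l (t - th l m)) := (e2_smooth l j).comp (contDiff_id.sub contDiff_const)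
  rw [iteratedDeriv_fun_add (contDiff_const.mul h1).contDiffAt (contDiff_const.mul h2).contDiffAt,
    iteratedDeriv_const_mul_field, iteratedDeriv_const_mul_field, iteratedDeriv_comp_sub_const, iteratedDeriv_comp_sub_const]

private lemma abs_J33 (x : J1) : |(x : ℝ)| ≤ 1 := abs_le.2 ⟨x.2.1, x.2.2⟩

theorem lev_smooth (l : ℕ) (ω : Om) (n : ℕ) : ContDiff ℝ n (lev l ω) := by
  rw [lev_eq33]
  exact ContDiff.sum fun m _ => tm_smooth33 l m ω n

private lemma lev_bd33 {C : ℝ} {j : ℕ}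
    (h : ∀ l : ℕ, ∀ x : ℝ, |iteratedDeriv j (e1 l) x| ≤ C * 16 ^ (l * j) ∧ |iteratedDeriv j (e2 l) x| ≤ C * 16 ^ (l * j))
    (l : ℕ) (ω : Om) (t : ℝ) : |iteratedDeriv j (lev l ω) t| ≤ 18 * C * 16 ^ (l * j) := by
  have hC0 : 0 ≤ C * 16 ^ (l * j) := (abs_nonneg _).trans (h l 0).1
  rw [lev_eq33, iteratedDeriv_fun_sum fun m _ => (tm_smooth33 l m ω j).contDiffAt]
  have hz : ∀ m ∈ Finset.range (4 * 16 ^ l), ¬ (|16 ^ l * sin ((t - th l m) / 2)| ≤ 2) → iteratedDeriv j (tm33 l m ω) t = 0 := by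
    intro m _ hm
    obtain ⟨z1, z2⟩ := e_zero (not_le.1 hm)
    rw [tm_iter33, Filter.EventuallyEq.iteratedDeriv_eq j z1, Filter.EventuallyEq.iteratedDeriv_eq j z2]
    simp
  have hb : ∀ m : ℕ, |iteratedDeriv j (tm33 l m ω) t| ≤ 2 * (C * 16 ^ (l * j)) := by
    intro m
    rw [tm_iter33]
    refine (abs_add_le _ _).trans ?_
    rw [abs_mul, abs_mul]
    have a1 := mul_le_mul (abs_J33 (ω (l, m)).1) (h l (t - th l m)).1 (abs_nonneg _) zero_le_one
    have a2 := mul_le_mul (abs_J33 (ω (l, m)).2) (h l (t - th l m)).2 (abs_nonneg _) zero_le_one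
    linarith
  rw [← Finset.sum_filter_add_sum_filter_not (Finset.range (4 * 16 ^ l)) (fun m => |16 ^ l * sin ((t - th l m) / 2)| ≤ 2),
    Finset.sum_eq_zero (s := (Finset.range (4 * 16 ^ l)).filter fun m => ¬ (|16 ^ l * sin ((t - th l m) / 2)| ≤ 2))
      (fun m hm => hz m (Finset.mem_filter.1 hm).1 (Finset.mem_filter.1 hm).2), add_zero]
  refine (Finset.abs_sum_le_sum_abs _ _).trans ?_
  refine (Finset.sum_le_card_nsmul _ _ _ fun m _ => hb m).trans ?_
  rw [nsmul_eq_mul]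
  have hc : ((((Finset.range (4 * 16 ^ l)).filter fun m => |16 ^ l * sin ((t - th l m) / 2)| ≤ 2).card : ℕ) : ℝ) ≤ 9 := by
    exact_mod_cast act_card l t
  nlinarith [mul_le_mul_of_nonneg_right hc hC0]

theorem lev_bound : ∃ C : ℝ, 0 < C ∧ ∀ l j : ℕ, j ≤ 5 → ∀ (ω : Om) (t : ℝ), |iteratedDeriv j (lev l ω) t| ≤ C * 16 ^ (l * j) := by
  obtain ⟨C, hC⟩ := e_bound
  refine ⟨18 * |C| + 1, by positivity, fun l j hj ω t => (lev_bd33 (C := C) (fun l x => hC l j hj x) l ω t).trans ?_⟩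
  have : (0 : ℝ) < 16 ^ (l * j) := by positivity
  nlinarith [le_abs_self C]

private lemma lev_bound6_33 : ∃ C : ℝ, 0 < C ∧ ∀ l j : ℕ, j ≤ 6 → ∀ (ω : Om) (t : ℝ), |iteratedDeriv j (lev l ω) t| ≤ C * 16 ^ (l * j) := by
  obtain ⟨C, hC⟩ := e_bound6
  refine ⟨18 * |C| + 1, by positivity, fun l j hj ω t => (lev_bd33 (C := C) (fun l x => hC l j hj x) l ω t).trans ?_⟩
  have : (0 : ℝ) < 16 ^ (l * j) := by positivity
  nlinarith [le_abs_self C]

/-- the term of level `l` -/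
private noncomputable def ft33 (ω : Om) (l : ℕ) (t : ℝ) : ℝ := lev l ω t / 2 ^ (21 * l)

private lemma ft_smooth33 (ω : Om) (l : ℕ) (n : ℕ) : ContDiff ℝ n (ft33 ω l) := by
  unfold ft33
  exact (lev_smooth l ω n).div_const _

private lemma ft_iter33 (ω : Om) (l j : ℕ) (t : ℝ) : iteratedDeriv j (ft33 ω l) t = iteratedDeriv j (lev l ω) t / 2 ^ (21 * l) := by
  unfold ft33
  rw [iteratedDeriv_div_const]

private lemma pow_id33 (l k : ℕ) : (16 : ℝ) ^ (l * k) / 2 ^ (21 * l) = (16 ^ k / 2 ^ 21) ^ l := by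
  rw [div_pow, ← pow_mul, ← pow_mul, mul_comm l k]

private lemma ft_bd33 {C : ℝ} (hC : ∀ l j : ℕ, j ≤ 5 → ∀ (ω : Om) (t : ℝ), |iteratedDeriv j (lev l ω) t| ≤ C * 16 ^ (l * j))
    (ω : Om) (l j : ℕ) (hj : j ≤ 5) (t : ℝ) : |iteratedDeriv j (ft33 ω l) t| ≤ C * (16 ^ j / 2 ^ 21) ^ l := by
  rw [ft_iter33, abs_div, abs_of_pos (show (0 : ℝ) < 2 ^ (21 * l) by positivity), ← pow_id33, ← mul_div_assoc]
  exact div_le_div_of_nonneg_right (hC l j hj ω t) (by positivity)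

private lemma ratio33 {j : ℕ} (hj : j ≤ 5) : (16 : ℝ) ^ j / 2 ^ 21 ≤ 1 / 2 := by
  have : (16 : ℝ) ^ j ≤ 16 ^ 5 := pow_le_pow_right₀ (by norm_num) hj
  rw [div_le_iff₀ (by positivity)]
  refine this.trans ?_
  norm_num

private lemma summ33 (C : ℝ) {j : ℕ} (hj : j ≤ 5) : Summable fun l : ℕ => C * ((16 : ℝ) ^ j / 2 ^ 21) ^ l :=
  (summable_geometric_of_lt_one (by positivity) (lt_of_le_of_lt (ratio33 hj) (by norm_num))).mul_left C

private lemma le5_33 {k : ℕ} (h : (k : ℕ∞) ≤ ((5 : ℕ) : ℕ∞)) : k ≤ 5 := by exact_mod_cast h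

private lemma WW_eq33 (ω : Om) : WW ω = fun t => ∑' l : ℕ, ft33 ω l t := rfl

theorem WW_smooth (ω : Om) : ContDiff ℝ 5 (WW ω) := by
  obtain ⟨C, -, hC⟩ := lev_bound
  rw [WW_eq33]
  have := contDiff_tsum (𝕜 := ℝ) (N := ((5 : ℕ) : ℕ∞)) (f := ft33 ω) (v := fun k l => C * ((16 : ℝ) ^ k / 2 ^ 21) ^ l)
    (fun l => by exact_mod_cast ft_smooth33 ω l 5) (fun k hk => summ33 C (le5_33 hk)) (fun k l x hk => by
      rw [norm_iteratedFDeriv_eq_norm_iteratedDeriv, Real.norm_eq_abs]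
      exact ft_bd33 hC ω l k (le5_33 hk) x)
  exact_mod_cast this

theorem WW_per (ω : Om) : Function.Periodic (WW ω) (2 * π) := by
  intro t
  unfold WW
  refine tsum_congr fun l => ?_
  congr 1
  unfold lev
  refine Finset.sum_congr rfl fun m _ => ?_
  have e : t + 2 * π - th l m = (t - th l m) + 2 * π := by ring
  rw [e, e1_per l, e2_per l]

theorem WW_deriv {j : ℕ} (hj : j ≤ 5) (ω : Om) (t : ℝ) :
    (Summable fun l => iteratedDeriv j (lev l ω) t / 2 ^ (21 * l)) ∧ iteratedDeriv j (WW ω) t = ∑' l : ℕ, iteratedDeriv j (lev l ω) t / 2 ^ (21 * l) := by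
  obtain ⟨C, -, hC⟩ := lev_bound
  have hs : Summable fun l => iteratedDeriv j (ft33 ω l) t :=
    Summable.of_norm_bounded (summ33 C hj) fun l => by
      rw [Real.norm_eq_abs]
      exact ft_bd33 hC ω l j hj t
  have hsF : Summable fun l => iteratedFDeriv ℝ j (ft33 ω l) t :=
    Summable.of_norm_bounded (summ33 C hj) fun l => by
      rw [norm_iteratedFDeriv_eq_norm_iteratedDeriv, Real.norm_eq_abs]
      exact ft_bd33 hC ω l j hj t
  have hF := iteratedFDeriv_tsum_apply (𝕜 := ℝ) (N := ((5 : ℕ) : ℕ∞)) (f := ft33 ω) (v := fun k l => C * ((16 : ℝ) ^ k / 2 ^ 21) ^ l)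
    (fun l => by exact_mod_cast ft_smooth33 ω l 5) (fun k hk => summ33 C (le5_33 hk)) (fun k l x hk => by
      rw [norm_iteratedFDeriv_eq_norm_iteratedDeriv, Real.norm_eq_abs]
      exact ft_bd33 hC ω l k (le5_33 hk) x) (k := j) (by exact_mod_cast hj) t
  refine ⟨by simpa only [ft_iter33] using hs, ?_⟩
  simp only [← ft_iter33]
  rw [WW_eq33, iteratedDeriv_eq_iteratedFDeriv, hF, ContinuousMultilinearMap.tsum_eval hsF]
  rfl

private lemma geo33 {C : ℝ} (hC0 : 0 ≤ C) {r : ℝ} (hr0 : 0 ≤ r) (hr : r ≤ 1 / 2) {f : ℕ → ℝ} (hf : ∀ l, |f l| ≤ C * r ^ l) : |∑' l, f l| ≤ 2 * C := by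
  have hs : Summable fun l : ℕ => C * (1 / 2 : ℝ) ^ l := (summable_geometric_of_lt_one (by norm_num) (by norm_num)).mul_left C
  have h := tsum_of_norm_bounded (f := f) (g := fun l : ℕ => C * (1 / 2 : ℝ) ^ l) (a := C * 2) (by
      have h0 := (hasSum_geometric_of_lt_one (r := (1 / 2 : ℝ)) (by norm_num) (by norm_num)).mul_left C
      have e : C * (1 - 1 / 2 : ℝ)⁻¹ = C * 2 := by norm_num
      rwa [e] at h0) fun l => by
    rw [Real.norm_eq_abs]
    exact (hf l).trans (mul_le_mul_of_nonneg_left (pow_le_pow_left₀ hr0 hr l) hC0)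
  rw [Real.norm_eq_abs] at h
  linarith

theorem WW_bound : ∃ C : ℝ, 0 < C ∧ ∀ j : ℕ, j ≤ 5 → ∀ (ω : Om) (t : ℝ), |iteratedDeriv j (WW ω) t| ≤ C := by
  obtain ⟨C, hC0, hC⟩ := lev_bound
  refine ⟨2 * C, by positivity, fun j hj ω t => ?_⟩
  rw [(WW_deriv hj ω t).2]
  simp only [← ft_iter33]
  exact geo33 hC0.le (by positivity) (ratio33 hj) fun l => ft_bd33 hC ω l j hj t

private lemma five33 {x A B : ℝ} (hx : 0 ≤ x) (hA : x ≤ A) (hB : x ≤ B) : x ≤ (A ^ 4 * B) ^ (1 / 5 : ℝ) := by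
  have h5 : x ^ 5 ≤ A ^ 4 * B := by
    have : x ^ 5 = x ^ 4 * x := by ring
    rw [this]
    exact mul_le_mul (pow_le_pow_left₀ hx hA 4) hB hx (by positivity)
  have e : x = (x ^ 5) ^ (1 / 5 : ℝ) := by
    rw [← Real.rpow_natCast, ← Real.rpow_mul hx]
    norm_num
  rw [e]
  exact Real.rpow_le_rpow (by positivity) h5 (by norm_num)

/-- Hoelder continuity of the fifth derivative, uniformly in the sample: the probe takes values in a compact subset of `C⁵` -/
theorem WW_holder : ∃ C : ℝ, ∀ (ω : Om) (s t : ℝ), |iteratedDeriv 5 (WW ω) s - iteratedDeriv 5 (WW ω) t| ≤ C * |s - t| ^ (1 / 5 : ℝ) := by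
  obtain ⟨C, hC0, hC⟩ := lev_bound6_33
  set q : ℝ := (1 / 2 : ℝ) ^ (1 / 5 : ℝ) with hq
  have hq0 : 0 ≤ q := by positivity
  have hq1 : q < 1 := Real.rpow_lt_one (by norm_num) (by norm_num) (by norm_num)
  set K : ℝ := ((2 * C) ^ 4 * C) ^ (1 / 5 : ℝ) with hK
  have hK0 : 0 ≤ K := by positivity
  refine ⟨K * (1 - q)⁻¹, fun ω s t => ?_⟩
  obtain ⟨s1, e1⟩ := WW_deriv le_rfl ω s
  obtain ⟨s2, e2⟩ := WW_deriv le_rfl ω t
  rw [e1, e2, ← s1.tsum_sub s2]
  have hterm : ∀ l : ℕ, ‖iteratedDeriv 5 (lev l ω) s / 2 ^ (21 * l) - iteratedDeriv 5 (lev l ω) t / 2 ^ (21 * l)‖ ≤ K * |s - t| ^ (1 / 5 : ℝ) * q ^ l := by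
    intro l
    have hlip : |iteratedDeriv 5 (lev l ω) s - iteratedDeriv 5 (lev l ω) t| ≤ C * 16 ^ (l * 6) * |s - t| := by
      have hd : Differentiable ℝ (iteratedDeriv 5 (lev l ω)) := (lev_smooth l ω 6).differentiable_iteratedDeriv 5 (by norm_num)
      have := Convex.norm_image_sub_le_of_norm_deriv_le (𝕜 := ℝ) (f := iteratedDeriv 5 (lev l ω)) (C := C * 16 ^ (l * 6)) (s := Set.univ) (x := t) (y := s)
        (fun x _ => hd x) (fun x _ => by
          rw [← iteratedDeriv_succ, Real.norm_eq_abs]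
          exact hC l 6 le_rfl ω x) convex_univ (mem_univ _) (mem_univ _)
      simpa only [Real.norm_eq_abs] using this
    have hA : |iteratedDeriv 5 (lev l ω) s - iteratedDeriv 5 (lev l ω) t| ≤ 2 * C * 16 ^ (l * 5) := by
      have := abs_sub (iteratedDeriv 5 (lev l ω) s) (iteratedDeriv 5 (lev l ω) t)
      linarith [hC l 5 (by norm_num) ω s, hC l 5 (by norm_num) ω t]
    rw [← sub_div, Real.norm_eq_abs, abs_div, abs_of_pos (show (0 : ℝ) < 2 ^ (21 * l) by positivity)]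
    have p21 : (0 : ℝ) < 2 ^ (21 * l) := by positivity
    have b1 : |iteratedDeriv 5 (lev l ω) s - iteratedDeriv 5 (lev l ω) t| / 2 ^ (21 * l) ≤ 2 * C * (1 / 2) ^ l := by
      have := div_le_div_of_nonneg_right hA p21.le
      rw [mul_div_assoc, pow_id33] at this
      refine this.trans (le_of_eq ?_)
      norm_num
    have b2 : |iteratedDeriv 5 (lev l ω) s - iteratedDeriv 5 (lev l ω) t| / 2 ^ (21 * l) ≤ C * 8 ^ l * |s - t| := by
      have := div_le_div_of_nonneg_right hlip p21.le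
      have e6 : C * 16 ^ (l * 6) * |s - t| / 2 ^ (21 * l) = C * (16 ^ (l * 6) / 2 ^ (21 * l)) * |s - t| := by ring
      rw [e6, pow_id33] at this
      refine this.trans (le_of_eq ?_)
      norm_num
    refine (five33 (by positivity) b1 b2).trans (le_of_eq ?_)
    have e : (2 * C * (1 / 2) ^ l) ^ 4 * (C * 8 ^ l * |s - t|) = ((2 * C) ^ 4 * C) * |s - t| * (1 / 2 : ℝ) ^ l := by
      have h8 : (8 : ℝ) ^ l = ((1 / 2 : ℝ) ^ l)⁻¹ ^ 3 := by
        rw [← inv_pow, ← pow_mul, mul_comm l 3, pow_mul]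
        norm_num
      rw [h8]
      have hh : ((1 / 2 : ℝ) ^ l) ≠ 0 := by positivity
      field_simp
    rw [e, Real.mul_rpow (by positivity) (by positivity), Real.mul_rpow (by positivity) (abs_nonneg _), hK, hq]
    congr 1
    rw [← Real.rpow_natCast, ← Real.rpow_natCast, ← Real.rpow_mul (by norm_num), ← Real.rpow_mul (by norm_num), mul_comm]
  have hsum : HasSum (fun l : ℕ => K * |s - t| ^ (1 / 5 : ℝ) * q ^ l) (K * |s - t| ^ (1 / 5 : ℝ) * (1 - q)⁻¹) := (hasSum_geometric_of_lt_one hq0 hq1).mul_left _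
  have := tsum_of_norm_bounded hsum hterm
  rw [Real.norm_eq_abs] at this
  refine this.trans (le_of_eq ?_)
  ring

end Pool.Agent.Helper93.AO
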