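import Pool.Agent.Helper93.AO.Defs

/-!
# AO-LAW: there is a law on `[-1, 1]` with a rapidly decaying Fourier transform: a law with a smooth density
-/

open MeasureTheory Real Set Filter Topology

set_option autoImplicit false

namespace Pool.Agent.Helper93.AO

open scoped FourierTransform SchwartzMap ContDiff

/-- the bump: `1` near `0`, `0` outside `(-1/2, 1/2)` -/
private noncomputable def bp47 : ContDiffBump (0 : ℝ) := ⟨1 / 4, 1 / 2, by norm_num, by norm_num⟩

/-- the density -/
private noncomputable def dn47 (x : ℝ) : ℝ := bp47.normed volume x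

private theorem dn_nn47 (x : ℝ) : 0 ≤ dn47 x := bp47.nonneg_normed x

private theorem dn_smooth47 : ContDiff ℝ ∞ dn47 := bp47.contDiff_normed

private theorem dn_cpt47 : HasCompactSupport dn47 := bp47.hasCompactSupport_normed

private theorem dn_zero47 {x : ℝ} (hx : x ∉ Icc (-1 : ℝ) 1) : dn47 x = 0 := by
  have h1 : Function.support dn47 = Metric.ball 0 (1 / 2) := bp47.support_normed_eq
  by_contra h
  have h2 : x ∈ Function.support dn47 := h
  rw [h1, mem_ball_zero_iff, Real.norm_eq_abs, abs_lt] at h2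
  exact hx ⟨by linarith [h2.1], by linarith [h2.2]⟩

/-- the law on the line -/
private noncomputable def lw47 : Measure ℝ := volume.withDensity fun x => ENNReal.ofReal (dn47 x)

/-- a law with smooth density -/
noncomputable def nu0 : Measure J1 := Measure.comap Subtype.val lw47

private theorem lint47 : ∫⁻ x in Icc (-1 : ℝ) 1, ENNReal.ofReal (dn47 x) = 1 := by
  have h1 : ∫ x, dn47 x = 1 := bp47.integral_normed
  have h2 : Integrable dn47 := dn_smooth47.continuous.integrable_of_hasCompactSupport dn_cpt47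
  have h3 : ENNReal.ofReal (∫ x, dn47 x) = ∫⁻ x, ENNReal.ofReal (dn47 x) := ofReal_integral_eq_lintegral_ofReal h2 (Eventually.of_forall dn_nn47)
  have h4 : ∫⁻ x in Icc (-1 : ℝ) 1, ENNReal.ofReal (dn47 x) = ∫⁻ x, ENNReal.ofReal (dn47 x) := by
    refine setLIntegral_eq_of_support_subset ?_
    intro x hx
    by_contra h
    apply hx
    show ENNReal.ofReal (dn47 x) = 0
    rw [dn_zero47 h, ENNReal.ofReal_zero]
  rw [h4, ← h3, h1, ENNReal.ofReal_one]

instance nu0_prob : IsProbabilityMeasure nu0 := by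
  constructor
  unfold nu0
  rw [(MeasurableEmbedding.subtype_coe measurableSet_Icc).comap_apply, image_univ, Subtype.range_val]
  unfold lw47
  rw [withDensity_apply _ measurableSet_Icc]
  exact lint47

/-- the complex density as a Schwartz function -/
private noncomputable def sc47 : 𝓢(ℝ, ℂ) := HasCompactSupport.toSchwartzMap (f := fun x => ((dn47 x : ℝ) : ℂ))
  (dn_cpt47.comp_left (g := fun y : ℝ => (y : ℂ)) Complex.ofReal_zero) (Complex.ofRealCLM.contDiff.comp dn_smooth47)

private theorem ch47 (u : ℝ) : ch nu0 u = (𝓕 sc47) (-u) := by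
  have h1 : ch nu0 u = ∫ x in Icc (-1 : ℝ) 1, eo (u * x) ∂lw47 := integral_subtype_comap measurableSet_Icc (fun x => eo (u * x))
  have h2 : ∫ x in Icc (-1 : ℝ) 1, eo (u * x) ∂lw47 = ∫ x in Icc (-1 : ℝ) 1, dn47 x • eo (u * x) := by
    unfold lw47
    rw [restrict_withDensity measurableSet_Icc, integral_withDensity_eq_integral_toReal_smul₀
      (Measurable.aemeasurable (dn_smooth47.continuous.measurable.ennreal_ofReal)) (Eventually.of_forall fun x => ENNReal.ofReal_lt_top)]
    refine integral_congr_ae (Eventually.of_forall fun x => ?_)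
    simp only [ENNReal.toReal_ofReal (dn_nn47 x)]
  have h3 : ∫ x in Icc (-1 : ℝ) 1, dn47 x • eo (u * x) = ∫ x, dn47 x • eo (u * x) := by
    refine setIntegral_eq_integral_of_forall_compl_eq_zero fun x hx => ?_
    rw [dn_zero47 hx, zero_smul]
  rw [h1, h2, h3, SchwartzMap.fourier_coe, fourier_real_eq_integral_exp_smul]
  refine integral_congr_ae (Eventually.of_forall fun x => ?_)
  show dn47 x • eo (u * x) = Complex.exp (((-2 * π * x * (-u) : ℝ) : ℂ) * Complex.I) • ((dn47 x : ℝ) : ℂ)
  unfold eo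
  rw [Complex.real_smul, smul_eq_mul, mul_comm]
  congr 2
  push_cast
  ring

theorem nu0_rapid : Rapid nu0 := by
  intro n
  obtain ⟨C1, hC1, h1⟩ := (𝓕 sc47).decay 0 0
  obtain ⟨C2, hC2, h2⟩ := (𝓕 sc47).decay n 0
  refine ⟨2 ^ (n - 1) * (C1 + C2), fun u => ?_⟩
  have g1 := h1 (-u)
  have g2 := h2 (-u)
  rw [norm_iteratedFDeriv_zero, ← ch47] at g1 g2
  rw [pow_zero, one_mul] at g1
  rw [norm_neg, Real.norm_eq_abs] at g2
  have h0 : 0 ≤ |u| := abs_nonneg u
  rw [le_div_iff₀ (by positivity)]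
  have h3 : (1 + |u|) ^ n ≤ 2 ^ (n - 1) * (1 ^ n + |u| ^ n) := add_pow_le zero_le_one h0 n
  rw [one_pow] at h3
  calc ‖ch nu0 u‖ * (1 + |u|) ^ n ≤ ‖ch nu0 u‖ * (2 ^ (n - 1) * (1 + |u| ^ n)) := mul_le_mul_of_nonneg_left h3 (norm_nonneg _)
    _ = 2 ^ (n - 1) * (‖ch nu0 u‖ + |u| ^ n * ‖ch nu0 u‖) := by ring
    _ ≤ 2 ^ (n - 1) * (C1 + C2) := mul_le_mul_of_nonneg_left (add_le_add g1 g2) (by positivity)

end Pool.Agent.Helper93.AO
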