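import Pool.Agent.Helper93.AO.Open
import Pool.Agent.Helper93.AO.Cont
import Pool.Agent.Helper93.AO.Law

/-!
# AO-PREV: the almost sure bound in the form of prevalence

`V` is the space of the `2π`-periodic functions of class `C^k`, given by `IsPer`. The set of violations is `⋃ M, ⋂ C, U M C` with open sets `U M C`; the law of the random function has compact support, and almost surely
none of its translates is a violation (`as_lat`).
-/

open MeasureTheory Real Set Filter Topology

set_option autoImplicit false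

namespace Pool.Agent.Helper93.AO

open Pool.Agent.Helper22.LP (Fr fdet)
open Pool.Agent.Helper92.LA (Fb)

/-- `V` is the space of the `2π`-periodic functions of class `C^k` -/
structure IsPer (k : ℕ) {V : Type} [TopologicalSpace V] (val : V → ℝ → ℝ) : Prop where
  smooth : ∀ v, ContDiff ℝ k (val v)
  per : ∀ v, Function.Periodic (val v) (2 * π)
  inj : Function.Injective val
  surj : ∀ f : ℝ → ℝ, ContDiff ℝ k f → Function.Periodic f (2 * π) → ∃ v, val v = f
  top : IsInducing fun v (j : Fin (k + 1)) => UniformFun.ofFun (iteratedDeriv j (val v))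

section

variable {k : ℕ} {V : Type} [TopologicalSpace V] {val : V → ℝ → ℝ}

private theorem ov81 (h : IsPer k val) (hk : 2 ≤ k) {H : V} (hH : ∀ t, 0 < val H t + deriv (deriv (val H)) t) : IsOv (val H) :=
  ⟨(h.smooth H).of_le (by exact_mod_cast hk), h.per H, hH⟩

private theorem cont81 (h : IsPer k val) {j : ℕ} (hj : j ≤ k) : Continuous fun f : V => UniformFun.ofFun (iteratedDeriv j (val f)) :=
  (continuous_apply (⟨j, by omega⟩ : Fin (k + 1))).comp h.top.continuous

private theorem ball81 (h : IsPer k val) {j : ℕ} (hj : j ≤ k) (H : V) {ε : ℝ} (hε : 0 < ε) :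
    ∀ᶠ f : V in 𝓝 H, ∀ t, |iteratedDeriv j (val f) t - iteratedDeriv j (val H) t| < ε := by
  have h1 := ((cont81 h hj).tendsto H)
  rw [UniformFun.tendsto_iff_tendstoUniformly, Metric.tendstoUniformly_iff] at h1
  filter_upwards [h1 ε hε] with f hf t
  have := hf t
  rw [dist_comm, Real.dist_eq] at this
  exact this

private theorem two81 (f : ℝ → ℝ) : iteratedDeriv 2 f = deriv (deriv f) := by
  rw [iteratedDeriv_succ, iteratedDeriv_one]

/-- positive radius of curvature is an open condition -/
private theorem pos81 (h : IsPer k val) (hk : 2 ≤ k) {H : V} (hH : ∀ t, 0 < val H t + deriv (deriv (val H)) t) :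
    ∀ᶠ f : V in 𝓝 H, ∀ t, 0 < val f t + deriv (deriv (val f)) t := by
  have h2 : ContDiff ℝ 2 (val H) := (h.smooth H).of_le (by exact_mod_cast hk)
  have hc : Continuous fun t => val H t + deriv (deriv (val H)) t := by
    rw [← two81]
    exact h2.continuous.add (h2.continuous_iteratedDeriv 2 le_rfl)
  have hp : Function.Periodic (fun t => val H t + deriv (deriv (val H)) t) (2 * π) := by
    intro t
    have e1 : Function.Periodic (deriv (val H)) (2 * π) := by
      intro s
      have h3 : (fun x => val H (x + 2 * π)) = val H := funext (h.per H)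
      calc deriv (val H) (s + 2 * π) = deriv (fun x => val H (x + 2 * π)) s := (deriv_comp_add_const _ _ _).symm
        _ = _ := by rw [h3]
    have e2 : deriv (deriv (val H)) (t + 2 * π) = deriv (deriv (val H)) t := by
      have h3 : (fun x => deriv (val H) (x + 2 * π)) = deriv (val H) := funext e1
      calc deriv (deriv (val H)) (t + 2 * π) = deriv (fun x => deriv (val H) (x + 2 * π)) t := (deriv_comp_add_const _ _ _).symm
        _ = _ := by rw [h3]
    simp only [h.per H t, e2]
  have hK : IsCompact (Icc (0 : ℝ) (2 * π)) := isCompact_Icc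
  obtain ⟨x, _, hx⟩ := hK.exists_isMinOn ⟨0, by constructor <;> positivity⟩ hc.continuousOn
  have hm : ∀ t, val H x + deriv (deriv (val H)) x ≤ val H t + deriv (deriv (val H)) t := by
    intro t
    obtain ⟨s, hs, he⟩ := hp.exists_mem_Ico₀ (by positivity) t
    rw [he]
    exact hx ⟨hs.1, hs.2.le⟩
  have hx0 := hH x
  filter_upwards [ball81 h (j := 0) (by omega) H (ε := (val H x + deriv (deriv (val H)) x) / 2) (by linarith),
    ball81 h (j := 2) hk H (ε := (val H x + deriv (deriv (val H)) x) / 2) (by linarith)] with f h3 h4 t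
  have h5 := (abs_lt.1 (h3 t)).1
  have h6 := (abs_lt.1 (h4 t)).1
  rw [iteratedDeriv_zero, iteratedDeriv_zero] at h5
  rw [two81, two81] at h6
  linarith [hm t]

/-- the violation set for one compact set of lattices and one constant -/
private def U81 (val : V → ℝ → ℝ) (M C : ℕ) : Set V :=
  {H | (∀ t, 0 < val H t + deriv (deriv (val H)) t) ∧ ∃ ab : Fr, Fb ((M + 1 : ℕ) : ℝ) ab ∧ ∃ R : ℝ, 2 < R ∧ ∃ c : ℝ × ℝ, C * gR R < |Er ab (val H) c R|}

private theorem fb81 {M : ℝ} {ab : Fr} (h : Fb M ab) : fdet ab ≠ 0 := by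
  intro h0
  have := h.det
  rw [h0, abs_zero, mul_zero] at this
  linarith

private theorem U_open81 (h : IsPer k val) (hk : 2 ≤ k) (M C : ℕ) : IsOpen (U81 val M C) := by
  rw [isOpen_iff_mem_nhds]
  rintro H ⟨hH, ab, hab, R, hR, c, hv⟩
  obtain ⟨ε, hε, hh⟩ := open_viol (ov81 h hk hH) (fb81 hab) hR hv
  filter_upwards [pos81 h hk hH, ball81 h (j := 0) (by omega) H hε] with f h1 h2
  obtain ⟨R', hR', c', h3⟩ := hh (val f) (ov81 h hk h1) (fun t => by simpa only [iteratedDeriv_zero] using h2 t)
  exact ⟨h1, ab, hab, R', hR', c', h3⟩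

/-- the Borel set of all violations -/
private def B81 (val : V → ℝ → ℝ) : Set V := ⋃ M : ℕ, ⋂ C : ℕ, U81 val M C

private theorem t2_81 (h : IsPer k val) : T2Space V := by
  refine T2Space.of_injective_continuous (f := fun f : V => UniformFun.ofFun (iteratedDeriv 0 (val f))) ?_ (cont81 h (Nat.zero_le k))
  intro f g hfg
  have h1 : iteratedDeriv 0 (val f) = iteratedDeriv 0 (val g) := hfg
  rw [iteratedDeriv_zero, iteratedDeriv_zero] at h1
  exact h.inj h1

theorem prev_main [MeasurableSpace V] [BorelSpace V] (h : IsPer k val) (hk : 2 ≤ k) (hk5 : k ≤ 5) :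
    ∃ B : Set V, (∀ H : V, H ∉ B → (∀ t, 0 < val H t + deriv (deriv (val H)) t) → ∀ K : Set Fr, IsCompact K → (∀ p ∈ K, fdet p ≠ 0) →
        ∃ C : ℝ, ∀ p ∈ K, ∀ R : ℝ, 2 ≤ R → ∀ c : ℝ × ℝ, |Er p (val H) c R| ≤ C * gR R) ∧
      MeasurableSet B ∧ ∃ μ : Measure V, IsProbabilityMeasure μ ∧ (∃ K : Set V, IsCompact K ∧ μ Kᶜ = 0) ∧
        ∀ v : V, μ {w | ∃ u ∈ B, ∀ t, val u t = val w t + val v t} = 0 := by
  have ht2 : T2Space V := t2_81 h
  have hBm : MeasurableSet (B81 val) := MeasurableSet.iUnion fun M => MeasurableSet.iInter fun C => (U_open81 h hk M C).measurableSet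
  -- the random function as an element of `V`
  have hW : ∀ ω : Om, ∃ v : V, val v = WW ω := fun ω => h.surj (WW ω) ((WW_smooth ω).of_le (by exact_mod_cast hk5)) (WW_per ω)
  choose RW hRW using hW
  have hRc : Continuous RW := by
    rw [h.top.continuous_iff, continuous_pi_iff]
    intro j
    have h1 := WW_cont_unif (j := (j : ℕ)) (by omega)
    refine h1.congr fun ω => ?_
    show _ = UniformFun.ofFun (iteratedDeriv j (val (RW ω)))
    rw [hRW]
  -- the sum of two functions
  have hA : ∀ w v : V, ∃ u : V, val u = fun t => val w t + val v t := fun w v =>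
    h.surj _ ((h.smooth w).add (h.smooth v)) fun t => congrArg₂ (· + ·) (h.per w t) (h.per v t)
  choose ad had using hA
  have hAc : ∀ v : V, Continuous fun w : V => ad w v := by
    intro v
    rw [h.top.continuous_iff, continuous_pi_iff]
    intro j
    have hj : (j : ℕ) ≤ k := by omega
    have h1 : Continuous fun w : V => UniformFun.ofFun (iteratedDeriv j (val w)) + UniformFun.ofFun (iteratedDeriv j (val v)) := (cont81 h hj).add continuous_const
    refine h1.congr fun w => ?_
    show _ = UniformFun.ofFun (iteratedDeriv j (val (ad w v)))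
    rw [← UniformFun.ofFun_add, had]
    congr 1
    funext t
    have hj2 : ((j : ℕ) : WithTop ℕ∞) ≤ (k : WithTop ℕ∞) := by exact_mod_cast hj
    exact (iteratedDeriv_fun_add ((h.smooth w).of_le hj2).contDiffAt ((h.smooth v).of_le hj2).contDiffAt).symm
  have hset : ∀ v : V, {w : V | ∃ u ∈ B81 val, ∀ t, val u t = val w t + val v t} = {w | ad w v ∈ B81 val} := by
    intro v
    ext w
    constructor
    · rintro ⟨u, hu, hh⟩
      have e : u = ad w v := h.inj (by rw [had]; exact funext hh)
      rw [e] at hu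
      exact hu
    · intro hh
      exact ⟨_, hh, fun t => by rw [had]⟩
  refine ⟨B81 val, ?_, hBm, Measure.map RW (PP nu0), Measure.isProbabilityMeasure_map hRc.measurable.aemeasurable, ?_, ?_⟩
  · intro H hB hH K hK hdet
    -- bounds on the compact set
    obtain ⟨B, hB'⟩ := hK.isBounded.exists_norm_le
    have hcd : Continuous fun p : Fr => |fdet p| := by
      unfold fdet
      fun_prop
    obtain ⟨d, hd, hdd⟩ : ∃ d : ℝ, 0 < d ∧ ∀ p ∈ K, d ≤ |fdet p| := by
      rcases K.eq_empty_or_nonempty with h0 | h0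
      · exact ⟨1, one_pos, fun p hp => by rw [h0] at hp; exact absurd hp (notMem_empty p)⟩
      · obtain ⟨q, hq, hmin⟩ := hK.exists_isMinOn h0 hcd.continuousOn
        exact ⟨_, abs_pos.2 (hdet q hq), fun p hp => hmin hp⟩
    obtain ⟨M, hM⟩ := exists_nat_ge (max B (1 / d))
    have hM1 : B ≤ ((M + 1 : ℕ) : ℝ) := by
      push_cast
      linarith [le_max_left B (1 / d)]
    have hM2 : 1 / d ≤ ((M + 1 : ℕ) : ℝ) := by
      push_cast
      linarith [le_max_right B (1 / d)]
    have hM3 : 1 ≤ ((M + 1 : ℕ) : ℝ) := by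
      push_cast
      linarith [Nat.cast_nonneg (α := ℝ) M]
    have hfb : ∀ p ∈ K, Fb ((M + 1 : ℕ) : ℝ) p := by
      intro p hp
      have h1 := hB' p hp
      have h2 : ‖p.1‖ ≤ B := (norm_fst_le p).trans h1
      have h3 : ‖p.2‖ ≤ B := (norm_snd_le p).trans h1
      refine ⟨?_, ?_, ?_, ?_, ?_⟩
      · exact ((norm_fst_le p.1).trans h2).trans hM1
      · exact ((norm_snd_le p.1).trans h2).trans hM1
      · exact ((norm_fst_le p.2).trans h3).trans hM1
      · exact ((norm_snd_le p.2).trans h3).trans hM1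
      · have h4 := hdd p hp
        have h5 : 1 = 1 / d * d := by field_simp
        calc (1 : ℝ) = 1 / d * d := h5
          _ ≤ ((M + 1 : ℕ) : ℝ) * |fdet p| := mul_le_mul hM2 h4 hd.le (by positivity)
    -- a constant
    have h6 : ∃ C : ℕ, H ∉ U81 val M C := by
      by_contra hh
      push Not at hh
      apply hB
      unfold B81
      rw [mem_iUnion]
      exact ⟨M, mem_iInter.2 hh⟩
    obtain ⟨C, hC⟩ := h6
    obtain ⟨C', hC'⟩ := two_of_lt (ov81 h hk hH) hM3 (C := (C : ℝ)) (fun ab hab R hR c => by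
      by_contra hh
      exact hC ⟨hH, ab, hab, R, hR, c, not_le.1 hh⟩)
    exact ⟨C', fun p hp R hR c => hC' p (hfb p hp) R hR c⟩
  · have hcp : IsCompact (range RW) := isCompact_range hRc
    refine ⟨range RW, hcp, ?_⟩
    rw [Measure.map_apply hRc.measurable hcp.isClosed.measurableSet.compl]
    have : RW ⁻¹' (range RW)ᶜ = ∅ := by
      ext ω
      simp
    rw [this, measure_empty]
  · intro v
    rw [hset]
    have hm : MeasurableSet {w : V | ad w v ∈ B81 val} := (hAc v).measurable hBm
    rw [Measure.map_apply hRc.measurable hm, ← compl_compl (RW ⁻¹' {w | ad w v ∈ B81 val}), ← mem_ae_iff]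
    filter_upwards [as_lat nu0_rapid ((h.smooth v).of_le (by exact_mod_cast hk)) (h.per v) one_ne_zero] with ω hω hcon
    have e : val (ad (RW ω) v) = Hx (val v) 1 ω := by
      rw [had, hRW]
      funext t
      show WW ω t + val v t = val v t + 1 * WW ω t
      ring
    have hcon' : ad (RW ω) v ∈ B81 val := hcon
    unfold B81 at hcon'
    rw [mem_iUnion] at hcon'
    obtain ⟨M, hM⟩ := hcon'
    rw [mem_iInter] at hM
    have hpos := (hM 0).1
    rw [e] at hpos
    obtain ⟨C, hC⟩ := hω hpos ((M + 1 : ℕ) : ℝ) (by push_cast; linarith [Nat.cast_nonneg (α := ℝ) M])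
    obtain ⟨-, ab, hab, R, hR, c, hlt⟩ := hM ⌈C⌉₊
    rw [e] at hlt
    have h1 := hC ab hab R hR.le c
    have hg : 0 ≤ gR R := mul_nonneg (rpow_nonneg (by linarith) _) (rpow_nonneg (log_nonneg (by linarith)) _)
    have h2 : C * gR R ≤ (⌈C⌉₊ : ℝ) * gR R := mul_le_mul_of_nonneg_right (Nat.le_ceil C) hg
    linarith

end

end Pool.Agent.Helper93.AO
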