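import Pool.Agent.Helper93.AO.Defs

/-!
# AO-BUMP: the bump functions `e1 l`, `e2 l`

`bB = smoothTransition ∘ (4 - y²)/3`: `Real.smoothTransition.one_of_one_le`, `zero_of_nonpos`, `contDiff`. Periodicity: `sin (x/2 + π) = - sin (x/2)`, `bB` even,
`bQ` odd. Derivatives: `bB`, `bQ` are smooth with compact support, so their derivatives of order `≤ 5` are bounded by one constant;
`s x = 16^l sin (x/2)` has `‖iteratedFDeriv i s‖ ≤ 16^l ≤ (16^l)^i` for `i ≥ 1`; `norm_iteratedFDeriv_comp_le` gives `5! C (16^l)^j` for `bB ∘ s`, `bQ ∘ s`; product with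
`cos x`, `2 cos (x/2)` (derivatives `≤ 2`) by `norm_iteratedFDeriv_mul_le`. Use `norm_iteratedFDeriv_eq_norm_iteratedDeriv`.
Plateau: `{x | |16^l sin (x/2)| < 1}` is open, there `bB = 1`, `bQ y = y`, `2 cos (x/2) sin (x/2) = sin x`. Outside: `{2 < |16^l sin (x/2)|}` is open.
-/

open MeasureTheory Real Set Filter Topology

set_option autoImplicit false

namespace Pool.Agent.Helper93.AO

private lemma bB_smooth38 (n : ℕ∞) : ContDiff ℝ n bB := by
  unfold bB
  exact Real.smoothTransition.contDiff.comp (by fun_prop)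

private lemma bQ_smooth38 (n : ℕ∞) : ContDiff ℝ n bQ := by
  unfold bQ
  exact contDiff_id.mul (bB_smooth38 n)

private lemma bB_even38 (y : ℝ) : bB (-y) = bB y := by
  unfold bB
  rw [neg_sq]

private lemma bQ_odd38 (y : ℝ) : bQ (-y) = -bQ y := by
  unfold bQ
  rw [bB_even38]
  ring

private lemma bB_one38 {y : ℝ} (h : |y| ≤ 1) : bB y = 1 := by
  unfold bB
  apply Real.smoothTransition.one_of_one_le
  have h1 : y ^ 2 ≤ 1 := by
    rw [← sq_abs]
    exact pow_le_one₀ (abs_nonneg y) h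
  linarith

private lemma bB_zero38 {y : ℝ} (h : 2 ≤ |y|) : bB y = 0 := by
  unfold bB
  apply Real.smoothTransition.zero_of_nonpos
  have h1 : (4 : ℝ) ≤ y ^ 2 := by
    rw [← sq_abs]
    nlinarith
  linarith

private lemma s_smooth38 (l : ℕ) (n : ℕ∞) : ContDiff ℝ n fun x : ℝ => (16 : ℝ) ^ l * sin (x / 2) := by
  fun_prop

private lemma s_per38 (l : ℕ) (x : ℝ) :
    (16 : ℝ) ^ l * sin ((x + 2 * π) / 2) = -((16 : ℝ) ^ l * sin (x / 2)) := by
  have h : (x + 2 * π) / 2 = x / 2 + π := by ring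
  rw [h, Real.sin_add_pi]
  ring

theorem e1_smooth (l : ℕ) (n : ℕ) : ContDiff ℝ n (e1 l) := by
  have h1 : ContDiff ℝ ((n : ℕ∞)) (fun x : ℝ => cos x * bB (16 ^ l * sin (x / 2))) :=
    Real.contDiff_cos.mul ((bB_smooth38 n).comp (s_smooth38 l n))
  exact h1

theorem e2_smooth (l : ℕ) (n : ℕ) : ContDiff ℝ n (e2 l) := by
  have h0 : ContDiff ℝ ((n : ℕ∞)) (fun x : ℝ => 2 * cos (x / 2)) := by fun_prop
  have h1 : ContDiff ℝ ((n : ℕ∞)) (fun x : ℝ => 2 * cos (x / 2) * bQ (16 ^ l * sin (x / 2))) :=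
    h0.mul ((bQ_smooth38 n).comp (s_smooth38 l n))
  exact h1

theorem e1_per (l : ℕ) : Function.Periodic (e1 l) (2 * π) := by
  intro x
  unfold e1
  rw [s_per38, bB_even38, Real.cos_add_two_pi]

theorem e2_per (l : ℕ) : Function.Periodic (e2 l) (2 * π) := by
  intro x
  unfold e2
  rw [s_per38, bQ_odd38]
  have h : (x + 2 * π) / 2 = x / 2 + π := by ring
  rw [h, Real.cos_add_pi]
  ring

theorem e1_plateau {l : ℕ} {x : ℝ} (h : |16 ^ l * sin (x / 2)| < 1) : e1 l =ᶠ[𝓝 x] cos := by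
  have hc : Continuous fun y : ℝ => |(16 : ℝ) ^ l * sin (y / 2)| := by fun_prop
  filter_upwards [hc.continuousAt.eventually_lt continuousAt_const h] with y hy
  unfold e1
  rw [bB_one38 hy.le, mul_one]

theorem e2_plateau {l : ℕ} {x : ℝ} (h : |16 ^ l * sin (x / 2)| < 1) : e2 l =ᶠ[𝓝 x] fun y => 16 ^ l * sin y := by
  have hc : Continuous fun y : ℝ => |(16 : ℝ) ^ l * sin (y / 2)| := by fun_prop
  filter_upwards [hc.continuousAt.eventually_lt continuousAt_const h] with y hy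
  unfold e2 bQ
  rw [bB_one38 hy.le, mul_one]
  have h1 : sin y = 2 * sin (y / 2) * cos (y / 2) := by
    rw [← Real.sin_two_mul]
    congr 1
    ring
  rw [h1]
  ring

theorem e_zero {l : ℕ} {x : ℝ} (h : 2 < |16 ^ l * sin (x / 2)|) : (e1 l =ᶠ[𝓝 x] fun _ => 0) ∧ (e2 l =ᶠ[𝓝 x] fun _ => 0) := by
  have hc : Continuous fun y : ℝ => |(16 : ℝ) ^ l * sin (y / 2)| := by fun_prop
  have h1 := continuousAt_const.eventually_lt hc.continuousAt h
  constructor
  · filter_upwards [h1] with y hy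
    unfold e1
    rw [bB_zero38 hy.le, mul_zero]
  · filter_upwards [h1] with y hy
    unfold e2 bQ
    rw [bB_zero38 hy.le, mul_zero, mul_zero]

/-- derivatives of `a sin (c x + b)` -/
private lemma iter_sin38 (a b c : ℝ) (i : ℕ) :
    iteratedDeriv i (fun x : ℝ => a * sin (c * x + b)) =
      fun x => a * c ^ i * sin (c * x + (b + i * (π / 2))) := by
  induction i with
  | zero => simp
  | succ i ih =>
    rw [iteratedDeriv_succ, ih]
    funext x
    have h1 : HasDerivAt (fun x : ℝ => c * x + (b + i * (π / 2))) c x := by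
      simpa using ((hasDerivAt_id x).const_mul c).add_const (b + i * (π / 2))
    have h2 := (h1.sin).const_mul (a * c ^ i)
    rw [h2.deriv]
    have h3 : c * x + (b + ((i + 1 : ℕ) : ℝ) * (π / 2)) = (c * x + (b + i * (π / 2))) + π / 2 := by
      push_cast
      ring
    rw [h3, Real.sin_add_pi_div_two]
    ring

private lemma iter_sin_le38 (a b : ℝ) {c : ℝ} (ha : 0 ≤ a) (hc : 0 ≤ c) (hc1 : c ≤ 1) (i : ℕ) (x : ℝ) :
    ‖iteratedFDeriv ℝ i (fun x : ℝ => a * sin (c * x + b)) x‖ ≤ a := by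
  rw [norm_iteratedFDeriv_eq_norm_iteratedDeriv, iter_sin38, Real.norm_eq_abs, abs_mul, abs_mul,
    abs_of_nonneg ha, abs_of_nonneg (pow_nonneg hc i)]
  have h1 := Real.abs_sin_le_one (c * x + (b + i * (π / 2)))
  have h2 : c ^ i ≤ 1 := pow_le_one₀ hc hc1
  have h3 : 0 ≤ c ^ i := pow_nonneg hc i
  calc a * c ^ i * |sin (c * x + (b + i * (π / 2)))| ≤ a * 1 * 1 := by
        apply mul_le_mul (mul_le_mul_of_nonneg_left h2 ha) h1 (abs_nonneg _) (by linarith)
    _ = a := by ring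

/-- the general bound -/
private lemma bound38 (k : ℕ) {g : ℝ → ℝ} (hg : ∀ n : ℕ∞, ContDiff ℝ n g) (hs : HasCompactSupport g) :
    ∃ C : ℝ, 0 ≤ C ∧ ∀ (a b c : ℝ), 0 ≤ a → a ≤ 2 → 0 ≤ c → c ≤ 1 → ∀ l j : ℕ, j ≤ k → ∀ x : ℝ,
      |iteratedDeriv j (fun x => a * sin (c * x + b) * g (16 ^ l * sin (x / 2))) x| ≤ C * 16 ^ (l * j) := by
  have h1 : ∀ i : ℕ, ∃ C : ℝ, ∀ x, ‖iteratedFDeriv ℝ i g x‖ ≤ C := fun i =>
    Continuous.bounded_above_of_compact_support
      ((hg i).continuous_iteratedFDeriv (m := i) le_rfl) (hs.iteratedFDeriv i)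
  choose B hB using h1
  have hB0 : ∀ i, 0 ≤ B i := fun i => (norm_nonneg _).trans (hB i 0)
  set K : ℝ := ∑ i ∈ Finset.range (k + 1), B i with hK
  have hK0 : 0 ≤ K := Finset.sum_nonneg fun i _ => hB0 i
  have hBK : ∀ i ≤ k, B i ≤ K := fun i hi =>
    Finset.single_le_sum (f := B) (fun i _ => hB0 i) (Finset.mem_range.2 (by omega))
  refine ⟨2 ^ k * (2 * (Nat.factorial k * K)), by positivity, fun a b c ha ha2 hc hc1 l j hj x => ?_⟩
  have h16 : (1 : ℝ) ≤ 16 ^ l := one_le_pow₀ (by norm_num)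
  have hcomp : ∀ m ≤ k, ‖iteratedFDeriv ℝ m (g ∘ fun x : ℝ => (16 : ℝ) ^ l * sin (x / 2)) x‖ ≤
      Nat.factorial k * K * (16 ^ l) ^ m := by
    intro m hm
    have h2 := norm_iteratedFDeriv_comp_le (g := g) (f := fun x : ℝ => (16 : ℝ) ^ l * sin (x / 2))
      (n := m) (N := ((m : ℕ∞) : WithTop ℕ∞)) (hg m) (s_smooth38 l m) le_rfl x (C := K)
      (D := (16 : ℝ) ^ l) (fun i hi => (hB i _).trans (hBK i (hi.trans hm))) (fun i hi1 hi => by
        have e : (fun x : ℝ => (16 : ℝ) ^ l * sin (x / 2)) =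
            fun x : ℝ => (16 : ℝ) ^ l * sin (1 / 2 * x + 0) := by
          funext y
          congr 2
          ring
        rw [e]
        refine (iter_sin_le38 _ _ (by positivity) (by norm_num) (by norm_num) i x).trans ?_
        calc (16 : ℝ) ^ l = (16 ^ l) ^ 1 := (pow_one _).symm
          _ ≤ (16 ^ l) ^ i := pow_le_pow_right₀ h16 hi1)
    refine h2.trans ?_
    have h3 : (Nat.factorial m : ℝ) ≤ Nat.factorial k := by
      exact_mod_cast Nat.factorial_le hm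
    have h4 : (0 : ℝ) ≤ (16 ^ l) ^ m := by positivity
    exact mul_le_mul_of_nonneg_right (mul_le_mul_of_nonneg_right h3 hK0) h4
  rw [← Real.norm_eq_abs, ← norm_iteratedFDeriv_eq_norm_iteratedDeriv]
  have h5 := norm_iteratedFDeriv_mul_le (𝕜 := ℝ) (f := fun x : ℝ => a * sin (c * x + b))
    (g := g ∘ fun x : ℝ => (16 : ℝ) ^ l * sin (x / 2)) (N := ((j : ℕ∞) : WithTop ℕ∞))
    (by fun_prop) ((hg j).comp (s_smooth38 l j)) x (n := j) le_rfl
  refine h5.trans ?_
  have h6 : ∀ i ∈ Finset.range (j + 1), (j.choose i : ℝ) *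
      ‖iteratedFDeriv ℝ i (fun x : ℝ => a * sin (c * x + b)) x‖ *
      ‖iteratedFDeriv ℝ (j - i) (g ∘ fun x : ℝ => (16 : ℝ) ^ l * sin (x / 2)) x‖ ≤
      (j.choose i : ℝ) * (2 * (Nat.factorial k * K * (16 ^ l) ^ j)) := by
    intro i hi
    have hi2 : i ≤ j := by
      rw [Finset.mem_range] at hi
      omega
    rw [mul_assoc]
    apply mul_le_mul_of_nonneg_left _ (by positivity)
    apply mul_le_mul ((iter_sin_le38 a b ha hc hc1 i x).trans ha2) _ (norm_nonneg _) (by norm_num)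
    refine (hcomp (j - i) (by omega)).trans ?_
    apply mul_le_mul_of_nonneg_left _ (by positivity)
    exact pow_le_pow_right₀ h16 (by omega)
  refine (Finset.sum_le_sum h6).trans ?_
  rw [← Finset.sum_mul, ← Nat.cast_sum, Nat.sum_range_choose, pow_mul]
  have h7 : ((2 ^ j : ℕ) : ℝ) ≤ 2 ^ k := by
    have : 2 ^ j ≤ 2 ^ k := Nat.pow_le_pow_right (by norm_num) hj
    exact_mod_cast this
  calc ((2 ^ j : ℕ) : ℝ) * (2 * (Nat.factorial k * K * (16 ^ l) ^ j)) ≤
        2 ^ k * (2 * (Nat.factorial k * K * (16 ^ l) ^ j)) := by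
        apply mul_le_mul_of_nonneg_right h7 (by positivity)
    _ = 2 ^ k * (2 * (Nat.factorial k * K)) * (16 ^ l) ^ j := by ring

private lemma bB_comp38 : HasCompactSupport bB := by
  apply HasCompactSupport.intro (isCompact_Icc (a := (-2 : ℝ)) (b := 2))
  intro y hy
  apply bB_zero38
  by_contra hcon
  push Not at hcon
  rw [abs_lt] at hcon
  exact hy ⟨hcon.1.le, hcon.2.le⟩

private lemma bQ_comp38 : HasCompactSupport bQ := by
  have : bQ = fun y => y * bB y := rfl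
  rw [this]
  exact bB_comp38.mul_left

/-- the bounds for all orders up to `k` -/
theorem e_bound_all (k : ℕ) : ∃ C : ℝ, ∀ l j : ℕ, j ≤ k → ∀ x : ℝ, |iteratedDeriv j (e1 l) x| ≤ C * 16 ^ (l * j) ∧ |iteratedDeriv j (e2 l) x| ≤ C * 16 ^ (l * j) := by
  obtain ⟨C1, h10, h1⟩ := bound38 k (g := bB) bB_smooth38 bB_comp38
  obtain ⟨C2, h20, h2⟩ := bound38 k (g := bQ) bQ_smooth38 bQ_comp38
  refine ⟨C1 + C2, fun l j hj x => ⟨?_, ?_⟩⟩
  · have e : e1 l = fun x => 1 * sin (1 * x + π / 2) * bB (16 ^ l * sin (x / 2)) := by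
      funext y
      unfold e1
      rw [one_mul, one_mul, Real.sin_add_pi_div_two]
    rw [e]
    refine (h1 1 (π / 2) 1 (by norm_num) (by norm_num) (by norm_num) le_rfl l j hj x).trans ?_
    have : (0 : ℝ) ≤ 16 ^ (l * j) := by positivity
    nlinarith
  · have e : e2 l = fun x => 2 * sin (1 / 2 * x + π / 2) * bQ (16 ^ l * sin (x / 2)) := by
      funext y
      unfold e2
      rw [Real.sin_add_pi_div_two]
      congr 3
      ring
    rw [e]
    refine (h2 2 (π / 2) (1 / 2) (by norm_num) le_rfl (by norm_num) (by norm_num) l j hj x).trans ?_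
    have : (0 : ℝ) ≤ 16 ^ (l * j) := by positivity
    nlinarith

theorem e_bound : ∃ C : ℝ, ∀ l j : ℕ, j ≤ 5 → ∀ x : ℝ, |iteratedDeriv j (e1 l) x| ≤ C * 16 ^ (l * j) ∧ |iteratedDeriv j (e2 l) x| ≤ C * 16 ^ (l * j) :=
  e_bound_all 5

theorem e_bound6 : ∃ C : ℝ, ∀ l j : ℕ, j ≤ 6 → ∀ x : ℝ, |iteratedDeriv j (e1 l) x| ≤ C * 16 ^ (l * j) ∧ |iteratedDeriv j (e2 l) x| ≤ C * 16 ^ (l * j) :=
  e_bound_all 6

end Pool.Agent.Helper93.AO
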