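import Mathlib

/-!
# AO (MP_fb29e9_nt, AlmostEveryOval): the random perturbation. Definitions

See README.md. `W = ∑_l 2^(-21 l) ∑_{m < 4·16^l} (ξ_{l,m} e1 l (t - th l m) + η_{l,m} e2 l (t - th l m))`. The bump functions `e1 l`, `e2 l` are `2π`-periodic, they
are `cos x` and `16^l sin x` where `|16^l sin (x/2)| ≤ 1` (the plateau: there the perturbation is a translation of the curve) and `0` where `|16^l sin (x/2)| ≥ 2`.
The centres `th l m`, `m < 4·16^l`, have spacing `π/(2·16^l)`; bumps of the same family (`m` mod 8) have disjoint supports.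
-/

open MeasureTheory Real Set Filter Topology

set_option autoImplicit false

namespace Pool.Agent.Helper93.AO

/-- the interval `[-1, 1]` -/
abbrev J1 : Type := Set.Icc (-1 : ℝ) 1

/-- the sample space: a pair of coefficients for each level `l` and each index `m` -/
abbrev Om : Type := ℕ × ℕ → J1 × J1

/-- the point `0` of `[-1, 1]` -/
def j0 : J1 := ⟨0, by norm_num, by norm_num⟩

/-- the sample with all coefficients `0` -/
def om0 : Om := fun _ => (j0, j0)

/-- `e(x) = exp (2 π i x)`; the same as `Pool.Agent.Helper22.AE.ee` by `rfl` -/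
noncomputable def eo (x : ℝ) : ℂ := Complex.exp (((2 * π * x : ℝ) : ℂ) * Complex.I)

/-- characteristic function of a law on `[-1, 1]` -/
noncomputable def ch (ν : Measure J1) (u : ℝ) : ℂ := ∫ x : J1, eo (u * (x : ℝ)) ∂ν

/-- the law has a rapidly decaying characteristic function -/
def Rapid (ν : Measure J1) : Prop := ∀ n : ℕ, ∃ C : ℝ, ∀ u : ℝ, ‖ch ν u‖ ≤ C / (1 + |u|) ^ n

/-- the law of the sample: all coefficients are independent with law `ν` -/
noncomputable def PP (ν : Measure J1) : Measure Om := Measure.infinitePi fun _ : ℕ × ℕ => ν.prod ν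

instance (ν : Measure J1) [IsProbabilityMeasure ν] : IsProbabilityMeasure (PP ν) := by
  unfold PP
  infer_instance

/-- a bump: `1` on `[-1, 1]`, `0` outside `[-2, 2]` -/
noncomputable def bB (y : ℝ) : ℝ := Real.smoothTransition ((4 - y ^ 2) / 3)

/-- `y` times the bump -/
noncomputable def bQ (y : ℝ) : ℝ := y * bB y

/-- the centre number `m` of level `l` -/
noncomputable def th (l m : ℕ) : ℝ := π * m / (2 * 16 ^ l)

/-- first bump function of level `l`: `cos x` on the plateau -/
noncomputable def e1 (l : ℕ) (x : ℝ) : ℝ := cos x * bB (16 ^ l * sin (x / 2))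

/-- second bump function of level `l`: `16 ^ l sin x` on the plateau -/
noncomputable def e2 (l : ℕ) (x : ℝ) : ℝ := 2 * cos (x / 2) * bQ (16 ^ l * sin (x / 2))

/-- the part of level `l` -/
noncomputable def lev (l : ℕ) (ω : Om) (t : ℝ) : ℝ :=
  ∑ m ∈ Finset.range (4 * 16 ^ l), (((ω (l, m)).1 : ℝ) * e1 l (t - th l m) + ((ω (l, m)).2 : ℝ) * e2 l (t - th l m))

/-- the random function -/
noncomputable def WW (ω : Om) (t : ℝ) : ℝ := ∑' l : ℕ, lev l ω t / 2 ^ (21 * l)

/-- the random support function -/
noncomputable def Hx (H₀ : ℝ → ℝ) (τ : ℝ) (ω : Om) (t : ℝ) : ℝ := H₀ t + τ * WW ω t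

/-- the index of a bump of level `l` whose centre is nearest to the angle `t` -/
noncomputable def idx (l : ℕ) (t : ℝ) : ℕ := (⌊t * (2 * 16 ^ l) / π + 1 / 2⌋ % (4 * 16 ^ l : ℤ)).toNat

/-- the family number `q` of level `l` -/
def Fm (l q : ℕ) : Set (ℕ × ℕ) := {i | i.1 = l ∧ i.2 < 4 * 16 ^ l ∧ i.2 % 8 = q}

open Classical in
/-- the coordinates in `F` are replaced by those of `x` -/
noncomputable def upd (F : Set (ℕ × ℕ)) (x ω : Om) : Om := fun i => if i ∈ F then x i else ω i

end Pool.Agent.Helper93.AO
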