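import Pool.Agent.Helper93.AO.Lev
import Pool.Agent.Helper22.LP.Main
import Pool.Agent.Helper92.LA.C1

/-!
# AO: the exponential sums of `lp_main` with the random support function. Definitions

`Tm H f α r c i N k` is the term of `LS f (hom (ga H α)) (wi i H α) i N r c` (Helper22/LP/Defs.lean), `SS` the sum over `sqa N`. `Fb M f`: bounded frames (Helper92/LA/Defs.lean).
-/

open MeasureTheory Real Set Filter Topology

set_option autoImplicit false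

namespace Pool.Agent.Helper93.AO

open Pool.Agent.Helper22.AE (ee rho)
open Pool.Agent.Helper22.AC (ga)
open Pool.Agent.Helper92.GC (dt sqa)
open Pool.Agent.Helper22.LP (Fr fk fdet nr tr hom LS wr Hf)
open Pool.Agent.Helper92.LA (Fb)

/-- the scalar product with `(cos θ, sin θ)` -/
noncomputable def pu (θ : ℝ) (v : ℝ × ℝ) : ℝ := v.1 * cos θ + v.2 * sin θ

/-- the scalar product with `(-sin θ, cos θ)` -/
noncomputable def pv (θ : ℝ) (v : ℝ × ℝ) : ℝ := -v.1 * sin θ + v.2 * cos θ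

/-- the weights: the radius of curvature for `i = 1`, otherwise `1` -/
noncomputable def wi (i : ℕ) (H : ℝ → ℝ) (α : ℝ) (v : ℝ × ℝ) : ℂ := if i = 1 then wr H α v else 1

/-- the term `k` -/
noncomputable def Tm (H : ℝ → ℝ) (f : Fr) (α r : ℝ) (c : ℝ × ℝ) (i N : ℕ) (k : ℤ × ℤ) : ℂ :=
  (((N : ℝ) / nr (fk f k) : ℝ) : ℂ) ^ i * wi i H α (fk f k) * ee (r * hom (ga H α) (fk f k) + dt k c)

/-- the sum -/
noncomputable def SS (H : ℝ → ℝ) (f : Fr) (α r : ℝ) (c : ℝ × ℝ) (i N : ℕ) : ℂ := ∑ k ∈ sqa N, Tm H f α r c i N k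

/-- the position of `k`: the angle at which the support function is taken -/
noncomputable def pos (f : Fr) (α : ℝ) (k : ℤ × ℤ) : ℝ := tr (fk f k) + α

/-- the frequencies of content between `2^j` and `2^(j+1)` -/
noncomputable def cls (N j : ℕ) : Finset (ℤ × ℤ) := (sqa N).filter fun k => 2 ^ j ≤ Int.gcd k.1 k.2 ∧ Int.gcd k.1 k.2 < 2 ^ (j + 1)

/-- the bound for the low frequencies `N = 2^n`, `X = 2^p` -/
noncomputable def gl (n p : ℕ) : ℝ := ∑ j ∈ Finset.range (n + 1), min ((4 : ℝ) ^ n / 2 ^ j) (2 ^ n * sqrt p)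

/-- the bound for all frequencies -/
noncomputable def gg (C : ℝ) (n p : ℕ) : ℝ := if (n : ℝ) ≤ p / 50 then C * gl n p else 2 * (2 : ℝ) ^ (3 / 2 * n - p / 1000 : ℝ)

/-- bounded support functions of class `C³` -/
structure HB (B : ℝ) (H : ℝ → ℝ) : Prop where
  smooth : ContDiff ℝ 3 H
  per : Function.Periodic H (2 * π)
  bd : ∀ j : ℕ, j ≤ 3 → ∀ t : ℝ, |iteratedDeriv j H t| ≤ B

/-- the bounds for the sums of the sequence of support functions `G`, at the scale `2^p` for `G p` -/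
def SB (G : ℕ → ℝ → ℝ) : Prop :=
  ∀ M : ℝ, 1 ≤ M → ∃ (C : ℝ) (p₀ : ℕ), 1 ≤ C ∧ ∀ p : ℕ, p₀ ≤ p → ∀ n : ℕ, (n : ℝ) ≤ (1 / 2 + 1 / 1000) * p → ∀ f : Fr, Fb M f →
    ∀ (α r : ℝ) (c : ℝ × ℝ) (i : ℕ), |α| ≤ 1 → 2 ^ p / 4 ≤ r → r ≤ 16 * 2 ^ p → i = 1 ∨ i = 2 → ‖SS (G p) f α r c i (2 ^ n)‖ ≤ gg C n p

theorem SS_eq (H : ℝ → ℝ) (f : Fr) (α r : ℝ) (c : ℝ × ℝ) (i N : ℕ) : SS H f α r c i N = LS f (hom (ga H α)) (wi i H α) i N r c := rfl

theorem eo_eq (x : ℝ) : eo x = ee x := rfl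

end Pool.Agent.Helper93.AO
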