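import Pool.Agent.Helper93.AO.Sum
import Pool.Agent.Helper93.AO.Sand
import Pool.Agent.Helper22.OV.Shift
import Pool.Agent.Helper92.LA.D3

/-!
# AO-DETU: `det_main` with one constant for all lattices of a compact set

The proof of `det_main` (Det.lean) gives a constant which depends on the frame only through a bound `M₀` of its entries and of `1 / |fdet f|`. For small `R` the count is monotone in `R` (the support function is positive).
-/

open MeasureTheory Real Set Filter Topology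

set_option autoImplicit false

namespace Pool.Agent.Helper93.AO

open Pool.Agent.Helper22.AE (IsSupp area rho)
open Pool.Agent.Helper22.LP (Fr fdet)
open Pool.Agent.Helper92.LA (lcnt)

open Pool.Agent.Helper22.AE (ee dom)
open Pool.Agent.Helper22.AC (ga cntc)
open Pool.Agent.Helper92.GC (dt sqa)
open Pool.Agent.Helper22.LP (fk fv nr tr hom wr Hf Hf_isSupp area_lin nr_cos nr_sin)
open Pool.Agent.Helper92.LA (Fb dl fdet_dl lcnt_eq)
open Pool.Agent.Helper22.OV (shf shf_smooth shf_rho exists_shift area_shf)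

private theorem fin98 {H : ℝ → ℝ} (c : ℝ × ℝ) (R : ℝ) :
    Finite {k : ℤ × ℤ // ∀ θ : ℝ, ((k.1 : ℝ) - c.1) * cos θ + ((k.2 : ℝ) - c.2) * sin θ ≤ R * H θ} := by
  let S : Finset (ℤ × ℤ) := Finset.Icc ⌊c.1 - R * H π⌋ ⌈c.1 + R * H 0⌉ ×ˢ
    Finset.Icc ⌊c.2 - R * H (-(π / 2))⌋ ⌈c.2 + R * H (π / 2)⌉
  have hsub : ∀ k : ℤ × ℤ, (∀ θ : ℝ, ((k.1 : ℝ) - c.1) * cos θ + ((k.2 : ℝ) - c.2) * sin θ ≤ R * H θ) → k ∈ S := by
    intro k hk
    have a0 := hk 0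
    have a1 := hk (π / 2)
    have a2 := hk π
    have a3 := hk (-(π / 2))
    simp only [Real.cos_zero, Real.sin_zero, Real.cos_pi_div_two, Real.sin_pi_div_two, Real.cos_pi, Real.sin_pi,
      Real.cos_neg, Real.sin_neg, mul_one, mul_zero, add_zero, zero_add, mul_neg] at a0 a1 a2 a3
    simp only [S, Finset.mem_product, Finset.mem_Icc]
    refine ⟨⟨?_, ?_⟩, ⟨?_, ?_⟩⟩
    · have : (⌊c.1 - R * H π⌋ : ℝ) ≤ k.1 := (Int.floor_le _).trans (by linarith)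
      exact_mod_cast this
    · have : (k.1 : ℝ) ≤ ⌈c.1 + R * H 0⌉ := le_trans (by linarith) (Int.le_ceil _)
      exact_mod_cast this
    · have : (⌊c.2 - R * H (-(π / 2))⌋ : ℝ) ≤ k.2 := (Int.floor_le _).trans (by linarith)
      exact_mod_cast this
    · have : (k.2 : ℝ) ≤ ⌈c.2 + R * H (π / 2)⌉ := le_trans (by linarith) (Int.le_ceil _)
      exact_mod_cast this
  exact Finite.of_injective (fun k => (⟨k.1, hsub k.1 k.2⟩ : S)) (by
    intro a b hab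
    apply Subtype.ext
    exact congrArg (fun z : S => (z : ℤ × ℤ)) hab)

theorem cntc_mono {A B : ℝ → ℝ} (c : ℝ × ℝ) {R₁ R₂ : ℝ} (h : ∀ θ, R₁ * A θ ≤ R₂ * B θ) :
    cntc A c R₁ ≤ cntc B c R₂ := by
  have h1 := fin98 (H := B) c R₂
  unfold cntc
  have h2 : Nat.card {k : ℤ × ℤ // ∀ θ : ℝ, ((k.1 : ℝ) - c.1) * cos θ + ((k.2 : ℝ) - c.2) * sin θ ≤ R₁ * A θ} ≤
      Nat.card {k : ℤ × ℤ // ∀ θ : ℝ, ((k.1 : ℝ) - c.1) * cos θ + ((k.2 : ℝ) - c.2) * sin θ ≤ R₂ * B θ} :=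
    Nat.card_le_card_of_injective (fun k => ⟨k.1, fun θ => (k.2 θ).trans (h θ)⟩) (by
      intro a b hab
      have h3 := Subtype.mk.inj hab
      exact Subtype.ext h3)
  exact_mod_cast h2

private theorem fb_mono98 {M M' : ℝ} {f : Fr} (h : Fb M f) (hM : M ≤ M') : Fb M' f :=
  ⟨h.a.trans hM, h.b.trans hM, h.c.trans hM, h.d.trans hM, h.det.trans (mul_le_mul_of_nonneg_right hM (abs_nonneg _))⟩

/-- the phase function of the shifted support function -/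
private theorem ga_shf98 {H : ℝ → ℝ} (h2 : ContDiff ℝ 2 H) (v : ℝ × ℝ) (α t : ℝ) :
    ga (shf H v) α t = ga H α t + (v.1 * cos t + v.2 * sin t) := by
  have hd1 : ∀ s, HasDerivAt H (deriv H s) s := fun s => (h2.differentiable (by norm_num)).differentiableAt.hasDerivAt
  have e1 : deriv (shf H v) (t + α) = deriv H (t + α) + (v.1 * (-sin (t + α)) + v.2 * cos (t + α)) := by
    apply HasDerivAt.deriv
    unfold shf
    exact (hd1 (t + α)).add (((hasDerivAt_cos (t + α)).const_mul v.1).add ((hasDerivAt_sin (t + α)).const_mul v.2))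
  have ec : cos t = cos (t + α) * cos α + sin (t + α) * sin α := by
    rw [← cos_sub]
    congr 1
    ring
  have es : sin t = sin (t + α) * cos α - cos (t + α) * sin α := by
    rw [← sin_sub]
    congr 1
    ring
  unfold ga
  rw [e1, ec, es]
  unfold shf
  ring

private theorem hom_shf98 {H : ℝ → ℝ} (h2 : ContDiff ℝ 2 H) (v : ℝ × ℝ) (α : ℝ) (w : ℝ × ℝ) :
    hom (ga (shf H v) α) w = hom (ga H α) w + (v.1 * w.1 + v.2 * w.2) := by
  have e1 := nr_cos w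
  have e2 := nr_sin w
  unfold hom
  rw [ga_shf98 h2]
  linear_combination (-v.1) * e1 + (-v.2) * e2

private theorem wi_shf98 {H : ℝ → ℝ} (h2 : ContDiff ℝ 2 H) (v : ℝ × ℝ) (i : ℕ) (α : ℝ) (w : ℝ × ℝ) :
    wi i (shf H v) α w = wi i H α w := by
  unfold wi
  split_ifs
  · unfold wr rho
    rw [shf_rho v h2]
  · rfl

/-- the sums of the shifted support function are those of the function with another centre -/
private theorem ss_shf98 {H : ℝ → ℝ} (h2 : ContDiff ℝ 2 H) (v : ℝ × ℝ) (f : Fr) (α r : ℝ) (c : ℝ × ℝ) (i N : ℕ) :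
    SS (shf H v) f α r c i N =
      SS H f α r (c.1 + r * (v.1 * f.1.1 + v.2 * f.1.2), c.2 + r * (v.1 * f.2.1 + v.2 * f.2.2)) i N := by
  unfold SS
  refine Finset.sum_congr rfl fun k _ => ?_
  unfold Tm
  rw [wi_shf98 h2, hom_shf98 h2]
  congr 2
  unfold dt
  have e1 : (fk f k).1 = (k.1 : ℝ) * f.1.1 + (k.2 : ℝ) * f.2.1 := rfl
  have e2 : (fk f k).2 = (k.1 : ℝ) * f.1.2 + (k.2 : ℝ) * f.2.2 := rfl
  rw [e1, e2]
  ring

/-- positive, periodic and continuous functions are bounded from below and above -/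
private theorem bd98 {F : ℝ → ℝ} (hc : Continuous F) (hp : Function.Periodic F (2 * π)) (h0 : ∀ t, 0 < F t) :
    ∃ m B : ℝ, 0 < m ∧ ∀ t, m ≤ F t ∧ F t ≤ B := by
  have hK : IsCompact (Icc (0 : ℝ) (2 * π)) := isCompact_Icc
  have hne : (Icc (0 : ℝ) (2 * π)).Nonempty := ⟨0, by constructor <;> positivity⟩
  obtain ⟨x, _, hx⟩ := hK.exists_isMinOn hne hc.continuousOn
  obtain ⟨y, _, hy⟩ := hK.exists_isMaxOn hne hc.continuousOn
  refine ⟨F x, F y, h0 x, fun t => ?_⟩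
  obtain ⟨s, hs, he⟩ := hp.exists_mem_Ico₀ (by positivity) t
  have hs' : s ∈ Icc (0 : ℝ) (2 * π) := ⟨hs.1, hs.2.le⟩
  rw [he]
  exact ⟨hx hs', hy hs'⟩

/-- the area of a bounded domain -/
private theorem area98 {G : ℝ → ℝ} {M : ℝ} (hM : 0 ≤ M) (h : ∀ t, G t ≤ M) : area G ≤ 4 * M ^ 2 := by
  unfold area
  have hsub : dom G ⊆ Icc (-M) M ×ˢ Icc (-M) M := by
    intro p hp
    have h0 := (hp 0).trans (h 0)
    have h1 := (hp π).trans (h π)
    have h2 := (hp (π / 2)).trans (h (π / 2))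
    have h3 := (hp (-(π / 2))).trans (h (-(π / 2)))
    simp only [cos_zero, sin_zero, cos_pi, sin_pi, cos_pi_div_two, sin_pi_div_two, cos_neg, sin_neg] at h0 h1 h2 h3
    refine ⟨⟨by linarith, by linarith⟩, ⟨by linarith, by linarith⟩⟩
  have hv : volume (Icc (-M) M ×ˢ Icc (-M) M : Set (ℝ × ℝ)) = ENNReal.ofReal (4 * M ^ 2) := by
    rw [Measure.volume_eq_prod, Measure.prod_prod, Real.volume_Icc, ← ENNReal.ofReal_mul (by linarith)]
    congr 1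
    ring
  have h1 := measure_mono (μ := volume) hsub
  rw [hv] at h1
  calc (volume (dom G)).toReal ≤ (ENNReal.ofReal (4 * M ^ 2)).toReal := ENNReal.toReal_mono ENNReal.ofReal_ne_top h1
    _ = 4 * M ^ 2 := ENNReal.toReal_ofReal (by positivity)

/-- quotients by `4^p` are small -/
private theorem small98 (K : ℝ) {e : ℝ} (he : 0 < e) : ∃ p₀ : ℕ, ∀ p : ℕ, p₀ ≤ p → K / 4 ^ p ≤ e := by
  obtain ⟨n, hn⟩ := pow_unbounded_of_one_lt (K / e) (show (1 : ℝ) < 4 by norm_num)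
  refine ⟨n, fun p hp => ?_⟩
  have h1 : (4 : ℝ) ^ n ≤ 4 ^ p := pow_le_pow_right₀ (by norm_num) hp
  have h2 : K / e < 4 ^ p := lt_of_lt_of_le hn h1
  rw [div_lt_iff₀ he] at h2
  rw [div_le_iff₀ (by positivity)]
  linarith

private theorem one98 {R : ℝ} (hR : 2 ≤ R) : 1 ≤ 2 * (R ^ (1 / 2 : ℝ) * log R ^ (1 / 4 : ℝ)) := by
  have h1 : 1 ≤ R ^ (1 / 2 : ℝ) := one_le_rpow (by linarith) (by norm_num)
  have h2 : (1 : ℝ) / 16 ≤ log R := by
    have h3 := log_two_gt_d9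
    have h4 : log 2 ≤ log R := log_le_log (by norm_num) hR
    linarith
  have h3 : (1 : ℝ) / 2 ≤ log R ^ (1 / 4 : ℝ) := by
    have h4 : ((1 : ℝ) / 16) ^ (1 / 4 : ℝ) ≤ log R ^ (1 / 4 : ℝ) := rpow_le_rpow (by norm_num) h2 (by norm_num)
    have h5 : ((1 : ℝ) / 16) ^ (1 / 4 : ℝ) = 1 / 2 := by
      have e : (1 : ℝ) / 16 = (1 / 2) ^ (4 : ℝ) := by
        rw [show (4 : ℝ) = ((4 : ℕ) : ℝ) by norm_num, rpow_natCast]
        norm_num
      rw [e, ← rpow_mul (by norm_num)]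
      norm_num
    linarith
  nlinarith

private theorem main98 {R : ℝ} {p : ℕ} (h : (2 : ℝ) ^ p ≤ R) (hR : 2 ≤ R) :
    (2 : ℝ) ^ (p / 2 : ℝ) * (p : ℝ) ^ (1 / 4 : ℝ) ≤ 2 * (R ^ (1 / 2 : ℝ) * log R ^ (1 / 4 : ℝ)) := by
  have h1 : (2 : ℝ) ^ (p / 2 : ℝ) ≤ R ^ (1 / 2 : ℝ) := by
    have e : (2 : ℝ) ^ (p / 2 : ℝ) = ((2 : ℝ) ^ p) ^ (1 / 2 : ℝ) := by
      rw [← rpow_natCast, ← rpow_mul (by norm_num)]
      congr 1
      ring
    rw [e]
    exact rpow_le_rpow (by positivity) h (by norm_num)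
  have h2 : (p : ℝ) ≤ 16 * log R := by
    have h3 := log_two_gt_d9
    have h4 : log ((2 : ℝ) ^ p) ≤ log R := log_le_log (by positivity) h
    rw [log_pow] at h4
    have h5 : (0 : ℝ) ≤ p := Nat.cast_nonneg p
    nlinarith
  have hl : 0 ≤ log R := log_nonneg (by linarith)
  have h3 : (p : ℝ) ^ (1 / 4 : ℝ) ≤ 2 * log R ^ (1 / 4 : ℝ) := by
    have h4 : (p : ℝ) ^ (1 / 4 : ℝ) ≤ (16 * log R) ^ (1 / 4 : ℝ) := rpow_le_rpow (Nat.cast_nonneg p) h2 (by norm_num)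
    rw [mul_rpow (by norm_num) hl] at h4
    have h5 : (16 : ℝ) ^ (1 / 4 : ℝ) = 2 := by
      have e : (16 : ℝ) = 2 ^ (4 : ℝ) := by
        rw [show (4 : ℝ) = ((4 : ℕ) : ℝ) by norm_num, rpow_natCast]
        norm_num
      rw [e, ← rpow_mul (by norm_num)]
      norm_num
    rwa [h5] at h4
  calc (2 : ℝ) ^ (p / 2 : ℝ) * (p : ℝ) ^ (1 / 4 : ℝ) ≤ R ^ (1 / 2 : ℝ) * (2 * log R ^ (1 / 4 : ℝ)) :=
        mul_le_mul h1 h3 (by positivity) (by positivity)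
    _ = _ := by ring

/-- the count for the frames of a compact set, large `R` -/
private theorem big98 {H : ℝ → ℝ} (h2 : ContDiff ℝ 2 H) {v : ℝ × ℝ} (hv : IsSupp (shf H v)) {G : ℕ → ℝ → ℝ} {K : ℝ}
    (hG : ∀ p, ContDiff ℝ 2 (G p)) (hGp : ∀ p, Function.Periodic (G p) (2 * π)) (hc : ∀ p t, |G p t - H t| ≤ K / 4 ^ p)
    (hd : ∀ ε : ℝ, 0 < ε → ∃ p₀ : ℕ, ∀ p : ℕ, p₀ ≤ p → ∀ t, |rho (G p) t - rho H t| ≤ ε) (hS : SB G) {M₀ : ℝ} (hM₀ : 1 ≤ M₀) :
    ∃ (C : ℝ) (P : ℕ), 0 ≤ C ∧ 1 ≤ P ∧ ∀ f : Fr, Fb M₀ f → ∀ R : ℝ, 2 ^ P ≤ R → ∀ c : ℝ × ℝ,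
      |cntc (Hf (shf H v) f) c R - area (Hf (shf H v) f) * R ^ 2| ≤ C * (R ^ (1 / 2 : ℝ) * log R ^ (1 / 4 : ℝ)) := by
  obtain ⟨m, B, hm, hmB⟩ := bd98 hv.smooth.continuous hv.per hv.pos
  -- the radius of curvature
  have hrc : Continuous (rho (shf H v)) := by
    have h1 : Continuous (deriv (deriv (shf H v))) := Pool.Agent.Helper22.OV.cd_two hv.smooth
    exact hv.smooth.continuous.add h1
  have hrp : Function.Periodic (rho (shf H v)) (2 * π) := by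
    intro t
    unfold rho
    have e1 : Function.Periodic (deriv (shf H v)) (2 * π) := by
      intro s
      have h3 : (fun x => shf H v (x + 2 * π)) = shf H v := funext hv.per
      calc deriv (shf H v) (s + 2 * π) = deriv (fun x => shf H v (x + 2 * π)) s := (deriv_comp_add_const _ _ _).symm
        _ = _ := by rw [h3]
    have e2 : deriv (deriv (shf H v)) (t + 2 * π) = deriv (deriv (shf H v)) t := by
      have h3 : (fun x => deriv (shf H v) (x + 2 * π)) = deriv (shf H v) := funext e1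
      calc deriv (deriv (shf H v)) (t + 2 * π) = deriv (fun x => deriv (shf H v) (x + 2 * π)) t := (deriv_comp_add_const _ _ _).symm
        _ = _ := by rw [h3]
    rw [hv.per t, e2]
  obtain ⟨m₂, B₂, hm₂, hmB₂⟩ := bd98 hrc hrp hv.rho_pos
  have hK : 0 ≤ K := by
    have h1 := hc 0 0
    have h3 := abs_nonneg (G 0 0 - H 0)
    simp only [pow_zero, div_one] at h1
    linarith
  have hB : 0 < B := lt_of_lt_of_le hm ((hmB 0).1.trans (hmB 0).2)
  have hB₂ : 0 < B₂ := lt_of_lt_of_le hm₂ ((hmB₂ 0).1.trans (hmB₂ 0).2)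
  obtain ⟨M, hMd⟩ : ∃ M : ℝ, M = 5 * M₀ + (2 / m) + (B + 1) + (B₂ + 1) := ⟨_, rfl⟩
  have hm2 : 0 < 2 / m := by positivity
  have hM1 : 1 ≤ M := by linarith
  have hM0 : 0 < M := by linarith
  have hMm : 1 / M ≤ m / 2 := by
    have h1 : 2 / m ≤ M := by linarith
    rw [div_le_iff₀ hm] at h1
    rw [div_le_iff₀ hM0]
    linarith
  obtain ⟨C, p₀, hC, hSB⟩ := hS M hM1
  obtain ⟨C', p₁, hC', hsum⟩ := sum_main hM1 hC
  obtain ⟨p₂, hp₂⟩ := small98 K (e := min (m / 4) 1) (lt_min (by positivity) one_pos)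
  obtain ⟨p₃, hp₃⟩ := hd (min (m₂ / 2) 1) (lt_min (by positivity) one_pos)
  obtain ⟨P, hP⟩ : ∃ P : ℕ, P = p₀ + p₁ + p₂ + p₃ := ⟨_, rfl⟩
  refine ⟨2 * C' + 512 * K * M ^ 4 / m, P + 1, by positivity, by omega, fun f hfb R hs c => ?_⟩
  have hf0 : 1 ≤ M₀ * |fdet f| := hfb.det
  have hdf : 0 < |fdet f| := by
    by_contra h
    have h1 : |fdet f| = 0 := le_antisymm (not_lt.1 h) (abs_nonneg _)
    rw [h1, mul_zero] at hf0
    linarith
  have hf : fdet f ≠ 0 := abs_pos.1 hdf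
  have hn1 : nr f.1 ≤ 2 * M₀ := by
    have h1 : nr f.1 ≤ |f.1.1| + |f.1.2| := Complex.norm_le_abs_re_add_abs_im (Pool.Agent.Helper22.LP.cp f.1)
    have h3 := hfb.a
    have h4 := hfb.b
    linarith
  have hn2 : nr f.2 ≤ 2 * M₀ := by
    have h1 : nr f.2 ≤ |f.2.1| + |f.2.2| := Complex.norm_le_abs_re_add_abs_im (Pool.Agent.Helper22.LP.cp f.2)
    have h3 := hfb.c
    have h4 := hfb.d
    linarith
  have hMdet : 1 / M ≤ |fdet f| := by
    rw [div_le_iff₀ hM0]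
    have h1 : M₀ * |fdet f| ≤ M * |fdet f| := mul_le_mul_of_nonneg_right (by linarith) hdf.le
    linarith
  have hfM : |fdet f| ≤ 2 * M ^ 2 := by
    have e : fdet f = f.1.1 * f.2.2 - f.1.2 * f.2.1 := rfl
    have hMM : M₀ ≤ M := by linarith
    have h1 : |f.1.1 * f.2.2| ≤ M * M := by
      rw [abs_mul]
      exact mul_le_mul (hfb.a.trans hMM) (hfb.d.trans hMM) (abs_nonneg _) hM0.le
    have h3 : |f.1.2 * f.2.1| ≤ M * M := by
      rw [abs_mul]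
      exact mul_le_mul (hfb.b.trans hMM) (hfb.c.trans hMM) (abs_nonneg _) hM0.le
    have h4 := abs_sub (f.1.1 * f.2.2) (f.1.2 * f.2.1)
    rw [e]
    nlinarith
  have hR : 2 ≤ R := by
    have h1 : (2 : ℝ) ^ 1 ≤ 2 ^ (P + 1) := pow_le_pow_right₀ (by norm_num) (by omega)
    linarith
  have hHf : IsSupp (Hf (shf H v) f) := Hf_isSupp hv hf
  obtain ⟨Y, hY⟩ : ∃ Y : ℝ, Y = R ^ (1 / 2 : ℝ) * log R ^ (1 / 4 : ℝ) := ⟨_, rfl⟩
  have hY1 : 1 ≤ 2 * Y := by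
    rw [hY]
    exact one98 hR
  have hY0 : 0 ≤ Y := by linarith
  rw [← hY]
  have hk0 : 0 ≤ 128 * K * M ^ 2 * |fdet f| / m := by positivity
  -- the dyadic number
  obtain ⟨p, hp1, hp2⟩ := exists_nat_pow_near (show (1 : ℝ) ≤ R by linarith) (show (1 : ℝ) < 2 by norm_num)
  have hPp : P ≤ p := by
    by_contra h
    push Not at h
    have h1 : (2 : ℝ) ^ (p + 1) ≤ 2 ^ (P + 1) := pow_le_pow_right₀ (by norm_num) (by omega)
    linarith
  have hq0 : p₀ ≤ p := by omega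
  have hq1 : p₁ ≤ p := by omega
  have hq2 : p₂ ≤ p := by omega
  have hq3 : p₃ ≤ p := by omega
  have hX0 : (0 : ℝ) < 2 ^ p := by positivity
  rw [pow_succ] at hp2
  -- the approximation
  have hK4 : K / 4 ^ p ≤ m / 4 ∧ K / 4 ^ p ≤ 1 := by
    have h1 := hp₂ p hq2
    exact ⟨h1.trans (min_le_left _ _), h1.trans (min_le_right _ _)⟩
  have hdif : ∀ t, |shf (G p) v t - shf H v t| ≤ K / 4 ^ p := by
    intro t
    have h1 := hc p t
    have e : shf (G p) v t - shf H v t = G p t - H t := by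
      unfold shf
      ring
    rwa [e]
  have hlo : ∀ t, m / 2 ≤ shf (G p) v t := by
    intro t
    have h1 := (abs_le.1 (hdif t)).1
    have h3 := (hmB t).1
    linarith [hK4.1]
  have hhi : ∀ t, shf (G p) v t ≤ M := by
    intro t
    have h1 := (abs_le.1 (hdif t)).2
    have h3 := (hmB t).2
    linarith [hK4.2]
  have hrho : ∀ t, rho (shf (G p) v) t = rho (G p) t := fun t => shf_rho v (hG p) t
  have hrhoH : ∀ t, rho (shf H v) t = rho H t := fun t => shf_rho v h2 t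
  have hrd : ∀ t, |rho (shf (G p) v) t - rho (shf H v) t| ≤ min (m₂ / 2) 1 := by
    intro t
    rw [hrho, hrhoH]
    exact hp₃ p hq3 t
  have hrlo : ∀ t, 0 < rho (shf (G p) v) t := by
    intro t
    have h1 := (abs_le.1 (hrd t)).1
    have h3 := (hmB₂ t).1
    have h4 := min_le_left (m₂ / 2) 1
    linarith
  have hrhi : ∀ t, rho (shf (G p) v) t ≤ M := by
    intro t
    have h1 := (abs_le.1 (hrd t)).2
    have h3 := (hmB₂ t).2
    have h4 := min_le_right (m₂ / 2) 1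
    linarith
  have hsupp : IsSupp (shf (G p) v) := by
    refine ⟨shf_smooth v (hG p), ?_, fun t => lt_of_lt_of_le (by positivity) (hlo t), hrlo⟩
    intro t
    unfold shf
    rw [hGp p t, cos_add_two_pi, sin_add_two_pi]
  have hss : ∀ n : ℕ, (n : ℝ) ≤ (1 / 2 + 1 / 1000) * p → ∀ (α r : ℝ) (c : ℝ × ℝ) (i : ℕ), |α| ≤ 1 → 2 ^ p / 4 ≤ r → r ≤ 16 * 2 ^ p → i = 1 ∨ i = 2 →
      ‖SS (shf (G p) v) f α r c i (2 ^ n)‖ ≤ gg C n p := by
    intro n hn α r c i hα hr1 hr2 hi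
    rw [ss_shf98 (hG p)]
    exact hSB p hq0 n hn f (fb_mono98 hfb (by linarith)) α r _ i hα hr1 hr2 hi
  have hcount := hsum p hq1 (shf (G p) v) hsupp (fun t => hMm.trans (hlo t)) hhi hrhi f (by linarith) hMdet hss
  -- comparison
  obtain ⟨δ, hδ⟩ : ∃ δ : ℝ, δ = 2 / m * (K / 4 ^ p) := ⟨_, rfl⟩
  have hKp : 0 ≤ K / 4 ^ p := by positivity
  have hδ0 : 0 ≤ δ := by
    rw [hδ]
    positivity
  have hδ1 : δ ≤ 1 / 2 := by
    rw [hδ]
    calc 2 / m * (K / 4 ^ p) ≤ 2 / m * (m / 4) := mul_le_mul_of_nonneg_left hK4.1 hm2.le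
      _ = 1 / 2 := by
        field_simp
        norm_num
  have hδG : ∀ t, K / 4 ^ p ≤ δ * shf (G p) v t := by
    intro t
    rw [hδ]
    calc K / 4 ^ p = 2 / m * (K / 4 ^ p) * (m / 2) := by field_simp
      _ ≤ _ := mul_le_mul_of_nonneg_left (hlo t) (by positivity)
  have hl : ∀ t, (1 - δ) * shf (G p) v t ≤ shf H v t := by
    intro t
    have h1 := (abs_le.1 (hdif t)).2
    have h3 := hδG t
    linarith
  have hu : ∀ t, shf H v t ≤ (1 + δ) * shf (G p) v t := by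
    intro t
    have h1 := (abs_le.1 (hdif t)).1
    have h3 := hδG t
    linarith
  have hR0 : 0 < R := by linarith
  have hδR : δ * R ≤ R / 2 := by
    calc δ * R ≤ 1 / 2 * R := mul_le_mul_of_nonneg_right hδ1 hR0.le
      _ = R / 2 := by ring
  have hδR0 : 0 ≤ δ * R := mul_nonneg hδ0 hR0.le
  have hs1 := hcount ((1 - δ) * R) (by linarith) (by linarith) c
  have hs2 := hcount ((1 + δ) * R) (by linarith) (by linarith) c
  have hfin := sand hsupp hv hf hδ0 hδ1 hl hu hR0 c hs1 hs2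
  -- the area
  have har : area (Hf (shf (G p) v) f) ≤ |fdet f| * (4 * M ^ 2) := by
    rw [area_lin hsupp.per hf]
    exact mul_le_mul_of_nonneg_left (area98 hM0.le hhi) (abs_nonneg _)
  have h3 : δ * R ^ 2 ≤ 8 * K / m := by
    have e1 : R ^ 2 ≤ (2 * 2 ^ p) ^ 2 := pow_le_pow_left₀ hR0.le (by linarith) 2
    have e2 : ((2 : ℝ) * 2 ^ p) ^ 2 = 4 * 4 ^ p := by
      rw [mul_pow, ← pow_mul, mul_comm p 2, pow_mul]
      norm_num
    rw [e2] at e1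
    calc δ * R ^ 2 ≤ δ * (4 * 4 ^ p) := mul_le_mul_of_nonneg_left e1 hδ0
      _ = 8 * K / m := by
        rw [hδ]
        field_simp
        ring
  have h4 : 4 * δ * area (Hf (shf (G p) v) f) * R ^ 2 ≤ 128 * K * M ^ 2 * |fdet f| / m := by
    have e0 : 0 ≤ δ * R ^ 2 := mul_nonneg hδ0 (by positivity)
    calc 4 * δ * area (Hf (shf (G p) v) f) * R ^ 2 = 4 * (δ * R ^ 2) * area (Hf (shf (G p) v) f) := by ring
      _ ≤ 4 * (δ * R ^ 2) * (|fdet f| * (4 * M ^ 2)) := mul_le_mul_of_nonneg_left har (by linarith)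
      _ ≤ 4 * (8 * K / m) * (|fdet f| * (4 * M ^ 2)) :=
          mul_le_mul_of_nonneg_right (by linarith) (by positivity)
      _ = 128 * K * M ^ 2 * |fdet f| / m := by ring
  have h5 : (2 : ℝ) ^ (p / 2 : ℝ) * (p : ℝ) ^ (1 / 4 : ℝ) ≤ 2 * Y := by
    rw [hY]
    exact main98 hp1 hR
  have h6 : C' * ((2 : ℝ) ^ (p / 2 : ℝ) * (p : ℝ) ^ (1 / 4 : ℝ)) ≤ C' * (2 * Y) := mul_le_mul_of_nonneg_left h5 (by linarith)
  have h7 : 128 * K * M ^ 2 * |fdet f| / m * 1 ≤ 128 * K * M ^ 2 * |fdet f| / m * (2 * Y) := mul_le_mul_of_nonneg_left hY1 hk0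
  have h8 : 128 * K * M ^ 2 * |fdet f| / m ≤ 256 * K * M ^ 4 / m := by
    have e : 256 * K * M ^ 4 / m = 128 * K * M ^ 2 * (2 * M ^ 2) / m := by ring
    rw [e]
    gcongr
  calc |cntc (Hf (shf H v) f) c R - area (Hf (shf H v) f) * R ^ 2| ≤
        C' * ((2 : ℝ) ^ (p / 2 : ℝ) * (p : ℝ) ^ (1 / 4 : ℝ)) + 4 * δ * area (Hf (shf (G p) v) f) * R ^ 2 := hfin
    _ ≤ C' * (2 * Y) + 128 * K * M ^ 2 * |fdet f| / m * (2 * Y) := by linarith
    _ ≤ C' * (2 * Y) + 256 * K * M ^ 4 / m * (2 * Y) := by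
        have h9 := mul_le_mul_of_nonneg_right h8 (show 0 ≤ 2 * Y by linarith)
        linarith
    _ = _ := by ring


theorem frame_unif {H : ℝ → ℝ} (h2 : ContDiff ℝ 2 H) {v : ℝ × ℝ} (hv : IsSupp (shf H v)) {G : ℕ → ℝ → ℝ} {K : ℝ}
    (hG : ∀ p, ContDiff ℝ 2 (G p)) (hGp : ∀ p, Function.Periodic (G p) (2 * π)) (hc : ∀ p t, |G p t - H t| ≤ K / 4 ^ p)
    (hd : ∀ ε : ℝ, 0 < ε → ∃ p₀ : ℕ, ∀ p : ℕ, p₀ ≤ p → ∀ t, |rho (G p) t - rho H t| ≤ ε) (hS : SB G) {M₀ : ℝ} (hM₀ : 1 ≤ M₀) :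
    ∃ C : ℝ, ∀ f : Fr, Fb M₀ f → ∀ R : ℝ, 2 ≤ R → ∀ c : ℝ × ℝ,
      |cntc (Hf (shf H v) f) c R - area (Hf (shf H v) f) * R ^ 2| ≤ C * (R ^ (1 / 2 : ℝ) * log R ^ (1 / 4 : ℝ)) := by
  obtain ⟨C, P, hC, hP, hbig⟩ := big98 h2 hv hG hGp hc hd hS hM₀
  obtain ⟨m, B, hm, hmB⟩ := bd98 hv.smooth.continuous hv.per hv.pos
  have hB : 0 < B := lt_of_lt_of_le hm ((hmB 0).1.trans (hmB 0).2)
  obtain ⟨A, hA⟩ : ∃ A : ℝ, A = 2 * M₀ ^ 2 * (4 * B ^ 2) * (2 ^ P) ^ 2 + C * (((2 : ℝ) ^ P) ^ (1 / 2 : ℝ) * log (2 ^ P) ^ (1 / 4 : ℝ)) := ⟨_, rfl⟩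
  have hl : 0 ≤ log ((2 : ℝ) ^ P) := log_nonneg (one_le_pow₀ (by norm_num))
  have hA0 : 0 ≤ A := by
    rw [hA]
    positivity
  refine ⟨C + 2 * A, fun f hfb R hR c => ?_⟩
  obtain ⟨Y, hY⟩ : ∃ Y : ℝ, Y = R ^ (1 / 2 : ℝ) * log R ^ (1 / 4 : ℝ) := ⟨_, rfl⟩
  have hY1 : 1 ≤ 2 * Y := by
    rw [hY]
    exact one98 hR
  rw [← hY]
  rcases le_total (2 ^ P) R with hs | hs
  · have h1 := hbig f hfb R hs c
    rw [← hY] at h1
    have h3 : 0 ≤ A * (2 * Y) := mul_nonneg hA0 (by linarith)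
    linarith
  have hf0 : 1 ≤ M₀ * |fdet f| := hfb.det
  have hdf : 0 < |fdet f| := by
    by_contra h
    have h1 : |fdet f| = 0 := le_antisymm (not_lt.1 h) (abs_nonneg _)
    rw [h1, mul_zero] at hf0
    linarith
  have hf : fdet f ≠ 0 := abs_pos.1 hdf
  have hfM : |fdet f| ≤ 2 * M₀ ^ 2 := by
    have hM0 : 0 ≤ M₀ := by linarith
    have e : fdet f = f.1.1 * f.2.2 - f.1.2 * f.2.1 := rfl
    have h1 : |f.1.1 * f.2.2| ≤ M₀ * M₀ := by
      rw [abs_mul]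
      exact mul_le_mul hfb.a hfb.d (abs_nonneg _) hM0
    have h3 : |f.1.2 * f.2.1| ≤ M₀ * M₀ := by
      rw [abs_mul]
      exact mul_le_mul hfb.b hfb.c (abs_nonneg _) hM0
    have h4 := abs_sub (f.1.1 * f.2.2) (f.1.2 * f.2.1)
    rw [e]
    nlinarith
  have hHf : IsSupp (Hf (shf H v) f) := Hf_isSupp hv hf
  have h1 := (abs_le.1 (hbig f hfb (2 ^ P) le_rfl c)).2
  have h3 : cntc (Hf (shf H v) f) c R ≤ cntc (Hf (shf H v) f) c (2 ^ P) := cntc_mono c fun θ => mul_le_mul_of_nonneg_right hs (hHf.pos θ).le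
  have h4 : 0 ≤ cntc (Hf (shf H v) f) c R := Nat.cast_nonneg _
  have har : area (Hf (shf H v) f) ≤ 2 * M₀ ^ 2 * (4 * B ^ 2) := by
    rw [area_lin hv.per hf]
    exact mul_le_mul hfM (area98 hB.le fun t => (hmB t).2) ENNReal.toReal_nonneg (by positivity)
  have har0 : 0 ≤ area (Hf (shf H v) f) := ENNReal.toReal_nonneg
  have h5 : area (Hf (shf H v) f) * (2 ^ P) ^ 2 ≤ 2 * M₀ ^ 2 * (4 * B ^ 2) * (2 ^ P) ^ 2 := mul_le_mul_of_nonneg_right har (by positivity)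
  have h6 : area (Hf (shf H v) f) * R ^ 2 ≤ area (Hf (shf H v) f) * (2 ^ P) ^ 2 :=
    mul_le_mul_of_nonneg_left (pow_le_pow_left₀ (by linarith) hs 2) har0
  have h7 : 0 ≤ C * (((2 : ℝ) ^ P) ^ (1 / 2 : ℝ) * log (2 ^ P) ^ (1 / 4 : ℝ)) := by positivity
  have h8 : 0 ≤ area (Hf (shf H v) f) * R ^ 2 := by positivity
  have h9 : |cntc (Hf (shf H v) f) c R - area (Hf (shf H v) f) * R ^ 2| ≤ A := by
    rw [abs_le]
    constructor <;> linarith
  have h10 : A * 1 ≤ A * (2 * Y) := mul_le_mul_of_nonneg_left hY1 hA0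
  have h11 : 0 ≤ C * Y := mul_nonneg hC (by linarith)
  linarith

theorem det_unif {H : ℝ → ℝ} (h2 : ContDiff ℝ 2 H) (hp : Function.Periodic H (2 * π)) (hr : ∀ t, 0 < H t + deriv (deriv H) t) {G : ℕ → ℝ → ℝ} {K : ℝ}
    (hG : ∀ p, ContDiff ℝ 2 (G p)) (hGp : ∀ p, Function.Periodic (G p) (2 * π)) (hc : ∀ p t, |G p t - H t| ≤ K / 4 ^ p)
    (hd : ∀ ε : ℝ, 0 < ε → ∃ p₀ : ℕ, ∀ p : ℕ, p₀ ≤ p → ∀ t, |rho (G p) t - rho H t| ≤ ε) (hS : SB G) {M : ℝ} (hM : 1 ≤ M) :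
    ∃ C : ℝ, ∀ ab : Fr, Fb M ab → ∀ R : ℝ, 2 ≤ R → ∀ c : ℝ × ℝ,
      |lcnt ab H c R - area H * R ^ 2 / abs (fdet ab)| ≤ C * (R ^ (1 / 2 : ℝ) * log R ^ (1 / 4 : ℝ)) := by
  obtain ⟨v, hv⟩ := exists_shift h2 hp hr
  obtain ⟨C, hC⟩ := frame_unif h2 hv hG hGp hc hd hS (M₀ := 2 * M ^ 2) (by nlinarith)
  refine ⟨C, fun ab hfb R hR c => ?_⟩
  have hM0 : 0 < M := by linarith
  have hf0 : 1 ≤ M * |fdet ab| := hfb.det
  have hdf : 0 < |fdet ab| := by
    by_contra h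
    have h1 : |fdet ab| = 0 := le_antisymm (not_lt.1 h) (abs_nonneg _)
    rw [h1, mul_zero] at hf0
    linarith
  have hab : fdet ab ≠ 0 := abs_pos.1 hdf
  have hdl : fdet (dl ab) ≠ 0 := by
    rw [fdet_dl hab]
    exact one_div_ne_zero hab
  have hq : ∀ x : ℝ, |x| ≤ M → |x / fdet ab| ≤ 2 * M ^ 2 := by
    intro x hx
    rw [abs_div, div_le_iff₀ hdf]
    calc |x| ≤ M := hx
      _ = M * 1 := (mul_one M).symm
      _ ≤ M * (M * |fdet ab|) := mul_le_mul_of_nonneg_left hf0 hM0.le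
      _ ≤ 2 * M ^ 2 * |fdet ab| := by
        have : 0 ≤ M ^ 2 * |fdet ab| := by positivity
        linarith
  have hfM : |fdet ab| ≤ 2 * M ^ 2 := by
    have e : fdet ab = ab.1.1 * ab.2.2 - ab.1.2 * ab.2.1 := rfl
    have h1 : |ab.1.1 * ab.2.2| ≤ M * M := by
      rw [abs_mul]
      exact mul_le_mul hfb.a hfb.d (abs_nonneg _) hM0.le
    have h3 : |ab.1.2 * ab.2.1| ≤ M * M := by
      rw [abs_mul]
      exact mul_le_mul hfb.b hfb.c (abs_nonneg _) hM0.le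
    have h4 := abs_sub (ab.1.1 * ab.2.2) (ab.1.2 * ab.2.1)
    rw [e]
    nlinarith
  have hFb : Fb (2 * M ^ 2) (dl ab) := by
    refine ⟨hq _ hfb.d, hq _ (by rw [abs_neg]; exact hfb.c), hq _ (by rw [abs_neg]; exact hfb.b), hq _ hfb.a, ?_⟩
    rw [fdet_dl hab, abs_div, abs_one, mul_one_div, le_div_iff₀ hdf, one_mul]
    exact hfM
  have h3 := hC (dl ab) hFb R hR ((dl ab).1.1 * (c.1 - R * v.1) + (dl ab).1.2 * (c.2 - R * v.2), (dl ab).2.1 * (c.1 - R * v.1) + (dl ab).2.2 * (c.2 - R * v.2))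
  have h4 := lcnt_eq hv.per hab (c.1 - R * v.1, c.2 - R * v.2) R
  simp only at h4
  rw [← h4, area_lin hv.per hdl, fdet_dl hab, abs_div, abs_one, area_shf] at h3
  have e : 1 / |fdet ab| * area H * R ^ 2 = area H * R ^ 2 / |fdet ab| := by ring
  rw [e] at h3
  have h5 : lcnt ab (shf H v) (c.1 - R * v.1, c.2 - R * v.2) R = lcnt ab H c R := by
    unfold lcnt
    congr 1
    refine Nat.card_congr (Equiv.subtypeEquivRight fun k => ?_)
    refine forall_congr' fun t => ?_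
    unfold shf
    simp only
    constructor
    · intro h
      linarith
    · intro h
      linarith
  rwa [h5] at h3

theorem lcnt_shf (ab : Fr) (H : ℝ → ℝ) (v c : ℝ × ℝ) (R : ℝ) : lcnt ab (shf H v) (c.1 - R * v.1, c.2 - R * v.2) R = lcnt ab H c R := by
  unfold lcnt
  congr 1
  refine Nat.card_congr (Equiv.subtypeEquivRight fun k => ?_)
  refine forall_congr' fun t => ?_
  unfold shf
  simp only
  constructor
  · intro h
    linarith
  · intro h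
    linarith

theorem lcnt_mono {A B : ℝ → ℝ} (hA : Function.Periodic A (2 * π)) (hB : Function.Periodic B (2 * π)) {ab : Fr} (hab : fdet ab ≠ 0) (c : ℝ × ℝ) {R₁ R₂ : ℝ}
    (h : ∀ t, R₁ * A t ≤ R₂ * B t) : lcnt ab A c R₁ ≤ lcnt ab B c R₂ := by
  rw [lcnt_eq hA hab, lcnt_eq hB hab]
  refine cntc_mono _ fun θ => ?_
  have h4 := mul_le_mul_of_nonneg_left (h (tr (fv (dl ab) (cos θ) (sin θ)))) (norm_nonneg (Pool.Agent.Helper22.LP.cp (fv (dl ab) (cos θ) (sin θ))))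
  unfold Hf hom nr
  linarith

end Pool.Agent.Helper93.AO
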