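import Pool.Agent.Helper93.AO.DefsL

/-!
# AO-RECT: lattice vectors in a rectangle

`rect_card`: map `v` to `(⌊pu θ (fk f v)⌋, ⌊pv θ (fk f v)⌋)`: at most `(2 D₁ + 2)(2 D₂ + 2)` values; two vectors with the same value have `|fk f v - fk f v'| ≤ 2`, so `|v - v'| ≤ C` (inverse of the frame), so a fibre
has at most `(2C+1)²` elements. `pair_sum`: `pu`, `pv`, `fk` are linear; `k'` with `|A₁ pu θ (fk f (k - k'))| ≤ Y` and `|A₂ pv θ (fk f (k - k'))| ≤ Y` are counted by `rect_card`, for the others one factor is `≤ δ`, the other `≤ 1`;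
`#sqa N ≤ 25 N²`.
-/

open MeasureTheory Real Set Filter Topology

set_option autoImplicit false

namespace Pool.Agent.Helper93.AO

open Pool.Agent.Helper22.AE (ee rho)
open Pool.Agent.Helper22.AC (ga)
open Pool.Agent.Helper92.GC (dt sqa)
open Pool.Agent.Helper22.LP (Fr fk fdet nr tr hom LS wr Hf)
open Pool.Agent.Helper92.LA (Fb)

private lemma small38 {M : ℝ} (hM : 1 ≤ M) {f : Fr} (hf : Fb M f) {θ : ℝ} {v : ℤ × ℤ}
    (h1 : |pu θ (fk f v)| ≤ 1) (h2 : |pv θ (fk f v)| ≤ 1) :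
    |(v.1 : ℝ)| ≤ 4 * M ^ 2 ∧ |(v.2 : ℝ)| ≤ 4 * M ^ 2 := by
  obtain ⟨a, b⟩ := v
  obtain ⟨⟨p, q⟩, ⟨r, s⟩⟩ := f
  have ha := hf.a
  have hb := hf.b
  have hc := hf.c
  have hd := hf.d
  have hdet := hf.det
  simp only [fdet] at ha hb hc hd hdet
  simp only [pu, pv, fk, Pool.Agent.Helper22.LP.fv] at h1 h2
  have hs := Real.abs_sin_le_one θ
  have hco := Real.abs_cos_le_one θ
  have hsc := Real.sin_sq_add_cos_sq θ
  set U : ℝ := ((a : ℝ) * p + b * r) * cos θ + ((a : ℝ) * q + b * s) * sin θ with hU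
  set V : ℝ := -((a : ℝ) * p + b * r) * sin θ + ((a : ℝ) * q + b * s) * cos θ with hV
  have e1 : (a : ℝ) * p + b * r = U * cos θ - V * sin θ := by
    rw [hU, hV]
    linear_combination (-((a : ℝ) * p + b * r)) * hsc
  have e2 : (a : ℝ) * q + b * s = U * sin θ + V * cos θ := by
    rw [hU, hV]
    linear_combination (-((a : ℝ) * q + b * s)) * hsc
  have f1 : |(a : ℝ) * p + b * r| ≤ 2 := by
    rw [e1]
    refine (abs_sub _ _).trans ?_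
    rw [abs_mul, abs_mul]
    nlinarith [abs_nonneg U, abs_nonneg V, abs_nonneg (cos θ), abs_nonneg (sin θ)]
  have f2 : |(a : ℝ) * q + b * s| ≤ 2 := by
    rw [e2]
    refine (abs_add_le _ _).trans ?_
    rw [abs_mul, abs_mul]
    nlinarith [abs_nonneg U, abs_nonneg V, abs_nonneg (cos θ), abs_nonneg (sin θ)]
  have hM0 : 0 ≤ M := by linarith
  have g1 : |(a : ℝ)| * |p * s - q * r| ≤ 4 * M := by
    rw [← abs_mul]
    have e : (a : ℝ) * (p * s - q * r) = ((a : ℝ) * p + b * r) * s - ((a : ℝ) * q + b * s) * r := by ring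
    rw [e]
    refine (abs_sub _ _).trans ?_
    rw [abs_mul, abs_mul]
    nlinarith [abs_nonneg ((a : ℝ) * p + b * r), abs_nonneg ((a : ℝ) * q + b * s), abs_nonneg s, abs_nonneg r]
  have g2 : |(b : ℝ)| * |p * s - q * r| ≤ 4 * M := by
    rw [← abs_mul]
    have e : (b : ℝ) * (p * s - q * r) = ((a : ℝ) * q + b * s) * p - ((a : ℝ) * p + b * r) * q := by ring
    rw [e]
    refine (abs_sub _ _).trans ?_
    rw [abs_mul, abs_mul]
    nlinarith [abs_nonneg ((a : ℝ) * p + b * r), abs_nonneg ((a : ℝ) * q + b * s), abs_nonneg p, abs_nonneg q]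
  constructor
  · show |(a : ℝ)| ≤ 4 * M ^ 2
    nlinarith [abs_nonneg (a : ℝ), mul_le_mul_of_nonneg_left hdet (abs_nonneg (a : ℝ)),
      mul_le_mul_of_nonneg_left g1 hM0]
  · show |(b : ℝ)| ≤ 4 * M ^ 2
    nlinarith [abs_nonneg (b : ℝ), mul_le_mul_of_nonneg_left hdet (abs_nonneg (b : ℝ)),
      mul_le_mul_of_nonneg_left g2 hM0]

private lemma pu_sub38 (θ : ℝ) (f : Fr) (k k' : ℤ × ℤ) :
    pu θ (fk f (k - k')) = pu θ (fk f k) - pu θ (fk f k') := by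
  simp only [pu, fk, Pool.Agent.Helper22.LP.fv, Prod.fst_sub, Prod.snd_sub, Int.cast_sub]
  ring

private lemma pv_sub38 (θ : ℝ) (f : Fr) (k k' : ℤ × ℤ) :
    pv θ (fk f (k - k')) = pv θ (fk f k) - pv θ (fk f k') := by
  simp only [pv, fk, Pool.Agent.Helper22.LP.fv, Prod.fst_sub, Prod.snd_sub, Int.cast_sub]
  ring

private lemma card_Icc38 {D : ℝ} (hD : 0 ≤ D) :
    ((Finset.Icc ⌊-D⌋ ⌊D⌋).card : ℝ) ≤ 2 * (1 + D) := by
  have h1 : ⌊-D⌋ ≤ ⌊D⌋ := Int.floor_le_floor (by linarith)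
  rw [Int.card_Icc]
  have h2 : (((⌊D⌋ + 1 - ⌊-D⌋).toNat : ℤ) : ℝ) = ((⌊D⌋ + 1 - ⌊-D⌋ : ℤ) : ℝ) := by
    rw [Int.toNat_of_nonneg (by omega)]
  have h3 : (((⌊D⌋ + 1 - ⌊-D⌋).toNat : ℕ) : ℝ) = (((⌊D⌋ + 1 - ⌊-D⌋).toNat : ℤ) : ℝ) := by
    rw [Int.cast_natCast]
  rw [h3, h2]
  push_cast
  have h4 := Int.floor_le D
  have h5 := Int.lt_floor_add_one (-D)
  linarith

theorem rect_card {M : ℝ} (hM : 1 ≤ M) : ∃ C : ℝ, 1 ≤ C ∧ ∀ f : Fr, Fb M f → ∀ θ D₁ D₂ : ℝ, 0 ≤ D₁ → 0 ≤ D₂ → ∀ S : Finset (ℤ × ℤ),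
    (∀ v ∈ S, |pu θ (fk f v)| ≤ D₁ ∧ |pv θ (fk f v)| ≤ D₂) → (S.card : ℝ) ≤ C * ((1 + D₁) * (1 + D₂)) := by
  classical
  obtain ⟨m, hm⟩ : ∃ m : ℕ, 4 * M ^ 2 ≤ m := exists_nat_ge _
  refine ⟨4 * ((2 * m + 1 : ℕ) : ℝ) ^ 2, ?_, fun f hf θ D₁ D₂ h1 h2 S hS => ?_⟩
  · have h3 : (1 : ℝ) ≤ ((2 * m + 1 : ℕ) : ℝ) := by
      push_cast
      have : (0 : ℝ) ≤ m := Nat.cast_nonneg m
      linarith
    nlinarith
  have hcard := Finset.card_le_mul_card_image (f := fun v => (⌊pu θ (fk f v)⌋, ⌊pv θ (fk f v)⌋)) S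
    ((2 * m + 1) ^ 2) (by
      intro y hy
      obtain ⟨v₀, hv₀, hv₀y⟩ := Finset.mem_image.1 hy
      have hsub : (S.filter fun v => (⌊pu θ (fk f v)⌋, ⌊pv θ (fk f v)⌋) = y) ⊆
          (Finset.Icc (v₀.1 - m) (v₀.1 + m)) ×ˢ (Finset.Icc (v₀.2 - m) (v₀.2 + m)) := by
        intro v hv
        obtain ⟨hvS, hvy⟩ := Finset.mem_filter.1 hv
        have e := hvy.trans hv₀y.symm
        have e1 : ⌊pu θ (fk f v)⌋ = ⌊pu θ (fk f v₀)⌋ := congrArg Prod.fst e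
        have e2 : ⌊pv θ (fk f v)⌋ = ⌊pv θ (fk f v₀)⌋ := congrArg Prod.snd e
        have g1 : |pu θ (fk f (v - v₀))| ≤ 1 := by
          rw [pu_sub38]
          exact (Int.abs_sub_lt_one_of_floor_eq_floor e1).le
        have g2 : |pv θ (fk f (v - v₀))| ≤ 1 := by
          rw [pv_sub38]
          exact (Int.abs_sub_lt_one_of_floor_eq_floor e2).le
        obtain ⟨b1, b2⟩ := small38 hM hf g1 g2
        have c1 := abs_le.1 (b1.trans hm)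
        have c2 := abs_le.1 (b2.trans hm)
        rw [Prod.fst_sub] at c1
        rw [Prod.snd_sub] at c2
        have d1 : -(m : ℤ) ≤ v.1 - v₀.1 ∧ v.1 - v₀.1 ≤ m := by exact_mod_cast c1
        have d2 : -(m : ℤ) ≤ v.2 - v₀.2 ∧ v.2 - v₀.2 ≤ m := by exact_mod_cast c2
        rw [Finset.mem_product, Finset.mem_Icc, Finset.mem_Icc]
        omega
      refine (Finset.card_le_card hsub).trans ?_
      rw [Finset.card_product, Int.card_Icc, Int.card_Icc]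
      have e3 : (v₀.1 + m + 1 - (v₀.1 - m)).toNat = 2 * m + 1 := by omega
      have e4 : (v₀.2 + m + 1 - (v₀.2 - m)).toNat = 2 * m + 1 := by omega
      rw [e3, e4, sq])
  have himg : S.image (fun v => (⌊pu θ (fk f v)⌋, ⌊pv θ (fk f v)⌋)) ⊆
      (Finset.Icc ⌊-D₁⌋ ⌊D₁⌋) ×ˢ (Finset.Icc ⌊-D₂⌋ ⌊D₂⌋) := by
    intro y hy
    obtain ⟨v, hv, rfl⟩ := Finset.mem_image.1 hy
    obtain ⟨b1, b2⟩ := hS v hv
    rw [abs_le] at b1 b2
    rw [Finset.mem_product, Finset.mem_Icc, Finset.mem_Icc]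
    exact ⟨⟨Int.floor_le_floor b1.1, Int.floor_le_floor b1.2⟩,
      ⟨Int.floor_le_floor b2.1, Int.floor_le_floor b2.2⟩⟩
  have h5 := Finset.card_le_card himg
  rw [Finset.card_product] at h5
  have h6 : ((S.image (fun v => (⌊pu θ (fk f v)⌋, ⌊pv θ (fk f v)⌋))).card : ℝ) ≤
      (2 * (1 + D₁)) * (2 * (1 + D₂)) := by
    have h7 : ((S.image (fun v => (⌊pu θ (fk f v)⌋, ⌊pv θ (fk f v)⌋))).card : ℝ) ≤
        ((Finset.Icc ⌊-D₁⌋ ⌊D₁⌋).card : ℝ) * ((Finset.Icc ⌊-D₂⌋ ⌊D₂⌋).card : ℝ) := by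
      exact_mod_cast h5
    refine h7.trans ?_
    exact mul_le_mul (card_Icc38 h1) (card_Icc38 h2) (Nat.cast_nonneg _) (by positivity)
  have h8 : (S.card : ℝ) ≤ ((2 * m + 1 : ℕ) : ℝ) ^ 2 *
      ((S.image (fun v => (⌊pu θ (fk f v)⌋, ⌊pv θ (fk f v)⌋))).card : ℝ) := by
    exact_mod_cast hcard
  refine h8.trans ?_
  calc ((2 * m + 1 : ℕ) : ℝ) ^ 2 * ((S.image (fun v => (⌊pu θ (fk f v)⌋, ⌊pv θ (fk f v)⌋))).card : ℝ) ≤
        ((2 * m + 1 : ℕ) : ℝ) ^ 2 * ((2 * (1 + D₁)) * (2 * (1 + D₂))) :=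
        mul_le_mul_of_nonneg_left h6 (by positivity)
    _ = 4 * ((2 * m + 1 : ℕ) : ℝ) ^ 2 * ((1 + D₁) * (1 + D₂)) := by ring

private lemma norm_ch38 {ν : Measure J1} [IsProbabilityMeasure ν] (u : ℝ) : ‖ch ν u‖ ≤ 1 := by
  unfold ch
  have h1 : ∀ x : J1, ‖eo (u * (x : ℝ))‖ ≤ 1 := by
    intro x
    unfold eo
    rw [Complex.norm_exp_ofReal_mul_I]
  have h2 := norm_integral_le_of_norm_le_const (μ := ν) (Filter.Eventually.of_forall h1)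
  simpa using h2

private lemma sqa_card38 {N : ℕ} (hN : 1 ≤ N) : ((sqa N).card : ℝ) ≤ 25 * (N : ℝ) ^ 2 := by
  classical
  have hsub : sqa N ⊆ (Finset.Icc (-(2 * N : ℤ)) (2 * N)) ×ˢ (Finset.Icc (-(2 * N : ℤ)) (2 * N)) := by
    intro k hk
    unfold sqa at hk
    obtain ⟨_, _, h2, h3⟩ := Finset.mem_filter.1 hk
    rw [abs_lt] at h2 h3
    rw [Finset.mem_product, Finset.mem_Icc, Finset.mem_Icc]
    omega
  have h1 := Finset.card_le_card hsub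
  rw [Finset.card_product, Int.card_Icc] at h1
  have e : (2 * (N : ℤ) + 1 - -(2 * N : ℤ)).toNat = 4 * N + 1 := by omega
  rw [e] at h1
  have h2 : ((sqa N).card : ℝ) ≤ ((4 * N + 1 : ℕ) : ℝ) * ((4 * N + 1 : ℕ) : ℝ) := by exact_mod_cast h1
  have h3 : (1 : ℝ) ≤ N := by exact_mod_cast hN
  push_cast at h2
  nlinarith

theorem pair_sum {ν : Measure J1} [IsProbabilityMeasure ν] {M : ℝ} (hM : 1 ≤ M) : ∃ C : ℝ, 1 ≤ C ∧ ∀ f : Fr, Fb M f → ∀ N : ℕ, 1 ≤ N → ∀ B : Finset (ℤ × ℤ), B ⊆ sqa N →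
    ∀ θ A₁ A₂ Y δ : ℝ, A₁ ≠ 0 → A₂ ≠ 0 → 0 ≤ Y → 0 ≤ δ → (∀ u : ℝ, Y ≤ |u| → ‖ch ν u‖ ≤ δ) → ∀ k ∈ sqa N,
      ∑ k' ∈ B, ‖ch ν (A₁ * pu θ (fk f k) - A₁ * pu θ (fk f k'))‖ * ‖ch ν (A₂ * pv θ (fk f k) - A₂ * pv θ (fk f k'))‖ ≤
        C * ((1 + Y / |A₁|) * (1 + Y / |A₂|) + (N : ℝ) ^ 2 * δ) := by
  classical
  obtain ⟨C, hC1, hC⟩ := rect_card hM
  refine ⟨C + 25, by linarith, fun f hf N hN B hB θ A₁ A₂ Y δ hA1 hA2 hY hδ hdec k _ => ?_⟩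
  have hA1' : 0 < |A₁| := abs_pos.2 hA1
  have hA2' : 0 < |A₂| := abs_pos.2 hA2
  set Q : ℤ × ℤ → Prop := fun k' => |A₁ * pu θ (fk f k) - A₁ * pu θ (fk f k')| ≤ Y ∧
    |A₂ * pv θ (fk f k) - A₂ * pv θ (fk f k')| ≤ Y with hQ
  rw [← Finset.sum_filter_add_sum_filter_not B Q]
  have h1 : ∑ k' ∈ B.filter Q, ‖ch ν (A₁ * pu θ (fk f k) - A₁ * pu θ (fk f k'))‖ *
      ‖ch ν (A₂ * pv θ (fk f k) - A₂ * pv θ (fk f k'))‖ ≤ C * ((1 + Y / |A₁|) * (1 + Y / |A₂|)) := by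
    have h2 : ∑ k' ∈ B.filter Q, ‖ch ν (A₁ * pu θ (fk f k) - A₁ * pu θ (fk f k'))‖ *
        ‖ch ν (A₂ * pv θ (fk f k) - A₂ * pv θ (fk f k'))‖ ≤ ∑ k' ∈ B.filter Q, (1 : ℝ) := by
      apply Finset.sum_le_sum
      intro k' _
      calc _ ≤ (1 : ℝ) * 1 := mul_le_mul (norm_ch38 _) (norm_ch38 _) (norm_nonneg _) (by norm_num)
        _ = 1 := by norm_num
    refine h2.trans ?_
    rw [Finset.sum_const, nsmul_eq_mul, mul_one]
    have hinj : Function.Injective (fun k' : ℤ × ℤ => k - k') := fun a b hab => by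
      simpa using hab
    rw [← Finset.card_image_of_injective (B.filter Q) hinj]
    apply hC f hf θ _ _ (by positivity) (by positivity)
    intro v hv
    obtain ⟨k', hk', rfl⟩ := Finset.mem_image.1 hv
    obtain ⟨h3, h4⟩ := (Finset.mem_filter.1 hk').2
    rw [← mul_sub, abs_mul] at h3 h4
    rw [pu_sub38, pv_sub38, le_div_iff₀ hA1', le_div_iff₀ hA2']
    exact ⟨by linarith, by linarith⟩
  have h5 : ∑ k' ∈ B.filter (fun x => ¬Q x), ‖ch ν (A₁ * pu θ (fk f k) - A₁ * pu θ (fk f k'))‖ *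
      ‖ch ν (A₂ * pv θ (fk f k) - A₂ * pv θ (fk f k'))‖ ≤ 25 * (N : ℝ) ^ 2 * δ := by
    have h6 : ∑ k' ∈ B.filter (fun x => ¬Q x), ‖ch ν (A₁ * pu θ (fk f k) - A₁ * pu θ (fk f k'))‖ *
        ‖ch ν (A₂ * pv θ (fk f k) - A₂ * pv θ (fk f k'))‖ ≤ ∑ k' ∈ B.filter (fun x => ¬Q x), δ := by
      apply Finset.sum_le_sum
      intro k' hk'
      have h7 := (Finset.mem_filter.1 hk').2
      simp only [hQ, not_and_or, not_le] at h7
      rcases h7 with h7 | h7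
      · calc _ ≤ δ * 1 := mul_le_mul (hdec _ h7.le) (norm_ch38 _) (norm_nonneg _) hδ
          _ = δ := mul_one _
      · calc _ ≤ 1 * δ := mul_le_mul (norm_ch38 _) (hdec _ h7.le) (norm_nonneg _) (by norm_num)
          _ = δ := one_mul _
    refine h6.trans ?_
    rw [Finset.sum_const, nsmul_eq_mul]
    apply mul_le_mul_of_nonneg_right _ hδ
    have h8 : ((B.filter (fun x => ¬Q x)).card : ℝ) ≤ ((sqa N).card : ℝ) := by
      exact_mod_cast Finset.card_le_card ((Finset.filter_subset _ _).trans hB)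
    exact h8.trans (sqa_card38 hN)
  have h9 : 0 ≤ (1 + Y / |A₁|) * (1 + Y / |A₂|) := by positivity
  have h10 : 0 ≤ (N : ℝ) ^ 2 * δ := by positivity
  have h11 : 0 ≤ C * ((N : ℝ) ^ 2 * δ) := by positivity
  calc _ ≤ C * ((1 + Y / |A₁|) * (1 + Y / |A₂|)) + 25 * (N : ℝ) ^ 2 * δ := add_le_add h1 h5
    _ ≤ (C + 25) * ((1 + Y / |A₁|) * (1 + Y / |A₂|) + (N : ℝ) ^ 2 * δ) := by
      nlinarith

end Pool.Agent.Helper93.AO
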