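import Pool.Agent.Helper93.AO.Lev
import Pool.Agent.Helper93.AO.Res
import Pool.Agent.Helper93.AO.Bern

/-!
# AO-TWO: the probability bound with two levels, abstract form

As AO-ONE, but `V` is replaced by the random `G_q (ω) = ∑_j ∫ ‖∑_{k ∈ B, J k = j} T k (upd F x ω)‖² dP(x)`, `F = Fm l₁ q`, `j % 8 = q`, which does not depend on the coordinates in `F`
(`upd F x (upd F x' ω) = upd F x ω`): `D = E + n₂ n₁ + n₁²`; on the event `G_q ≤ 16 s D M²` the conditional bound (`prob_le F`, `bernstein` with `V = 16 s D M²`, `m = n₁ M ≤ M √D`) is `4 exp (-s)` with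
deviation `40 M s √D`: `1600 s² D M²/(16 (16 s D M² + 40 s D M²)) ≥ s`.
And `P(G_q > 16 s D M²) ≤ 8 exp (-s)`: `G_q = ∑_{q₂<8} ∑_{i % 8 = q₂} G_{q,i}`, `G_{q,i}` = the part with `I' j = i`. `prob_le (Fm l₂ q₂)`: for fixed `ω` the `G_{q,i} (upd (Fm l₂ q₂) y ω)` are functions of
`y (l₂, i)` (hypothesis `Rep` at level `l₂`; resamplings at the levels `l₁ ≠ l₂` commute), independent, `0 ≤ G_{q,i} ≤ n₂ n₁ M²`, and
`∑_i E G_{q,i} ≤ M² ∑_{k,k' ∈ B, J k = J k'} ‖ch ν (a₂ k - a₂ k')‖ ‖ch ν (b₂ k - b₂ k')‖ ≤ E M²` (expand the square, `phase_mean`).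
`chernoff` with `m = n₂ n₁ M²`, `E₀ = E M²`: `G_q ≤ 8 (2 E M² + n₂ n₁ M² s) ≤ 16 s D M²`. Total `≤ 8 · 4 exp (-s) + 8 · 8 exp (-s)`.
-/

open MeasureTheory Real Set Filter Topology ProbabilityTheory

set_option autoImplicit false

namespace Pool.Agent.Helper93.AO

variable {ν : Measure J1} [IsProbabilityMeasure ν]

private theorem norm_eo57 (x : ℝ) : ‖eo x‖ = 1 := by
  unfold eo
  exact Complex.norm_exp_ofReal_mul_I _

private theorem norm_ch57 (u : ℝ) : ‖ch ν u‖ ≤ 1 := by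
  unfold ch
  have h := norm_integral_le_of_norm_le_const (μ := ν) (f := fun x : J1 => eo (u * (x : ℝ))) (C := 1)
    (Eventually.of_forall fun x => le_of_eq (norm_eo57 _))
  simpa using h

private theorem cont_eo57 : Continuous eo := by
  unfold eo
  fun_prop

private theorem meas_ph57 (a b : ℝ) : Measurable fun y : J1 × J1 => eo (a * (y.1 : ℝ) + b * (y.2 : ℝ)) := by
  have h : Continuous fun y : J1 × J1 => eo (a * (y.1 : ℝ) + b * (y.2 : ℝ)) := by
    apply cont_eo57.comp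
    fun_prop
  exact h.measurable

private theorem int_ph57 (a b : ℝ) : Integrable (fun y : J1 × J1 => eo (a * (y.1 : ℝ) + b * (y.2 : ℝ))) (ν.prod ν) :=
  Integrable.of_bound (meas_ph57 a b).aestronglyMeasurable 1 (Eventually.of_forall fun _ => le_of_eq (norm_eo57 _))

private theorem eo_mul_conj57 (x y : ℝ) : eo x * (starRingEnd ℂ) (eo y) = eo (x - y) := by
  unfold eo
  rw [← Complex.exp_conj, ← Complex.exp_add]
  congr 1
  rw [map_mul, Complex.conj_I, Complex.conj_ofReal]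
  push_cast
  ring

private theorem upd_upd57 (F : Set (ℕ × ℕ)) (x x' ω : Om) : upd F x (upd F x' ω) = upd F x ω := by
  funext i
  by_cases hi : i ∈ F
  · simp [upd, hi]
  · simp [upd, hi]

private theorem upd_comm57 {F F' : Set (ℕ × ℕ)} (h : ∀ i, i ∈ F → i ∉ F') (x y ω : Om) :
    upd F x (upd F' y ω) = upd F' y (upd F x ω) := by
  funext i
  by_cases hi : i ∈ F
  · have := h i hi
    simp [upd, hi, this]
  · by_cases hi' : i ∈ F'
    · simp [upd, hi, hi']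
    · simp [upd, hi, hi']

private theorem fm_disj57 {l₁ l₂ q q' : ℕ} (hl : l₁ ≠ l₂) (i : ℕ × ℕ) (h : i ∈ Fm l₁ q) : i ∉ Fm l₂ q' := by
  intro h'
  exact hl (h.1.symm.trans h'.1)

/-- mean square of a trigonometric polynomial -/
private theorem sq57 {κ : Type} (K : Finset κ) {c : κ → ℂ} {M : ℝ} (hM : 0 ≤ M) (hc : ∀ k ∈ K, ‖c k‖ ≤ M) (a b : κ → ℝ) :
    ∫ y : J1 × J1, ‖∑ k ∈ K, c k * eo (a k * (y.1 : ℝ) + b k * (y.2 : ℝ))‖ ^ 2 ∂(ν.prod ν) ≤
      M ^ 2 * ∑ k ∈ K, ∑ k' ∈ K, ‖ch ν (a k - a k')‖ * ‖ch ν (b k - b k')‖ := by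
  have h1 : ∀ y : J1 × J1, ((‖∑ k ∈ K, c k * eo (a k * (y.1 : ℝ) + b k * (y.2 : ℝ))‖ ^ 2 : ℝ) : ℂ) =
      ∑ k ∈ K, ∑ k' ∈ K, (c k * (starRingEnd ℂ) (c k')) * eo ((a k - a k') * (y.1 : ℝ) + (b k - b k') * (y.2 : ℝ)) := by
    intro y
    have e1 := Complex.mul_conj (∑ k ∈ K, c k * eo (a k * (y.1 : ℝ) + b k * (y.2 : ℝ)))
    rw [Complex.normSq_eq_norm_sq] at e1
    rw [← e1, map_sum, Finset.sum_mul_sum]
    refine Finset.sum_congr rfl fun k _ => Finset.sum_congr rfl fun k' _ => ?_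
    rw [map_mul]
    have e2 := eo_mul_conj57 (a k * (y.1 : ℝ) + b k * (y.2 : ℝ)) (a k' * (y.1 : ℝ) + b k' * (y.2 : ℝ))
    rw [show (a k - a k') * (y.1 : ℝ) + (b k - b k') * (y.2 : ℝ) =
      (a k * (y.1 : ℝ) + b k * (y.2 : ℝ)) - (a k' * (y.1 : ℝ) + b k' * (y.2 : ℝ)) by ring, ← e2]
    ring
  have h2 : ((∫ y : J1 × J1, ‖∑ k ∈ K, c k * eo (a k * (y.1 : ℝ) + b k * (y.2 : ℝ))‖ ^ 2 ∂(ν.prod ν) : ℝ) : ℂ) =
      ∑ k ∈ K, ∑ k' ∈ K, (c k * (starRingEnd ℂ) (c k')) * (ch ν (a k - a k') * ch ν (b k - b k')) := by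
    have e9 := (integral_ofReal (𝕜 := ℂ) (f := fun y : J1 × J1 => ‖∑ k ∈ K, c k * eo (a k * (y.1 : ℝ) + b k * (y.2 : ℝ))‖ ^ 2) (μ := ν.prod ν))
    refine Eq.trans e9.symm ?_
    have e0 : (fun y : J1 × J1 => ((‖∑ k ∈ K, c k * eo (a k * (y.1 : ℝ) + b k * (y.2 : ℝ))‖ ^ 2 : ℝ) : ℂ)) =
        fun y => ∑ k ∈ K, ∑ k' ∈ K, (c k * (starRingEnd ℂ) (c k')) * eo ((a k - a k') * (y.1 : ℝ) + (b k - b k') * (y.2 : ℝ)) :=
      funext h1
    have e0' : (∫ y : J1 × J1, ((‖∑ k ∈ K, c k * eo (a k * (y.1 : ℝ) + b k * (y.2 : ℝ))‖ ^ 2 : ℝ) : ℂ) ∂(ν.prod ν)) =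
        ∫ y : J1 × J1, ∑ k ∈ K, ∑ k' ∈ K, (c k * (starRingEnd ℂ) (c k')) * eo ((a k - a k') * (y.1 : ℝ) + (b k - b k') * (y.2 : ℝ)) ∂(ν.prod ν) := by
      rw [e0]
    refine Eq.trans e0' ?_
    rw [integral_finsetSum _ fun k _ => integrable_finsetSum _ fun k' _ => (int_ph57 (a k - a k') (b k - b k')).const_mul _]
    refine Finset.sum_congr rfl fun k _ => ?_
    rw [integral_finsetSum _ fun k' _ => (int_ph57 (a k - a k') (b k - b k')).const_mul _]
    refine Finset.sum_congr rfl fun k' _ => ?_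
    rw [integral_const_mul, phase_mean]
  have h3 : (0 : ℝ) ≤ ∫ y : J1 × J1, ‖∑ k ∈ K, c k * eo (a k * (y.1 : ℝ) + b k * (y.2 : ℝ))‖ ^ 2 ∂(ν.prod ν) :=
    integral_nonneg fun y => by positivity
  calc ∫ y : J1 × J1, ‖∑ k ∈ K, c k * eo (a k * (y.1 : ℝ) + b k * (y.2 : ℝ))‖ ^ 2 ∂(ν.prod ν)
      = ‖((∫ y : J1 × J1, ‖∑ k ∈ K, c k * eo (a k * (y.1 : ℝ) + b k * (y.2 : ℝ))‖ ^ 2 ∂(ν.prod ν) : ℝ) : ℂ)‖ := by
        rw [Complex.norm_real, Real.norm_of_nonneg h3]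
    _ = ‖∑ k ∈ K, ∑ k' ∈ K, (c k * (starRingEnd ℂ) (c k')) * (ch ν (a k - a k') * ch ν (b k - b k'))‖ := by rw [h2]
    _ ≤ ∑ k ∈ K, ∑ k' ∈ K, M ^ 2 * (‖ch ν (a k - a k')‖ * ‖ch ν (b k - b k')‖) := by
        refine (norm_sum_le _ _).trans (Finset.sum_le_sum fun k hk => ?_)
        refine (norm_sum_le _ _).trans (Finset.sum_le_sum fun k' hk' => ?_)
        rw [norm_mul, norm_mul, norm_mul, Complex.norm_conj, sq]
        exact mul_le_mul_of_nonneg_right (mul_le_mul (hc k hk) (hc k' hk') (norm_nonneg _) hM) (by positivity)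
    _ = M ^ 2 * ∑ k ∈ K, ∑ k' ∈ K, ‖ch ν (a k - a k')‖ * ‖ch ν (b k - b k')‖ := by
        simp only [Finset.mul_sum]

/-- conditional mean square -/
private noncomputable def VV57 {κ : Type} (ν : Measure J1) (F : Set (ℕ × ℕ)) (K : Finset κ) (T : κ → Om → ℂ) (ω : Om) : ℝ :=
  ∫ x, ‖∑ k ∈ K, T k (upd F x ω)‖ ^ 2 ∂(PP ν)

private theorem VV_meas57 {κ : Type} (F : Set (ℕ × ℕ)) {K : Finset κ} {T : κ → Om → ℂ} (hm : ∀ k ∈ K, Measurable (T k)) :
    Measurable (VV57 ν F K T) := by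
  have h1 : Measurable fun p : Om × Om => ‖∑ k ∈ K, T k (upd F p.1 p.2)‖ ^ 2 := by
    apply Measurable.pow_const
    apply Measurable.norm
    apply Finset.measurable_fun_sum
    intro k hk
    exact (hm k hk).comp (upd_meas F)
  exact (h1.stronglyMeasurable.integral_prod_left' (μ := PP ν)).measurable

private theorem VV_upd57 {κ : Type} (F : Set (ℕ × ℕ)) (K : Finset κ) (T : κ → Om → ℂ) (x' ω : Om) :
    VV57 ν F K T (upd F x' ω) = VV57 ν F K T ω := by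
  unfold VV57
  simp_rw [upd_upd57]

private theorem sumb57 {κ : Type} {K : Finset κ} {c : κ → ℂ} {M : ℝ} (hc : ∀ k ∈ K, ‖c k‖ ≤ M) : ‖∑ k ∈ K, c k‖ ≤ K.card * M := by
  refine (norm_sum_le _ _).trans ?_
  refine (Finset.sum_le_sum hc).trans ?_
  rw [Finset.sum_const, nsmul_eq_mul]

/-- the second level -/
private noncomputable def HH57 {κ : Type} (ν : Measure J1) (F F₂ : Set (ℕ × ℕ)) (K : Finset κ) (T : κ → Om → ℂ) (a b : κ → ℝ) (ω : Om)
    (z : J1 × J1) : ℝ :=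
  ∫ x, ‖∑ k ∈ K, T k (upd F₂ om0 (upd F x ω)) * eo (a k * (z.1 : ℝ) + b k * (z.2 : ℝ))‖ ^ 2 ∂(PP ν)

private theorem HH_jm57 {κ : Type} (F F₂ : Set (ℕ × ℕ)) {K : Finset κ} {T : κ → Om → ℂ} (hm : ∀ k ∈ K, Measurable (T k)) (a b : κ → ℝ) (ω : Om) :
    Measurable fun p : Om × (J1 × J1) => ‖∑ k ∈ K, T k (upd F₂ om0 (upd F p.1 ω)) * eo (a k * (p.2.1 : ℝ) + b k * (p.2.2 : ℝ))‖ ^ 2 := by
  apply Measurable.pow_const
  apply Measurable.norm
  apply Finset.measurable_fun_sum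
  intro k hk
  apply Measurable.mul
  · have h1 : Measurable fun x : Om => upd F x ω := (upd_meas F).comp (measurable_id.prodMk measurable_const)
    have h2 : Measurable fun x : Om => upd F₂ om0 (upd F x ω) := (upd_meas F₂).comp (measurable_const.prodMk h1)
    exact ((hm k hk).comp h2).comp measurable_fst
  · exact (meas_ph57 (a k) (b k)).comp measurable_snd

private theorem HH_meas57 {κ : Type} (F F₂ : Set (ℕ × ℕ)) {K : Finset κ} {T : κ → Om → ℂ} (hm : ∀ k ∈ K, Measurable (T k)) (a b : κ → ℝ) (ω : Om) :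
    Measurable (HH57 ν F F₂ K T a b ω) :=
  ((HH_jm57 F F₂ hm a b ω).stronglyMeasurable.integral_prod_left' (μ := PP ν)).measurable

private theorem HH_bd57 {κ : Type} (F F₂ : Set (ℕ × ℕ)) {K : Finset κ} {T : κ → Om → ℂ} {M : ℝ} (hM : 0 ≤ M)
    (hT : ∀ k ∈ K, ∀ ω, ‖T k ω‖ ≤ M) (a b : κ → ℝ) (ω : Om) (z : J1 × J1) :
    0 ≤ HH57 ν F F₂ K T a b ω z ∧ HH57 ν F F₂ K T a b ω z ≤ (K.card * M) ^ 2 := by
  refine ⟨integral_nonneg fun x => by positivity, ?_⟩
  unfold HH57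
  calc ∫ x, ‖∑ k ∈ K, T k (upd F₂ om0 (upd F x ω)) * eo (a k * (z.1 : ℝ) + b k * (z.2 : ℝ))‖ ^ 2 ∂(PP ν)
      ≤ ∫ _x : Om, (K.card * M) ^ 2 ∂(PP ν) := by
        apply integral_mono_of_nonneg
        · exact Eventually.of_forall fun x => by positivity
        · exact integrable_const _
        · refine Eventually.of_forall fun x => ?_
          refine pow_le_pow_left₀ (norm_nonneg _) (sumb57 fun k hk => ?_) 2
          rw [norm_mul, norm_eo57, mul_one]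
          exact hT k hk _
    _ = (K.card * M) ^ 2 := by simp

private theorem HH_mean57 {κ : Type} (F F₂ : Set (ℕ × ℕ)) {K : Finset κ} {T : κ → Om → ℂ} (hm : ∀ k ∈ K, Measurable (T k)) {M : ℝ} (hM : 0 ≤ M)
    (hT : ∀ k ∈ K, ∀ ω, ‖T k ω‖ ≤ M) (a b : κ → ℝ) (ω : Om) :
    ∫ z, HH57 ν F F₂ K T a b ω z ∂(ν.prod ν) ≤ M ^ 2 * ∑ k ∈ K, ∑ k' ∈ K, ‖ch ν (a k - a k')‖ * ‖ch ν (b k - b k')‖ := by
  have hint : Integrable (fun p : Om × (J1 × J1) =>
      ‖∑ k ∈ K, T k (upd F₂ om0 (upd F p.1 ω)) * eo (a k * (p.2.1 : ℝ) + b k * (p.2.2 : ℝ))‖ ^ 2) ((PP ν).prod (ν.prod ν)) := by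
    refine Integrable.of_bound (HH_jm57 F F₂ hm a b ω).aestronglyMeasurable ((K.card * M) ^ 2) (Eventually.of_forall fun p => ?_)
    rw [Real.norm_of_nonneg (by positivity)]
    refine pow_le_pow_left₀ (norm_nonneg _) (sumb57 fun k hk => ?_) 2
    rw [norm_mul, norm_eo57, mul_one]
    exact hT k hk _
  unfold HH57
  rw [← integral_integral_swap (f := fun (x : Om) (z : J1 × J1) =>
    ‖∑ k ∈ K, T k (upd F₂ om0 (upd F x ω)) * eo (a k * (z.1 : ℝ) + b k * (z.2 : ℝ))‖ ^ 2) hint]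
  have h1 : ∀ x : Om, ∫ z : J1 × J1, ‖∑ k ∈ K, T k (upd F₂ om0 (upd F x ω)) * eo (a k * (z.1 : ℝ) + b k * (z.2 : ℝ))‖ ^ 2 ∂(ν.prod ν) ≤
      M ^ 2 * ∑ k ∈ K, ∑ k' ∈ K, ‖ch ν (a k - a k')‖ * ‖ch ν (b k - b k')‖ :=
    fun x => sq57 K hM (fun k hk => hT k hk _) a b
  calc ∫ x : Om, ∫ z : J1 × J1, ‖∑ k ∈ K, T k (upd F₂ om0 (upd F x ω)) * eo (a k * (z.1 : ℝ) + b k * (z.2 : ℝ))‖ ^ 2 ∂(ν.prod ν) ∂(PP ν)
      ≤ ∫ _x : Om, M ^ 2 * ∑ k ∈ K, ∑ k' ∈ K, ‖ch ν (a k - a k')‖ * ‖ch ν (b k - b k')‖ ∂(PP ν) := by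
        apply integral_mono_of_nonneg
        · exact Eventually.of_forall fun x => integral_nonneg fun z => by positivity
        · exact integrable_const _
        · exact Eventually.of_forall h1
    _ = M ^ 2 * ∑ k ∈ K, ∑ k' ∈ K, ‖ch ν (a k - a k')‖ * ‖ch ν (b k - b k')‖ := by simp

private theorem VV_HH57 {κ : Type} {F F₂ : Set (ℕ × ℕ)} (hF : ∀ i, i ∈ F → i ∉ F₂) {K : Finset κ} {T : κ → Om → ℂ} {a b : κ → ℝ} {c : ℕ × ℕ}
    (hr : ∀ k ∈ K, ∀ y ω : Om, T k (upd F₂ y ω) = T k (upd F₂ om0 ω) * eo (a k * ((y c).1 : ℝ) + b k * ((y c).2 : ℝ))) (y ω : Om) :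
    VV57 ν F K T (upd F₂ y ω) = HH57 ν F F₂ K T a b ω (y c) := by
  unfold VV57 HH57
  have h1 : ∀ x : Om, ∑ k ∈ K, T k (upd F x (upd F₂ y ω)) =
      ∑ k ∈ K, T k (upd F₂ om0 (upd F x ω)) * eo (a k * ((y c).1 : ℝ) + b k * ((y c).2 : ℝ)) := by
    intro x
    rw [upd_comm57 hF]
    exact Finset.sum_congr rfl fun k hk => hr k hk y (upd F x ω)
  simp_rw [h1]

/-- the sum of the conditional mean squares is small with large probability: one family of the second level -/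
private theorem lev2_57 {κ : Type} [DecidableEq κ] {B : Finset κ} {T : κ → Om → ℂ} {l₁ l₂ : ℕ} (hl : l₁ ≠ l₂) {J : κ → ℕ} {I' : ℕ → ℕ} {a₂ b₂ : κ → ℝ}
    (hR₂ : Rep B T l₂ (fun k => I' (J k)) a₂ b₂)
    (hm : ∀ k ∈ B, Measurable (T k)) {M n₁ n₂ E s : ℝ} (hM : 0 < M) (hT : ∀ k ∈ B, ∀ ω, ‖T k ω‖ ≤ M)
    (h1 : 0 < n₁) (hn₁ : ∀ j, ((B.filter fun k => J k = j).card : ℝ) ≤ n₁) (h2 : 0 < n₂) (hn₂ : ∀ i, ((B.filter fun k => I' (J k) = i).card : ℝ) ≤ n₂)
    (hE : ∑ k ∈ B, ∑ k' ∈ B.filter (fun k' => J k' = J k), ‖ch ν (a₂ k - a₂ k')‖ * ‖ch ν (b₂ k - b₂ k')‖ ≤ E) (hs : 1 ≤ s) (q q₂ : ℕ) :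
    (PP ν).real {ω | 2 * (E * M ^ 2) + n₂ * n₁ * M ^ 2 * s ≤
      ∑ j ∈ ((B.filter fun k => J k % 8 = q).image J).filter (fun j => I' j % 8 = q₂),
        VV57 ν (Fm l₁ q) ((B.filter fun k => J k % 8 = q).filter fun k => J k = j) T ω} ≤ exp (-s) := by
  obtain ⟨Bq, hBq⟩ : ∃ Bq, Bq = B.filter fun k => J k % 8 = q := ⟨_, rfl⟩
  rw [← hBq]
  obtain ⟨A, hA⟩ : ∃ A, A = (Bq.image J).filter (fun j => I' j % 8 = q₂) := ⟨_, rfl⟩
  rw [← hA]
  have hBB : ∀ k ∈ Bq, k ∈ B := fun k hk => by rw [hBq] at hk; exact (Finset.mem_filter.1 hk).1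
  have hKB : ∀ j, ∀ k ∈ Bq.filter (fun k => J k = j), k ∈ B := fun j k hk => hBB k (Finset.mem_filter.1 hk).1
  have hVm : ∀ j, Measurable (VV57 ν (Fm l₁ q) (Bq.filter fun k => J k = j) T) := fun j =>
    VV_meas57 _ fun k hk => hm k (hKB j k hk)
  refine prob_le (Fm l₂ q₂) (measurableSet_le measurable_const (Finset.measurable_fun_sum _ fun j _ => hVm j)) (exp_pos _).le ?_
  intro ω
  obtain ⟨H, hH⟩ : ∃ H : ℕ → J1 × J1 → ℝ, H = fun j => HH57 ν (Fm l₁ q) (Fm l₂ q₂) (Bq.filter fun k => J k = j) T a₂ b₂ ω := ⟨_, rfl⟩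
  have hHm : ∀ j, Measurable (H j) := fun j => by
    rw [hH]
    exact HH_meas57 _ _ (fun k hk => hm k (hKB j k hk)) _ _ _
  obtain ⟨h, hh⟩ : ∃ h : ℕ → J1 × J1 → ℝ, h = fun i z => ∑ j ∈ A.filter (fun j => I' j = i), H j z := ⟨_, rfl⟩
  have hhm : ∀ i, Measurable (h i) := fun i => by
    rw [hh]
    exact Finset.measurable_fun_sum _ fun j _ => hHm j
  have hHb : ∀ j z, 0 ≤ H j z ∧ H j z ≤ (((Bq.filter fun k => J k = j).card : ℝ) * M) ^ 2 := fun j z => by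
    rw [hH]
    exact HH_bd57 _ _ hM.le (fun k hk => hT k (hKB j k hk)) _ _ _ _
  have hYi : iIndepFun (fun (i : ℕ) (y : Om) => h i (y (l₂, i))) (PP ν) :=
    coord_indep (ν := ν) hhm (c := fun i : ℕ => ((l₂, i) : ℕ × ℕ)) (fun i j h => (Prod.mk.inj h).2)
  have hYm : ∀ i : ℕ, Measurable (fun y : Om => h i (y (l₂, i))) := fun i => (hhm i).comp (measurable_pi_apply _)
  have hcard : ∀ j, ((Bq.filter fun k => J k = j).card : ℝ) ≤ n₁ := fun j => by
    refine le_trans ?_ (hn₁ j)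
    rw [hBq]
    exact_mod_cast Finset.card_le_card (Finset.filter_subset_filter _ (Finset.filter_subset _ _))
  have hYb : ∀ i ∈ A.image I', ∀ y : Om, 0 ≤ h i (y (l₂, i)) ∧ h i (y (l₂, i)) ≤ n₂ * n₁ * M ^ 2 := by
    intro i _ y
    rw [hh]
    refine ⟨Finset.sum_nonneg fun j _ => (hHb j _).1, ?_⟩
    simp only
    calc ∑ j ∈ A.filter (fun j => I' j = i), H j (y (l₂, i))
        ≤ ∑ j ∈ A.filter (fun j => I' j = i), (((Bq.filter fun k => J k = j).card : ℝ)) * (n₁ * M ^ 2) := by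
          refine Finset.sum_le_sum fun j _ => (hHb j _).2.trans ?_
          have e1 := hcard j
          have e2 : (0 : ℝ) ≤ ((Bq.filter fun k => J k = j).card : ℝ) := by positivity
          have e3 : (((Bq.filter fun k => J k = j).card : ℝ) * M) ^ 2 =
              ((Bq.filter fun k => J k = j).card : ℝ) * (((Bq.filter fun k => J k = j).card : ℝ) * M ^ 2) := by ring
          rw [e3]
          exact mul_le_mul_of_nonneg_left (mul_le_mul_of_nonneg_right e1 (by positivity)) e2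
      _ = (∑ j ∈ A.filter (fun j => I' j = i), (((Bq.filter fun k => J k = j).card : ℝ))) * (n₁ * M ^ 2) := by
          rw [Finset.sum_mul]
      _ ≤ n₂ * (n₁ * M ^ 2) := by
          refine mul_le_mul_of_nonneg_right (le_trans ?_ (hn₂ i)) (by positivity)
          have e4 : ∑ j ∈ A.filter (fun j => I' j = i), ((Bq.filter fun k => J k = j).card) ≤
              (B.filter fun k => I' (J k) = i).card := by
            have e5 := Finset.card_biUnion (s := A.filter (fun j => I' j = i)) (t := fun j => Bq.filter fun k => J k = j) (by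
              intro j _ j' _ hjj'
              rw [Function.onFun, Finset.disjoint_left]
              intro k hk hk'
              exact hjj' ((Finset.mem_filter.1 hk).2.symm.trans (Finset.mem_filter.1 hk').2))
            rw [← e5]
            refine Finset.card_le_card fun k hk => ?_
            rw [Finset.mem_biUnion] at hk
            obtain ⟨j, hj, hk⟩ := hk
            rw [Finset.mem_filter]
            refine ⟨hKB j k hk, ?_⟩
            rw [(Finset.mem_filter.1 hk).2]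
            exact (Finset.mem_filter.1 hj).2
          exact_mod_cast e4
      _ = n₂ * n₁ * M ^ 2 := by ring
  have hYe : ∑ i ∈ A.image I', ∫ y : Om, h i (y (l₂, i)) ∂(PP ν) ≤ E * M ^ 2 := by
    have f1 : ∀ i, ∫ y : Om, h i (y (l₂, i)) ∂(PP ν) = ∫ z, h i z ∂(ν.prod ν) := by
      intro i
      have g1 : MeasurePreserving (Function.eval ((l₂, i) : ℕ × ℕ)) (PP ν) (ν.prod ν) :=
        measurePreserving_eval_infinitePi (fun _ : ℕ × ℕ => ν.prod ν) (l₂, i)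
      rw [← g1.map_eq, integral_map g1.measurable.aemeasurable (hhm i).aestronglyMeasurable]
    have f2 : ∀ j, ∫ z, H j z ∂(ν.prod ν) ≤ M ^ 2 * ∑ k ∈ Bq.filter (fun k => J k = j), ∑ k' ∈ Bq.filter (fun k => J k = j),
        ‖ch ν (a₂ k - a₂ k')‖ * ‖ch ν (b₂ k - b₂ k')‖ := by
      intro j
      rw [hH]
      exact HH_mean57 _ _ (fun k hk => hm k (hKB j k hk)) hM.le (fun k hk => hT k (hKB j k hk)) _ _ _
    have f3 : ∀ i, ∫ z, h i z ∂(ν.prod ν) = ∑ j ∈ A.filter (fun j => I' j = i), ∫ z, H j z ∂(ν.prod ν) := by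
      intro i
      rw [hh]
      simp only
      apply integral_finsetSum
      intro j _
      refine Integrable.of_bound (hHm j).aestronglyMeasurable ((((Bq.filter fun k => J k = j).card : ℝ) * M) ^ 2)
        (Eventually.of_forall fun z => ?_)
      rw [Real.norm_of_nonneg (hHb j z).1]
      exact (hHb j z).2
    calc ∑ i ∈ A.image I', ∫ y : Om, h i (y (l₂, i)) ∂(PP ν)
        = ∑ i ∈ A.image I', ∑ j ∈ A.filter (fun j => I' j = i), ∫ z, H j z ∂(ν.prod ν) :=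
          Finset.sum_congr rfl fun i _ => by rw [f1, f3]
      _ = ∑ j ∈ A, ∫ z, H j z ∂(ν.prod ν) :=
          Finset.sum_fiberwise_of_maps_to (fun j hj => Finset.mem_image_of_mem I' hj) _
      _ ≤ ∑ j ∈ A, M ^ 2 * ∑ k ∈ Bq.filter (fun k => J k = j), ∑ k' ∈ Bq.filter (fun k => J k = j),
            ‖ch ν (a₂ k - a₂ k')‖ * ‖ch ν (b₂ k - b₂ k')‖ := Finset.sum_le_sum fun j _ => f2 j
      _ ≤ ∑ j ∈ Bq.image J, M ^ 2 * ∑ k ∈ Bq.filter (fun k => J k = j), ∑ k' ∈ Bq.filter (fun k => J k = j),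
            ‖ch ν (a₂ k - a₂ k')‖ * ‖ch ν (b₂ k - b₂ k')‖ := by
          refine Finset.sum_le_sum_of_subset_of_nonneg (by rw [hA]; exact Finset.filter_subset _ _) fun j _ _ => by positivity
      _ = M ^ 2 * ∑ j ∈ Bq.image J, ∑ k ∈ Bq.filter (fun k => J k = j), ∑ k' ∈ Bq.filter (fun k' => J k' = J k),
            ‖ch ν (a₂ k - a₂ k')‖ * ‖ch ν (b₂ k - b₂ k')‖ := by
          rw [Finset.mul_sum]
          refine Finset.sum_congr rfl fun j _ => ?_
          congr 1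
          refine Finset.sum_congr rfl fun k hk => ?_
          rw [(Finset.mem_filter.1 hk).2]
      _ = M ^ 2 * ∑ k ∈ Bq, ∑ k' ∈ Bq.filter (fun k' => J k' = J k), ‖ch ν (a₂ k - a₂ k')‖ * ‖ch ν (b₂ k - b₂ k')‖ := by
          congr 1
          exact Finset.sum_fiberwise_of_maps_to (fun k hk => Finset.mem_image_of_mem J hk) _
      _ ≤ M ^ 2 * ∑ k ∈ B, ∑ k' ∈ B.filter (fun k' => J k' = J k), ‖ch ν (a₂ k - a₂ k')‖ * ‖ch ν (b₂ k - b₂ k')‖ := by
          refine mul_le_mul_of_nonneg_left ?_ (by positivity)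
          calc ∑ k ∈ Bq, ∑ k' ∈ Bq.filter (fun k' => J k' = J k), ‖ch ν (a₂ k - a₂ k')‖ * ‖ch ν (b₂ k - b₂ k')‖
              ≤ ∑ k ∈ Bq, ∑ k' ∈ B.filter (fun k' => J k' = J k), ‖ch ν (a₂ k - a₂ k')‖ * ‖ch ν (b₂ k - b₂ k')‖ := by
                refine Finset.sum_le_sum fun k _ => Finset.sum_le_sum_of_subset_of_nonneg ?_ fun _ _ _ => by positivity
                intro k' hk'
                rw [Finset.mem_filter] at hk' ⊢
                exact ⟨hBB k' hk'.1, hk'.2⟩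
            _ ≤ ∑ k ∈ B, ∑ k' ∈ B.filter (fun k' => J k' = J k), ‖ch ν (a₂ k - a₂ k')‖ * ‖ch ν (b₂ k - b₂ k')‖ := by
                refine Finset.sum_le_sum_of_subset_of_nonneg (fun k hk => hBB k hk) fun _ _ _ => ?_
                exact Finset.sum_nonneg fun _ _ => by positivity
      _ ≤ M ^ 2 * E := mul_le_mul_of_nonneg_left hE (by positivity)
      _ = E * M ^ 2 := by ring
  have key := chernoff (P := PP ν) (A.image I') hYm hYi (m := n₂ * n₁ * M ^ 2) (E₀ := E * M ^ 2) (s := s) (by positivity) hYb hYe (by linarith)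
  refine le_trans (le_of_eq ?_) key
  congr 1
  ext y
  simp only [Set.mem_ofPred_eq]
  have hsum : ∑ j ∈ A, VV57 ν (Fm l₁ q) (Bq.filter fun k => J k = j) T (upd (Fm l₂ q₂) y ω) = ∑ i ∈ A.image I', h i (y (l₂, i)) := by
    rw [← Finset.sum_fiberwise_of_maps_to (s := A) (t := A.image I') (g := I') (fun j hj => Finset.mem_image_of_mem I' hj)]
    refine Finset.sum_congr rfl fun i _ => ?_
    rw [hh]
    simp only
    refine Finset.sum_congr rfl fun j hj => ?_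
    obtain ⟨hj1, hj2⟩ := Finset.mem_filter.1 hj
    have hj3 : I' j % 8 = q₂ := by
      rw [hA] at hj1
      exact (Finset.mem_filter.1 hj1).2
    rw [hH]
    simp only
    refine VV_HH57 (fm_disj57 hl) (c := (l₂, i)) ?_ y ω
    intro k hk y' ω'
    have hk2 := (Finset.mem_filter.1 hk).2
    have := hR₂.rep k (hKB j k hk) y' ω'
    rw [hk2, hj3, hj2] at this
    exact this
  rw [hsum]

/-- one family of the first level -/
private theorem lev1_57 {κ : Type} [DecidableEq κ] {B : Finset κ} {T : κ → Om → ℂ} {l : ℕ} {J : κ → ℕ} {a b : κ → ℝ} (hR : Rep B T l J a b)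
    (hm : ∀ k ∈ B, Measurable (T k)) {M δ n₁ V s : ℝ} (hM : 0 < M) (hT : ∀ k ∈ B, ∀ ω, ‖T k ω‖ ≤ M) (hδ : ∀ k ∈ B, ‖ch ν (a k)‖ ≤ δ)
    (h1 : 0 < n₁) (hn₁ : ∀ j, ((B.filter fun k => J k = j).card : ℝ) ≤ n₁) (hs : 0 < s) (q : ℕ) :
    (PP ν).real ({ω | M * B.card * δ + s ≤ ‖∑ k ∈ B.filter (fun k => J k % 8 = q), T k ω‖} ∩
      {ω | ∑ j ∈ (B.filter fun k => J k % 8 = q).image J, VV57 ν (Fm l q) ((B.filter fun k => J k % 8 = q).filter fun k => J k = j) T ω ≤ V}) ≤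
      4 * exp (-(s ^ 2 / (16 * (V + n₁ * M * s)))) := by
  have hVm : ∀ j, Measurable (VV57 ν (Fm l q) ((B.filter fun k => J k % 8 = q).filter fun k => J k = j) T) := fun j =>
    VV_meas57 _ fun k hk => hm k (Finset.mem_filter.1 (Finset.mem_filter.1 hk).1).1
  have hmeas : MeasurableSet ({ω | M * B.card * δ + s ≤ ‖∑ k ∈ B.filter (fun k => J k % 8 = q), T k ω‖} ∩
      {ω | ∑ j ∈ (B.filter fun k => J k % 8 = q).image J, VV57 ν (Fm l q) ((B.filter fun k => J k % 8 = q).filter fun k => J k = j) T ω ≤ V}) := by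
    apply MeasurableSet.inter
    · apply measurableSet_le measurable_const
      apply Measurable.norm
      apply Finset.measurable_fun_sum
      intro k hk
      exact hm k (Finset.mem_filter.1 hk).1
    · exact measurableSet_le (Finset.measurable_fun_sum _ fun j _ => hVm j) measurable_const
  refine prob_le (Fm l q) hmeas (by positivity) ?_
  intro ω
  by_cases hV : ∑ j ∈ (B.filter fun k => J k % 8 = q).image J, VV57 ν (Fm l q) ((B.filter fun k => J k % 8 = q).filter fun k => J k = j) T ω ≤ V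
  swap
  · have he : {x | upd (Fm l q) x ω ∈ ({ω | M * B.card * δ + s ≤ ‖∑ k ∈ B.filter (fun k => J k % 8 = q), T k ω‖} ∩
      {ω | ∑ j ∈ (B.filter fun k => J k % 8 = q).image J, VV57 ν (Fm l q) ((B.filter fun k => J k % 8 = q).filter fun k => J k = j) T ω ≤ V})} = ∅ := by
      ext x
      simp only [Set.mem_ofPred_eq, Set.mem_inter_iff, Set.mem_empty_iff_false, iff_false, not_and]
      intro _ h
      apply hV
      simpa only [VV_upd57] using h
    rw [he, measureReal_empty]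
    positivity
  set c : κ → ℂ := fun k => T k (upd (Fm l q) om0 ω) with hc
  set g : ℕ → J1 × J1 → ℂ := fun j y => ∑ k ∈ (B.filter (fun k => J k % 8 = q)).filter (fun k => J k = j), c k * eo (a k * (y.1 : ℝ) + b k * (y.2 : ℝ)) with hg
  set Z : ℕ → Om → ℂ := fun j x => g j (x (l, j)) with hZ
  have hgm : ∀ j, Measurable (g j) := by
    intro j
    apply Finset.measurable_fun_sum
    intro k _
    exact (meas_ph57 (a k) (b k)).const_mul (c k)
  have hZm : ∀ j, Measurable (Z j) := fun j => (hgm j).comp (measurable_pi_apply _)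
  have hZi : iIndepFun Z (PP ν) := by
    have := coord_indep (ν := ν) hgm (c := fun j : ℕ => ((l, j) : ℕ × ℕ)) (fun i j h => (Prod.mk.inj h).2)
    exact this
  have hcard : ∀ j, (((B.filter (fun k => J k % 8 = q)).filter (fun k => J k = j)).card : ℝ) ≤ n₁ := by
    intro j
    refine le_trans ?_ (hn₁ j)
    exact_mod_cast Finset.card_le_card (Finset.filter_subset_filter _ (Finset.filter_subset _ _))
  have hcM : ∀ k ∈ B, ‖c k‖ ≤ M := fun k hk => hT k hk _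
  have hgb : ∀ j y, ‖g j y‖ ≤ n₁ * M := by
    intro j y
    calc ‖g j y‖ ≤ (((B.filter (fun k => J k % 8 = q)).filter (fun k => J k = j)).card : ℝ) * M := by
          refine sumb57 fun k hk => ?_
          rw [norm_mul, norm_eo57, mul_one]
          exact hcM k (Finset.mem_filter.1 (Finset.mem_filter.1 hk).1).1
      _ ≤ n₁ * M := mul_le_mul_of_nonneg_right (hcard j) hM.le
  have hE : ∀ j, ‖∫ x, Z j x ∂(PP ν)‖ ≤ (((B.filter (fun k => J k % 8 = q)).filter (fun k => J k = j)).card : ℝ) * (M * δ) := by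
    intro j
    have e1 : ∫ x, Z j x ∂(PP ν) = ∑ k ∈ (B.filter (fun k => J k % 8 = q)).filter (fun k => J k = j), c k * (ch ν (a k) * ch ν (b k)) := by
      have e2 : ∫ x, Z j x ∂(PP ν) = ∫ y, g j y ∂(ν.prod ν) := coord_mean (hgm j) (l, j)
      rw [e2]
      have e3 : ∫ y, g j y ∂(ν.prod ν) = ∑ k ∈ (B.filter (fun k => J k % 8 = q)).filter (fun k => J k = j),
          ∫ y : J1 × J1, c k * eo (a k * (y.1 : ℝ) + b k * (y.2 : ℝ)) ∂(ν.prod ν) := by
        apply integral_finsetSum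
        intro k _
        exact (int_ph57 (a k) (b k)).const_mul (c k)
      rw [e3]
      apply Finset.sum_congr rfl
      intro k _
      rw [integral_const_mul, phase_mean]
    rw [e1]
    refine sumb57 fun k hk => ?_
    have hkB : k ∈ B := (Finset.mem_filter.1 (Finset.mem_filter.1 hk).1).1
    rw [norm_mul, norm_mul]
    have h2 : ‖ch ν (a k)‖ * ‖ch ν (b k)‖ ≤ δ * 1 :=
      mul_le_mul (hδ k hkB) (norm_ch57 _) (norm_nonneg _) ((norm_nonneg _).trans (hδ k hkB))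
    rw [mul_one] at h2
    exact mul_le_mul (hcM k hkB) h2 (by positivity) hM.le
  have hcardsum : ∑ j ∈ (B.filter (fun k => J k % 8 = q)).image J, (((B.filter (fun k => J k % 8 = q)).filter (fun k => J k = j)).card : ℝ) =
      ((B.filter (fun k => J k % 8 = q)).card : ℝ) := by
    have := Finset.card_eq_sum_card_image J (B.filter (fun k => J k % 8 = q))
    rw [this]
    push_cast
    rfl
  have hμ : ‖∑ j ∈ (B.filter (fun k => J k % 8 = q)).image J, ∫ x, Z j x ∂(PP ν)‖ ≤ M * B.card * δ := by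
    calc ‖∑ j ∈ (B.filter (fun k => J k % 8 = q)).image J, ∫ x, Z j x ∂(PP ν)‖
        ≤ ∑ j ∈ (B.filter (fun k => J k % 8 = q)).image J, ‖∫ x, Z j x ∂(PP ν)‖ := norm_sum_le _ _
      _ ≤ ∑ j ∈ (B.filter (fun k => J k % 8 = q)).image J, (((B.filter (fun k => J k % 8 = q)).filter (fun k => J k = j)).card : ℝ) * (M * δ) :=
          Finset.sum_le_sum fun j _ => hE j
      _ = ((B.filter (fun k => J k % 8 = q)).card : ℝ) * (M * δ) := by
          rw [← Finset.sum_mul, hcardsum]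
      _ ≤ M * B.card * δ := by
          rcases B.eq_empty_or_nonempty with rfl | ⟨k, hk⟩
          · simp
          · have hδ0 : 0 ≤ δ := (norm_nonneg _).trans (hδ k hk)
            have h3 : ((B.filter (fun k => J k % 8 = q)).card : ℝ) ≤ B.card := by
              exact_mod_cast Finset.card_le_card (Finset.filter_subset _ _)
            calc ((B.filter (fun k => J k % 8 = q)).card : ℝ) * (M * δ) ≤ (B.card : ℝ) * (M * δ) :=
                  mul_le_mul_of_nonneg_right h3 (by positivity)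
              _ = M * B.card * δ := by ring
  have hrep : ∀ j, ∀ x, ∑ k ∈ (B.filter (fun k => J k % 8 = q)).filter (fun k => J k = j), T k (upd (Fm l q) x ω) = Z j x := by
    intro j x
    simp only [hZ, hg]
    refine Finset.sum_congr rfl fun k hk => ?_
    have hk1 := Finset.mem_filter.1 hk
    have hk' := Finset.mem_filter.1 hk1.1
    have := hR.rep k hk'.1 x ω
    rw [hk'.2, hk1.2] at this
    exact this
  have hV' : ∑ j ∈ (B.filter (fun k => J k % 8 = q)).image J, ∫ x, ‖Z j x‖ ^ 2 ∂(PP ν) ≤ V := by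
    refine le_trans (le_of_eq ?_) hV
    refine Finset.sum_congr rfl fun j _ => ?_
    unfold VV57
    simp_rw [hrep]
  have key := bernstein (P := PP ν) ((B.filter (fun k => J k % 8 = q)).image J) hZm hZi (m := n₁ * M) (V := V) (μ := M * B.card * δ) (s := s)
    (by positivity) (fun j _ x => hgb j _) hV' hμ hs
  refine le_trans (measureReal_mono ?_) key
  intro x hx
  simp only [Set.mem_ofPred_eq, Set.mem_inter_iff] at hx ⊢
  refine hx.1.trans (le_of_eq ?_)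
  congr 1
  rw [← Finset.sum_fiberwise_of_maps_to (s := B.filter (fun k => J k % 8 = q)) (t := (B.filter (fun k => J k % 8 = q)).image J) (g := J)
    (fun k hk => Finset.mem_image_of_mem J hk)]
  exact Finset.sum_congr rfl fun j _ => hrep j x

/-- one family of the first level, unconditional -/
private theorem fam57 {κ : Type} [DecidableEq κ] {B : Finset κ} {T : κ → Om → ℂ} {l₁ l₂ : ℕ} (hl : l₁ ≠ l₂) {J : κ → ℕ} {I' : ℕ → ℕ} {a b a₂ b₂ : κ → ℝ}
    (hR : Rep B T l₁ J a b) (hR₂ : Rep B T l₂ (fun k => I' (J k)) a₂ b₂)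
    (hm : ∀ k ∈ B, Measurable (T k)) {M δ n₁ n₂ E s : ℝ} (hM : 0 < M) (hT : ∀ k ∈ B, ∀ ω, ‖T k ω‖ ≤ M) (hδ : ∀ k ∈ B, ‖ch ν (a k)‖ ≤ δ)
    (h1 : 0 < n₁) (hn₁ : ∀ j, ((B.filter fun k => J k = j).card : ℝ) ≤ n₁) (h2 : 0 < n₂) (hn₂ : ∀ i, ((B.filter fun k => I' (J k) = i).card : ℝ) ≤ n₂)
    (hE : ∑ k ∈ B, ∑ k' ∈ B.filter (fun k' => J k' = J k), ‖ch ν (a₂ k - a₂ k')‖ * ‖ch ν (b₂ k - b₂ k')‖ ≤ E) (hs : 1 ≤ s) (q : ℕ) :
    (PP ν).real {ω | M * B.card * δ + 40 * M * s * sqrt (E + n₂ * n₁ + n₁ ^ 2) ≤ ‖∑ k ∈ B.filter (fun k => J k % 8 = q), T k ω‖} ≤ 12 * exp (-s) := by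
  have hE0 : 0 ≤ E := le_trans (Finset.sum_nonneg fun _ _ => Finset.sum_nonneg fun _ _ => by positivity) hE
  obtain ⟨D, hD⟩ : ∃ D, D = E + n₂ * n₁ + n₁ ^ 2 := ⟨_, rfl⟩
  rw [← hD]
  have hD0 : 0 < D := by rw [hD]; positivity
  have hsq : sqrt D ^ 2 = D := Real.sq_sqrt hD0.le
  have hsq0 : 0 < sqrt D := Real.sqrt_pos.2 hD0
  have hnD : n₁ ≤ sqrt D := by
    apply Real.le_sqrt_of_sq_le
    rw [hD]
    have : 0 ≤ n₂ * n₁ := by positivity
    linarith
  have hs0 : 0 < s := by linarith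
  obtain ⟨V, hV⟩ : ∃ V, V = 16 * s * D * M ^ 2 := ⟨_, rfl⟩
  obtain ⟨G, hG⟩ : ∃ G : Om → ℝ, G = fun ω => ∑ j ∈ (B.filter fun k => J k % 8 = q).image J,
    VV57 ν (Fm l₁ q) ((B.filter fun k => J k % 8 = q).filter fun k => J k = j) T ω := ⟨_, rfl⟩
  have hsub : {ω | M * B.card * δ + 40 * M * s * sqrt D ≤ ‖∑ k ∈ B.filter (fun k => J k % 8 = q), T k ω‖} ⊆
      ({ω | M * B.card * δ + 40 * M * s * sqrt D ≤ ‖∑ k ∈ B.filter (fun k => J k % 8 = q), T k ω‖} ∩ {ω | G ω ≤ V}) ∪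
      ⋃ q₂ ∈ Finset.range 8, {ω | 2 * (E * M ^ 2) + n₂ * n₁ * M ^ 2 * s ≤
        ∑ j ∈ ((B.filter fun k => J k % 8 = q).image J).filter (fun j => I' j % 8 = q₂),
        VV57 ν (Fm l₁ q) ((B.filter fun k => J k % 8 = q).filter fun k => J k = j) T ω} := by
    intro ω hω
    by_cases hGV : G ω ≤ V
    · exact Or.inl ⟨hω, hGV⟩
    · right
      by_contra hcon
      simp only [Set.mem_iUnion, Set.mem_ofPred_eq, not_exists, not_le] at hcon
      apply hGV
      have e1 : G ω = ∑ q₂ ∈ Finset.range 8, ∑ j ∈ ((B.filter fun k => J k % 8 = q).image J).filter (fun j => I' j % 8 = q₂),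
          VV57 ν (Fm l₁ q) ((B.filter fun k => J k % 8 = q).filter fun k => J k = j) T ω := by
        rw [hG]
        simp only
        rw [Finset.sum_fiberwise_of_maps_to]
        intro j _
        exact Finset.mem_range.2 (Nat.mod_lt _ (by norm_num))
      rw [e1]
      calc ∑ q₂ ∈ Finset.range 8, ∑ j ∈ ((B.filter fun k => J k % 8 = q).image J).filter (fun j => I' j % 8 = q₂),
          VV57 ν (Fm l₁ q) ((B.filter fun k => J k % 8 = q).filter fun k => J k = j) T ω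
          ≤ ∑ _q₂ ∈ Finset.range 8, (2 * (E * M ^ 2) + n₂ * n₁ * M ^ 2 * s) :=
            Finset.sum_le_sum fun q₂ hq₂ => (hcon q₂ hq₂).le
        _ = 16 * (E * M ^ 2) + 8 * (n₂ * n₁ * M ^ 2 * s) := by
            rw [Finset.sum_const, nsmul_eq_mul]
            simp only [Finset.card_range]
            push_cast
            ring
        _ ≤ V := by
            rw [hV, hD]
            have f1 : E * M ^ 2 ≤ s * (E * M ^ 2) := le_mul_of_one_le_left (by positivity) hs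
            have f2 : 0 ≤ n₂ * n₁ * M ^ 2 * s := by positivity
            have f3 : 0 ≤ s * n₁ ^ 2 * M ^ 2 := by positivity
            nlinarith
  have hA := lev1_57 (ν := ν) hR hm hM hT hδ h1 hn₁ (V := V) (s := 40 * M * s * sqrt D) (by positivity) q
  have hexp : 4 * exp (-((40 * M * s * sqrt D) ^ 2 / (16 * (V + n₁ * M * (40 * M * s * sqrt D))))) ≤ 4 * exp (-s) := by
    refine mul_le_mul_of_nonneg_left (exp_le_exp.2 (neg_le_neg ?_)) (by norm_num)
    rw [le_div_iff₀ (by rw [hV]; positivity), hV]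
    have g1 : (40 * M * s * sqrt D) ^ 2 = 1600 * (M ^ 2 * s ^ 2 * D) := by
      rw [mul_pow, mul_pow, mul_pow, hsq]
      ring
    have g2 : n₁ * sqrt D ≤ D := by
      calc n₁ * sqrt D ≤ sqrt D * sqrt D := mul_le_mul_of_nonneg_right hnD hsq0.le
        _ = D := by rw [← sq, hsq]
    have g3 : s * (16 * (16 * s * D * M ^ 2 + n₁ * M * (40 * M * s * sqrt D))) =
        256 * (M ^ 2 * s ^ 2 * D) + 640 * (M ^ 2 * s ^ 2) * (n₁ * sqrt D) := by ring
    rw [g1, g3]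
    have g4 : 640 * (M ^ 2 * s ^ 2) * (n₁ * sqrt D) ≤ 640 * (M ^ 2 * s ^ 2) * D := mul_le_mul_of_nonneg_left g2 (by positivity)
    have g5 : 0 ≤ M ^ 2 * s ^ 2 * D := by positivity
    nlinarith
  calc (PP ν).real {ω | M * B.card * δ + 40 * M * s * sqrt D ≤ ‖∑ k ∈ B.filter (fun k => J k % 8 = q), T k ω‖}
      ≤ _ := measureReal_mono hsub (measure_ne_top _ _)
    _ ≤ _ := measureReal_union_le _ _
    _ ≤ 4 * exp (-s) + ∑ q₂ ∈ Finset.range 8, exp (-s) := by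
        refine add_le_add ?_ ?_
        · rw [hG]
          exact hA.trans hexp
        · refine (measureReal_biUnion_finset_le _ _).trans (Finset.sum_le_sum fun q₂ _ => ?_)
          exact lev2_57 hl hR₂ hm hM hT h1 hn₁ h2 hn₂ hE hs q q₂
    _ = 12 * exp (-s) := by
        rw [Finset.sum_const, nsmul_eq_mul]
        simp only [Finset.card_range]
        push_cast
        ring

theorem two_level {κ : Type} [DecidableEq κ] {B : Finset κ} {T : κ → Om → ℂ} {l₁ l₂ : ℕ} (hl : l₁ ≠ l₂) {J : κ → ℕ} {I' : ℕ → ℕ} {a b a₂ b₂ : κ → ℝ}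
    (hR : Rep B T l₁ J a b) (hR₂ : Rep B T l₂ (fun k => I' (J k)) a₂ b₂)
    (hm : ∀ k ∈ B, Measurable (T k)) {M δ n₁ n₂ E s : ℝ} (hM : 0 < M) (hT : ∀ k ∈ B, ∀ ω, ‖T k ω‖ ≤ M) (hδ : ∀ k ∈ B, ‖ch ν (a k)‖ ≤ δ)
    (h1 : 0 < n₁) (hn₁ : ∀ j, ((B.filter fun k => J k = j).card : ℝ) ≤ n₁) (h2 : 0 < n₂) (hn₂ : ∀ i, ((B.filter fun k => I' (J k) = i).card : ℝ) ≤ n₂)
    (hE : ∑ k ∈ B, ∑ k' ∈ B.filter (fun k' => J k' = J k), ‖ch ν (a₂ k - a₂ k')‖ * ‖ch ν (b₂ k - b₂ k')‖ ≤ E) (hs : 1 ≤ s) :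
    (PP ν).real {ω | 8 * (M * B.card * δ + 40 * M * s * sqrt (E + n₂ * n₁ + n₁ ^ 2)) ≤ ‖∑ k ∈ B, T k ω‖} ≤ 100 * exp (-s) := by
  have hsub : {ω | 8 * (M * B.card * δ + 40 * M * s * sqrt (E + n₂ * n₁ + n₁ ^ 2)) ≤ ‖∑ k ∈ B, T k ω‖} ⊆
      ⋃ q ∈ Finset.range 8, {ω | M * B.card * δ + 40 * M * s * sqrt (E + n₂ * n₁ + n₁ ^ 2) ≤ ‖∑ k ∈ B.filter (fun k => J k % 8 = q), T k ω‖} := by
    intro ω hω
    simp only [Set.mem_ofPred_eq] at hω
    by_contra hcon
    simp only [Set.mem_iUnion, Set.mem_ofPred_eq, not_exists, not_le] at hcon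
    have h7 : ∑ k ∈ B, T k ω = ∑ q ∈ Finset.range 8, ∑ k ∈ B.filter (fun k => J k % 8 = q), T k ω := by
      rw [Finset.sum_fiberwise_of_maps_to]
      intro k _
      exact Finset.mem_range.2 (Nat.mod_lt _ (by norm_num))
    have h8 : ‖∑ k ∈ B, T k ω‖ < 8 * (M * B.card * δ + 40 * M * s * sqrt (E + n₂ * n₁ + n₁ ^ 2)) := by
      rw [h7]
      calc ‖∑ q ∈ Finset.range 8, ∑ k ∈ B.filter (fun k => J k % 8 = q), T k ω‖
          ≤ ∑ q ∈ Finset.range 8, ‖∑ k ∈ B.filter (fun k => J k % 8 = q), T k ω‖ := norm_sum_le _ _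
        _ < ∑ _q ∈ Finset.range 8, (M * B.card * δ + 40 * M * s * sqrt (E + n₂ * n₁ + n₁ ^ 2)) := by
            apply Finset.sum_lt_sum_of_nonempty
            · exact ⟨0, by simp⟩
            · intro q hq
              exact hcon q hq
        _ = 8 * (M * B.card * δ + 40 * M * s * sqrt (E + n₂ * n₁ + n₁ ^ 2)) := by
            rw [Finset.sum_const, nsmul_eq_mul]
            simp
    exact absurd hω (not_le.2 h8)
  calc (PP ν).real {ω | 8 * (M * B.card * δ + 40 * M * s * sqrt (E + n₂ * n₁ + n₁ ^ 2)) ≤ ‖∑ k ∈ B, T k ω‖}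
      ≤ (PP ν).real (⋃ q ∈ Finset.range 8, {ω | M * B.card * δ + 40 * M * s * sqrt (E + n₂ * n₁ + n₁ ^ 2) ≤
          ‖∑ k ∈ B.filter (fun k => J k % 8 = q), T k ω‖}) :=
        measureReal_mono hsub (measure_ne_top _ _)
    _ ≤ ∑ q ∈ Finset.range 8, (PP ν).real {ω | M * B.card * δ + 40 * M * s * sqrt (E + n₂ * n₁ + n₁ ^ 2) ≤
          ‖∑ k ∈ B.filter (fun k => J k % 8 = q), T k ω‖} :=
        measureReal_biUnion_finset_le _ _
    _ ≤ ∑ _q ∈ Finset.range 8, 12 * exp (-s) :=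
        Finset.sum_le_sum fun q _ => fam57 hl hR hR₂ hm hM hT hδ h1 hn₁ h2 hn₂ hE hs q
    _ ≤ 100 * exp (-s) := by
        rw [Finset.sum_const, nsmul_eq_mul]
        simp only [Finset.card_range]
        push_cast
        have := exp_pos (-s)
        linarith

end Pool.Agent.Helper93.AO
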