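import Pool.Agent.Helper93.AO.Term
import Pool.Agent.Helper93.AO.Sec
import Pool.Agent.Helper93.AO.Rect
import Pool.Agent.Helper93.AO.Two

/-!
# AO-HIGH: the high frequencies at one point of the parameter space

`N = 2^n`, `p/50 ≤ n ≤ (1/2 + 1/1000) p`, `e = 1/200`. `l₁` = the largest `l` with `21 l ≤ (1 - e) p + n`, `l₂ = n / 8` (so `16^l₂ ≤ 2^(n/2) < 16 · 16^l₂`); `l₂ < l₁` for large `p`. `J k = idx l₁ (pos f α k)`, `I' j = idx l₂ (th l₁ j)`,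
`tm_rep` at both levels (`idx_near`, `idx_nest`). Mean: `|pos - th l₁ (J k)| ≤ π/(4·16^l₁)` modulo `2π` (use `idx_near`: `|sin (./2)|` small), `|α| ≤ 1`, so `|pu (th l₁ (J k)) (fk f k)| = nr |cos (tr - th)| ≥ nr/4`, `a k ≥ c |τ| 2^(p + n - 21 l₁) ≥ c' 2^(e p)`,
`Rapid` with exponent `n₀` large: `δ ≤ C 2^(-n₀ e p) ≤ 2^(-3p)`. `n₁ = C (N² 16^(-l₁) + N)`, `n₂ = C (N² 16^(-l₂) + N)` (`sec_card` with `idx_close`, `idx_nest_close`; `sin` is odd). `E = C N² ((1 + Y/|A₁|)(1 + Y/|A₂|) + 1)`, `Y = 2^(e p)`,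
`A₁ = τ r/2^(21 l₂)`, `A₂ = 16^l₂ A₁` (`pair_sum` with `δ = 2^(-3p)`; `k, k'` with `J k = J k'` have the same `th l₂ (I' (J k))`).
Exponents of 2 (with `x = n`, `y = p`): `n₁²`: `4x - (8/21)(x + y - e y)` and `2x`; `n₂ n₁`: `(7/2) x - (4/21)(x + y - e y)` and `(5/2) x`; `E`: `2x`, `2x + (21/8) x - y + e y`, `2x + (17/8) x - y + e y`, `2x + (38/8) x - 2y + 2 e y`.
All are `≤ 3x - (7/1000) y` up to constants (at `x = y/2` the margins are `.071, .036, .19, .125`; for `x` near `y/50`: `x/2 ≥ .01 y`). `s = 2^(p/1000)`: `8 (M #B δ + 40 M s √D) ≤ 2^(3n/2 - p/1000)`; `100 exp (-s)`: take `s = 2 · 2^(p/1000)`.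
-/

open MeasureTheory Real Set Filter Topology

set_option autoImplicit false

namespace Pool.Agent.Helper93.AO

open Pool.Agent.Helper22.AE (ee rho)
open Pool.Agent.Helper22.AC (ga)
open Pool.Agent.Helper92.GC (dt sqa)
open Pool.Agent.Helper22.LP (Fr fk fdet nr tr hom LS wr Hf)
open Pool.Agent.Helper92.LA (Fb)

private lemma mul77 (a b : ℝ) : (2 : ℝ) ^ a * (2 : ℝ) ^ b = (2 : ℝ) ^ (a + b) := (Real.rpow_add (by norm_num) a b).symm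

private lemma le77 {a b : ℝ} (h : a ≤ b) : (2 : ℝ) ^ a ≤ (2 : ℝ) ^ b := Real.rpow_le_rpow_of_exponent_le (by norm_num) h

private lemma pos77 (a : ℝ) : 0 < (2 : ℝ) ^ a := Real.rpow_pos_of_pos (by norm_num) a

private lemma nat77 (n : ℕ) : (2 : ℝ) ^ n = (2 : ℝ) ^ (n : ℝ) := (Real.rpow_natCast 2 n).symm

private lemma big77 (Q : ℝ) {c : ℝ} (hc : 0 < c) : ∃ p₀ : ℕ, ∀ p : ℕ, p₀ ≤ p → Q ≤ (2 : ℝ) ^ (c * p) := by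
  obtain ⟨m, hm⟩ := pow_unbounded_of_one_lt Q (by norm_num : (1 : ℝ) < 2)
  obtain ⟨p₀, hp₀⟩ := exists_nat_ge ((m : ℝ) / c)
  refine ⟨p₀, fun p hp => hm.le.trans ?_⟩
  rw [nat77]
  refine le77 ?_
  have h1 : (p₀ : ℝ) ≤ p := by exact_mod_cast hp
  have h2 : (m : ℝ) / c ≤ p := hp₀.trans h1
  rw [div_le_iff₀ hc] at h2
  linarith

private lemma decay77 {ν : Measure J1} (hν : Rapid ν) {c : ℝ} (hc : 0 < c) : ∃ p₀ : ℕ, ∀ p : ℕ, p₀ ≤ p → ∀ u : ℝ, c * (2 : ℝ) ^ ((p : ℝ) / 200) ≤ |u| →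
    ‖ch ν u‖ ≤ (2 : ℝ) ^ (-(3 * (p : ℝ))) := by
  obtain ⟨C, hC⟩ := hν 800
  have hC0 : 0 ≤ C := by
    have h := hC 0
    simp only [abs_zero, add_zero, one_pow, div_one] at h
    exact (norm_nonneg _).trans h
  obtain ⟨p₀, hp₀⟩ := big77 (C / c ^ 800) one_pos
  refine ⟨p₀, fun p hp u hu => (hC u).trans ?_⟩
  have h1 := hp₀ p hp
  rw [one_mul] at h1
  have h2 : 0 < c * (2 : ℝ) ^ ((p : ℝ) / 200) := mul_pos hc (pos77 _)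
  have h3 : (c * (2 : ℝ) ^ ((p : ℝ) / 200)) ^ 800 ≤ (1 + |u|) ^ 800 := pow_le_pow_left₀ h2.le (by linarith) 800
  have h4 : (c * (2 : ℝ) ^ ((p : ℝ) / 200)) ^ 800 = c ^ 800 * (2 : ℝ) ^ (4 * (p : ℝ)) := by
    rw [mul_pow, ← Real.rpow_natCast ((2 : ℝ) ^ ((p : ℝ) / 200)) 800, ← Real.rpow_mul (by norm_num)]
    congr 2
    push_cast
    ring
  have h5 : 0 < c ^ 800 := pow_pos hc 800
  calc C / (1 + |u|) ^ 800 ≤ C / (c ^ 800 * (2 : ℝ) ^ (4 * (p : ℝ))) := by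
        rw [← h4]
        exact div_le_div_of_nonneg_left hC0 (pow_pos h2 800) h3
    _ = C / c ^ 800 / (2 : ℝ) ^ (4 * (p : ℝ)) := by rw [div_div]
    _ ≤ (2 : ℝ) ^ (p : ℝ) / (2 : ℝ) ^ (4 * (p : ℝ)) := div_le_div_of_nonneg_right h1 (pos77 _).le
    _ = (2 : ℝ) ^ (-(3 * (p : ℝ))) := by
      rw [← Real.rpow_sub (by norm_num)]
      congr 1
      ring

/-- the last step: the bound of `two_level` is below the threshold -/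
private lemma fin77 {B₀ C₄ C₅ : ℝ} (hB : 0 ≤ B₀) (h4 : 0 ≤ C₄) (h5 : 0 ≤ C₅) : ∃ p₀ : ℕ, ∀ p : ℕ, p₀ ≤ p → ∀ x : ℝ, 0 ≤ x → x ≤ p →
    ∀ D : ℝ, D ≤ C₄ * (2 : ℝ) ^ (3 * x - 7 / 1000 * p) → ∀ b : ℝ, b ≤ C₅ * (2 : ℝ) ^ (2 * x) →
      8 * (B₀ * b * (2 : ℝ) ^ (-(3 * (p : ℝ))) + 40 * B₀ * (2 * (2 : ℝ) ^ ((p : ℝ) / 1000)) * sqrt D) ≤ (2 : ℝ) ^ (3 / 2 * x - p / 1000) := by
  obtain ⟨p₀, hp₀⟩ := big77 (8 * (B₀ * C₅ + 80 * B₀ * sqrt C₄)) (by norm_num : (0 : ℝ) < 3 / 2000)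
  refine ⟨p₀, fun p hp x hx0 hxp D hD b hb => ?_⟩
  have h1 := hp₀ p hp
  have hp0 : (0 : ℝ) ≤ p := Nat.cast_nonneg p
  have hs : sqrt D ≤ sqrt C₄ * (2 : ℝ) ^ (3 / 2 * x - 7 / 2000 * p) := by
    have e : C₄ * (2 : ℝ) ^ (3 * x - 7 / 1000 * p) = (sqrt C₄ * (2 : ℝ) ^ (3 / 2 * x - 7 / 2000 * p)) ^ 2 := by
      rw [mul_pow, Real.sq_sqrt h4, sq, mul77]
      congr 2
      ring
    rw [e] at hD
    calc sqrt D ≤ sqrt ((sqrt C₄ * (2 : ℝ) ^ (3 / 2 * x - 7 / 2000 * p)) ^ 2) := Real.sqrt_le_sqrt hD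
      _ = sqrt C₄ * (2 : ℝ) ^ (3 / 2 * x - 7 / 2000 * p) := Real.sqrt_sq (mul_nonneg (Real.sqrt_nonneg _) (pos77 _).le)
  have hW : (2 : ℝ) ^ (2 * x) * (2 : ℝ) ^ (-(3 * (p : ℝ))) ≤ (2 : ℝ) ^ (3 / 2 * x - p / 1000 - 3 / 2000 * p) := by
    rw [mul77]
    exact le77 (by linarith)
  have hV : (2 : ℝ) ^ ((p : ℝ) / 1000) * (2 : ℝ) ^ (3 / 2 * x - 7 / 2000 * p) ≤ (2 : ℝ) ^ (3 / 2 * x - p / 1000 - 3 / 2000 * p) := by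
    rw [mul77]
    exact le77 (by linarith)
  have hg : (2 : ℝ) ^ (3 / 2000 * (p : ℝ)) * (2 : ℝ) ^ (3 / 2 * x - p / 1000 - 3 / 2000 * p) = (2 : ℝ) ^ (3 / 2 * x - p / 1000) := by
    rw [mul77]
    congr 1
    ring
  have hsq := Real.sqrt_nonneg C₄
  calc 8 * (B₀ * b * (2 : ℝ) ^ (-(3 * (p : ℝ))) + 40 * B₀ * (2 * (2 : ℝ) ^ ((p : ℝ) / 1000)) * sqrt D)
      ≤ 8 * (B₀ * (C₅ * (2 : ℝ) ^ (2 * x)) * (2 : ℝ) ^ (-(3 * (p : ℝ))) +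
          40 * B₀ * (2 * (2 : ℝ) ^ ((p : ℝ) / 1000)) * (sqrt C₄ * (2 : ℝ) ^ (3 / 2 * x - 7 / 2000 * p))) := by
        have := (pos77 (-(3 * (p : ℝ)))).le
        have := (pos77 ((p : ℝ) / 1000)).le
        gcongr
    _ = 8 * (B₀ * C₅ * ((2 : ℝ) ^ (2 * x) * (2 : ℝ) ^ (-(3 * (p : ℝ)))) +
          80 * B₀ * sqrt C₄ * ((2 : ℝ) ^ ((p : ℝ) / 1000) * (2 : ℝ) ^ (3 / 2 * x - 7 / 2000 * p))) := by ring
    _ ≤ 8 * (B₀ * C₅ * (2 : ℝ) ^ (3 / 2 * x - p / 1000 - 3 / 2000 * p) + 80 * B₀ * sqrt C₄ * (2 : ℝ) ^ (3 / 2 * x - p / 1000 - 3 / 2000 * p)) := by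
        gcongr
    _ = (8 * (B₀ * C₅ + 80 * B₀ * sqrt C₄)) * (2 : ℝ) ^ (3 / 2 * x - p / 1000 - 3 / 2000 * p) := by ring
    _ ≤ (2 : ℝ) ^ (3 / 2000 * (p : ℝ)) * (2 : ℝ) ^ (3 / 2 * x - p / 1000 - 3 / 2000 * p) := by
        have := (pos77 (3 / 2 * x - p / 1000 - 3 / 2000 * p)).le
        gcongr
    _ = (2 : ℝ) ^ (3 / 2 * x - p / 1000) := hg

/-- the exponents -/
private lemma dle77 {C₂ C₃ T : ℝ} (hC₂ : 1 ≤ C₂) (hC₃ : 1 ≤ C₃) (hT : 1 ≤ T) {x y : ℝ} (hy : 0 ≤ y) (h1 : y / 50 ≤ x)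
    (h2 : x ≤ (1 / 2 + 1 / 1000) * y) {q₁ q₂ u₁ u₂ : ℝ} (hq1 : 0 ≤ q₁) (hq1' : q₁ ≤ 16 * (2 : ℝ) ^ (-(4 / 21 * (199 / 200 * y + x))))
    (hq2 : 0 ≤ q₂) (hq2' : q₂ ≤ 16 * (2 : ℝ) ^ (-(x / 2))) (hu1 : 0 ≤ u₁) (hu1' : u₁ ≤ T * (2 : ℝ) ^ (21 / 8 * x - y + y / 200))
    (hu2 : 0 ≤ u₂) (hu2' : u₂ ≤ T * (2 : ℝ) ^ (17 / 8 * x - y + y / 200)) :
    2 * C₂ * (2 : ℝ) ^ (2 * x) * (C₃ * ((1 + u₁) * (1 + u₂) + (2 : ℝ) ^ (2 * x) * (2 : ℝ) ^ (-(3 * y)))) +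
      (C₂ * ((2 : ℝ) ^ (2 * x) * (4 * q₂) + (2 : ℝ) ^ x)) * (C₂ * ((2 : ℝ) ^ (2 * x) * (2 * q₁) + (2 : ℝ) ^ x)) +
      (C₂ * ((2 : ℝ) ^ (2 * x) * (2 * q₁) + (2 : ℝ) ^ x)) ^ 2 ≤ (4195 * C₂ ^ 2 + 10 * C₂ * C₃ * T ^ 2) * (2 : ℝ) ^ (3 * x - 7 / 1000 * y) := by
  set G : ℝ := (2 : ℝ) ^ (3 * x - 7 / 1000 * y) with hG
  have hG0 : 0 < G := pos77 _
  have hx0 : 0 ≤ x := by linarith
  have hA := pos77 (2 * x)
  have hB := pos77 x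
  -- the first count
  have hn1 : (2 : ℝ) ^ (2 * x) * (2 * q₁) + (2 : ℝ) ^ x ≤ 32 * (2 : ℝ) ^ (2 * x - 4 / 21 * (199 / 200 * y + x)) + (2 : ℝ) ^ x := by
    have : (2 : ℝ) ^ (2 * x) * (2 * q₁) ≤ (2 : ℝ) ^ (2 * x) * (2 * (16 * (2 : ℝ) ^ (-(4 / 21 * (199 / 200 * y + x))))) := by gcongr
    have e : (2 : ℝ) ^ (2 * x) * (2 * (16 * (2 : ℝ) ^ (-(4 / 21 * (199 / 200 * y + x))))) = 32 * (2 : ℝ) ^ (2 * x - 4 / 21 * (199 / 200 * y + x)) := by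
      rw [sub_eq_add_neg, ← mul77]
      ring
    linarith
  have hn1' : 0 ≤ (2 : ℝ) ^ (2 * x) * (2 * q₁) + (2 : ℝ) ^ x := by positivity
  -- the second count
  have hn2 : (2 : ℝ) ^ (2 * x) * (4 * q₂) + (2 : ℝ) ^ x ≤ 65 * (2 : ℝ) ^ (3 / 2 * x) := by
    have : (2 : ℝ) ^ (2 * x) * (4 * q₂) ≤ (2 : ℝ) ^ (2 * x) * (4 * (16 * (2 : ℝ) ^ (-(x / 2)))) := by gcongr
    have e : (2 : ℝ) ^ (2 * x) * (4 * (16 * (2 : ℝ) ^ (-(x / 2)))) = 64 * (2 : ℝ) ^ (3 / 2 * x) := by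
      have : (2 : ℝ) ^ (3 / 2 * x) = (2 : ℝ) ^ (2 * x) * (2 : ℝ) ^ (-(x / 2)) := by
        rw [mul77]
        congr 1
        ring
      rw [this]
      ring
    have h3 : (2 : ℝ) ^ x ≤ (2 : ℝ) ^ (3 / 2 * x) := le77 (by linarith)
    linarith
  have hn2' : 0 ≤ (2 : ℝ) ^ (2 * x) * (4 * q₂) + (2 : ℝ) ^ x := by positivity
  -- the square
  have g1 : (2 : ℝ) ^ (2 * x - 4 / 21 * (199 / 200 * y + x)) * (2 : ℝ) ^ (2 * x - 4 / 21 * (199 / 200 * y + x)) ≤ G := by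
    rw [mul77]
    exact le77 (by linarith)
  have g2 : (2 : ℝ) ^ x * (2 : ℝ) ^ x ≤ G := by
    rw [mul77]
    exact le77 (by linarith)
  have hsq : (C₂ * ((2 : ℝ) ^ (2 * x) * (2 * q₁) + (2 : ℝ) ^ x)) ^ 2 ≤ 2050 * C₂ ^ 2 * G := by
    have e1 : ((2 : ℝ) ^ (2 * x) * (2 * q₁) + (2 : ℝ) ^ x) ^ 2 ≤ (32 * (2 : ℝ) ^ (2 * x - 4 / 21 * (199 / 200 * y + x)) + (2 : ℝ) ^ x) ^ 2 :=
      pow_le_pow_left₀ hn1' hn1 2
    have e2 : (32 * (2 : ℝ) ^ (2 * x - 4 / 21 * (199 / 200 * y + x)) + (2 : ℝ) ^ x) ^ 2 ≤ 2050 * G := by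
      nlinarith [sq_nonneg (32 * (2 : ℝ) ^ (2 * x - 4 / 21 * (199 / 200 * y + x)) - (2 : ℝ) ^ x)]
    rw [mul_pow]
    have := mul_le_mul_of_nonneg_left (e1.trans e2) (sq_nonneg C₂)
    linarith
  -- the product
  have g3 : (2 : ℝ) ^ (3 / 2 * x) * (2 : ℝ) ^ (2 * x - 4 / 21 * (199 / 200 * y + x)) ≤ G := by
    rw [mul77]
    exact le77 (by linarith)
  have g4 : (2 : ℝ) ^ (3 / 2 * x) * (2 : ℝ) ^ x ≤ G := by
    rw [mul77]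
    exact le77 (by linarith)
  have hpr : (C₂ * ((2 : ℝ) ^ (2 * x) * (4 * q₂) + (2 : ℝ) ^ x)) * (C₂ * ((2 : ℝ) ^ (2 * x) * (2 * q₁) + (2 : ℝ) ^ x)) ≤ 2145 * C₂ ^ 2 * G := by
    have e1 : ((2 : ℝ) ^ (2 * x) * (4 * q₂) + (2 : ℝ) ^ x) * ((2 : ℝ) ^ (2 * x) * (2 * q₁) + (2 : ℝ) ^ x) ≤
        (65 * (2 : ℝ) ^ (3 / 2 * x)) * (32 * (2 : ℝ) ^ (2 * x - 4 / 21 * (199 / 200 * y + x)) + (2 : ℝ) ^ x) :=
      mul_le_mul hn2 hn1 hn1' (by have := pos77 (3 / 2 * x); positivity)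
    have e2 : (65 * (2 : ℝ) ^ (3 / 2 * x)) * (32 * (2 : ℝ) ^ (2 * x - 4 / 21 * (199 / 200 * y + x)) + (2 : ℝ) ^ x) ≤ 2145 * G := by
      nlinarith
    have := mul_le_mul_of_nonneg_left (e1.trans e2) (sq_nonneg C₂)
    calc (C₂ * ((2 : ℝ) ^ (2 * x) * (4 * q₂) + (2 : ℝ) ^ x)) * (C₂ * ((2 : ℝ) ^ (2 * x) * (2 * q₁) + (2 : ℝ) ^ x)) =
        C₂ ^ 2 * (((2 : ℝ) ^ (2 * x) * (4 * q₂) + (2 : ℝ) ^ x) * ((2 : ℝ) ^ (2 * x) * (2 * q₁) + (2 : ℝ) ^ x)) := by ring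
      _ ≤ C₂ ^ 2 * (2145 * G) := this
      _ = 2145 * C₂ ^ 2 * G := by ring
  -- the energy
  have hT2 : 1 ≤ T ^ 2 := one_le_pow₀ hT
  have hTT : T ≤ T ^ 2 := by nlinarith
  have k1 : (2 : ℝ) ^ (2 * x) ≤ G := le77 (by linarith)
  have k2 : (2 : ℝ) ^ (2 * x) * u₁ ≤ T * G := by
    have e1 : (2 : ℝ) ^ (2 * x) * u₁ ≤ (2 : ℝ) ^ (2 * x) * (T * (2 : ℝ) ^ (21 / 8 * x - y + y / 200)) := by gcongr
    have e2 : (2 : ℝ) ^ (2 * x) * (2 : ℝ) ^ (21 / 8 * x - y + y / 200) ≤ G := by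
      rw [mul77]
      exact le77 (by linarith)
    nlinarith
  have k3 : (2 : ℝ) ^ (2 * x) * u₂ ≤ T * G := by
    have e1 : (2 : ℝ) ^ (2 * x) * u₂ ≤ (2 : ℝ) ^ (2 * x) * (T * (2 : ℝ) ^ (17 / 8 * x - y + y / 200)) := by gcongr
    have e2 : (2 : ℝ) ^ (2 * x) * (2 : ℝ) ^ (17 / 8 * x - y + y / 200) ≤ G := by
      rw [mul77]
      exact le77 (by linarith)
    nlinarith
  have k4 : (2 : ℝ) ^ (2 * x) * (u₁ * u₂) ≤ T ^ 2 * G := by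
    have e0 : u₁ * u₂ ≤ (T * (2 : ℝ) ^ (21 / 8 * x - y + y / 200)) * (T * (2 : ℝ) ^ (17 / 8 * x - y + y / 200)) :=
      mul_le_mul hu1' hu2' hu2 (hu1.trans hu1')
    have e1 : (2 : ℝ) ^ (2 * x) * (u₁ * u₂) ≤ (2 : ℝ) ^ (2 * x) * ((T * (2 : ℝ) ^ (21 / 8 * x - y + y / 200)) * (T * (2 : ℝ) ^ (17 / 8 * x - y + y / 200))) := by
      gcongr
    have e2 : (2 : ℝ) ^ (2 * x) * ((2 : ℝ) ^ (21 / 8 * x - y + y / 200) * (2 : ℝ) ^ (17 / 8 * x - y + y / 200)) ≤ G := by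
      rw [mul77, mul77]
      exact le77 (by linarith)
    have e3 := mul_le_mul_of_nonneg_left e2 (sq_nonneg T)
    calc (2 : ℝ) ^ (2 * x) * (u₁ * u₂) ≤ _ := e1
      _ = T ^ 2 * ((2 : ℝ) ^ (2 * x) * ((2 : ℝ) ^ (21 / 8 * x - y + y / 200) * (2 : ℝ) ^ (17 / 8 * x - y + y / 200))) := by ring
      _ ≤ T ^ 2 * G := e3
  have k5 : (2 : ℝ) ^ (2 * x) * ((2 : ℝ) ^ (2 * x) * (2 : ℝ) ^ (-(3 * y))) ≤ G := by
    rw [mul77, mul77]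
    exact le77 (by linarith)
  have hTG : T * G ≤ T ^ 2 * G := mul_le_mul_of_nonneg_right hTT hG0.le
  have hG1 : G ≤ T ^ 2 * G := le_mul_of_one_le_left hG0.le hT2
  have hEn : 2 * C₂ * (2 : ℝ) ^ (2 * x) * (C₃ * ((1 + u₁) * (1 + u₂) + (2 : ℝ) ^ (2 * x) * (2 : ℝ) ^ (-(3 * y)))) ≤ 10 * C₂ * C₃ * T ^ 2 * G := by
    have e1 : (2 : ℝ) ^ (2 * x) * ((1 + u₁) * (1 + u₂) + (2 : ℝ) ^ (2 * x) * (2 : ℝ) ^ (-(3 * y))) ≤ 5 * (T ^ 2 * G) := by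
      have : (2 : ℝ) ^ (2 * x) * ((1 + u₁) * (1 + u₂) + (2 : ℝ) ^ (2 * x) * (2 : ℝ) ^ (-(3 * y))) = (2 : ℝ) ^ (2 * x) + (2 : ℝ) ^ (2 * x) * u₁ +
          (2 : ℝ) ^ (2 * x) * u₂ + (2 : ℝ) ^ (2 * x) * (u₁ * u₂) + (2 : ℝ) ^ (2 * x) * ((2 : ℝ) ^ (2 * x) * (2 : ℝ) ^ (-(3 * y))) := by ring
      linarith
    have e2 : 0 ≤ 2 * C₂ * C₃ := by positivity
    calc 2 * C₂ * (2 : ℝ) ^ (2 * x) * (C₃ * ((1 + u₁) * (1 + u₂) + (2 : ℝ) ^ (2 * x) * (2 : ℝ) ^ (-(3 * y)))) =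
        2 * C₂ * C₃ * ((2 : ℝ) ^ (2 * x) * ((1 + u₁) * (1 + u₂) + (2 : ℝ) ^ (2 * x) * (2 : ℝ) ^ (-(3 * y)))) := by ring
      _ ≤ 2 * C₂ * C₃ * (5 * (T ^ 2 * G)) := mul_le_mul_of_nonneg_left e1 e2
      _ = 10 * C₂ * C₃ * T ^ 2 * G := by ring
  linarith

private lemma pu77 (v : ℝ × ℝ) (θ : ℝ) : nr v * cos (tr v - θ) = pu θ v := by
  have a1 : nr v * cos (tr v) = v.1 := Complex.norm_mul_cos_arg (Helper22.LP.cp v)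
  have a2 : nr v * sin (tr v) = v.2 := Complex.norm_mul_sin_arg (Helper22.LP.cp v)
  unfold pu
  rw [cos_sub, mul_add, ← mul_assoc, ← mul_assoc, a1, a2]

private lemma cos77 {t α θ : ℝ} (hα : |α| ≤ 1) (h : |sin ((t + α - θ) / 2)| ≤ 1 / 40) : 1 / 4 ≤ cos (t - θ) := by
  set d : ℝ := t + α - θ with hd
  have e : cos (t - θ) = cos d * cos α + sin d * sin α := by
    rw [← cos_sub]
    congr 1
    rw [hd]
    ring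
  have h1 : cos d = 1 - 2 * sin (d / 2) ^ 2 := by
    have := Real.cos_sq' (d / 2)
    have h2 := Real.cos_two_mul (d / 2)
    rw [show 2 * (d / 2) = d by ring] at h2
    rw [h2, this]
    ring
  have h2 : |sin d| ≤ 1 / 20 := by
    have h3 := Real.sin_two_mul (d / 2)
    rw [show 2 * (d / 2) = d by ring] at h3
    rw [h3, abs_mul, abs_mul, abs_of_pos (by norm_num : (0 : ℝ) < 2)]
    have h4 := abs_cos_le_one (d / 2)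
    have h5 := abs_nonneg (cos (d / 2))
    have h6 := abs_nonneg (sin (d / 2))
    nlinarith
  have h3 : 1 / 2 ≤ cos α := by
    have := Real.one_sub_sq_div_two_le_cos (x := α)
    have h4 : α ^ 2 ≤ 1 := by
      rw [← sq_abs]
      have := abs_nonneg α
      nlinarith
    linarith
  have h4 : sin (d / 2) ^ 2 ≤ 1 / 1600 := by
    rw [← sq_abs]
    have := abs_nonneg (sin (d / 2))
    nlinarith
  have h5 : |sin d * sin α| ≤ 1 / 20 := by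
    rw [abs_mul]
    have h6 := abs_sin_le_one α
    have h7 := abs_nonneg (sin d)
    have h8 := abs_nonneg (sin α)
    nlinarith
  have h6 := (abs_le.1 h5).1
  rw [e, h1]
  nlinarith [Real.cos_le_one α]

theorem high_pt {ν : Measure J1} [IsProbabilityMeasure ν] (hν : Rapid ν) {τ : ℝ} (hτ : τ ≠ 0) (K : ℝ) {M : ℝ} (hM : 1 ≤ M) :
    ∃ p₀ : ℕ, ∀ H₀ : ℝ → ℝ, ContDiff ℝ 3 H₀ → (∀ t, |rho H₀ t| ≤ K) → ∀ p : ℕ, p₀ ≤ p → ∀ n : ℕ, (p : ℝ) / 50 ≤ n → (n : ℝ) ≤ (1 / 2 + 1 / 1000) * p →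
      ∀ f : Fr, Fb M f → ∀ (α r : ℝ) (c : ℝ × ℝ) (i : ℕ), |α| ≤ 1 → 2 ^ p / 4 ≤ r → r ≤ 16 * 2 ^ p → i = 1 ∨ i = 2 →
        (PP ν).real {ω | (2 : ℝ) ^ (3 / 2 * n - p / 1000 : ℝ) ≤ ‖SS (Hx H₀ τ ω) f α r c i (2 ^ n)‖} ≤ exp (-(2 : ℝ) ^ (p / 1000 : ℝ)) := by
  classical
  obtain ⟨C₁, hC₁, hC₁'⟩ := sec_low hM
  obtain ⟨C₂, hC₂, hC₂'⟩ := sec_card hM
  obtain ⟨C₃, hC₃, hC₃'⟩ := pair_sum (ν := ν) hM
  obtain ⟨B₀, hB₀, hB₀'⟩ := tm_bd τ K hM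
  have hτ0 : 0 < |τ| := abs_pos.2 hτ
  obtain ⟨T, hT⟩ : ∃ T : ℝ, T = 1 + 4 / |τ| := ⟨_, rfl⟩
  have hT1 : 1 ≤ T := by
    have : 0 < 4 / |τ| := by positivity
    linarith
  have hT2 : 1 ≤ T * (|τ| / 4) := by
    have : T * (|τ| / 4) = |τ| / 4 + 1 := by
      rw [hT]
      field_simp
    rw [this]
    linarith
  obtain ⟨p₁, hp₁⟩ := decay77 hν (c := |τ| / (16 * C₁)) (by positivity)
  obtain ⟨p₂, hp₂⟩ := decay77 hν one_pos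
  obtain ⟨p₃, hp₃⟩ := fin77 (B₀ := B₀) (C₄ := 4195 * C₂ ^ 2 + 10 * C₂ * C₃ * T ^ 2) (C₅ := 2 * C₂) (by linarith) (by positivity) (by linarith)
  obtain ⟨p₄, hp₄⟩ := big77 (log 100) (by norm_num : (0 : ℝ) < 1 / 1000)
  refine ⟨p₁ + p₂ + p₃ + p₄ + 1000, fun H₀ h3 hK p hp n hn1 hn2 f hf α r c i hα hr1 hr2 hi => ?_⟩
  have hpR : (1000 : ℝ) ≤ p := by
    have : 1000 ≤ p := by omega
    exact_mod_cast this
  have hn0 : (0 : ℝ) ≤ n := Nat.cast_nonneg n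
  have hr0 : 0 < r := lt_of_lt_of_le (by positivity) hr1
  -- the levels
  obtain ⟨z, hz⟩ : ∃ z : ℝ, z = (199 / 200 * p + n) / 21 := ⟨_, rfl⟩
  have hz0 : 0 ≤ z := by rw [hz]; positivity
  obtain ⟨l₁, hl₁⟩ : ∃ l₁ : ℕ, l₁ = ⌊z⌋₊ := ⟨_, rfl⟩
  have hl1 : (l₁ : ℝ) ≤ z := by rw [hl₁]; exact Nat.floor_le hz0
  have hl1' : z < l₁ + 1 := by rw [hl₁]; exact Nat.lt_floor_add_one z
  obtain ⟨l₂, hl₂⟩ : ∃ l₂ : ℕ, l₂ = n / 8 := ⟨_, rfl⟩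
  have hl2 : 8 * (l₂ : ℝ) ≤ n := by
    have : 8 * l₂ ≤ n := by omega
    exact_mod_cast this
  have hl2' : (n : ℝ) ≤ 8 * l₂ + 7 := by
    have : n ≤ 8 * l₂ + 7 := by omega
    exact_mod_cast this
  have hl : l₂ < l₁ := by
    have : (l₂ : ℝ) < l₁ := by
      rw [hz] at hl1'
      linarith
    exact_mod_cast this
  have hl11 : 1 ≤ l₁ := by omega
  -- powers
  have hN1 : 1 ≤ 2 ^ n := Nat.one_le_two_pow
  have hNr : ((2 ^ n : ℕ) : ℝ) = (2 : ℝ) ^ (n : ℝ) := by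
    rw [Nat.cast_pow, Nat.cast_ofNat, nat77]
  have hN2 : ((2 ^ n : ℕ) : ℝ) ^ 2 = (2 : ℝ) ^ (2 * (n : ℝ)) := by
    rw [hNr, sq, mul77]
    congr 1
    ring
  have h16 : ∀ l : ℕ, (16 : ℝ) ^ l = (2 : ℝ) ^ (4 * (l : ℝ)) := by
    intro l
    rw [show (16 : ℝ) = 2 ^ 4 by norm_num, ← pow_mul, nat77]
    push_cast
    rfl
  have h21 : ∀ l : ℕ, (2 : ℝ) ^ (21 * l) = (2 : ℝ) ^ (21 * (l : ℝ)) := by
    intro l
    rw [nat77]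
    push_cast
    rfl
  have hpp : (2 : ℝ) ^ p = (2 : ℝ) ^ (p : ℝ) := nat77 p
  -- the data
  obtain ⟨J, hJ⟩ : ∃ J : ℤ × ℤ → ℕ, J = fun k => idx l₁ (pos f α k) := ⟨_, rfl⟩
  obtain ⟨I', hI'⟩ : ∃ I' : ℕ → ℕ, I' = fun j => idx l₂ (th l₁ j) := ⟨_, rfl⟩
  have hJk : ∀ k, J k = idx l₁ (pos f α k) := fun k => by rw [hJ]
  have hIk : ∀ j, I' j = idx l₂ (th l₁ j) := fun j => by rw [hI']
  have hR := tm_rep h3 τ f α r c i (2 ^ n) l₁ (B := sqa (2 ^ n)) (m := J) (fun k _ => by rw [hJk]; exact idx_lt _ _)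
    (fun k _ => by rw [hJk]; exact (idx_near _ _).trans (by norm_num))
  have hR₂ := tm_rep h3 τ f α r c i (2 ^ n) l₂ (B := sqa (2 ^ n)) (m := fun k => I' (J k)) (fun k _ => by rw [hIk]; exact idx_lt _ _)
    (fun k _ => by rw [hIk, hJk]; exact idx_nest hl.le _)
  -- the mean
  have hδ : ∀ k ∈ sqa (2 ^ n), ‖ch ν (τ * r / 2 ^ (21 * l₁) * pu (th l₁ (J k)) (fk f k))‖ ≤ (2 : ℝ) ^ (-(3 * (p : ℝ))) := by
    intro k hk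
    refine hp₁ p (by omega) _ ?_
    obtain ⟨b1, -⟩ := hC₁' f hf (2 ^ n) hN1 k hk
    have c1 : 1 / 4 ≤ cos (tr (fk f k) - th l₁ (J k)) := by
      refine cos77 hα ?_
      have h := idx_near l₁ (pos f α k)
      rw [← hJk k, abs_mul, abs_of_pos (by positivity)] at h
      have h16' : (16 : ℝ) ≤ 16 ^ l₁ := by
        calc (16 : ℝ) = 16 ^ 1 := (pow_one _).symm
          _ ≤ 16 ^ l₁ := pow_le_pow_right₀ (by norm_num) hl11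
      have h0 := abs_nonneg (sin ((pos f α k - th l₁ (J k)) / 2))
      unfold pos at h h0
      nlinarith
    have hnr : 0 ≤ nr (fk f k) := norm_nonneg _
    have c2 : (2 : ℝ) ^ (n : ℝ) / (4 * C₁) ≤ |pu (th l₁ (J k)) (fk f k)| := by
      refine le_trans ?_ (le_abs_self _)
      rw [← pu77, div_le_iff₀ (by positivity)]
      rw [hNr] at b1
      have : nr (fk f k) * (1 / 4) ≤ nr (fk f k) * cos (tr (fk f k) - th l₁ (J k)) := mul_le_mul_of_nonneg_left c1 hnr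
      nlinarith
    have c3 : |τ| * ((2 : ℝ) ^ (p : ℝ) / 4) * (2 : ℝ) ^ (-(21 * (l₁ : ℝ))) ≤ |τ * r / 2 ^ (21 * l₁)| := by
      rw [abs_div, abs_mul, abs_of_pos hr0, abs_of_pos (by positivity : (0 : ℝ) < 2 ^ (21 * l₁)), h21, Real.rpow_neg (by norm_num), ← div_eq_mul_inv]
      rw [hpp] at hr1
      have := pos77 (21 * (l₁ : ℝ))
      gcongr
    rw [abs_mul]
    calc |τ| / (16 * C₁) * (2 : ℝ) ^ ((p : ℝ) / 200) ≤ |τ| / (16 * C₁) * ((2 : ℝ) ^ (p : ℝ) * (2 : ℝ) ^ (-(21 * (l₁ : ℝ))) * (2 : ℝ) ^ (n : ℝ)) := by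
          refine mul_le_mul_of_nonneg_left ?_ (by positivity)
          rw [mul77, mul77]
          refine le77 ?_
          rw [hz] at hl1
          linarith
      _ = (|τ| * ((2 : ℝ) ^ (p : ℝ) / 4) * (2 : ℝ) ^ (-(21 * (l₁ : ℝ)))) * ((2 : ℝ) ^ (n : ℝ) / (4 * C₁)) := by
          have : C₁ ≠ 0 := by positivity
          field_simp
          norm_num
      _ ≤ |τ * r / 2 ^ (21 * l₁)| * |pu (th l₁ (J k)) (fk f k)| := by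
          have q1 := pos77 (n : ℝ)
          exact mul_le_mul c3 c2 (by positivity) (abs_nonneg _)
  -- the counts
  have hq1 : 2 / (16 : ℝ) ^ l₁ = 2 * (2 : ℝ) ^ (-(4 * (l₁ : ℝ))) := by
    rw [h16, Real.rpow_neg (by norm_num), ← div_eq_mul_inv]
  have hq2 : 4 / (16 : ℝ) ^ l₂ = 4 * (2 : ℝ) ^ (-(4 * (l₂ : ℝ))) := by
    rw [h16, Real.rpow_neg (by norm_num), ← div_eq_mul_inv]
  have hps : ∀ k k' : ℤ × ℤ, pos f α k - pos f α k' = tr (fk f k) - tr (fk f k') := fun k k' => by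
    unfold pos
    ring
  have hn₁ : ∀ j, (((sqa (2 ^ n)).filter fun k => J k = j).card : ℝ) ≤
      C₂ * ((2 : ℝ) ^ (2 * (n : ℝ)) * (2 * (2 : ℝ) ^ (-(4 * (l₁ : ℝ)))) + (2 : ℝ) ^ (n : ℝ)) := by
    intro j
    have h := hC₂' f hf (2 ^ n) hN1 ((sqa (2 ^ n)).filter fun k => J k = j) (Finset.filter_subset _ _) (2 / (16 : ℝ) ^ l₁) (by positivity)
      (fun k hk k' hk' => by
        have e1 := (Finset.mem_filter.1 hk).2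
        have e2 := (Finset.mem_filter.1 hk').2
        rw [hJk] at e1 e2
        have := (idx_close (e1.trans e2.symm)).1
        rwa [hps] at this)
    rwa [hN2, hNr, hq1] at h
  have hn₂ : ∀ i, (((sqa (2 ^ n)).filter fun k => I' (J k) = i).card : ℝ) ≤
      C₂ * ((2 : ℝ) ^ (2 * (n : ℝ)) * (4 * (2 : ℝ) ^ (-(4 * (l₂ : ℝ)))) + (2 : ℝ) ^ (n : ℝ)) := by
    intro j
    have h := hC₂' f hf (2 ^ n) hN1 ((sqa (2 ^ n)).filter fun k => I' (J k) = j) (Finset.filter_subset _ _) (4 / (16 : ℝ) ^ l₂) (by positivity)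
      (fun k hk k' hk' => by
        have e1 := (Finset.mem_filter.1 hk).2
        have e2 := (Finset.mem_filter.1 hk').2
        rw [hIk, hJk] at e1 e2
        have := idx_nest_close hl.le (e1.trans e2.symm)
        rwa [hps] at this)
    rwa [hN2, hNr, hq2] at h
  have hcard : ((sqa (2 ^ n)).card : ℝ) ≤ 2 * C₂ * (2 : ℝ) ^ (2 * (n : ℝ)) := by
    have h := hC₂' f hf (2 ^ n) hN1 (sqa (2 ^ n)) (Finset.Subset.refl _) 1 zero_le_one (fun k _ k' _ => abs_sin_le_one _)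
    rw [hN2, hNr, mul_one] at h
    have h2 : (2 : ℝ) ^ (n : ℝ) ≤ (2 : ℝ) ^ (2 * (n : ℝ)) := le77 (by linarith)
    have h3 : 0 ≤ C₂ := by linarith
    nlinarith
  -- the energy
  obtain ⟨A₁, hA₁⟩ : ∃ A₁ : ℝ, A₁ = τ * r / 2 ^ (21 * l₂) := ⟨_, rfl⟩
  obtain ⟨A₂, hA₂⟩ : ∃ A₂ : ℝ, A₂ = τ * r * 16 ^ l₂ / 2 ^ (21 * l₂) := ⟨_, rfl⟩
  have hA10 : A₁ ≠ 0 := by
    rw [hA₁]
    positivity
  have hA20 : A₂ ≠ 0 := by
    rw [hA₂]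
    positivity
  have hA1l : |τ| / 4 * (2 : ℝ) ^ ((p : ℝ) - 21 * l₂) ≤ |A₁| := by
    rw [hA₁, abs_div, abs_mul, abs_of_pos hr0, abs_of_pos (by positivity : (0 : ℝ) < 2 ^ (21 * l₂)), h21, Real.rpow_sub (by norm_num), mul_div_assoc']
    rw [hpp] at hr1
    have := pos77 (21 * (l₂ : ℝ))
    refine div_le_div_of_nonneg_right ?_ this.le
    nlinarith
  have hA2l : |τ| / 4 * (2 : ℝ) ^ ((p : ℝ) - 17 * l₂) ≤ |A₂| := by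
    have e : |A₂| = |A₁| * (2 : ℝ) ^ (4 * (l₂ : ℝ)) := by
      rw [hA₁, hA₂, ← h16, ← abs_of_pos (by positivity : (0 : ℝ) < (16 : ℝ) ^ l₂), ← abs_mul, abs_of_pos (by positivity : (0 : ℝ) < (16 : ℝ) ^ l₂)]
      congr 1
      ring
    rw [e]
    calc |τ| / 4 * (2 : ℝ) ^ ((p : ℝ) - 17 * l₂) = |τ| / 4 * (2 : ℝ) ^ ((p : ℝ) - 21 * l₂) * (2 : ℝ) ^ (4 * (l₂ : ℝ)) := by
          rw [mul_assoc, mul77]
          congr 2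
          ring
      _ ≤ |A₁| * (2 : ℝ) ^ (4 * (l₂ : ℝ)) := mul_le_mul_of_nonneg_right hA1l (pos77 _).le
  have hu1 : (2 : ℝ) ^ ((p : ℝ) / 200) / |A₁| ≤ T * (2 : ℝ) ^ (21 / 8 * (n : ℝ) - p + p / 200) := by
    rw [div_le_iff₀ (abs_pos.2 hA10)]
    calc (2 : ℝ) ^ ((p : ℝ) / 200) ≤ (2 : ℝ) ^ (21 / 8 * (n : ℝ) - p + p / 200) * (2 : ℝ) ^ ((p : ℝ) - 21 * l₂) := by
          rw [mul77]
          exact le77 (by linarith)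
      _ ≤ (T * (|τ| / 4)) * ((2 : ℝ) ^ (21 / 8 * (n : ℝ) - p + p / 200) * (2 : ℝ) ^ ((p : ℝ) - 21 * l₂)) :=
          le_mul_of_one_le_left (mul_nonneg (pos77 _).le (pos77 _).le) hT2
      _ = T * (2 : ℝ) ^ (21 / 8 * (n : ℝ) - p + p / 200) * (|τ| / 4 * (2 : ℝ) ^ ((p : ℝ) - 21 * l₂)) := by ring
      _ ≤ T * (2 : ℝ) ^ (21 / 8 * (n : ℝ) - p + p / 200) * |A₁| := mul_le_mul_of_nonneg_left hA1l (mul_nonneg (by linarith) (pos77 _).le)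
  have hu2 : (2 : ℝ) ^ ((p : ℝ) / 200) / |A₂| ≤ T * (2 : ℝ) ^ (17 / 8 * (n : ℝ) - p + p / 200) := by
    rw [div_le_iff₀ (abs_pos.2 hA20)]
    calc (2 : ℝ) ^ ((p : ℝ) / 200) ≤ (2 : ℝ) ^ (17 / 8 * (n : ℝ) - p + p / 200) * (2 : ℝ) ^ ((p : ℝ) - 17 * l₂) := by
          rw [mul77]
          exact le77 (by linarith)
      _ ≤ (T * (|τ| / 4)) * ((2 : ℝ) ^ (17 / 8 * (n : ℝ) - p + p / 200) * (2 : ℝ) ^ ((p : ℝ) - 17 * l₂)) :=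
          le_mul_of_one_le_left (mul_nonneg (pos77 _).le (pos77 _).le) hT2
      _ = T * (2 : ℝ) ^ (17 / 8 * (n : ℝ) - p + p / 200) * (|τ| / 4 * (2 : ℝ) ^ ((p : ℝ) - 17 * l₂)) := by ring
      _ ≤ T * (2 : ℝ) ^ (17 / 8 * (n : ℝ) - p + p / 200) * |A₂| := mul_le_mul_of_nonneg_left hA2l (mul_nonneg (by linarith) (pos77 _).le)
  obtain ⟨E, hEdef⟩ : ∃ E : ℝ, E = 2 * C₂ * (2 : ℝ) ^ (2 * (n : ℝ)) * (C₃ * ((1 + (2 : ℝ) ^ ((p : ℝ) / 200) / |A₁|) * (1 + (2 : ℝ) ^ ((p : ℝ) / 200) / |A₂|) +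
      (2 : ℝ) ^ (2 * (n : ℝ)) * (2 : ℝ) ^ (-(3 * (p : ℝ))))) := ⟨_, rfl⟩
  have hE : ∑ k ∈ sqa (2 ^ n), ∑ k' ∈ (sqa (2 ^ n)).filter (fun k' => J k' = J k),
      ‖ch ν (τ * r / 2 ^ (21 * l₂) * pu (th l₂ (I' (J k))) (fk f k) - τ * r / 2 ^ (21 * l₂) * pu (th l₂ (I' (J k'))) (fk f k'))‖ *
        ‖ch ν (τ * r * 16 ^ l₂ / 2 ^ (21 * l₂) * pv (th l₂ (I' (J k))) (fk f k) - τ * r * 16 ^ l₂ / 2 ^ (21 * l₂) * pv (th l₂ (I' (J k'))) (fk f k'))‖ ≤ E := by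
    have h1 : ∀ k ∈ sqa (2 ^ n), ∑ k' ∈ (sqa (2 ^ n)).filter (fun k' => J k' = J k),
      ‖ch ν (τ * r / 2 ^ (21 * l₂) * pu (th l₂ (I' (J k))) (fk f k) - τ * r / 2 ^ (21 * l₂) * pu (th l₂ (I' (J k'))) (fk f k'))‖ *
        ‖ch ν (τ * r * 16 ^ l₂ / 2 ^ (21 * l₂) * pv (th l₂ (I' (J k))) (fk f k) - τ * r * 16 ^ l₂ / 2 ^ (21 * l₂) * pv (th l₂ (I' (J k'))) (fk f k'))‖ ≤
        C₃ * ((1 + (2 : ℝ) ^ ((p : ℝ) / 200) / |A₁|) * (1 + (2 : ℝ) ^ ((p : ℝ) / 200) / |A₂|) + (2 : ℝ) ^ (2 * (n : ℝ)) * (2 : ℝ) ^ (-(3 * (p : ℝ)))) := by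
      intro k hk
      have h := hC₃' f hf (2 ^ n) hN1 ((sqa (2 ^ n)).filter (fun k' => J k' = J k)) (Finset.filter_subset _ _) (th l₂ (I' (J k))) A₁ A₂
        ((2 : ℝ) ^ ((p : ℝ) / 200)) ((2 : ℝ) ^ (-(3 * (p : ℝ)))) hA10 hA20 (pos77 _).le (pos77 _).le (fun u hu => hp₂ p (by omega) u (by rwa [one_mul])) k hk
      rw [hN2] at h
      refine le_trans (le_of_eq ?_) h
      refine Finset.sum_congr rfl fun k' hk' => ?_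
      have e := (Finset.mem_filter.1 hk').2
      rw [e, hA₁, hA₂]
    refine (Finset.sum_le_card_nsmul _ _ _ h1).trans ?_
    rw [nsmul_eq_mul, hEdef]
    refine mul_le_mul_of_nonneg_right hcard ?_
    have q1 : 0 ≤ (2 : ℝ) ^ ((p : ℝ) / 200) / |A₁| := div_nonneg (pos77 _).le (abs_nonneg _)
    have q2 : 0 ≤ (2 : ℝ) ^ ((p : ℝ) / 200) / |A₂| := div_nonneg (pos77 _).le (abs_nonneg _)
    have q3 := (pos77 (2 * (n : ℝ))).le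
    have q4 := (pos77 (-(3 * (p : ℝ)))).le
    positivity
  have hs : (1 : ℝ) ≤ 2 * (2 : ℝ) ^ ((p : ℝ) / 1000) := by
    have : (2 : ℝ) ^ (0 : ℝ) ≤ (2 : ℝ) ^ ((p : ℝ) / 1000) := le77 (by positivity)
    rw [Real.rpow_zero] at this
    linarith
  have q5 := pos77 (n : ℝ)
  have q6 := pos77 (2 * (n : ℝ))
  have q7 := pos77 (-(4 * (l₁ : ℝ)))
  have q8 := pos77 (-(4 * (l₂ : ℝ)))
  have key := two_level (ν := ν) (B := sqa (2 ^ n)) (T := fun k ω => Tm (Hx H₀ τ ω) f α r c i (2 ^ n) k) hl.ne' (J := J) (I' := I') hR hR₂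
    (fun k _ => tm_meas h3 τ f α r c i (2 ^ n) k) (M := B₀) (by linarith)
    (fun k hk ω => hB₀' H₀ h3 hK f hf ω α r c i (2 ^ n) hi hN1 k hk) hδ (by positivity) hn₁ (by positivity) hn₂ hE hs
  have hD := dle77 hC₂ hC₃ hT1 (x := n) (y := p) (by positivity) hn1 hn2 (q₁ := (2 : ℝ) ^ (-(4 * (l₁ : ℝ)))) (q₂ := (2 : ℝ) ^ (-(4 * (l₂ : ℝ)))) q7.le
    (by
      rw [show (16 : ℝ) = (2 : ℝ) ^ (4 : ℝ) by norm_num, mul77]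
      refine le77 ?_
      rw [hz] at hl1'
      linarith) q8.le
    (by
      rw [show (16 : ℝ) = (2 : ℝ) ^ (4 : ℝ) by norm_num, mul77]
      exact le77 (by linarith))
    (div_nonneg (pos77 _).le (abs_nonneg _)) hu1 (div_nonneg (pos77 _).le (abs_nonneg _)) hu2
  rw [← hEdef] at hD
  have hfin := hp₃ p (by omega) n hn0 (by linarith) _ hD _ hcard
  refine (measureReal_mono (fun ω hω => ?_) (measure_ne_top _ _)).trans (key.trans ?_)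
  · rw [Set.mem_setOf_eq] at hω ⊢
    exact hfin.trans hω
  · have h4 := hp₄ p (by omega)
    rw [show (1 / 1000 : ℝ) * p = p / 1000 by ring] at h4
    have h5 : (100 : ℝ) ≤ exp ((2 : ℝ) ^ ((p : ℝ) / 1000)) := by
      calc (100 : ℝ) = exp (log 100) := (Real.exp_log (by norm_num)).symm
        _ ≤ _ := Real.exp_le_exp.2 h4
    calc 100 * exp (-(2 * (2 : ℝ) ^ ((p : ℝ) / 1000))) ≤ exp ((2 : ℝ) ^ ((p : ℝ) / 1000)) * exp (-(2 * (2 : ℝ) ^ ((p : ℝ) / 1000))) :=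
          mul_le_mul_of_nonneg_right h5 (Real.exp_pos _).le
      _ = exp (-(2 : ℝ) ^ (p / 1000 : ℝ)) := by
          rw [← Real.exp_add]
          congr 1
          ring

end Pool.Agent.Helper93.AO
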