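import Pool.Agent.Helper93.AO.WReg

/-!
# AO-JET: effect of a resampling on the plateau; continuity in the sample

`jet_upd`: `upd F x ω` and `upd F om0 ω` (`F = Fm l (m % 8)`) differ only in the coordinates `(l, m')`, `m' < 4·16^l`, `m' % 8 = m % 8`; for `m' ≠ m` the bump vanishes near `t` (`fam_sep`, `e_zero`),
for `m' = m` it is `cos`, `16^l sin` near `t` (`e1_plateau`, `e2_plateau`). So near `t` only level `l` changes, by the term with the index `m`.
`WW_cont`: uniform convergence (`continuous_tsum`, `lev_bound`) of continuous functions of `(ω, t)`; `lev l ω` is a finite sum of products of coordinates and smooth functions of `t`.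
-/

open MeasureTheory Real Set Filter Topology

set_option autoImplicit false

namespace Pool.Agent.Helper93.AO

/-- the derivatives of one level -/
private theorem lev_iter_h5 (l j : ℕ) (ω : Om) (t : ℝ) :
    iteratedDeriv j (lev l ω) t = ∑ m ∈ Finset.range (4 * 16 ^ l),
      (((ω (l, m)).1 : ℝ) * iteratedDeriv j (e1 l) (t - th l m) +
        ((ω (l, m)).2 : ℝ) * iteratedDeriv j (e2 l) (t - th l m)) := by
  have s1 : ∀ m, ContDiff ℝ j fun y => e1 l (y - th l m) := fun m =>
    (e1_smooth l j).comp (contDiff_id.sub contDiff_const)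
  have s2 : ∀ m, ContDiff ℝ j fun y => e2 l (y - th l m) := fun m =>
    (e2_smooth l j).comp (contDiff_id.sub contDiff_const)
  have e : lev l ω = fun t => ∑ m ∈ Finset.range (4 * 16 ^ l),
      (((ω (l, m)).1 : ℝ) * e1 l (t - th l m) + ((ω (l, m)).2 : ℝ) * e2 l (t - th l m)) := rfl
  rw [e, iteratedDeriv_fun_sum fun m _ =>
    ((contDiff_const.mul (s1 m)).add (contDiff_const.mul (s2 m))).contDiffAt]
  refine Finset.sum_congr rfl fun m _ => ?_
  rw [iteratedDeriv_fun_add (contDiff_const.mul (s1 m)).contDiffAt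
    (contDiff_const.mul (s2 m)).contDiffAt, iteratedDeriv_const_mul_field,
    iteratedDeriv_const_mul_field, iteratedDeriv_comp_sub_const, iteratedDeriv_comp_sub_const]

private theorem lev_cont_h5 (l j : ℕ) :
    Continuous fun p : Om × ℝ => iteratedDeriv j (lev l p.1) p.2 := by
  simp only [lev_iter_h5]
  refine continuous_finsetSum _ fun m _ => ?_
  have c1 : Continuous fun p : Om × ℝ => iteratedDeriv j (e1 l) (p.2 - th l m) :=
    ((e1_smooth l j).continuous_iteratedDeriv j le_rfl).comp (continuous_snd.sub continuous_const)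
  have c2 : Continuous fun p : Om × ℝ => iteratedDeriv j (e2 l) (p.2 - th l m) :=
    ((e2_smooth l j).continuous_iteratedDeriv j le_rfl).comp (continuous_snd.sub continuous_const)
  have d : Continuous fun p : Om × ℝ => p.1 (l, m) := (continuous_apply (l, m)).comp continuous_fst
  exact ((continuous_subtype_val.comp (continuous_fst.comp d)).mul c1).add
    ((continuous_subtype_val.comp (continuous_snd.comp d)).mul c2)

private theorem WW_cont_h5 {j : ℕ} (hj : j ≤ 5) :
    Continuous fun p : Om × ℝ => iteratedDeriv j (WW p.1) p.2 := by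
  obtain ⟨C, hC, hb⟩ := lev_bound
  have e : (fun p : Om × ℝ => iteratedDeriv j (WW p.1) p.2) =
      fun p => ∑' l : ℕ, iteratedDeriv j (lev l p.1) p.2 / 2 ^ (21 * l) :=
    funext fun p => (WW_deriv hj p.1 p.2).2
  rw [e]
  refine continuous_tsum (u := fun l : ℕ => C * (1 / 2) ^ l)
    (fun l => (lev_cont_h5 l j).div_const _) ?_ ?_
  · exact (summable_geometric_of_lt_one (by norm_num) (by norm_num)).mul_left C
  · intro l p
    have h2 : (0 : ℝ) < 2 ^ (21 * l) := by positivity
    rw [Real.norm_eq_abs, abs_div, abs_of_pos h2, div_le_iff₀ h2]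
    refine (hb l j hj p.1 p.2).trans ?_
    have h3 : (16 : ℝ) ^ (l * j) ≤ 2 ^ (20 * l) := by
      have : (16 : ℝ) ^ (l * j) = 2 ^ (4 * (l * j)) := by
        rw [pow_mul (2 : ℝ) 4 (l * j)]
        norm_num
      rw [this]
      exact pow_le_pow_right₀ (by norm_num) (by nlinarith)
    have h4 : (1 / 2 : ℝ) ^ l * 2 ^ (21 * l) = 2 ^ (20 * l) := by
      have : (2 : ℝ) ^ (21 * l) = 2 ^ l * 2 ^ (20 * l) := by
        rw [← pow_add]
        congr 1
        ring
      rw [this, ← mul_assoc, ← mul_pow]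
      norm_num
    rw [mul_assoc, h4]
    exact mul_le_mul_of_nonneg_left h3 hC.le

private theorem upd_ne_h5 {l l' q : ℕ} (h : l' ≠ l) (x ω : Om) (m : ℕ) :
    upd (Fm l q) x ω (l', m) = ω (l', m) := by
  have : (l', m) ∉ Fm l q := fun k => h k.1
  simp [upd, this]

private theorem lev_ne_h5 {l l' q : ℕ} (h : l' ≠ l) (x ω : Om) :
    lev l' (upd (Fm l q) x ω) = lev l' (upd (Fm l q) om0 ω) := by
  funext t
  simp only [lev, upd_ne_h5 h]

/-- near `t` the resampling changes the level by one term -/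
private theorem lev_near_h5 {l m : ℕ} {t : ℝ} (hm : m < 4 * 16 ^ l)
    (ht : |16 ^ l * sin ((t - th l m) / 2)| ≤ 4 / 5) (x ω : Om) :
    ∀ᶠ s in 𝓝 t, lev l (upd (Fm l (m % 8)) x ω) s = lev l (upd (Fm l (m % 8)) om0 ω) s +
      (((x (l, m)).1 : ℝ) * cos (s - th l m) +
        ((x (l, m)).2 : ℝ) * (16 ^ l * sin (s - th l m))) := by
  classical
  have tend : ∀ m', Tendsto (fun s : ℝ => s - th l m') (𝓝 t) (𝓝 (t - th l m')) := fun m' =>
    ((continuous_id.sub continuous_const).tendsto t)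
  have key : ∀ m' ∈ Finset.range (4 * 16 ^ l), ∀ᶠ s in 𝓝 t,
      ((upd (Fm l (m % 8)) x ω (l, m')).1 : ℝ) * e1 l (s - th l m') +
        ((upd (Fm l (m % 8)) x ω (l, m')).2 : ℝ) * e2 l (s - th l m') =
      (((upd (Fm l (m % 8)) om0 ω (l, m')).1 : ℝ) * e1 l (s - th l m') +
        ((upd (Fm l (m % 8)) om0 ω (l, m')).2 : ℝ) * e2 l (s - th l m')) +
      (if m' = m then (((x (l, m)).1 : ℝ) * cos (s - th l m) +
        ((x (l, m)).2 : ℝ) * (16 ^ l * sin (s - th l m))) else 0) := by
    intro m' hm'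
    rw [Finset.mem_range] at hm'
    by_cases h8 : m' % 8 = m % 8
    · by_cases hmm : m' = m
      · subst hmm
        have hF : (l, m') ∈ Fm l (m' % 8) := ⟨rfl, hm, rfl⟩
        have hlt : |16 ^ l * sin ((t - th l m') / 2)| < 1 := by linarith
        filter_upwards [(tend m').eventually (e1_plateau hlt),
          (tend m').eventually (e2_plateau hlt)] with s h1 h2
        rw [h1, h2]
        simp [upd, hF, om0, j0]
      · have hz := e_zero (fam_sep hm hm' h8.symm (fun h => hmm h.symm) ht)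
        filter_upwards [(tend m').eventually hz.1, (tend m').eventually hz.2] with s h1 h2
        rw [h1, h2]
        simp [hmm]
    · have hF : (l, m') ∉ Fm l (m % 8) := fun k => h8 k.2.2
      have hmm : m' ≠ m := fun h => h8 (by rw [h])
      exact Filter.Eventually.of_forall fun s => by simp [upd, hF, hmm]
  filter_upwards [(Filter.eventually_all_finset _).2 key] with s hs
  unfold lev
  rw [Finset.sum_congr rfl hs, Finset.sum_add_distrib, Finset.sum_ite_eq']
  simp [hm]

private theorem WW_near_h5 {l m : ℕ} {t : ℝ} (hm : m < 4 * 16 ^ l)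
    (ht : |16 ^ l * sin ((t - th l m) / 2)| ≤ 4 / 5) (x ω : Om) :
    WW (upd (Fm l (m % 8)) x ω) =ᶠ[𝓝 t] fun s => WW (upd (Fm l (m % 8)) om0 ω) s +
      (((x (l, m)).1 : ℝ) * cos (s - th l m) +
        ((x (l, m)).2 : ℝ) * (16 ^ l * sin (s - th l m))) / 2 ^ (21 * l) := by
  filter_upwards [lev_near_h5 hm ht x ω] with s hs
  have hu := WW_deriv (j := 0) (by norm_num) (upd (Fm l (m % 8)) x ω) s
  have hv := WW_deriv (j := 0) (by norm_num) (upd (Fm l (m % 8)) om0 ω) s
  simp only [iteratedDeriv_zero] at hu hv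
  have e : ∀ l' : ℕ, lev l' (upd (Fm l (m % 8)) x ω) s / 2 ^ (21 * l') =
      lev l' (upd (Fm l (m % 8)) om0 ω) s / 2 ^ (21 * l') +
        (if l' = l then (((x (l, m)).1 : ℝ) * cos (s - th l m) +
          ((x (l, m)).2 : ℝ) * (16 ^ l * sin (s - th l m))) / 2 ^ (21 * l) else 0) := by
    intro l'
    by_cases h : l' = l
    · subst h
      rw [hs, if_pos rfl, add_div]
    · rw [if_neg h, add_zero, lev_ne_h5 h]
  rw [hu.2, tsum_congr e, Summable.tsum_add hv.1 (summable_of_ne_finset_zero (s := {l}) (by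
    intro b hb
    rw [Finset.mem_singleton] at hb
    exact if_neg hb)), tsum_ite_eq, ← hv.2]

theorem jet_upd {l m : ℕ} {t : ℝ} (hm : m < 4 * 16 ^ l) (ht : |16 ^ l * sin ((t - th l m) / 2)| ≤ 4 / 5) (x ω : Om) :
    (WW (upd (Fm l (m % 8)) x ω) t = WW (upd (Fm l (m % 8)) om0 ω) t +
      (((x (l, m)).1 : ℝ) * cos (t - th l m) + ((x (l, m)).2 : ℝ) * (16 ^ l * sin (t - th l m))) / 2 ^ (21 * l)) ∧
    (deriv (WW (upd (Fm l (m % 8)) x ω)) t = deriv (WW (upd (Fm l (m % 8)) om0 ω)) t +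
      (-((x (l, m)).1 : ℝ) * sin (t - th l m) + ((x (l, m)).2 : ℝ) * (16 ^ l * cos (t - th l m))) / 2 ^ (21 * l)) ∧
    (deriv (deriv (WW (upd (Fm l (m % 8)) x ω))) t = deriv (deriv (WW (upd (Fm l (m % 8)) om0 ω))) t +
      (-((x (l, m)).1 : ℝ) * cos (t - th l m) - ((x (l, m)).2 : ℝ) * (16 ^ l * sin (t - th l m))) / 2 ^ (21 * l)) := by
  have h0 := WW_near_h5 hm ht x ω
  have sm := WW_smooth (upd (Fm l (m % 8)) om0 ω)
  have d0 : Differentiable ℝ (WW (upd (Fm l (m % 8)) om0 ω)) := sm.differentiable (by norm_num)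
  have d1 : Differentiable ℝ (deriv (WW (upd (Fm l (m % 8)) om0 ω))) := by
    have h2 : ContDiff ℝ 2 (WW (upd (Fm l (m % 8)) om0 ω)) := sm.of_le (by norm_num)
    have h3 := ContDiff.differentiable_iteratedDeriv 1 h2 (by norm_num)
    rwa [iteratedDeriv_one] at h3
  have p1 : ∀ s : ℝ, HasDerivAt (fun s : ℝ => (((x (l, m)).1 : ℝ) * cos (s - th l m) +
      ((x (l, m)).2 : ℝ) * (16 ^ l * sin (s - th l m))) / 2 ^ (21 * l))
      ((-((x (l, m)).1 : ℝ) * sin (s - th l m) +
        ((x (l, m)).2 : ℝ) * (16 ^ l * cos (s - th l m))) / 2 ^ (21 * l)) s := by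
    intro s
    have g : HasDerivAt (fun s : ℝ => s - th l m) 1 s := (hasDerivAt_id s).sub_const _
    have g1 := (g.cos.const_mul ((x (l, m)).1 : ℝ)).add
      ((g.sin.const_mul ((16 : ℝ) ^ l)).const_mul ((x (l, m)).2 : ℝ))
    have g2 := g1.div_const ((2 : ℝ) ^ (21 * l))
    refine g2.congr_deriv ?_
    ring
  have p2 : ∀ s : ℝ, HasDerivAt (fun s : ℝ => (-((x (l, m)).1 : ℝ) * sin (s - th l m) +
      ((x (l, m)).2 : ℝ) * (16 ^ l * cos (s - th l m))) / 2 ^ (21 * l))
      ((-((x (l, m)).1 : ℝ) * cos (s - th l m) -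
        ((x (l, m)).2 : ℝ) * (16 ^ l * sin (s - th l m))) / 2 ^ (21 * l)) s := by
    intro s
    have g : HasDerivAt (fun s : ℝ => s - th l m) 1 s := (hasDerivAt_id s).sub_const _
    have g1 := (g.sin.const_mul (-((x (l, m)).1 : ℝ))).add
      ((g.cos.const_mul ((16 : ℝ) ^ l)).const_mul ((x (l, m)).2 : ℝ))
    have g2 := g1.div_const ((2 : ℝ) ^ (21 * l))
    refine g2.congr_deriv ?_
    ring
  have h1 : deriv (WW (upd (Fm l (m % 8)) x ω)) =ᶠ[𝓝 t] fun s =>
      deriv (WW (upd (Fm l (m % 8)) om0 ω)) s +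
        (-((x (l, m)).1 : ℝ) * sin (s - th l m) +
          ((x (l, m)).2 : ℝ) * (16 ^ l * cos (s - th l m))) / 2 ^ (21 * l) := by
    refine h0.deriv.trans (Filter.Eventually.of_forall fun s => ?_)
    exact ((d0 s).hasDerivAt.add (p1 s)).deriv
  refine ⟨h0.eq_of_nhds, h1.eq_of_nhds, ?_⟩
  rw [h1.deriv_eq]
  exact ((d1 t).hasDerivAt.add (p2 t)).deriv

theorem WW_cont : Continuous fun p : Om × ℝ => WW p.1 p.2 := by
  simpa only [iteratedDeriv_zero] using WW_cont_h5 (j := 0) (by norm_num)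

theorem WW_cont1 : Continuous fun p : Om × ℝ => deriv (WW p.1) p.2 := by
  simpa only [iteratedDeriv_one] using WW_cont_h5 (j := 1) (by norm_num)

theorem WW_cont2 : Continuous fun p : Om × ℝ => deriv (deriv (WW p.1)) p.2 := by
  simpa only [iteratedDeriv_succ, iteratedDeriv_zero] using WW_cont_h5 (j := 2) (by norm_num)

end Pool.Agent.Helper93.AO
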