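import Pool.Agent.Helper93.AO.Defs

/-!
# AO-LEV: definition of `Rep`
-/

open MeasureTheory Real Set Filter Topology ProbabilityTheory

set_option autoImplicit false

namespace Pool.Agent.Helper93.AO

/-- the term `T k` depends on the family of the arc `J k` of level `l` only through a phase, linear in the coefficients of the arc -/
structure Rep {κ : Type} (B : Finset κ) (T : κ → Om → ℂ) (l : ℕ) (J : κ → ℕ) (a b : κ → ℝ) : Prop where
  lt : ∀ k ∈ B, J k < 4 * 16 ^ l
  rep : ∀ k ∈ B, ∀ x ω : Om, T k (upd (Fm l (J k % 8)) x ω) =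
    T k (upd (Fm l (J k % 8)) om0 ω) * eo (a k * ((x (l, J k)).1 : ℝ) + b k * ((x (l, J k)).2 : ℝ))

end Pool.Agent.Helper93.AO
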