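import Pool.Agent.Helper92.LA.D3
import Pool.Agent.Helper92.EO.Omega

/-!
# AO-OMG: the lower bound for every lattice, from `omega_minus'` of helper92
-/

open MeasureTheory Real Set Filter Topology

set_option autoImplicit false

namespace Pool.Agent.Helper93.AO

open Pool.Agent.Helper22.AE (IsSupp area cnt)
open Pool.Agent.Helper22.AC (cntc)
open Pool.Agent.Helper22.LP (Fr fdet Hf Hf_isSupp area_lin)
open Pool.Agent.Helper92.LA (lcnt lcnt_eq dl fdet_dl)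
open Pool.Agent.Helper22.OV (shf area_shf exists_shift)

private theorem cntc_zero (H : ℝ → ℝ) (R : ℝ) : cntc H (0, 0) R = cnt H R := by
  unfold cntc cnt
  simp only [sub_zero]

private theorem omega_supp {H : ℝ → ℝ} (hH : IsSupp H) {ab : Fr} (hab : fdet ab ≠ 0) :
    ∃ c₀ : ℝ, 0 < c₀ ∧ ∀ R₀ : ℝ, ∃ R : ℝ, R₀ ≤ R ∧
      lcnt ab H (0, 0) R - area H * R ^ 2 / abs (fdet ab) ≤ -(c₀ * (R ^ (1 / 2 : ℝ) * log R ^ (1 / 4 : ℝ))) := by
  have hdl : fdet (dl ab) ≠ 0 := by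
    rw [fdet_dl hab]
    positivity
  obtain ⟨c₀, hc, h⟩ := Pool.Agent.Helper92.EO.omega_minus' (Hf_isSupp hH hdl)
  refine ⟨c₀, hc, fun R₀ => ?_⟩
  obtain ⟨R, hR, h1⟩ := h R₀
  refine ⟨R, hR, ?_⟩
  rw [area_lin hH.per hdl, fdet_dl hab, abs_div, abs_one] at h1
  have e : 1 / |fdet ab| * area H * R ^ 2 = area H * R ^ 2 / |fdet ab| := by ring
  rw [e] at h1
  have e2 : lcnt ab H (0, 0) R = cnt (Hf H (dl ab)) R := by
    rw [lcnt_eq hH.per hab]
    simp only [mul_zero, add_zero]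
    exact cntc_zero _ _
  rw [e2]
  exact h1

private theorem shf_zero (H : ℝ → ℝ) : shf H (0, 0) = H := by
  funext t
  unfold shf
  simp

theorem lat_omega {H : ℝ → ℝ} (h2 : ContDiff ℝ 2 H) (hp : Function.Periodic H (2 * π)) (hr : ∀ t, 0 < H t + deriv (deriv H) t) {ab : Fr} (hab : fdet ab ≠ 0) :
    ∃ c₀ : ℝ, 0 < c₀ ∧ ∀ R₀ : ℝ, ∃ R : ℝ, R₀ ≤ R ∧ ∃ c : ℝ × ℝ, ((∀ t, 0 < H t) → c = (0, 0)) ∧
      lcnt ab H c R - area H * R ^ 2 / abs (fdet ab) ≤ -(c₀ * (R ^ (1 / 2 : ℝ) * log R ^ (1 / 4 : ℝ))) := by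
  obtain ⟨v, hv, hv0⟩ : ∃ v : ℝ × ℝ, IsSupp (shf H v) ∧ ((∀ t, 0 < H t) → v = (0, 0)) := by
    by_cases hpos : ∀ t, 0 < H t
    · refine ⟨(0, 0), ?_, fun _ => rfl⟩
      rw [shf_zero]
      exact ⟨h2, hp, hpos, hr⟩
    · obtain ⟨v, hv⟩ := exists_shift h2 hp hr
      exact ⟨v, hv, fun h => absurd h hpos⟩
  obtain ⟨c₀, hc, h⟩ := omega_supp hv hab
  refine ⟨c₀, hc, fun R₀ => ?_⟩
  obtain ⟨R, hR, h1⟩ := h R₀
  refine ⟨R, hR, (R * v.1, R * v.2), ?_, ?_⟩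
  · intro hpos
    rw [hv0 hpos]
    simp
  · rw [area_shf] at h1
    have e : lcnt ab (shf H v) (0, 0) R = lcnt ab H (R * v.1, R * v.2) R := by
      unfold lcnt
      congr 1
      refine Nat.card_congr (Equiv.subtypeEquivRight fun k => ?_)
      refine forall_congr' fun t => ?_
      unfold shf
      simp only
      constructor
      · intro h
        linarith
      · intro h
        linarith
    rw [← e]
    exact h1

end Pool.Agent.Helper93.AO
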