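import Pool.Agent.Helper93.AO.DefsL
import Pool.Agent.Helper22.OV.D2
import Pool.Agent.Helper22.LP.Unif
import Pool.Agent.Helper29.AO.GlSum

/-!
# AO-SUM: from the bounds for the sums to the count, uniformly in the support function

`lp_main_unif` (Helper22/LP/Unif.lean) with `τ = 1/2 + 1/4000`, `e2 = 1/4000`, `α₀ = 1`, `R₀ = R` (so `r ∈ [R/2, 4R] ⊆ [2^p/4, 16·2^p]`), `n1 = ⌈(1/2 + 1/2000)(p + 2)⌉` (`R^(τ + e2) ≤ 2^n1`; for `n < n1` and large `p`: `n ≤ (1/2 + 1/1000) p`),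
`g n α = gg C n p` (constant in `α`); `∫ k0 ≤ 20`. `wi 1 H α = wr H α`, `wi 2 H α = fun _ => 1`, `SS_eq`.
`gl_sum`: `∑_n 2^(-3n/2) gl n p ≤ C p^(1/4)`: with `4^(n₀) ≤ p < 4^(n₀ + 1)`: for `n ≤ n₀` use the first entry: `∑_j 4^n/2^j ≤ 2·4^n`, sum `≤ C 2^(n₀/2)`; for `n > n₀` use the second entry for `j < n - n₀` and the first one for
`j ≥ n - n₀`: `gl n p ≤ 2^n √p (n - n₀) + 2·4^n/2^(n - n₀)`, so `2^(-3n/2) gl ≤ √p 2^(-n/2) (n - n₀ + 4)`, sum `≤ C √p 2^(-n₀/2) ≤ C p^(1/4)`. High part: `∑_n 2^(-3n/2) 2·2^(3n/2 - p/1000) ≤ C p 2^(-p/1000)`, times `R^(1/2)`.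
`R^(1-τ) ≤ C 2^(p/2)`, `n1 ≤ C 2^(p/2)`.
-/

open MeasureTheory Real Set Filter Topology

set_option autoImplicit false

namespace Pool.Agent.Helper93.AO

open Pool.Agent.Helper22.AE (ee rho)
open Pool.Agent.Helper22.AC (ga)
open Pool.Agent.Helper92.GC (dt sqa)
open Pool.Agent.Helper22.LP (Fr fk fdet nr tr hom LS wr Hf)
open Pool.Agent.Helper92.LA (Fb)

open Pool.Agent.Helper22.AE (IsSupp area k0 k0_int)
open Pool.Agent.Helper22.AC (cntc)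
open Pool.Agent.Helper22.OV (o3_k0_cont o3_k0_nonneg)

theorem gl_sum : ∃ C : ℝ, 1 ≤ C ∧ ∀ p m : ℕ, 1 ≤ p → ∑ n ∈ Finset.range m, (2 : ℝ) ^ (-(3 / 2) * n : ℝ) * gl n p ≤ C * (p : ℝ) ^ (1 / 4 : ℝ) :=
  gl_sum_h29

private theorem k0_mass_h5 {α₀ β : ℝ} (h0 : 0 < α₀) (h1 : α₀ < π / 2) (hβ : 0 < β) :
    ∫ α in Icc (-α₀) α₀, k0 β α ≤ 20 := by
  have hpi := Real.pi_pos
  have h2 := k0_int hβ
  rw [intervalIntegral.integral_of_le (by linarith)] at h2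
  refine le_trans (setIntegral_mono_set ?_ (Eventually.of_forall (o3_k0_nonneg hβ)) (Eventually.of_forall ?_)) h2
  · rw [← integrableOn_Icc_iff_integrableOn_Ioc]
    exact (o3_k0_cont hβ).continuousOn.integrableOn_compact isCompact_Icc
  · intro x hx
    exact ⟨by linarith [hx.1], by linarith [hx.2]⟩

private theorem gl_nn_h5 (n p : ℕ) : 0 ≤ gl n p :=
  Finset.sum_nonneg fun _ _ => le_min (by positivity) (by positivity)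

private theorem gg_le_h5 {C : ℝ} (hC : 1 ≤ C) (n p : ℕ) :
    gg C n p ≤ C * gl n p + 2 * (2 : ℝ) ^ (3 / 2 * n - p / 1000 : ℝ) := by
  have h1 : 0 ≤ C * gl n p := mul_nonneg (by linarith) (gl_nn_h5 n p)
  have h2 : (0 : ℝ) ≤ 2 * (2 : ℝ) ^ (3 / 2 * n - p / 1000 : ℝ) := by positivity
  unfold gg
  split_ifs <;> linarith

private theorem gg_nn_h5 {C : ℝ} (hC : 1 ≤ C) (n p : ℕ) : 0 ≤ gg C n p := by
  have h1 : 0 ≤ C * gl n p := mul_nonneg (by linarith) (gl_nn_h5 n p)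
  have h2 : (0 : ℝ) ≤ 2 * (2 : ℝ) ^ (3 / 2 * n - p / 1000 : ℝ) := by positivity
  unfold gg
  split_ifs <;> linarith

/-- `x ≤ 2 · 2^x` -/
private theorem le_two_rpow_h5 {x : ℝ} (_ : 0 ≤ x) : x ≤ 2 * (2 : ℝ) ^ x := by
  have h1 : (2 : ℝ) ^ x = Real.exp (Real.log 2 * x) := Real.rpow_def_of_pos (by norm_num) x
  have h2 := Real.add_one_le_exp (Real.log 2 * x)
  have h3 : (0.6931471803 : ℝ) < Real.log 2 := Real.log_two_gt_d9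
  have h4 : (1 / 2 : ℝ) * x ≤ Real.log 2 * x := mul_le_mul_of_nonneg_right (by linarith) (by assumption)
  rw [h1]
  linarith

/-- the weighted sum of the bounds -/
private theorem gsum_h5 {C C1 : ℝ} (hC : 1 ≤ C) {p m : ℕ} (hp : 1 ≤ p)
    (hgl : ∑ n ∈ Finset.range m, (2 : ℝ) ^ (-(3 / 2) * n : ℝ) * gl n p ≤ C1 * (p : ℝ) ^ (1 / 4 : ℝ))
    (hm : (m : ℝ) ≤ 2 * p) :
    ∑ n ∈ Finset.range m, (2 : ℝ) ^ (-(3 / 2) * n : ℝ) * gg C n p ≤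
      (C * C1 + 8000) * (p : ℝ) ^ (1 / 4 : ℝ) := by
  have hp1 : (1 : ℝ) ≤ p := by exact_mod_cast hp
  have hq : (1 : ℝ) ≤ (p : ℝ) ^ (1 / 4 : ℝ) := Real.one_le_rpow hp1 (by norm_num)
  have hx : (p : ℝ) / 1000 ≤ 2 * (2 : ℝ) ^ ((p : ℝ) / 1000) := le_two_rpow_h5 (by positivity)
  have hinv : (2 : ℝ) ^ (-((p : ℝ) / 1000)) * (2 : ℝ) ^ ((p : ℝ) / 1000) = 1 := by
    rw [← Real.rpow_add (by norm_num), neg_add_cancel, Real.rpow_zero]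
  have hpos : (0 : ℝ) < (2 : ℝ) ^ (-((p : ℝ) / 1000)) := by positivity
  have hsm : (p : ℝ) * (2 : ℝ) ^ (-((p : ℝ) / 1000)) ≤ 2000 := by
    have := mul_le_mul_of_nonneg_right hx hpos.le
    nlinarith
  calc ∑ n ∈ Finset.range m, (2 : ℝ) ^ (-(3 / 2) * n : ℝ) * gg C n p
      ≤ ∑ n ∈ Finset.range m, (C * ((2 : ℝ) ^ (-(3 / 2) * n : ℝ) * gl n p) +
          2 * (2 : ℝ) ^ (-((p : ℝ) / 1000))) := by
        refine Finset.sum_le_sum fun n _ => ?_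
        have h0 : (0 : ℝ) ≤ (2 : ℝ) ^ (-(3 / 2) * n : ℝ) := by positivity
        have h1 := mul_le_mul_of_nonneg_left (gg_le_h5 hC n p) h0
        have h2 : (2 : ℝ) ^ (-(3 / 2) * n : ℝ) * (2 : ℝ) ^ (3 / 2 * n - p / 1000 : ℝ) =
            (2 : ℝ) ^ (-((p : ℝ) / 1000)) := by
          rw [← Real.rpow_add (by norm_num)]
          congr 1
          ring
        calc _ ≤ _ := h1
          _ = C * ((2 : ℝ) ^ (-(3 / 2) * n : ℝ) * gl n p) + 2 * ((2 : ℝ) ^ (-(3 / 2) * n : ℝ) *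
              (2 : ℝ) ^ (3 / 2 * n - p / 1000 : ℝ)) := by ring
          _ = _ := by rw [h2]
    _ = C * ∑ n ∈ Finset.range m, (2 : ℝ) ^ (-(3 / 2) * n : ℝ) * gl n p +
          m * (2 * (2 : ℝ) ^ (-((p : ℝ) / 1000))) := by
        rw [Finset.sum_add_distrib, ← Finset.mul_sum, Finset.sum_const, Finset.card_range,
          nsmul_eq_mul]
    _ ≤ C * (C1 * (p : ℝ) ^ (1 / 4 : ℝ)) + 8000 := by
        have h1 := mul_le_mul_of_nonneg_left hgl (by linarith : (0 : ℝ) ≤ C)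
        have h2 : (m : ℝ) * (2 * (2 : ℝ) ^ (-((p : ℝ) / 1000))) ≤
            2 * p * (2 * (2 : ℝ) ^ (-((p : ℝ) / 1000))) :=
          mul_le_mul_of_nonneg_right hm (by positivity)
        linarith
    _ ≤ (C * C1 + 8000) * (p : ℝ) ^ (1 / 4 : ℝ) := by nlinarith

theorem sum_main {M : ℝ} (hM : 1 ≤ M) {C : ℝ} (hC : 1 ≤ C) : ∃ (C' : ℝ) (p₁ : ℕ), 1 ≤ C' ∧ ∀ p : ℕ, p₁ ≤ p →
    ∀ H : ℝ → ℝ, IsSupp H → (∀ t, 1 / M ≤ H t) → (∀ t, H t ≤ M) → (∀ t, rho H t ≤ M) → ∀ f : Fr, nr f.1 + nr f.2 ≤ M → 1 / M ≤ |fdet f| →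
    (∀ n : ℕ, (n : ℝ) ≤ (1 / 2 + 1 / 1000) * p → ∀ (α r : ℝ) (c : ℝ × ℝ) (i : ℕ), |α| ≤ 1 → 2 ^ p / 4 ≤ r → r ≤ 16 * 2 ^ p → i = 1 ∨ i = 2 →
      ‖SS H f α r c i (2 ^ n)‖ ≤ gg C n p) →
    ∀ R : ℝ, 2 ^ p / 2 ≤ R → R ≤ 4 * 2 ^ p → ∀ c : ℝ × ℝ, |cntc (Hf H f) c R - area (Hf H f) * R ^ 2| ≤ C' * ((2 : ℝ) ^ (p / 2 : ℝ) * (p : ℝ) ^ (1 / 4 : ℝ)) := by
  have hα : (1 : ℝ) < π / 2 := by linarith [Real.pi_gt_three]
  obtain ⟨C0, R₁, hC0, hR₁, hmain⟩ := Pool.Agent.Helper22.LP.lp_main_unif (τ := 1 / 2 + 1 / 4000)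
    (e2 := 1 / 4000) (α₀ := 1) (M := M) (by norm_num) (by norm_num) (by norm_num) zero_lt_one hα hM
  obtain ⟨C1, hC1, hgl⟩ := gl_sum
  obtain ⟨p₀, hp₀⟩ := exists_nat_ge R₁
  refine ⟨C0 * (2 + 40 * (C * C1 + 8000) + 8) + 1, max (p₀ + 3) 3000, by
    have : 0 ≤ C0 * (2 + 40 * (C * C1 + 8000) + 8) := by
      have : 0 ≤ C * C1 := by nlinarith
      positivity
    linarith, ?_⟩
  intro p hp H hH hH1 hH2 hH3 f hf1 hf2 hS R hR1 hR2 c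
  have hpa : p₀ + 3 ≤ p := (le_max_left _ _).trans hp
  have hpb : 3000 ≤ p := (le_max_right _ _).trans hp
  have hpr : (3000 : ℝ) ≤ p := by exact_mod_cast hpb
  have hp1 : (1 : ℝ) ≤ p := by linarith
  -- R is large
  have hRp : R₁ ≤ R := by
    have h1 : (p : ℝ) < 2 ^ p := by exact_mod_cast Nat.lt_two_pow_self
    have h2 : ((p - 1 : ℕ) : ℝ) < 2 ^ (p - 1) := by exact_mod_cast Nat.lt_two_pow_self
    have h3 : (2 : ℝ) ^ p = 2 * 2 ^ (p - 1) := by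
      rw [← pow_succ']
      congr 1
      omega
    have h4 : (p₀ : ℝ) ≤ ((p - 1 : ℕ) : ℝ) := by
      have : p₀ ≤ p - 1 := by omega
      exact_mod_cast this
    rw [h3] at hR1
    linarith
  have hR0 : 1 ≤ R := hR₁.trans hRp
  have h2p : (2 : ℝ) ^ p = (2 : ℝ) ^ (p : ℝ) := (Real.rpow_natCast 2 p).symm
  -- the number of blocks
  obtain ⟨n1, hn1⟩ : ∃ n1 : ℕ, n1 = ⌈(1 / 2 + 1 / 2000 : ℝ) * (p + 2)⌉₊ := ⟨_, rfl⟩
  have hn1a : (1 / 2 + 1 / 2000 : ℝ) * (p + 2) ≤ n1 := by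
    rw [hn1]
    exact Nat.le_ceil _
  have hn1b : (n1 : ℝ) < (1 / 2 + 1 / 2000 : ℝ) * (p + 2) + 1 := by
    rw [hn1]
    exact Nat.ceil_lt_add_one (by positivity)
  have hn1c : ∀ n : ℕ, n < n1 → (n : ℝ) ≤ (1 / 2 + 1 / 1000) * p := by
    intro n hn
    rw [hn1, Nat.lt_ceil] at hn
    linarith
  have hn1d : (n1 : ℝ) ≤ 2 * p := by linarith
  have hRn : R ^ ((1 / 2 + 1 / 4000 : ℝ) + 1 / 4000) ≤ 2 ^ n1 := by
    have h1 : R ^ ((1 / 2 + 1 / 4000 : ℝ) + 1 / 4000) ≤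
        ((2 : ℝ) ^ ((p : ℝ) + 2)) ^ ((1 / 2 + 1 / 4000 : ℝ) + 1 / 4000) := by
      refine Real.rpow_le_rpow (by linarith) ?_ (by norm_num)
      rw [Real.rpow_add (by norm_num), ← h2p]
      norm_num
      linarith
    refine h1.trans ?_
    rw [← Real.rpow_mul (by norm_num), ← Real.rpow_natCast 2 n1]
    refine Real.rpow_le_rpow_of_exponent_le (by norm_num) ?_
    linarith
  have key := hmain H hH hH1 hH2 hH3 f hf1 hf2 R hRp n1 hRn (fun n _ => gg C n p)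
    (fun n _ => integrableOn_const (by simp)) (fun n hn α hα' r hr c' => by
      have e1 : LS f (hom (ga H α)) (wr H α) 1 (2 ^ n) r c' = SS H f α r c' 1 (2 ^ n) := by
        rw [SS_eq]
        rfl
      have e2 : LS f (hom (ga H α)) (fun _ => 1) 2 (2 ^ n) r c' = SS H f α r c' 2 (2 ^ n) := by
        rw [SS_eq]
        rfl
      have ha : |α| ≤ 1 := abs_le.2 ⟨hα'.1, hα'.2⟩
      have hr1 : 2 ^ p / 4 ≤ r := by linarith [hr.1]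
      have hr2 : r ≤ 16 * 2 ^ p := by linarith [hr.2]
      rw [e1, e2]
      exact ⟨hS n (hn1c n hn) α r c' 1 ha hr1 hr2 (Or.inl rfl),
        hS n (hn1c n hn) α r c' 2 ha hr1 hr2 (Or.inr rfl)⟩) R ⟨le_rfl, by linarith⟩ c
  refine key.trans ?_
  -- the powers of R
  have hX0 : (0 : ℝ) < (2 : ℝ) ^ (p / 2 : ℝ) := by positivity
  have hX1 : (1 : ℝ) ≤ (2 : ℝ) ^ (p / 2 : ℝ) := Real.one_le_rpow (by norm_num) (by positivity)
  have hRh : R ^ (1 / 2 : ℝ) ≤ 2 * (2 : ℝ) ^ (p / 2 : ℝ) := by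
    have h1 : R ^ (1 / 2 : ℝ) ≤ ((2 : ℝ) ^ ((p : ℝ) + 2)) ^ (1 / 2 : ℝ) := by
      refine Real.rpow_le_rpow (by linarith) ?_ (by norm_num)
      rw [Real.rpow_add (by norm_num), ← h2p]
      norm_num
      linarith
    refine h1.trans (le_of_eq ?_)
    rw [← Real.rpow_mul (by norm_num), show ((p : ℝ) + 2) * (1 / 2) = 1 + p / 2 by ring,
      Real.rpow_add (by norm_num), Real.rpow_one]
  have hRt : R ^ (1 - (1 / 2 + 1 / 4000) : ℝ) ≤ 2 * (2 : ℝ) ^ (p / 2 : ℝ) :=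
    (Real.rpow_le_rpow_of_exponent_le hR0 (by norm_num)).trans hRh
  have hRh0 : 0 ≤ R ^ (1 / 2 : ℝ) := Real.rpow_nonneg (by linarith) _
  have hq : (1 : ℝ) ≤ (p : ℝ) ^ (1 / 4 : ℝ) := Real.one_le_rpow hp1 (by norm_num)
  -- one block
  have hblk : ∀ n : ℕ, R ^ (1 / 2 : ℝ) * ((2 ^ n : ℕ) : ℝ) ^ (-(3 / 2) : ℝ) *
      (∫ α in Icc (-(1 : ℝ)) 1, k0 (1 / sqrt (R * (2 ^ n : ℕ))) α * gg C n p) ≤
      20 * (R ^ (1 / 2 : ℝ) * ((2 : ℝ) ^ (-(3 / 2) * n : ℝ) * gg C n p)) := by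
    intro n
    have hβ : 0 < 1 / sqrt (R * (2 ^ n : ℕ)) := by
      have : (0 : ℝ) < R * (2 ^ n : ℕ) := by
        have : (0 : ℝ) < ((2 ^ n : ℕ) : ℝ) := by positivity
        exact mul_pos (by linarith) this
      exact div_pos one_pos (Real.sqrt_pos.2 this)
    have h1 := k0_mass_h5 zero_lt_one hα hβ
    have h2 : ((2 ^ n : ℕ) : ℝ) ^ (-(3 / 2) : ℝ) = (2 : ℝ) ^ (-(3 / 2) * n : ℝ) := by
      rw [Nat.cast_pow, Nat.cast_ofNat, ← Real.rpow_natCast, ← Real.rpow_mul (by norm_num)]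
      congr 1
      ring
    rw [integral_mul_const, h2]
    have h3 := mul_le_mul_of_nonneg_right h1 (gg_nn_h5 hC n p)
    have h4 := mul_le_mul_of_nonneg_left h3 (mul_nonneg hRh0
      (by positivity : (0 : ℝ) ≤ (2 : ℝ) ^ (-(3 / 2) * n : ℝ)))
    linarith
  have hsum : ∑ n ∈ Finset.range n1, (R ^ (1 / 2 : ℝ) * ((2 ^ n : ℕ) : ℝ) ^ (-(3 / 2) : ℝ) *
      (∫ α in Icc (-(1 : ℝ)) 1, k0 (1 / sqrt (R * (2 ^ n : ℕ))) α * gg C n p) + 1) ≤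
      20 * (R ^ (1 / 2 : ℝ) * ((C * C1 + 8000) * (p : ℝ) ^ (1 / 4 : ℝ))) + n1 := by
    calc _ ≤ ∑ n ∈ Finset.range n1,
          (20 * (R ^ (1 / 2 : ℝ) * ((2 : ℝ) ^ (-(3 / 2) * n : ℝ) * gg C n p)) + 1) :=
          Finset.sum_le_sum fun n _ => by linarith [hblk n]
      _ = 20 * (R ^ (1 / 2 : ℝ) * ∑ n ∈ Finset.range n1,
          (2 : ℝ) ^ (-(3 / 2) * n : ℝ) * gg C n p) + n1 := by
          rw [Finset.sum_add_distrib, ← Finset.mul_sum, ← Finset.mul_sum, Finset.sum_const,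
            Finset.card_range, nsmul_eq_mul, mul_one]
      _ ≤ _ := by
          have h1 := gsum_h5 (C1 := C1) hC (by omega : 1 ≤ p) (hgl p n1 (by omega)) hn1d
          have h2 := mul_le_mul_of_nonneg_left h1 hRh0
          linarith
  have hpX : (p : ℝ) ≤ 4 * (2 : ℝ) ^ (p / 2 : ℝ) := by
    have := le_two_rpow_h5 (x := (p : ℝ) / 2) (by positivity)
    linarith
  have hK : 0 ≤ C * C1 + 8000 := by
    have : 0 ≤ C * C1 := mul_nonneg (by linarith) (by linarith)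
    linarith
  have hfin : R ^ (1 - (1 / 2 + 1 / 4000) : ℝ) +
      ∑ n ∈ Finset.range n1, (R ^ (1 / 2 : ℝ) * ((2 ^ n : ℕ) : ℝ) ^ (-(3 / 2) : ℝ) *
      (∫ α in Icc (-(1 : ℝ)) 1, k0 (1 / sqrt (R * (2 ^ n : ℕ))) α * gg C n p) + 1) ≤
      (2 + 40 * (C * C1 + 8000) + 8) * ((2 : ℝ) ^ (p / 2 : ℝ) * (p : ℝ) ^ (1 / 4 : ℝ)) := by
    have hY : (2 : ℝ) ^ (p / 2 : ℝ) ≤ (2 : ℝ) ^ (p / 2 : ℝ) * (p : ℝ) ^ (1 / 4 : ℝ) :=
      le_mul_of_one_le_right hX0.le hq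
    have h1 : R ^ (1 / 2 : ℝ) * ((C * C1 + 8000) * (p : ℝ) ^ (1 / 4 : ℝ)) ≤
        2 * (2 : ℝ) ^ (p / 2 : ℝ) * ((C * C1 + 8000) * (p : ℝ) ^ (1 / 4 : ℝ)) :=
      mul_le_mul_of_nonneg_right hRh (mul_nonneg hK (by linarith))
    have h2 : (n1 : ℝ) ≤ 8 * (2 : ℝ) ^ (p / 2 : ℝ) := by linarith
    linarith
  have h5 := mul_le_mul_of_nonneg_left hfin hC0.le
  have h6 : 0 ≤ (2 : ℝ) ^ (p / 2 : ℝ) * (p : ℝ) ^ (1 / 4 : ℝ) := by positivity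
  refine h5.trans ?_
  linarith

end Pool.Agent.Helper93.AO
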