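import Pool.Agent.Helper93.AO.High
import Pool.Agent.Helper93.AO.Low
import Pool.Agent.Helper93.AO.Lip
import Pool.Agent.Helper93.AO.NetG

/-!
# AO-UNIF: almost surely the bounds hold on the whole parameter space, at the scale `2^p` for the base function `G p`

Fix `M` (countably many: `M ∈ ℕ`, `Fb` is monotone in `M`). `X = 2^p`, `n ≤ (1/2 + 1/1000) p`, `HB (K 4^p + B₁) (Hx (G p) τ ω)` (`hx_hb`), `d = 2^(-8p)/C` so that `ss_lip` gives an error `≤ 1/2` (`C B² X N⁴ d`, `B² ≤ C 16^p`, `N⁴ ≤ 2^(2.004 p)`: total `2^(7.004 p)`),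
net with `≤ C' 2^(65 p)` points (`net_ex`), `i ∈ {1, 2}`, `n ≤ p`. Bad events: at a net point `high_pt` or `low_pt` (with `D = 68`) fails. The probabilities sum over `n`, `i`, net points and `p` to a finite number;
Borel-Cantelli (`measure_limsup_atTop_eq_zero` or `ae_finite_setOf_mem`, with `(PP ν).real`). Off the bad events: at `q ∈ PD` take `q' ∈ S`: `‖SS q‖ ≤ ‖SS q'‖ + 1/2`, `1/2 ≤ gl n p` and `1/2 ≤ 2^(3n/2 - p/1000)` for `n ≥ p/50`, `p` large.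
Centres: `ss_per`, reduce modulo 1. Measurability of the events: `tm_meas`, or use outer measure only (`measure_biUnion_finset_le` does not need it). Both `n ≤ p/50` and `n ≥ p/50` are covered (`gg` is an `if`).
-/

open MeasureTheory Real Set Filter Topology

set_option autoImplicit false

namespace Pool.Agent.Helper93.AO

open Pool.Agent.Helper22.AE (ee rho)
open Pool.Agent.Helper22.AC (ga)
open Pool.Agent.Helper92.GC (dt sqa)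
open Pool.Agent.Helper22.LP (Fr fk fdet nr tr hom LS wr Hf)
open Pool.Agent.Helper92.LA (Fb)

/-- a threshold: the exponential beats every power of two -/
private lemma exp63 : ∃ p₁ : ℕ, ∀ p : ℕ, p₁ ≤ p → Real.exp (-(2 : ℝ) ^ (p / 1000 : ℝ)) ≤ ((2 : ℝ) ^ (68 * p))⁻¹ := by
  have h1 : Tendsto (fun x : ℝ => x ^ 1 * Real.exp (-x)) atTop (𝓝 0) := Real.tendsto_pow_mul_exp_neg_atTop_nhds_zero 1
  have hl : 0 < Real.log 2 := Real.log_pos (by norm_num)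
  have h2 : Tendsto (fun p : ℕ => (p : ℝ) / 1000 * Real.log 2) atTop atTop := by
    refine Tendsto.atTop_mul_const hl ?_
    exact Tendsto.atTop_div_const (by norm_num) tendsto_natCast_atTop_atTop
  have h3 := (h1.comp h2).eventually (gt_mem_nhds (show (0 : ℝ) < 1 / 68000 by norm_num))
  obtain ⟨p₁, hp₁⟩ := eventually_atTop.mp h3
  refine ⟨p₁, fun p hp => ?_⟩
  have h4 := hp₁ p hp
  simp only [Function.comp, pow_one] at h4
  -- `x e^{-x} < 1 / 68000`, `x = p log 2 / 1000`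
  set x : ℝ := (p : ℝ) / 1000 * Real.log 2 with hx
  have h5 : 68000 * x ≤ Real.exp x := by
    rw [Real.exp_neg, ← div_eq_mul_inv, div_lt_iff₀ (Real.exp_pos x)] at h4
    linarith
  have h6 : (2 : ℝ) ^ (p / 1000 : ℝ) = Real.exp x := by
    rw [Real.rpow_def_of_pos (by norm_num : (0 : ℝ) < 2)]
    congr 1
    rw [hx]
    ring
  have h7 : ((2 : ℝ) ^ (68 * p))⁻¹ = Real.exp (-(68 * p * Real.log 2)) := by
    rw [Real.exp_neg]
    congr 1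
    have : (68 * p * Real.log 2 : ℝ) = ((68 * p : ℕ) : ℝ) * Real.log 2 := by push_cast; ring
    rw [this, Real.exp_nat_mul, Real.exp_log (by norm_num)]
  rw [h6, h7]
  refine Real.exp_le_exp.mpr ?_
  have h8 : 68000 * x = 68 * p * Real.log 2 := by
    rw [hx]
    ring
  linarith

private lemma fb_mono63 {M M' : ℝ} (h : M ≤ M') {f : Fr} (hf : Fb M f) : Fb M' f := by
  refine ⟨hf.a.trans h, hf.b.trans h, hf.c.trans h, hf.d.trans h, hf.det.trans ?_⟩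
  exact mul_le_mul_of_nonneg_right h (abs_nonneg _)

private lemma gl_one63 {n p : ℕ} (hp : 1 ≤ p) : 1 ≤ gl n p := by
  unfold gl
  have h1 : ∀ j ∈ Finset.range (n + 1), 0 ≤ min ((4 : ℝ) ^ n / 2 ^ j) (2 ^ n * sqrt p) := fun j _ =>
    le_min (by positivity) (by positivity)
  refine le_trans ?_ (Finset.single_le_sum h1 (Finset.mem_range.mpr (Nat.succ_pos n)))
  rw [pow_zero, div_one]
  refine le_min (one_le_pow₀ (by norm_num)) ?_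
  have h2 : (1 : ℝ) ≤ sqrt p := by
    rw [Real.one_le_sqrt]
    exact_mod_cast hp
  have h3 : (1 : ℝ) ≤ 2 ^ n := one_le_pow₀ (by norm_num)
  nlinarith

private lemma err63 {Cl K B₁ : ℝ} (hCl : 1 ≤ Cl) (hK : 1 ≤ K) (hB₁ : 0 ≤ B₁) {n p : ℕ} (hn4 : n * 4 ≤ 3 * p) :
    Cl * (K * 4 ^ p + B₁) ^ 2 * 2 ^ p * ((2 ^ n : ℕ) : ℝ) ^ 4 * (((2 : ℝ) ^ (8 * p))⁻¹ / (2 * Cl * (K + B₁) ^ 2)) ≤ 1 / 2 := by
  have h4p : (1 : ℝ) ≤ 4 ^ p := one_le_pow₀ (by norm_num)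
  have hK0 : 0 < K := by linarith
  have g1 : K * 4 ^ p + B₁ ≤ (K + B₁) * 4 ^ p := by nlinarith
  have g0 : 0 ≤ K * 4 ^ p + B₁ := by positivity
  have g2 : (K * 4 ^ p + B₁) ^ 2 ≤ (K + B₁) ^ 2 * 16 ^ p := by
    calc (K * 4 ^ p + B₁) ^ 2 ≤ ((K + B₁) * 4 ^ p) ^ 2 := pow_le_pow_left₀ g0 g1 2
      _ = (K + B₁) ^ 2 * 16 ^ p := by
        rw [mul_pow, ← pow_mul, mul_comm p 2, pow_mul]
        norm_num
  have g3 : ((2 ^ n : ℕ) : ℝ) ^ 4 ≤ 2 ^ (3 * p) := by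
    push_cast
    rw [← pow_mul]
    exact pow_le_pow_right₀ (by norm_num) hn4
  have g4 : (16 : ℝ) ^ p * 2 ^ p * 2 ^ (3 * p) = 2 ^ (8 * p) := by
    have : (16 : ℝ) = 2 ^ 4 := by norm_num
    rw [this, ← pow_mul, ← pow_add, ← pow_add]
    congr 1
    ring
  have g5 : 0 < K + B₁ := by linarith
  have g6 : Cl * (K * 4 ^ p + B₁) ^ 2 * 2 ^ p * ((2 ^ n : ℕ) : ℝ) ^ 4 ≤ Cl * ((K + B₁) ^ 2 * 16 ^ p) * 2 ^ p * 2 ^ (3 * p) := by
    have h1 : Cl * (K * 4 ^ p + B₁) ^ 2 * 2 ^ p ≤ Cl * ((K + B₁) ^ 2 * 16 ^ p) * 2 ^ p :=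
      mul_le_mul_of_nonneg_right (mul_le_mul_of_nonneg_left g2 (by linarith)) (by positivity)
    exact mul_le_mul h1 g3 (by positivity) (by positivity)
  have g7 : Cl * ((K + B₁) ^ 2 * 16 ^ p) * 2 ^ p * 2 ^ (3 * p) = Cl * (K + B₁) ^ 2 * 2 ^ (8 * p) := by
    rw [← g4]
    ring
  rw [g7] at g6
  have g8 : 0 < ((2 : ℝ) ^ (8 * p))⁻¹ / (2 * Cl * (K + B₁) ^ 2) := by positivity
  calc _ ≤ Cl * (K + B₁) ^ 2 * 2 ^ (8 * p) * (((2 : ℝ) ^ (8 * p))⁻¹ / (2 * Cl * (K + B₁) ^ 2)) :=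
        mul_le_mul_of_nonneg_right g6 g8.le
    _ = 1 / 2 := by
      have h1 : Cl * (K + B₁) ^ 2 ≠ 0 := by positivity
      have h2 : (2 : ℝ) ^ (8 * p) ≠ 0 := by positivity
      field_simp

/-- the exceptional set at one point of the parameter space -/
private def Ev63 (G : ℕ → ℝ → ℝ) (τ C : ℝ) (p n i : ℕ) (q : Fr × ℝ × ℝ × (ℝ × ℝ)) : Set Om :=
  {ω | ((n : ℝ) ≤ p / 50 ∧ C * gl n p ≤ ‖SS (Hx (G p) τ ω) q.1 q.2.1 q.2.2.1 q.2.2.2 i (2 ^ n)‖) ∨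
    ((p : ℝ) / 50 ≤ n ∧ (n : ℝ) ≤ (1 / 2 + 1 / 1000) * p ∧
      (2 : ℝ) ^ (3 / 2 * n - p / 1000 : ℝ) ≤ ‖SS (Hx (G p) τ ω) q.1 q.2.1 q.2.2.1 q.2.2.2 i (2 ^ n)‖)}

/-- the statement for one `M` -/
private lemma one_M63 {ν : Measure J1} [IsProbabilityMeasure ν] (hν : Rapid ν) {τ : ℝ} (hτ : τ ≠ 0) {K : ℝ} (hK : 1 ≤ K) {G : ℕ → ℝ → ℝ}
    (hG : ∀ p : ℕ, HB (K * 4 ^ p) (G p)) (hr : ∀ p t, |rho (G p) t| ≤ K) {M : ℝ} (hM : 1 ≤ M) :
    ∃ C : ℝ, 1 ≤ C ∧ ∀ᵐ ω ∂(PP ν), ∃ p₀ : ℕ, ∀ p : ℕ, p₀ ≤ p → ∀ n : ℕ, (n : ℝ) ≤ (1 / 2 + 1 / 1000) * p → ∀ f : Fr, Fb M f →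
      ∀ (α r : ℝ) (c : ℝ × ℝ) (i : ℕ), |α| ≤ 1 → 2 ^ p / 4 ≤ r → r ≤ 16 * 2 ^ p → i = 1 ∨ i = 2 →
        ‖SS (Hx (G p) τ ω) f α r c i (2 ^ n)‖ ≤ gg C n p := by
  classical
  obtain ⟨pH, hH⟩ := high_pt hν hτ K hM
  obtain ⟨CL, pL, hCL, hL⟩ := low_pt hν hτ K hM (show (0 : ℝ) < 68 by norm_num)
  obtain ⟨p₁, hexp⟩ := exp63
  obtain ⟨B₁, hB₁, hhb⟩ := hx_hb τ
  obtain ⟨Cl, hCl, hlip⟩ := ss_lip hM
  obtain ⟨Cn, hCn, hnet⟩ := net_ex hM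
  have hK0 : 0 < K := by linarith
  -- the mesh
  set Cd : ℝ := 2 * Cl * (K + B₁) ^ 2 with hCd
  have hKB : 1 ≤ K + B₁ := by linarith
  have hCd2 : 2 ≤ Cd := by
    have h1 : (1 : ℝ) ≤ (K + B₁) ^ 2 := one_le_pow₀ hKB
    have h2 : (1 : ℝ) ≤ Cl * (K + B₁) ^ 2 := by nlinarith
    rw [hCd]
    linarith
  have hCd0 : 0 < Cd := by linarith
  set d : ℕ → ℝ := fun p => ((2 : ℝ) ^ (8 * p))⁻¹ / Cd with hd
  have hd0 : ∀ p, 0 < d p := fun p => by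
    simp only [hd]
    positivity
  have hd1 : ∀ p, d p ≤ 1 := fun p => by
    simp only [hd]
    have h1 : ((2 : ℝ) ^ (8 * p))⁻¹ ≤ 1 := inv_le_one_of_one_le₀ (one_le_pow₀ (by norm_num))
    rw [div_le_one hCd0]
    linarith
  -- the nets
  have hnets : ∀ p : ℕ, ∃ S : Finset (Fr × ℝ × ℝ × (ℝ × ℝ)), 1 ≤ p →
      ((S.card : ℝ) ≤ 8 * Cn * Cd ^ 8 * 2 ^ (65 * p) ∧
        (∀ q ∈ S, Fb M q.1 ∧ |q.2.1| ≤ 1 ∧ 2 ^ p / 4 ≤ q.2.2.1 ∧ q.2.2.1 ≤ 16 * 2 ^ p) ∧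
        ∀ q : Fr × ℝ × ℝ × (ℝ × ℝ), Fb M q.1 → |q.2.1| ≤ 1 → 2 ^ p / 4 ≤ q.2.2.1 → q.2.2.1 ≤ 16 * 2 ^ p →
          q.2.2.2.1 ∈ Icc (0 : ℝ) 1 → q.2.2.2.2 ∈ Icc (0 : ℝ) 1 → ∃ q' ∈ S, near (d p) q q') := by
    intro p
    by_cases hp : 1 ≤ p
    · have h2p : (2 : ℝ) ≤ 2 ^ p := by
        calc (2 : ℝ) = 2 ^ 1 := (pow_one 2).symm
          _ ≤ 2 ^ p := pow_le_pow_right₀ (by norm_num) hp
      obtain ⟨S₁, a1, a2, a3⟩ := hnet (2 ^ p / 2) (by linarith) (d p) (hd0 p) (hd1 p)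
      obtain ⟨S₂, b1, b2, b3⟩ := hnet (4 * 2 ^ p) (by linarith) (d p) (hd0 p) (hd1 p)
      refine ⟨S₁ ∪ S₂, fun _ => ⟨?_, ?_, ?_⟩⟩
      · have e1 : ((S₁ ∪ S₂).card : ℝ) ≤ S₁.card + S₂.card := by exact_mod_cast Finset.card_union_le _ _
        have e2 : (1 : ℝ) / d p ^ 8 = Cd ^ 8 * 2 ^ (64 * p) := by
          simp only [hd]
          rw [div_pow, inv_pow, ← pow_mul, show 8 * p * 8 = 64 * p by ring]
          field_simp
        have e3 : ∀ X : ℝ, Cn * X / d p ^ 8 = Cn * X * (Cd ^ 8 * 2 ^ (64 * p)) := by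
          intro X
          rw [← e2]
          ring
        rw [e3] at a1 b1
        have e4 : (2 : ℝ) ^ (65 * p) = 2 ^ p * 2 ^ (64 * p) := by
          rw [← pow_add]
          congr 1
          ring
        rw [e4]
        have e5 : 0 ≤ Cn * Cd ^ 8 * (2 ^ p * 2 ^ (64 * p)) := by positivity
        nlinarith
      · intro q hq
        rw [Finset.mem_union] at hq
        rcases hq with hq | hq
        · obtain ⟨c1, c2, c3, c4, -⟩ := a2 q hq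
          exact ⟨c1, c2, by linarith, by linarith⟩
        · obtain ⟨c1, c2, c3, c4, -⟩ := b2 q hq
          exact ⟨c1, c2, by linarith, by linarith⟩
      · intro q h1 h2 h3 h4 h5 h6
        rcases le_total q.2.2.1 (2 * 2 ^ p) with h7 | h7
        · obtain ⟨q', hq', hn⟩ := a3 q ⟨h1, h2, by linarith, by linarith, h5, h6⟩
          exact ⟨q', Finset.mem_union_left _ hq', hn⟩
        · obtain ⟨q', hq', hn⟩ := b3 q ⟨h1, h2, by linarith, by linarith, h5, h6⟩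
          exact ⟨q', Finset.mem_union_right _ hq', hn⟩
    · exact ⟨∅, fun h => absurd h hp⟩
  choose S hS using hnets
  set p₂ : ℕ := max (max pH pL) (max p₁ 1) with hp₂
  have hp₂H : pH ≤ p₂ := (le_max_left _ _).trans (le_max_left _ _)
  have hp₂L : pL ≤ p₂ := (le_max_right _ _).trans (le_max_left _ _)
  have hp₂e : p₁ ≤ p₂ := (le_max_left _ _).trans (le_max_right _ _)
  have hp₂1 : 1 ≤ p₂ := (le_max_right _ _).trans (le_max_right _ _)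
  -- the probability at one point
  have hpt : ∀ p : ℕ, p₂ ≤ p → ∀ n : ℕ, ∀ i : ℕ, i = 1 ∨ i = 2 → ∀ q ∈ S p, (PP ν).real (Ev63 G τ CL p n i q) ≤ 2 * ((2 : ℝ) ^ (68 * p))⁻¹ := by
    intro p hp n i hi q hq
    obtain ⟨h1, h2, h3, h4⟩ := (hS p (hp₂1.trans hp)).2.1 q hq
    have h68 : (2 : ℝ) ^ (-(68 * (p : ℝ))) = ((2 : ℝ) ^ (68 * p))⁻¹ := by
      rw [Real.rpow_neg (by norm_num)]
      congr 1
      rw [← Real.rpow_natCast]
      congr 1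
      push_cast
      ring
    have hsub : Ev63 G τ CL p n i q ⊆
        {ω | (n : ℝ) ≤ p / 50 ∧ CL * gl n p ≤ ‖SS (Hx (G p) τ ω) q.1 q.2.1 q.2.2.1 q.2.2.2 i (2 ^ n)‖} ∪
        {ω | ((p : ℝ) / 50 ≤ n ∧ (n : ℝ) ≤ (1 / 2 + 1 / 1000) * p) ∧
          (2 : ℝ) ^ (3 / 2 * n - p / 1000 : ℝ) ≤ ‖SS (Hx (G p) τ ω) q.1 q.2.1 q.2.2.1 q.2.2.2 i (2 ^ n)‖} := by
      rintro ω (hω | ⟨w1, w2, w3⟩)
      · exact Or.inl hω
      · exact Or.inr ⟨⟨w1, w2⟩, w3⟩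
    refine (measureReal_mono hsub (measure_ne_top _ _)).trans ((measureReal_union_le _ _).trans ?_)
    have hinv : (0 : ℝ) ≤ ((2 : ℝ) ^ (68 * p))⁻¹ := by positivity
    have hA : (PP ν).real {ω | (n : ℝ) ≤ p / 50 ∧ CL * gl n p ≤ ‖SS (Hx (G p) τ ω) q.1 q.2.1 q.2.2.1 q.2.2.2 i (2 ^ n)‖} ≤
        ((2 : ℝ) ^ (68 * p))⁻¹ := by
      by_cases hn : (n : ℝ) ≤ p / 50
      · have := hL (G p) (hG p).smooth (hr p) p (hp₂L.trans hp) n hn q.1 h1 q.2.1 q.2.2.1 q.2.2.2 i h2 h3 h4 hi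
        rw [h68] at this
        simpa only [hn, true_and] using this
      · simp only [hn, false_and, ofPred_false, measureReal_empty]
        exact hinv
    have hB : (PP ν).real {ω | ((p : ℝ) / 50 ≤ n ∧ (n : ℝ) ≤ (1 / 2 + 1 / 1000) * p) ∧
          (2 : ℝ) ^ (3 / 2 * n - p / 1000 : ℝ) ≤ ‖SS (Hx (G p) τ ω) q.1 q.2.1 q.2.2.1 q.2.2.2 i (2 ^ n)‖} ≤
        ((2 : ℝ) ^ (68 * p))⁻¹ := by
      by_cases hn : (p : ℝ) / 50 ≤ n ∧ (n : ℝ) ≤ (1 / 2 + 1 / 1000) * p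
      · have := hH (G p) (hG p).smooth (hr p) p (hp₂H.trans hp) n hn.1 hn.2 q.1 h1 q.2.1 q.2.2.1 q.2.2.2 i h2 h3 h4 hi
        have h5 := this.trans (hexp p (hp₂e.trans hp))
        simpa only [hn, true_and] using h5
      · simp only [hn, false_and, ofPred_false, measureReal_empty]
        exact hinv
    linarith
  -- the bad event at scale `p`
  set T : ℕ → Finset (ℕ × ℕ × (Fr × ℝ × ℝ × (ℝ × ℝ))) := fun p => Finset.range (p + 1) ×ˢ (({1, 2} : Finset ℕ) ×ˢ S p) with hT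
  set Bad : ℕ → Set Om := fun p => if p₂ ≤ p then ⋃ t ∈ T p, Ev63 G τ CL p t.1 t.2.1 t.2.2 else ∅ with hBad
  set K₂ : ℝ := 32 * Cn * Cd ^ 8 with hK₂
  have hK₂0 : 0 ≤ K₂ := by
    rw [hK₂]
    positivity
  have hprob : ∀ p : ℕ, (PP ν) (Bad p) ≤ ENNReal.ofReal (K₂ * (1 / 4) ^ p) := by
    intro p
    by_cases hp : p₂ ≤ p
    · have e1 : (PP ν).real (Bad p) ≤ K₂ * (1 / 4) ^ p := by
        simp only [hBad, if_pos hp]
        refine (measureReal_biUnion_finset_le _ _).trans ?_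
        have e2 : ∑ t ∈ T p, (PP ν).real (Ev63 G τ CL p t.1 t.2.1 t.2.2) ≤ ∑ t ∈ T p, 2 * ((2 : ℝ) ^ (68 * p))⁻¹ := by
          refine Finset.sum_le_sum fun t ht => ?_
          simp only [hT, Finset.mem_product, Finset.mem_range, Finset.mem_insert, Finset.mem_singleton] at ht
          exact hpt p hp t.1 t.2.1 ht.2.1 t.2.2 ht.2.2
        refine e2.trans ?_
        rw [Finset.sum_const, nsmul_eq_mul]
        have e3 : ((T p).card : ℝ) = (p + 1) * (2 * (S p).card) := by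
          simp only [hT, Finset.card_product, Finset.card_range]
          have : ({1, 2} : Finset ℕ).card = 2 := rfl
          rw [this]
          push_cast
          ring
        rw [e3]
        have e4 := (hS p (hp₂1.trans hp)).1
        have e5 : ((p : ℝ) + 1) ≤ 2 ^ p := by
          have : p + 1 ≤ 2 ^ p := Nat.lt_two_pow_self
          exact_mod_cast this
        have e6 : (1 / 4 : ℝ) ^ p = 2 ^ p * 2 ^ (65 * p) * ((2 : ℝ) ^ (68 * p))⁻¹ := by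
          rw [← pow_add, show p + 65 * p = 66 * p by ring, show 68 * p = 66 * p + 2 * p by ring, pow_add, mul_inv, ← mul_assoc,
            mul_inv_cancel₀ (by positivity), one_mul, pow_mul, one_div, inv_pow]
          norm_num
        rw [e6, hK₂]
        have e7 : ((p : ℝ) + 1) * (2 * (S p).card) ≤ 2 ^ p * (2 * (8 * Cn * Cd ^ 8 * 2 ^ (65 * p))) := by
          gcongr
        calc ((p : ℝ) + 1) * (2 * (S p).card) * (2 * ((2 : ℝ) ^ (68 * p))⁻¹)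
            ≤ 2 ^ p * (2 * (8 * Cn * Cd ^ 8 * 2 ^ (65 * p))) * (2 * ((2 : ℝ) ^ (68 * p))⁻¹) := by gcongr
          _ = 32 * Cn * Cd ^ 8 * (2 ^ p * 2 ^ (65 * p) * ((2 : ℝ) ^ (68 * p))⁻¹) := by ring
      rw [← ofReal_measureReal]
      exact ENNReal.ofReal_le_ofReal e1
    · simp only [hBad, if_neg hp, measure_empty]
      exact zero_le
  have hsum : ∑' p, (PP ν) (Bad p) ≠ ⊤ := by
    have h1 : Summable fun p : ℕ => K₂ * (1 / 4 : ℝ) ^ p := (summable_geometric_of_lt_one (by norm_num) (by norm_num)).mul_left K₂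
    exact ne_top_of_le_ne_top h1.tsum_ofReal_ne_top (ENNReal.tsum_le_tsum hprob)
  have hae := ae_eventually_notMem hsum
  refine ⟨CL + 1, by linarith, ?_⟩
  filter_upwards [hae] with ω hω
  obtain ⟨p₃, hp₃⟩ := eventually_atTop.mp hω
  refine ⟨max p₂ p₃, ?_⟩
  intro p hp n hn f hf α r c i hα hr1 hr2 hi
  have hpp₂ : p₂ ≤ p := (le_max_left _ _).trans hp
  have hp1 : 1 ≤ p := hp₂1.trans hpp₂
  have hnot := hp₃ p ((le_max_right _ _).trans hp)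
  simp only [hBad, if_pos hpp₂] at hnot
  have hp1' : (1 : ℝ) ≤ p := by exact_mod_cast hp1
  -- `n ≤ p`
  have hnp : n ≤ p := by
    have : (n : ℝ) ≤ p := by nlinarith
    exact_mod_cast this
  -- reduce the centre
  set c' : ℝ × ℝ := (Int.fract c.1, Int.fract c.2) with hc'
  have hcc : SS (Hx (G p) τ ω) f α r c i (2 ^ n) = SS (Hx (G p) τ ω) f α r c' i (2 ^ n) := by
    have h1 := ss_per (Hx (G p) τ ω) f α r c' i (2 ^ n) ⌊c.1⌋ ⌊c.2⌋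
    have h2 : (c'.1 + (⌊c.1⌋ : ℝ), c'.2 + (⌊c.2⌋ : ℝ)) = c := by
      simp only [hc', Int.fract_add_floor]
    rw [h2] at h1
    exact h1
  rw [hcc]
  obtain ⟨q', hq', hnear⟩ := (hS p hp1).2.2 (f, α, r, c') hf hα hr1 hr2
    ⟨Int.fract_nonneg _, (Int.fract_lt_one _).le⟩ ⟨Int.fract_nonneg _, (Int.fract_lt_one _).le⟩
  obtain ⟨w1, w2, w3, w4⟩ := (hS p hp1).2.1 q' hq'
  have hnotq : ω ∉ Ev63 G τ CL p n i q' := by
    intro hcon
    apply hnot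
    rw [mem_iUnion₂]
    refine ⟨(n, i, q'), ?_, hcon⟩
    simp only [hT, Finset.mem_product, Finset.mem_range, Finset.mem_insert, Finset.mem_singleton]
    exact ⟨by omega, hi, hq'⟩
  -- the Lipschitz bound
  have h4p : (1 : ℝ) ≤ 4 ^ p := one_le_pow₀ (by norm_num)
  have hB1 : 1 ≤ K * 4 ^ p + B₁ := by nlinarith
  have h2p : (1 : ℝ) ≤ 2 ^ p := one_le_pow₀ (by norm_num)
  have hr0 : 0 ≤ r := le_trans (by positivity) hr1
  have hq0 : 0 ≤ q'.2.2.1 := le_trans (by positivity) w3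
  obtain ⟨n1, n2, n3, n4, n5, n6, n7, n8⟩ := hnear
  have hdiff := hlip (K * 4 ^ p + B₁) hB1 (Hx (G p) τ ω) (hhb _ _ (hG p) ω) (2 ^ p) h2p (2 ^ n) Nat.one_le_two_pow i hi f q'.1 hf w1
    α q'.2.1 r q'.2.2.1 hα w2 (by rw [abs_of_nonneg hr0]; exact hr2) (by rw [abs_of_nonneg hq0]; exact w4) c' q'.2.2.2 (d p)
    n1 n2 n3 n4 n5 n6 n7 n8
  have hn4 : n * 4 ≤ 3 * p := by
    have : ((n * 4 : ℕ) : ℝ) ≤ ((3 * p : ℕ) : ℝ) := by
      push_cast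
      linarith
    exact_mod_cast this
  have herr := err63 hCl hK hB₁ hn4
  have hle : ‖SS (Hx (G p) τ ω) f α r c' i (2 ^ n)‖ ≤ ‖SS (Hx (G p) τ ω) q'.1 q'.2.1 q'.2.2.1 q'.2.2.2 i (2 ^ n)‖ + 1 / 2 := by
    have h1 := norm_sub_norm_le (SS (Hx (G p) τ ω) f α r c' i (2 ^ n)) (SS (Hx (G p) τ ω) q'.1 q'.2.1 q'.2.2.1 q'.2.2.2 i (2 ^ n))
    linarith
  unfold gg
  have hnotq' := hnotq
  simp only [Ev63, mem_ofPred_eq, not_or, not_and, not_le] at hnotq'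
  split_ifs with hc
  · have h1 := hnotq'.1 hc
    have h2 := gl_one63 (n := n) hp1
    linarith
  · have hc2 : (p : ℝ) / 50 ≤ n := (not_le.mp hc).le
    have h1 := hnotq'.2 hc2 hn
    have h2 : (1 : ℝ) ≤ (2 : ℝ) ^ (3 / 2 * n - p / 1000 : ℝ) := by
      refine Real.one_le_rpow (by norm_num) ?_
      linarith
    linarith

theorem as_unif {ν : Measure J1} [IsProbabilityMeasure ν] (hν : Rapid ν) {τ : ℝ} (hτ : τ ≠ 0) {K : ℝ} (hK : 1 ≤ K) {G : ℕ → ℝ → ℝ} (hG : ∀ p : ℕ, HB (K * 4 ^ p) (G p))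
    (hr : ∀ p t, |rho (G p) t| ≤ K) : ∀ᵐ ω ∂(PP ν), SB fun p => Hx (G p) τ ω := by
  have h1 : ∀ m : ℕ, ∃ C : ℝ, 1 ≤ C ∧ ∀ᵐ ω ∂(PP ν), ∃ p₀ : ℕ, ∀ p : ℕ, p₀ ≤ p → ∀ n : ℕ, (n : ℝ) ≤ (1 / 2 + 1 / 1000) * p → ∀ f : Fr,
      Fb ((m + 1 : ℕ) : ℝ) f → ∀ (α r : ℝ) (c : ℝ × ℝ) (i : ℕ), |α| ≤ 1 → 2 ^ p / 4 ≤ r → r ≤ 16 * 2 ^ p → i = 1 ∨ i = 2 →
        ‖SS (Hx (G p) τ ω) f α r c i (2 ^ n)‖ ≤ gg C n p := fun m =>
    one_M63 hν hτ hK hG hr (by push_cast; linarith [Nat.cast_nonneg (α := ℝ) m])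
  choose C hC hae using h1
  have h2 := ae_all_iff.mpr hae
  filter_upwards [h2] with ω hω M hM
  obtain ⟨p₀, hp₀⟩ := hω ⌈M⌉₊
  refine ⟨C ⌈M⌉₊, p₀, hC _, ?_⟩
  intro p hp n hn f hf α r c i hα hr1 hr2 hi
  refine hp₀ p hp n hn f (fb_mono63 ?_ hf) α r c i hα hr1 hr2 hi
  have := Nat.le_ceil M
  push_cast
  linarith

end Pool.Agent.Helper93.AO
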